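import Mathlib

set_option autoImplicit false

open MeasureTheory Set

namespace Pool.Agent.H100R3.Walsh3

/-- `rr j t = 1` or `-1` according to the parity of the integer part of `3 * 2 ^ (j+1) * t`. -/
noncomputable def rr (j : ℕ) (t : ℝ) : ℝ := if Even ⌊3 * (2:ℝ) ^ (j + 1) * t⌋ then 1 else -1

noncomputable def ww (A : Finset ℕ) (t : ℝ) : ℝ := ∏ j ∈ A, rr j t

lemma rr_sq (j : ℕ) (t : ℝ) : rr j t * rr j t = 1 := by
  unfold rr; split_ifs <;> norm_num

lemma rr_abs (j : ℕ) (t : ℝ) : |rr j t| = 1 := by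
  unfold rr; split_ifs <;> norm_num

lemma ww_abs (A : Finset ℕ) (t : ℝ) : |ww A t| = 1 := by
  unfold ww
  rw [Finset.abs_prod]
  exact Finset.prod_eq_one fun j _ => rr_abs j t

lemma rr_meas (j : ℕ) : Measurable (rr j) := by
  have h1 : Measurable fun x : ℝ => ⌊3 * (2:ℝ) ^ (j + 1) * x⌋ :=
    Int.measurable_floor.comp (measurable_const_mul _)
  exact (Measurable.of_discrete (f := fun n : ℤ => if Even n then (1:ℝ) else -1)).comp h1

lemma ww_meas (A : Finset ℕ) : Measurable (ww A) := by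
  unfold ww
  exact Finset.measurable_prod _ fun j _ => rr_meas j

lemma rr_shift_even {j : ℕ} {τ : ℝ} {m : ℤ} (h : 3 * (2:ℝ) ^ (j + 1) * τ = 2 * m) (t : ℝ) :
    rr j (t + τ) = rr j t := by
  unfold rr
  have : 3 * (2:ℝ) ^ (j + 1) * (t + τ) = 3 * (2:ℝ) ^ (j + 1) * t + ((2 * m : ℤ) : ℝ) := by
    push_cast; rw [mul_add, h]
  rw [this, Int.floor_add_intCast]
  have : Even (⌊3 * (2:ℝ) ^ (j + 1) * t⌋ + 2 * m) ↔ Even ⌊3 * (2:ℝ) ^ (j + 1) * t⌋ := by
    rw [Int.even_add]; simp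
  simp only [this]

lemma rr_shift_self (j : ℕ) (t : ℝ) : rr j (t + 1 / (3 * 2 ^ (j + 1))) = - rr j t := by
  unfold rr
  have : 3 * (2:ℝ) ^ (j + 1) * (t + 1 / (3 * 2 ^ (j + 1))) = 3 * (2:ℝ) ^ (j + 1) * t + 1 := by
    field_simp
  rw [this, Int.floor_add_one]
  have : Even (⌊3 * (2:ℝ) ^ (j + 1) * t⌋ + 1) ↔ ¬ Even ⌊3 * (2:ℝ) ^ (j + 1) * t⌋ := by
    rw [Int.even_add_one]
  simp only [this]
  split_ifs <;> simp_all

lemma rr_shift_gt {i j : ℕ} (h : j < i) (t : ℝ) : rr i (t + 1 / (3 * 2 ^ (j + 1))) = rr i t := by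
  refine rr_shift_even (m := 2 ^ (i - j - 1)) ?_ t
  obtain ⟨k, rfl⟩ := Nat.exists_eq_add_of_lt h
  have : j + k + 1 - j - 1 = k := by omega
  rw [this]
  push_cast
  field_simp
  ring

lemma rr_third (j : ℕ) (t : ℝ) : rr j (t + 1 / 3) = rr j t := by
  refine rr_shift_even (m := 2 ^ j) ?_ t
  push_cast; ring

lemma ww_third (A : Finset ℕ) (t : ℝ) : ww A (t + 1 / 3) = ww A t := by
  unfold ww; exact Finset.prod_congr rfl fun j _ => rr_third j t

lemma ww_one (A : Finset ℕ) (t : ℝ) : ww A (t + 1) = ww A t := by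
  have e : t + 1 = t + 1 / 3 + 1 / 3 + 1 / 3 := by ring
  rw [e, ww_third, ww_third, ww_third]

lemma ww_mul (A B : Finset ℕ) (t : ℝ) : ww A t * ww B t = ww (symmDiff A B) t := by
  unfold ww
  have h1 : ∏ j ∈ A, rr j t = (∏ j ∈ A \ B, rr j t) * ∏ j ∈ A ∩ B, rr j t := by
    rw [← Finset.prod_union (Finset.disjoint_sdiff_inter A B), Finset.sdiff_union_inter]
  have h2 : ∏ j ∈ B, rr j t = (∏ j ∈ B \ A, rr j t) * ∏ j ∈ A ∩ B, rr j t := by
    rw [Finset.inter_comm, ← Finset.prod_union (Finset.disjoint_sdiff_inter B A),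
      Finset.sdiff_union_inter]
  have h3 : (∏ j ∈ A ∩ B, rr j t) * ∏ j ∈ A ∩ B, rr j t = 1 := by
    rw [← Finset.prod_mul_distrib]
    exact Finset.prod_eq_one fun j _ => rr_sq j t
  have h4 : ∏ j ∈ symmDiff A B, rr j t = (∏ j ∈ A \ B, rr j t) * ∏ j ∈ B \ A, rr j t := by
    rw [symmDiff_def, Finset.sup_eq_union, Finset.prod_union]
    exact Finset.disjoint_left.2 fun x hx hx' => by
      simp only [Finset.mem_sdiff] at hx hx'; exact hx.2 hx'.1
  rw [h1, h2, h4]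
  calc _ = ((∏ j ∈ A \ B, rr j t) * ∏ j ∈ B \ A, rr j t) *
        ((∏ j ∈ A ∩ B, rr j t) * ∏ j ∈ A ∩ B, rr j t) := by ring
    _ = _ := by rw [h3, mul_one]

lemma ww_shift_min {A : Finset ℕ} (hA : A.Nonempty) (t : ℝ) :
    ww A (t + 1 / (3 * 2 ^ (A.min' hA + 1))) = - ww A t := by
  unfold ww
  rw [← Finset.mul_prod_erase A _ (A.min'_mem hA), ← Finset.mul_prod_erase A _ (A.min'_mem hA),
    rr_shift_self, neg_mul]
  congr 2
  refine Finset.prod_congr rfl fun i hi => ?_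
  exact rr_shift_gt (Finset.min'_lt_of_mem_erase_min' A hA hi) t

lemma ww_ii (A : Finset ℕ) (a b : ℝ) : IntervalIntegrable (ww A) volume a b := by
  rw [intervalIntegrable_iff]
  refine Measure.integrableOn_of_bounded (M := 1) (by simp [uIoc])
    (ww_meas A).aestronglyMeasurable (ae_of_all _ fun x => ?_)
  rw [Real.norm_eq_abs, ww_abs]

lemma ww_int_period (A : Finset ℕ) (hA : A.Nonempty) (a : ℝ) :
    ∫ t in a..(a + 1 / 3), ww A t = 0 := by
  have hper : Function.Periodic (ww A) (1 / 3) := ww_third A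
  set τ : ℝ := 1 / (3 * 2 ^ (A.min' hA + 1)) with hτ
  have h1 : ∫ t in a..(a + 1 / 3), ww A t = ∫ t in (a + τ)..(a + τ + 1 / 3), ww A t :=
    hper.intervalIntegral_add_eq a (a + τ)
  have h2 : ∫ t in (a + τ)..(a + τ + 1 / 3), ww A t = ∫ t in a..(a + 1 / 3), ww A (t + τ) := by
    rw [intervalIntegral.integral_comp_add_right]
    congr 1; ring
  have h3 : ∫ t in a..(a + 1 / 3), ww A (t + τ) = - ∫ t in a..(a + 1 / 3), ww A t := by
    rw [← intervalIntegral.integral_neg]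
    exact intervalIntegral.integral_congr fun t _ => ww_shift_min hA t
  linarith

lemma ww_int_one (A : Finset ℕ) (hA : A.Nonempty) : ∫ t in (0:ℝ)..1, ww A t = 0 := by
  have h1 := ww_int_period A hA 0
  have h2 := ww_int_period A hA (1/3)
  have h3 := ww_int_period A hA (2/3)
  have e1 : (0:ℝ) + 1/3 = 1/3 := by norm_num
  have e2 : (1:ℝ)/3 + 1/3 = 2/3 := by norm_num
  have e3 : (2:ℝ)/3 + 1/3 = 1 := by norm_num
  rw [e1] at h1
  rw [e2] at h2
  rw [e3] at h3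
  have h4 := intervalIntegral.integral_add_adjacent_intervals (ww_ii A 0 (1/3)) (ww_ii A (1/3) (2/3))
  have h5 := intervalIntegral.integral_add_adjacent_intervals (ww_ii A 0 (2/3)) (ww_ii A (2/3) 1)
  linarith

lemma ww_empty (t : ℝ) : ww ∅ t = 1 := by simp [ww]

/-- orthonormality -/
lemma ww_orth (A B : Finset ℕ) :
    ∫ t in Icc (0:ℝ) 1, ww A t * ww B t = if A = B then 1 else 0 := by
  rw [integral_Icc_eq_integral_Ioc, ← intervalIntegral.integral_of_le zero_le_one]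
  simp only [ww_mul]
  split_ifs with h
  · subst h
    simp [ww_empty]
  · apply ww_int_one
    rw [Finset.nonempty_iff_ne_empty, Ne, ← Finset.bot_eq_empty, symmDiff_eq_bot]
    exact h

/-! ### Cells -/

lemma floor_double (y : ℝ) : ⌊2 * y⌋ = 2 * ⌊y⌋ ∨ ⌊2 * y⌋ = 2 * ⌊y⌋ + 1 := by
  have h1 := Int.floor_le y
  have h2 := Int.lt_floor_add_one y
  have h3 : 2 * ⌊y⌋ ≤ ⌊2 * y⌋ := by
    rw [Int.le_floor]; push_cast; linarith
  have h4 : ⌊2 * y⌋ < 2 * ⌊y⌋ + 2 := by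
    rw [Int.floor_lt]; push_cast; linarith
  omega

lemma cell_iff {x t : ℝ} (hxt : ⌊3 * x⌋ = ⌊3 * t⌋) (k : ℕ) :
    (∀ j < k, rr j t = rr j x) ↔ ⌊3 * (2:ℝ) ^ k * t⌋ = ⌊3 * (2:ℝ) ^ k * x⌋ := by
  induction k with
  | zero => simp [hxt]
  | succ k ih =>
    have e1 : ∀ y : ℝ, 3 * (2:ℝ) ^ (k + 1) * y = 2 * (3 * 2 ^ k * y) := fun y => by ring
    have ha := floor_double (3 * 2 ^ k * t)
    have hb := floor_double (3 * 2 ^ k * x)
    rw [← e1] at ha hb
    have hr : rr k t = rr k x ↔ (Even ⌊3 * (2:ℝ) ^ (k + 1) * t⌋ ↔ Even ⌊3 * (2:ℝ) ^ (k + 1) * x⌋) := by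
      unfold rr
      by_cases h1 : Even ⌊3 * (2:ℝ) ^ (k + 1) * t⌋ <;>
        by_cases h2 : Even ⌊3 * (2:ℝ) ^ (k + 1) * x⌋ <;> simp only [h1, h2, if_true, if_false] <;>
        norm_num
    constructor
    · intro h
      have h1 := ih.1 fun j hj => h j (by omega)
      have h2 := hr.1 (h k (by omega))
      rw [Int.even_iff, Int.even_iff] at h2
      omega
    · intro h j hj
      rcases Nat.lt_succ_iff_lt_or_eq.1 hj with h' | rfl
      · exact ih.2 (by omega) j h'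
      · exact hr.2 (by rw [h])

lemma prod_ind (k : ℕ) (x t : ℝ) :
    ∏ j ∈ Finset.range k, (1 + rr j x * rr j t) =
      if (∀ j < k, rr j t = rr j x) then 2 ^ k else 0 := by
  split_ifs with h
  · rw [Finset.prod_congr rfl (g := fun _ => (2:ℝ))]
    · simp
    · intro j hj
      rw [h j (Finset.mem_range.1 hj), rr_sq]; norm_num
  · push Not at h
    obtain ⟨j, hj, hne⟩ := h
    refine Finset.prod_eq_zero (Finset.mem_range.2 hj) ?_
    unfold rr at *
    split_ifs at * <;> simp_all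

lemma prod_expand (k : ℕ) (x t : ℝ) :
    ∏ j ∈ Finset.range k, (1 + rr j x * rr j t) =
      ∑ A ∈ (Finset.range k).powerset, ww A x * ww A t := by
  rw [Finset.prod_one_add]
  refine Finset.sum_congr rfl fun A _ => ?_
  unfold ww
  rw [Finset.prod_mul_distrib]

end Pool.Agent.H100R3.Walsh3
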