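import Mathlib
import Pool.Agent.H100R3.Walsh3

set_option autoImplicit false

open MeasureTheory Set

namespace Pool.Agent.H100R3.Walsh3

/-- Lebesgue measure on the unit interval -/
noncomputable abbrev μ1 : Measure ℝ := volume.restrict (Icc (0:ℝ) 1)

instance : IsProbabilityMeasure μ1 := ⟨by simp [μ1]⟩

lemma int_eq (F : ℝ → ℝ) : ∫ t, F t ∂μ1 = ∫ t in (0:ℝ)..1, F t := by
  rw [integral_Icc_eq_integral_Ioc, ← intervalIntegral.integral_of_le zero_le_one]

lemma sq1 {a : ℝ} (h : a ^ 2 = 1) : a = 1 ∨ a = -1 := by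
  have : (a - 1) * (a + 1) = 0 := by ring_nf; linarith
  rcases mul_eq_zero.1 this with h | h
  · left; linarith
  · right; linarith

/-- the core: no function with values `±1` is orthogonal to all `ww A` -/
theorem core (f : ℝ → ℝ) (hf : Integrable f μ1) (h1 : ∀ᵐ x ∂μ1, f x ^ 2 = 1)
    (h0 : ∀ A, ∫ t, ww A t * f t ∂μ1 = 0) : False := by
  have hfi : IntervalIntegrable f volume 0 1 := by
    rw [intervalIntegrable_iff_integrableOn_Icc_of_le zero_le_one]; exact hf
  have hfs : ∀ a b : ℝ, 0 ≤ a → b ≤ 1 → a ≤ b → IntervalIntegrable f volume a b := by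
    intro a b ha hb hab
    refine hfi.mono_set ?_
    rw [uIcc_of_le hab, uIcc_of_le zero_le_one]
    exact Icc_subset_Icc ha hb
  set G : ℝ → ℝ := fun x => f x + f (x + 1/3) + f (x + 2/3) with hG
  have hi1 : IntervalIntegrable (fun x => f (x + 1/3)) volume 0 (1/3) := by
    have := (hfs (1/3) (2/3) (by norm_num) (by norm_num) (by norm_num)).comp_add_right (1/3)
    norm_num at this ⊢; exact this
  have hi2 : IntervalIntegrable (fun x => f (x + 2/3)) volume 0 (1/3) := by
    have := (hfs (2/3) 1 (by norm_num) (by norm_num) (by norm_num)).comp_add_right (2/3)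
    norm_num at this ⊢; exact this
  have hi0 : IntervalIntegrable f volume 0 (1/3) := hfs _ _ le_rfl (by norm_num) (by norm_num)
  have hGi : IntervalIntegrable G volume 0 (1/3) := (hi0.add hi1).add hi2
  -- multiply an interval integrable function by ww
  have hmul : ∀ (A : Finset ℕ) (F : ℝ → ℝ) (a b : ℝ), IntervalIntegrable F volume a b →
      IntervalIntegrable (fun t => ww A t * F t) volume a b := by
    intro A F a b hF
    rw [intervalIntegrable_iff] at hF ⊢
    refine hF.bdd_mul (c := 1) (ww_meas A).aestronglyMeasurable ?_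
    exact ae_of_all _ fun x => by rw [Real.norm_eq_abs, ww_abs]
  have hGA : ∀ A, ∫ t in (0:ℝ)..(1/3), ww A t * G t = 0 := by
    intro A
    have e0 := h0 A
    rw [int_eq] at e0
    have e1 : ∫ t in (0:ℝ)..(1/3), ww A t * f (t + 1/3) =
        ∫ t in (1/3:ℝ)..(2/3), ww A t * f t := by
      have : ∀ t, ww A t * f (t + 1/3) = (fun u => ww A u * f u) (t + 1/3) := by
        intro t; simp only [ww_third]
      simp only [this]
      rw [intervalIntegral.integral_comp_add_right (fun u => ww A u * f u)]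
      norm_num
    have e2 : ∫ t in (0:ℝ)..(1/3), ww A t * f (t + 2/3) =
        ∫ t in (2/3:ℝ)..1, ww A t * f t := by
      have : ∀ t, ww A t * f (t + 2/3) = (fun u => ww A u * f u) (t + 2/3) := by
        intro t
        have e : t + 2/3 = t + 1/3 + 1/3 := by ring
        simp only
        rw [e, ww_third, ww_third]
      simp only [this]
      rw [intervalIntegral.integral_comp_add_right (fun u => ww A u * f u)]
      norm_num
    have e3 : ∫ t in (0:ℝ)..(1/3), ww A t * G t = (∫ t in (0:ℝ)..(1/3), ww A t * f t) +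
        (∫ t in (0:ℝ)..(1/3), ww A t * f (t + 1/3)) +
        ∫ t in (0:ℝ)..(1/3), ww A t * f (t + 2/3) := by
      rw [← intervalIntegral.integral_add (hmul A _ _ _ hi0) (hmul A _ _ _ hi1),
        ← intervalIntegral.integral_add ((hmul A _ _ _ hi0).add (hmul A _ _ _ hi1))
          (hmul A _ _ _ hi2)]
      refine intervalIntegral.integral_congr fun t _ => ?_
      simp only [hG]; ring
    have e4 := intervalIntegral.integral_add_adjacent_intervals
      (hmul A f 0 (1/3) hi0) (hmul A f (1/3) (2/3) (hfs _ _ (by norm_num) (by norm_num) (by norm_num)))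
    have e5 := intervalIntegral.integral_add_adjacent_intervals
      (hmul A f 0 (2/3) (hfs _ _ (by norm_num) (by norm_num) (by norm_num)))
      (hmul A f (2/3) 1 (hfs _ _ (by norm_num) (by norm_num) (by norm_num)))
    rw [e3, e1, e2]
    linarith
  -- cells
  have hcell : ∀ (k i : ℕ), i < 2 ^ k →
      ∫ t in ((i:ℝ) / (3 * 2 ^ k))..((i + 1 : ℝ) / (3 * 2 ^ k)), G t = 0 := by
    intro k i hi
    set x : ℝ := (i:ℝ) / (3 * 2 ^ k) with hx
    have hpos : (0:ℝ) < 3 * 2 ^ k := by positivity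
    have hx0 : 0 ≤ x := by positivity
    have hik : (i:ℝ) + 1 ≤ 2 ^ k := by exact_mod_cast hi
    have hx1 : x < 1 / 3 := by
      rw [hx, div_lt_div_iff₀ hpos (by norm_num)]; nlinarith
    have hflx : ⌊3 * (2:ℝ) ^ k * x⌋ = i := by
      have : 3 * (2:ℝ) ^ k * x = (i:ℝ) := by rw [hx]; field_simp
      rw [this]; simp
    have hy1 : ((i + 1 : ℝ) / (3 * 2 ^ k)) ≤ 1 / 3 := by
      rw [div_le_div_iff₀ hpos (by norm_num)]; nlinarith
    have hxy : x ≤ (i + 1 : ℝ) / (3 * 2 ^ k) := by
      rw [hx, div_le_div_iff_of_pos_right hpos]; linarith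
    have s1 : ∫ t in (0:ℝ)..(1/3), (∏ j ∈ Finset.range k, (1 + rr j x * rr j t)) * G t = 0 := by
      simp only [prod_expand, Finset.sum_mul]
      rw [intervalIntegral.integral_finsetSum]
      · refine Finset.sum_eq_zero fun A _ => ?_
        simp only [mul_assoc]
        rw [intervalIntegral.integral_const_mul, hGA, mul_zero]
      · intro A _
        simp only [mul_assoc]
        exact (hmul A _ _ _ hGi).const_mul _
    set y : ℝ := (i + 1 : ℝ) / (3 * 2 ^ k) with hy
    have s2 : ∀ t ∈ Ico (0:ℝ) (1/3), (∏ j ∈ Finset.range k, (1 + rr j x * rr j t)) * G t =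
        (Ico x y).indicator (fun t => 2 ^ k * G t) t := by
      intro t ht
      rw [prod_ind]
      have hfl : ⌊3 * x⌋ = ⌊3 * t⌋ := by
        have a1 : ⌊3 * x⌋ = 0 := by rw [Int.floor_eq_zero_iff]; constructor <;> linarith
        have a2 : ⌊3 * t⌋ = 0 := by
          rw [Int.floor_eq_zero_iff]; constructor <;> linarith [ht.1, ht.2]
        rw [a1, a2]
      rw [if_congr (cell_iff hfl k) rfl rfl, hflx]
      have hiff : ⌊3 * (2:ℝ) ^ k * t⌋ = (i:ℤ) ↔ t ∈ Ico x y := by
        rw [Int.floor_eq_iff, hx, hy, mem_Ico, div_le_iff₀ hpos, lt_div_iff₀ hpos]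
        push_cast
        constructor
        · rintro ⟨b1, b2⟩; constructor <;> linarith
        · rintro ⟨b1, b2⟩; constructor <;> linarith
      by_cases hc : t ∈ Ico x y
      · rw [if_pos (hiff.2 hc), indicator_of_mem hc]
      · rw [if_neg (fun h => hc (hiff.1 h)), indicator_of_notMem hc, zero_mul]
    have s3 : ∫ t in (0:ℝ)..(1/3), (∏ j ∈ Finset.range k, (1 + rr j x * rr j t)) * G t =
        2 ^ k * ∫ t in x..y, G t := by
      rw [intervalIntegral.integral_of_le (by norm_num), ← integral_Ico_eq_integral_Ioc,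
        setIntegral_congr_fun measurableSet_Ico s2, setIntegral_indicator measurableSet_Ico,
        inter_eq_self_of_subset_right (Ico_subset_Ico hx0 hy1), integral_const_mul,
        intervalIntegral.integral_of_le hxy, ← integral_Ico_eq_integral_Ioc]
    rw [s3] at s1
    have : (2:ℝ) ^ k ≠ 0 := by positivity
    exact (mul_eq_zero.1 s1).resolve_left this
  -- primitive vanishes at grid points
  have hgrid : ∀ (k i : ℕ), i ≤ 2 ^ k → ∫ t in (0:ℝ)..((i:ℝ) / (3 * 2 ^ k)), G t = 0 := by
    intro k i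
    induction i with
    | zero => intro _; simp
    | succ i ih =>
      intro hi
      have hpos : (0:ℝ) < 3 * 2 ^ k := by positivity
      have hik : (i:ℝ) + 1 ≤ 2 ^ k := by exact_mod_cast hi
      have hsub : ∀ a b : ℝ, 0 ≤ a → a ≤ b → b ≤ 1/3 → IntervalIntegrable G volume a b := by
        intro a b ha hab hb
        refine hGi.mono_set ?_
        rw [uIcc_of_le hab, uIcc_of_le (by norm_num)]
        exact Icc_subset_Icc ha hb
      have b1 : ((i + 1 : ℝ) / (3 * 2 ^ k)) ≤ 1 / 3 := by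
        rw [div_le_div_iff₀ hpos (by norm_num)]; nlinarith
      have b2 : (i:ℝ) / (3 * 2 ^ k) ≤ (i + 1 : ℝ) / (3 * 2 ^ k) := by
        rw [div_le_div_iff_of_pos_right hpos]; linarith
      have b0 : 0 ≤ (i:ℝ) / (3 * 2 ^ k) := by positivity
      have := intervalIntegral.integral_add_adjacent_intervals
        (hsub 0 _ le_rfl b0 (b2.trans b1)) (hsub _ _ b0 b2 b1)
      push_cast
      rw [← this, ih (by omega), hcell k i (by omega), zero_add]
  -- primitive vanishes on the interval
  have hprim : ∀ y ∈ Icc (0:ℝ) (1/3), ∫ t in (0:ℝ)..y, G t = 0 := by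
    intro y hy
    have hcont : ContinuousOn (fun y => ∫ t in (0:ℝ)..y, G t) (Icc 0 (1/3)) := by
      have := intervalIntegral.continuousOn_primitive_interval' hGi (left_mem_uIcc)
      rwa [uIcc_of_le (by norm_num)] at this
    have hseq : Filter.Tendsto (fun k : ℕ => ((⌊3 * 2 ^ k * y⌋₊ : ℕ) : ℝ) / (3 * 2 ^ k))
        Filter.atTop (nhds y) := by
      have h2 : Filter.Tendsto (fun k : ℕ => (3:ℝ) * 2 ^ k) Filter.atTop Filter.atTop :=
        (tendsto_pow_atTop_atTop_of_one_lt (by norm_num : (1:ℝ) < 2)).const_mul_atTop (by norm_num)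
      have h3 := (tendsto_nat_floor_mul_div_atTop (R := ℝ) hy.1).comp h2
      refine h3.congr fun k => ?_
      simp only [Function.comp]
      rw [mul_comm y]
    have hmem : ∀ k : ℕ, ⌊3 * 2 ^ k * y⌋₊ ≤ 2 ^ k := by
      intro k
      have : 3 * 2 ^ k * y ≤ ((2 ^ k : ℕ) : ℝ) := by
        push_cast
        have : (0:ℝ) < 2 ^ k := by positivity
        nlinarith [hy.2]
      exact Nat.floor_le_of_le this
    have hmem' : ∀ k : ℕ, ((⌊3 * 2 ^ k * y⌋₊ : ℕ) : ℝ) / (3 * 2 ^ k) ∈ Icc (0:ℝ) (1/3) := by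
      intro k
      refine ⟨by positivity, ?_⟩
      rw [div_le_div_iff₀ (by positivity) (by norm_num)]
      have : ((⌊3 * 2 ^ k * y⌋₊ : ℕ) : ℝ) ≤ 2 ^ k := by exact_mod_cast hmem k
      linarith
    have h4 := (hcont y hy).tendsto.comp
      (tendsto_nhdsWithin_of_tendsto_nhds_of_eventually_within _ hseq
        (Filter.Eventually.of_forall hmem'))
    have h5 : ((fun y => ∫ t in (0:ℝ)..y, G t) ∘ fun k : ℕ =>
        ((⌊3 * 2 ^ k * y⌋₊ : ℕ) : ℝ) / (3 * 2 ^ k)) = fun _ => 0 := by
      funext k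
      exact hgrid k _ (hmem k)
    rw [h5] at h4
    exact tendsto_nhds_unique h4 tendsto_const_nhds
  -- so G = 0 a.e. on (0, 1/3)
  have hG0 : ∀ᵐ x, x ∈ Ioo (0:ℝ) (1/3) → G x = 0 := by
    filter_upwards [hGi.ae_hasDerivAt_integral] with x hx hxI
    have h6 := hx (by rw [uIcc_of_le (by norm_num)]; exact Ioo_subset_Icc_self hxI) 0 left_mem_uIcc
    have h7 : (fun x => ∫ t in (0:ℝ)..x, G t) =ᶠ[nhds x] fun _ => 0 := by
      filter_upwards [Ioo_mem_nhds hxI.1 hxI.2] with y hy
      exact hprim y (Ioo_subset_Icc_self hy)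
    exact (h6.congr_of_eventuallyEq h7.symm).unique (hasDerivAt_const x 0)
  -- but G is odd valued
  have h1' : ∀ᵐ x, x ∈ Icc (0:ℝ) 1 → f x ^ 2 = 1 := by
    rw [ae_restrict_iff' measurableSet_Icc] at h1; exact h1
  have h1a : ∀ᵐ x : ℝ, (x + 1/3) ∈ Icc (0:ℝ) 1 → f (x + 1/3) ^ 2 = 1 :=
    (measurePreserving_add_right volume (1/3:ℝ)).quasiMeasurePreserving.ae h1'
  have h1b : ∀ᵐ x : ℝ, (x + 2/3) ∈ Icc (0:ℝ) 1 → f (x + 2/3) ^ 2 = 1 :=
    (measurePreserving_add_right volume (2/3:ℝ)).quasiMeasurePreserving.ae h1'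
  have hno : ∀ᵐ x : ℝ, x ∉ Ioo (0:ℝ) (1/3) := by
    filter_upwards [h1', h1a, h1b, hG0] with x c1 c2 c3 c4 hx
    have d1 := c1 ⟨hx.1.le, by linarith [hx.2]⟩
    have d2 := c2 ⟨by linarith [hx.1], by linarith [hx.2]⟩
    have d3 := c3 ⟨by linarith [hx.1], by linarith [hx.2]⟩
    have d4 := c4 hx
    simp only [hG] at d4
    rcases sq1 d1 with e1 | e1 <;>
    rcases sq1 d2 with e2 | e2 <;>
    rcases sq1 d3 with e3 | e3 <;>
    rw [e1, e2, e3] at d4 <;> norm_num at d4
  have : volume (Ioo (0:ℝ) (1/3)) = 0 := by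
    rw [ae_iff] at hno
    simp only [not_not] at hno
    exact hno
  rw [Real.volume_Ioo] at this
  norm_num at this

end Pool.Agent.H100R3.Walsh3
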