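import Mathlib

set_option autoImplicit false

open Finset

namespace Pool.Agent.H100R3.Div

/-! ### Sum splitting -/

lemma sum_split (A B : ℕ) (f : ℕ → ℝ) :
    ∑ x ∈ range (A * B), f x = ∑ i ∈ range A, ∑ j ∈ range B, f (i * B + j) := by
  induction A with
  | zero => simp
  | succ A ih =>
    rw [Nat.succ_mul, Finset.sum_range_add, ih, Finset.sum_range_succ]

lemma div_split {B i j : ℕ} (hj : j < B) : (i * B + j) / B = i := by
  rw [Nat.mul_comm, Nat.mul_add_div (by omega), Nat.div_eq_of_lt hj, add_zero]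

lemma mod_split {B i j : ℕ} (hj : j < B) : (i * B + j) % B = j := by
  rw [Nat.mul_comm, Nat.mul_add_mod, Nat.mod_eq_of_lt hj]

/-- sum of a function of the quotient -/
lemma sum_div (A B : ℕ) (f : ℕ → ℝ) :
    ∑ x ∈ range (A * B), f (x / B) = B * ∑ i ∈ range A, f i := by
  rw [sum_split, Finset.mul_sum]
  refine Finset.sum_congr rfl fun i _ => ?_
  rw [Finset.sum_congr rfl (g := fun _ => f i)]
  · simp
  · intro j hj
    rw [div_split (Finset.mem_range.1 hj)]

lemma sum_sign_split (A B : ℕ) (G : ℕ → ℝ) :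
    ∑ x ∈ range (A * (2 * B)), (-1 : ℝ) ^ (x / B) * G (x / (2 * B)) = 0 := by
  rw [sum_split]
  refine Finset.sum_eq_zero fun i _ => ?_
  rcases Nat.eq_zero_or_pos B with rfl | hB
  · simp
  · rw [Finset.sum_congr rfl (g := fun j => (-1 : ℝ) ^ (j / B) * G i)]
    · rw [← Finset.sum_mul, sum_split]
      have : ∀ k ∈ range 2, ∑ j ∈ range B, (-1 : ℝ) ^ ((k * B + j) / B) = B * (-1) ^ k := by
        intro k _
        rw [Finset.sum_congr rfl (g := fun _ => (-1 : ℝ) ^ k)]
        · simp
        · intro j hj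
          rw [div_split (Finset.mem_range.1 hj)]
      rw [Finset.sum_congr rfl this]
      simp [Finset.sum_range_succ]
    · intro j hj
      have hj' := Finset.mem_range.1 hj
      rw [div_split hj']
      congr 1
      have : (i * (2 * B) + j) / B = 2 * i + j / B := by
        have : i * (2 * B) + j = B * (2 * i) + j := by ring
        rw [this, Nat.mul_add_div hB]
      rw [this, pow_add, pow_mul]
      simp

/-! ### Nodes of the tree in symmetric order -/

section nodes

variable (a : ℕ)

/-- the level of a node -/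
def lv (p : ℕ) : ℕ := if 2 ^ a ∣ p then a else padicValNat 2 p

/-- the exponent of the size of the block of a node -/
def bl (p : ℕ) : ℕ := if 2 ^ a ∣ p then a else padicValNat 2 p + 1

variable {a}

lemma val_lt {p : ℕ} (h : ¬ 2 ^ a ∣ p) : padicValNat 2 p < a := by
  by_contra hc
  push Not at hc
  exact h ((pow_dvd_pow 2 hc).trans pow_padicValNat_dvd)

lemma ne_zero_of_not_dvd {p : ℕ} (h : ¬ 2 ^ a ∣ p) : p ≠ 0 := by
  rintro rfl; exact h (dvd_zero _)

lemma lv_le (p : ℕ) : lv a p ≤ a := by
  unfold lv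
  split_ifs with h
  · exact le_rfl
  · exact (val_lt h).le

lemma bl_le (p : ℕ) : bl a p ≤ a := by
  unfold bl
  split_ifs with h
  · exact le_rfl
  · exact val_lt h

lemma lv_dvd (p : ℕ) : 2 ^ lv a p ∣ p := by
  unfold lv
  split_ifs with h
  · exact h
  · exact pow_padicValNat_dvd

lemma lv_le_bl (p : ℕ) : lv a p ≤ bl a p := by
  unfold lv bl
  split_ifs <;> omega

/-- structure of a small node -/
lemma node_eq {p : ℕ} (h : ¬ 2 ^ a ∣ p) :
    p = p / 2 ^ (padicValNat 2 p + 1) * 2 ^ (padicValNat 2 p + 1) + 2 ^ padicValNat 2 p := by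
  set w := padicValNat 2 p with hw
  have h0 := ne_zero_of_not_dvd h
  obtain ⟨k, hk⟩ : 2 ^ w ∣ p := pow_padicValNat_dvd
  have hodd : ¬ 2 ∣ k := by
    intro h2
    have : 2 ^ (w + 1) ∣ p := by rw [hk, pow_succ]; exact mul_dvd_mul_left _ h2
    exact pow_succ_padicValNat_not_dvd h0 this
  have hk2 : k = 2 * (k / 2) + 1 := by omega
  have e1 : p / 2 ^ (w + 1) = k / 2 := by
    rw [pow_succ, ← Nat.div_div_eq_div_mul, hk, Nat.mul_div_cancel_left _ (by positivity)]
  rw [e1]
  calc p = 2 ^ w * k := hk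
    _ = 2 ^ w * (2 * (k / 2) + 1) := by rw [← hk2]
    _ = _ := by ring

/-- membership in the block of a node -/
def inI (a p y : ℕ) : Prop := y / 2 ^ bl a p = p / 2 ^ bl a p

instance (a p y : ℕ) : Decidable (inI a p y) := by unfold inI; infer_instance

/-- the sign of a node -/
def sg (a p y : ℕ) : ℝ := if inI a p y then (if p ≤ y then -1 else 1) else 0

lemma inI_a {p y : ℕ} (h : inI a p y) {w : ℕ} (hw : a ≤ w) : y / 2 ^ w = p / 2 ^ w := by
  unfold inI at h
  have hb := (bl_le (a := a) p).trans hw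
  obtain ⟨k, rfl⟩ := Nat.exists_eq_add_of_le hb
  rw [pow_add, ← Nat.div_div_eq_div_mul, ← Nat.div_div_eq_div_mul, h]

lemma node_unique {p p' y : ℕ} (h : inI a p y) (h' : inI a p' y) (hl : lv a p = lv a p') :
    p = p' := by
  by_cases d : 2 ^ a ∣ p
  · by_cases d' : 2 ^ a ∣ p'
    · unfold inI bl at h h'
      rw [if_pos d] at h
      rw [if_pos d'] at h'
      have h1 := Nat.div_mul_cancel d
      have h2 := Nat.div_mul_cancel d'
      rw [← h1, ← h2, ← h, ← h']
    · exfalso
      unfold lv at hl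
      rw [if_pos d, if_neg d'] at hl
      exact absurd (val_lt d') (by omega)
  · by_cases d' : 2 ^ a ∣ p'
    · exfalso
      unfold lv at hl
      rw [if_neg d, if_pos d'] at hl
      exact absurd (val_lt d) (by omega)
    · unfold inI bl at h h'
      rw [if_neg d] at h
      rw [if_neg d'] at h'
      unfold lv at hl
      rw [if_neg d, if_neg d'] at hl
      rw [node_eq d, node_eq d', ← h, ← h', hl]

/-- the node of level `v` whose block contains `y` -/
def nd (a v y : ℕ) : ℕ := if v < a then y / 2 ^ (v + 1) * 2 ^ (v + 1) + 2 ^ v else y / 2 ^ a * 2 ^ a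

lemma nd_spec {v y : ℕ} (hv : v ≤ a) : lv a (nd a v y) = v ∧ inI a (nd a v y) y := by
  unfold nd
  split_ifs with h
  · set p := y / 2 ^ (v + 1) * 2 ^ (v + 1) + 2 ^ v with hp
    have hval : ∀ k, 2 ^ k ∣ p ↔ k ≤ v := by
      intro k
      constructor
      · intro hk
        by_contra hc
        push Not at hc
        have h1 : 2 ^ (v + 1) ∣ p := (pow_dvd_pow 2 (by omega)).trans hk
        have h2 : 2 ^ (v + 1) ∣ y / 2 ^ (v + 1) * 2 ^ (v + 1) := dvd_mul_left _ _
        have h3 : 2 ^ (v + 1) ∣ 2 ^ v := (Nat.dvd_add_right h2).1 h1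
        have h4 := Nat.le_of_dvd (by positivity) h3
        have h5 : 2 ^ v < 2 ^ (v + 1) := Nat.pow_lt_pow_right (by norm_num) (by omega)
        omega
      · intro hk
        have h1 : 2 ^ v ∣ p := by
          rw [hp]
          refine dvd_add ?_ dvd_rfl
          exact (pow_dvd_pow 2 (by omega)).trans (dvd_mul_left _ _)
        exact (pow_dvd_pow 2 hk).trans h1
    have hnd : ¬ 2 ^ a ∣ p := by rw [hval]; omega
    have hv' : padicValNat 2 p = v := by
      have h0 := ne_zero_of_not_dvd hnd
      apply le_antisymm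
      · exact (hval _).1 pow_padicValNat_dvd
      · exact (padicValNat_dvd_iff_le h0).1 ((hval v).2 le_rfl)
    constructor
    · unfold lv; rw [if_neg hnd, hv']
    · unfold inI bl
      rw [if_neg hnd, hv', hp, div_split (by apply Nat.pow_lt_pow_right <;> omega)]
  · have hva : v = a := by omega
    subst hva
    have hd : 2 ^ v ∣ y / 2 ^ v * 2 ^ v := dvd_mul_left _ _
    constructor
    · unfold lv; rw [if_pos hd]
    · unfold inI bl
      rw [if_pos hd, Nat.mul_div_cancel _ (by positivity)]

/-- exactly `a + 1` nodes contain a given leaf -/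
lemma card_chain {H y : ℕ} (haH : a ≤ H) (hy : y < 2 ^ H) :
    ((range (2 ^ H)).filter (fun p => inI a p y)).card = a + 1 := by
  have h1 : (range (2 ^ H)).filter (fun p => inI a p y) = (range (a + 1)).image (fun v => nd a v y) := by
    ext p
    simp only [mem_filter, mem_range, mem_image]
    constructor
    · rintro ⟨_, hI⟩
      refine ⟨lv a p, by have := lv_le (a := a) p; omega, ?_⟩
      have := nd_spec (a := a) (y := y) (lv_le p)
      exact node_unique this.2 hI this.1
    · rintro ⟨v, hv, rfl⟩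
      have hs := nd_spec (a := a) (y := y) (v := v) (by omega)
      refine ⟨?_, hs.2⟩
      have h2 := inI_a hs.2 haH
      rw [Nat.div_eq_of_lt hy] at h2
      exact (Nat.div_eq_zero_iff_lt (by positivity)).1 h2.symm
  rw [h1, Finset.card_image_of_injOn]
  · simp
  · intro v hv v' hv' hvv
    simp only [coe_range, Set.mem_Iio] at hv hv'
    have e1 := (nd_spec (a := a) (y := y) (v := v) (by omega)).1
    have e2 := (nd_spec (a := a) (y := y) (v := v') (by omega)).1
    simp only at hvv
    rw [← e1, hvv, e2]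

lemma card_chain_lv {H y t : ℕ} :
    ((range (2 ^ H)).filter (fun p => inI a p y ∧ lv a p = t)).card ≤ 1 := by
  rw [Finset.card_le_one]
  intro p hp p' hp'
  simp only [mem_filter, mem_range] at hp hp'
  exact node_unique hp.2.1 hp'.2.1 (by rw [hp.2.2, hp'.2.2])

/-- number of leaves in a block -/
lemma sum_inI {H p : ℕ} (haH : a ≤ H) (hp : p < 2 ^ H) :
    ∑ y ∈ range (2 ^ H), (if inI a p y then (1:ℝ) else 0) = 2 ^ bl a p := by
  have hb : bl a p ≤ H := (bl_le p).trans haH
  have e : 2 ^ H = 2 ^ (H - bl a p) * 2 ^ bl a p := by rw [← pow_add]; congr 1; omega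
  unfold inI
  rw [e, sum_div (f := fun i => if i = p / 2 ^ bl a p then (1:ℝ) else 0)]
  rw [Finset.sum_ite_eq' (range _) (p / 2 ^ bl a p) (fun _ => (1:ℝ)), if_pos]
  · push_cast; ring
  · rw [mem_range, Nat.div_lt_iff_lt_mul (by positivity), ← e]
    exact hp

lemma sg_sq (p y : ℕ) : sg a p y * sg a p y = if inI a p y then 1 else 0 := by
  unfold sg; split_ifs <;> norm_num

lemma sg_abs (p y : ℕ) : |sg a p y| = if inI a p y then 1 else 0 := by
  unfold sg; split_ifs <;> norm_num

lemma sg_orth_lt {H p p' : ℕ} (haH : a ≤ H) (hlt : lv a p < lv a p') :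
    ∑ y ∈ range (2 ^ H), sg a p y * sg a p' y = 0 := by
  have d : ¬ 2 ^ a ∣ p := by
    intro d
    have := lv_le (a := a) p'
    unfold lv at hlt
    rw [if_pos d] at hlt
    unfold lv at this
    omega
  have hval : lv a p = padicValNat 2 p := by unfold lv; rw [if_neg d]
  have hbl : bl a p = padicValNat 2 p + 1 := by unfold bl; rw [if_neg d]
  set w := padicValNat 2 p with hw
  have hwa : w < a := val_lt d
  have hp := node_eq d
  rw [← hw] at hp
  have hdvd : 2 ^ (w + 1) ∣ p' := (pow_dvd_pow 2 (by omega)).trans (lv_dvd (a := a) p')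
  have hblp' : w + 1 ≤ bl a p' := by have := lv_le_bl (a := a) p'; omega
  -- `sg a p' y` is a function of `y / 2 ^ (w+1)`
  have hfun : ∀ y, sg a p' y = sg a p' (y / 2 ^ (w + 1) * 2 ^ (w + 1)) := by
    intro y
    have h1 : inI a p' y ↔ inI a p' (y / 2 ^ (w + 1) * 2 ^ (w + 1)) := by
      unfold inI
      obtain ⟨k, hk⟩ := Nat.exists_eq_add_of_le hblp'
      rw [hk, pow_add, ← Nat.div_div_eq_div_mul, ← Nat.div_div_eq_div_mul (y / _ * _),
        Nat.mul_div_cancel _ (by positivity)]
    have h2 : p' ≤ y ↔ p' ≤ y / 2 ^ (w + 1) * 2 ^ (w + 1) := by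
      obtain ⟨k, rfl⟩ := hdvd
      constructor
      · intro h
        have h3 : k ≤ y / 2 ^ (w + 1) := by
          rw [Nat.le_div_iff_mul_le (by positivity)]
          linarith [mul_comm k (2 ^ (w + 1))]
        nlinarith [Nat.mul_le_mul_right (2 ^ (w + 1)) h3]
      · intro h
        exact h.trans (Nat.div_mul_le_self _ _)
    unfold sg
    simp only [h1, h2]
  have e : 2 ^ H = 2 ^ (H - (w + 1)) * (2 * 2 ^ w) := by
    rw [← pow_succ', ← pow_add]; congr 1; omega
  have hterm : ∀ y ∈ range (2 ^ H), sg a p y * sg a p' y =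
      (-1 : ℝ) ^ (y / 2 ^ w) * ((if y / (2 * 2 ^ w) = p / 2 ^ (w + 1) then 1 else 0) *
        sg a p' (y / (2 * 2 ^ w) * 2 ^ (w + 1))) := by
    intro y _
    rw [hfun y]
    have e2 : (2 * 2 ^ w : ℕ) = 2 ^ (w + 1) := by rw [pow_succ]; ring
    rw [e2]
    have h3 : sg a p y = (-1 : ℝ) ^ (y / 2 ^ w) * (if y / 2 ^ (w + 1) = p / 2 ^ (w + 1) then 1 else 0) := by
      have hIiff : inI a p y ↔ y / 2 ^ (w + 1) = p / 2 ^ (w + 1) := by
        unfold inI; rw [hbl]
      unfold sg
      by_cases hy : y / 2 ^ (w + 1) = p / 2 ^ (w + 1)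
      · rw [if_pos (hIiff.2 hy), if_pos hy, mul_one]
        set i := p / 2 ^ (w + 1) with hi
        -- y = i * 2^(w+1) + j
        have hy2 : y = i * 2 ^ (w + 1) + y % 2 ^ (w + 1) := by
          rw [← hy]; exact (Nat.div_add_mod' y _).symm
        have hj := Nat.mod_lt y (show 0 < 2 ^ (w + 1) by positivity)
        set j := y % 2 ^ (w + 1) with hjdef
        have h5 : y / 2 ^ w = 2 * i + j / 2 ^ w := by
          rw [hy2]
          have : i * 2 ^ (w + 1) + j = 2 ^ w * (2 * i) + j := by rw [pow_succ]; ring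
          rw [this, Nat.mul_add_div (by positivity)]
        rw [h5, pow_add, pow_mul]
        have h6 : ((-1 : ℝ) ^ 2) ^ i = 1 := by norm_num
        rw [h6, one_mul]
        by_cases hle : p ≤ y
        · rw [if_pos hle]
          have h7 : 2 ^ w ≤ j := by omega
          have h8 : j / 2 ^ w = 1 := by
            apply Nat.div_eq_of_lt_le
            · omega
            · rw [pow_succ] at hj; omega
          rw [h8]; norm_num
        · rw [if_neg hle]
          have h7 : j < 2 ^ w := by omega
          rw [Nat.div_eq_of_lt h7]; norm_num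
      · rw [if_neg (fun h => hy (hIiff.1 h)), if_neg hy, mul_zero]
    rw [h3]; ring
  rw [Finset.sum_congr rfl hterm, e]
  exact sum_sign_split _ _ (fun i => (if i = p / 2 ^ (w + 1) then 1 else 0) *
        sg a p' (i * 2 ^ (w + 1)))

lemma sg_orth {H p p' : ℕ} (haH : a ≤ H) (hp : p < 2 ^ H) :
    ∑ y ∈ range (2 ^ H), sg a p y * sg a p' y = if p = p' then 2 ^ bl a p else 0 := by
  split_ifs with h
  · subst h
    simp only [sg_sq]
    exact sum_inI haH hp
  · rcases lt_trichotomy (lv a p) (lv a p') with h1 | h1 | h1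
    · exact sg_orth_lt haH h1
    · refine Finset.sum_eq_zero fun y _ => ?_
      unfold sg
      by_cases h2 : inI a p y
      · by_cases h3 : inI a p' y
        · exact absurd (node_unique h2 h3 h1) h
        · rw [if_neg h3, mul_zero]
      · rw [if_neg h2, zero_mul]
    · rw [Finset.sum_congr rfl fun y _ => mul_comm _ _]
      exact sg_orth_lt haH h1

/-- one of two partial sums of the signs is large -/
lemma big_sum {H y : ℕ} (haH : a ≤ H) (hy : y < 2 ^ H) :
    ∃ m ≤ 2 ^ H, ((a + 1 : ℕ) : ℝ) / 3 ≤ |∑ p ∈ range m, sg a p y| := by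
  have h1 : ∑ p ∈ range (2 ^ H), sg a p y - 2 * ∑ p ∈ range (y + 1), sg a p y = (a + 1 : ℕ) := by
    have e1 : ∑ p ∈ range (y + 1), sg a p y =
        ∑ p ∈ range (2 ^ H), if p ≤ y then sg a p y else 0 := by
      rw [← Finset.sum_filter]
      congr 1
      ext p
      simp only [mem_range, mem_filter]
      omega
    rw [e1, Finset.mul_sum, ← Finset.sum_sub_distrib, ← card_chain haH hy,
      Finset.card_filter]
    push_cast
    refine Finset.sum_congr rfl fun p _ => ?_
    unfold sg
    split_ifs <;> norm_num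
  by_contra hc
  push Not at hc
  have h2 := hc (2 ^ H) le_rfl
  have h3 := hc (y + 1) (by omega)
  rw [abs_lt] at h2 h3
  linarith [h2.1, h2.2, h3.1, h3.2]

end nodes

end Pool.Agent.H100R3.Div
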