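import Mathlib
import Pool.Agent.H100R3.DivA

set_option autoImplicit false

open Finset

namespace Pool.Agent.H100R3.Div

/-! ### High frequency signs -/

lemma inv_div4 (x k : ℕ) : (4 * (x / 4)) / (4 * k) = x / (4 * k) := by
  rw [Nat.mul_div_mul_left _ _ (by norm_num), Nat.div_div_eq_div_mul]

lemma inv_div2 (x k : ℕ) : (2 * (x / 2)) / (2 * k) = x / (2 * k) := by
  rw [Nat.mul_div_mul_left _ _ (by norm_num), Nat.div_div_eq_div_mul]

lemma sum_sign1 (A : ℕ) (f : ℕ → ℝ) (hf : ∀ x, f (2 * (x / 2)) = f x) :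
    ∑ x ∈ range (A * 2), (-1 : ℝ) ^ x * f x = 0 := by
  have h := sum_sign_split A 1 (fun z => f (2 * z))
  simp only [Nat.div_one, mul_one] at h
  rw [← h]
  refine Finset.sum_congr rfl fun x _ => ?_
  rw [hf]

lemma sum_sign2 (A : ℕ) (f : ℕ → ℝ) (hf : ∀ x, f (4 * (x / 4)) = f x) :
    ∑ x ∈ range (A * 4), (-1 : ℝ) ^ (x / 2) * f x = 0 := by
  have h := sum_sign_split A 2 (fun z => f (4 * z))
  have e : 2 * 2 = 4 := rfl
  simp only [e] at h
  rw [← h]
  refine Finset.sum_congr rfl fun x _ => ?_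
  rw [hf]

section fam

variable (a b c L M : ℕ)

/-- depth of the tree -/
abbrev HH : ℕ := M + a
/-- the final level -/
abbrev nn : ℕ := HH a M + (b + (c + 2))

noncomputable def ka (p : ℕ) : ℝ := √((2:ℝ) ^ bl a p / (2 ^ HH a M * 2 ^ b))

def yy (x : ℕ) : ℕ := x / 2 ^ (b + (c + 2))
def tt (x : ℕ) : ℕ := x / 2 ^ (c + 2) % 2 ^ b

noncomputable def qf (p x : ℕ) : ℝ :=
  (ka a b M p)⁻¹ * (if inI a p (yy b c x) ∧ tt b c x = lv a p then 1 else 0)

noncomputable def wf (p x : ℕ) : ℝ :=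
  2 ^ L * ka a b M p * (if x / 2 ^ (nn a b c M - L) = p / 2 ^ (HH a M - L) then 1 else 0)

noncomputable def hf (p x : ℕ) : ℝ :=
  (ka a b M p)⁻¹ * (√((2:ℝ) ^ b))⁻¹ * sg a p (yy b c x)

noncomputable def ps (p x : ℕ) : ℝ :=
  (√2)⁻¹ * (qf a b c M p x + ((-1) ^ (x / 2) - 1) * wf a b c L M p x +
    (-1) ^ x * hf a b c M p x)

variable {a b c L M}

lemma ka_pos (p : ℕ) : 0 < ka a b M p := Real.sqrt_pos.2 (by positivity)

lemma ka_sq (p : ℕ) : ka a b M p * ka a b M p = (2:ℝ) ^ bl a p / (2 ^ HH a M * 2 ^ b) :=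
  Real.mul_self_sqrt (by positivity)

lemma yy_inv (x : ℕ) : yy b c (4 * (x / 4)) = yy b c x := by
  unfold yy
  have : 2 ^ (b + (c + 2)) = 4 * 2 ^ (b + c) := by
    rw [← add_assoc, pow_add]; ring
  rw [this, inv_div4]

lemma tt_inv (x : ℕ) : tt b c (4 * (x / 4)) = tt b c x := by
  unfold tt
  have : 2 ^ (c + 2) = 4 * 2 ^ c := by rw [pow_add]; ring
  rw [this, inv_div4]

lemma qf_inv (p x : ℕ) : qf a b c M p (4 * (x / 4)) = qf a b c M p x := by
  unfold qf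
  simp only [yy_inv, tt_inv]

lemma hf_inv (p x : ℕ) : hf a b c M p (4 * (x / 4)) = hf a b c M p x := by
  unfold hf
  simp only [yy_inv]

lemma nL_eq (hLM : L ≤ M) : nn a b c M - L = (HH a M - L) + (b + (c + 2)) := by
  unfold nn HH; omega

lemma quot_inv (hLM : L ≤ M) (x : ℕ) :
    4 * (x / 4) / 2 ^ (nn a b c M - L) = x / 2 ^ (nn a b c M - L) := by
  have : 2 ^ (nn a b c M - L) = 4 * 2 ^ (HH a M - L + b + c) := by
    rw [nL_eq hLM, ← add_assoc, ← add_assoc, pow_add _ _ 2]; ring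
  rw [this, inv_div4]

lemma wf_inv (hLM : L ≤ M) (p x : ℕ) : wf a b c L M p (4 * (x / 4)) = wf a b c L M p x := by
  unfold wf
  simp only [quot_inv hLM]

lemma inv42 {f : ℕ → ℝ} (hf : ∀ x, f (4 * (x / 4)) = f x) (x : ℕ) : f (2 * (x / 2)) = f x := by
  rw [← hf (2 * (x / 2)), ← hf x]
  congr 2
  omega

/-- quotients: the block of level `L` -/
lemma quot_eq (hLM : L ≤ M) (x : ℕ) :
    x / 2 ^ (nn a b c M - L) = yy b c x / 2 ^ (HH a M - L) := by
  unfold yy
  rw [nL_eq hLM, add_comm (HH a M - L), pow_add, Nat.div_div_eq_div_mul]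

lemma sum_leaf_type (f g : ℕ → ℝ) :
    ∑ x ∈ range (2 ^ nn a b c M), f (yy b c x) * g (tt b c x) =
      2 ^ (c + 2) * (∑ y ∈ range (2 ^ HH a M), f y) * ∑ t ∈ range (2 ^ b), g t := by
  have e : 2 ^ nn a b c M = 2 ^ HH a M * (2 ^ b * 2 ^ (c + 2)) := by
    rw [← pow_add 2 b, ← pow_add 2 (HH a M)]
  have e2 : 2 ^ (b + (c + 2)) = 2 ^ b * 2 ^ (c + 2) := pow_add _ _ _
  rw [e, sum_split]
  unfold yy tt
  have : ∀ i ∈ range (2 ^ HH a M), ∑ j ∈ range (2 ^ b * 2 ^ (c + 2)),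
      f ((i * (2 ^ b * 2 ^ (c + 2)) + j) / 2 ^ (b + (c + 2))) *
        g ((i * (2 ^ b * 2 ^ (c + 2)) + j) / 2 ^ (c + 2) % 2 ^ b) =
      f i * (2 ^ (c + 2) * ∑ t ∈ range (2 ^ b), g t) := by
    intro i _
    have h1 : ∀ j ∈ range (2 ^ b * 2 ^ (c + 2)),
        f ((i * (2 ^ b * 2 ^ (c + 2)) + j) / 2 ^ (b + (c + 2))) *
        g ((i * (2 ^ b * 2 ^ (c + 2)) + j) / 2 ^ (c + 2) % 2 ^ b) = f i * g (j / 2 ^ (c + 2)) := by
      intro j hj
      have hj' := Finset.mem_range.1 hj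
      rw [e2, div_split hj']
      congr 2
      have : (i * (2 ^ b * 2 ^ (c + 2)) + j) / 2 ^ (c + 2) = i * 2 ^ b + j / 2 ^ (c + 2) := by
        have : i * (2 ^ b * 2 ^ (c + 2)) + j = 2 ^ (c + 2) * (i * 2 ^ b) + j := by ring
        rw [this, Nat.mul_add_div (by positivity)]
      rw [this, mod_split]
      rw [Nat.div_lt_iff_lt_mul (by positivity)]
      exact hj'
    rw [Finset.sum_congr rfl h1, ← Finset.mul_sum, sum_div]
    push_cast
    ring
  rw [Finset.sum_congr rfl this, ← Finset.sum_mul]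
  ring

lemma sum_leaf (f : ℕ → ℝ) :
    ∑ x ∈ range (2 ^ nn a b c M), f (yy b c x) =
      2 ^ (b + (c + 2)) * (∑ y ∈ range (2 ^ HH a M), f y) := by
  have h := sum_leaf_type (a := a) (b := b) (c := c) (M := M) f (fun _ => 1)
  simp only [mul_one, Finset.sum_const, Finset.card_range, nsmul_eq_mul] at h
  rw [h]
  push_cast
  rw [pow_add]; ring

lemma ind_type {t : ℕ} (ht : t < 2 ^ b) :
    ∑ s ∈ range (2 ^ b), (if s = t then (1:ℝ) else 0) = 1 := by
  rw [Finset.sum_ite_eq' (range (2 ^ b)) t (fun _ => (1:ℝ)), if_pos (Finset.mem_range.2 ht)]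

lemma haH : a ≤ HH a M := by unfold HH; omega

/-- the number of points in the support of `qf` -/
lemma sum_supp (hab : a < 2 ^ b) {p : ℕ} (hp : p < 2 ^ HH a M) :
    ∑ x ∈ range (2 ^ nn a b c M), (if inI a p (yy b c x) ∧ tt b c x = lv a p then (1:ℝ) else 0) =
      2 ^ bl a p * 2 ^ (c + 2) := by
  have h1 : ∀ x, (if inI a p (yy b c x) ∧ tt b c x = lv a p then (1:ℝ) else 0) =
      (if inI a p (yy b c x) then 1 else 0) * (if tt b c x = lv a p then 1 else 0) := by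
    intro x
    by_cases h1 : inI a p (yy b c x) <;> by_cases h2 : tt b c x = lv a p <;> simp [h1, h2]
  simp only [h1]
  rw [sum_leaf_type (fun y => if inI a p y then 1 else 0) (fun t => if t = lv a p then 1 else 0),
    sum_inI haH hp, ind_type (lt_of_le_of_lt (lv_le p) hab)]
  ring

lemma pow_nn : (2:ℝ) ^ nn a b c M = 2 ^ HH a M * (2 ^ b * 2 ^ (c + 2)) := by
  rw [← pow_add 2 b, ← pow_add 2 (HH a M)]

lemma qf_orth (hab : a < 2 ^ b) {p p' : ℕ} (hp : p < 2 ^ HH a M) :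
    ∑ x ∈ range (2 ^ nn a b c M), qf a b c M p x * qf a b c M p' x =
      if p = p' then 2 ^ nn a b c M else 0 := by
  split_ifs with h
  · subst h
    have h1 : ∀ x, qf a b c M p x * qf a b c M p x = (ka a b M p * ka a b M p)⁻¹ *
        (if inI a p (yy b c x) ∧ tt b c x = lv a p then (1:ℝ) else 0) := by
      intro x
      unfold qf
      split_ifs
      · rw [mul_inv]; ring
      · ring
    simp only [h1]
    rw [← Finset.mul_sum, sum_supp hab hp, ka_sq, pow_nn]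
    field_simp
  · refine Finset.sum_eq_zero fun x _ => ?_
    unfold qf
    by_cases h1 : inI a p (yy b c x) ∧ tt b c x = lv a p
    · by_cases h2 : inI a p' (yy b c x) ∧ tt b c x = lv a p'
      · exact absurd (node_unique h1.1 h2.1 (by rw [← h1.2, ← h2.2])) h
      · rw [if_neg h2]; ring
    · rw [if_neg h1]; ring

lemma hf_orth {p p' : ℕ} (hp : p < 2 ^ HH a M) :
    ∑ x ∈ range (2 ^ nn a b c M), hf a b c M p x * hf a b c M p' x =
      if p = p' then 2 ^ nn a b c M else 0 := by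
  have h2b : √((2:ℝ) ^ b) * √((2:ℝ) ^ b) = 2 ^ b := Real.mul_self_sqrt (by positivity)
  have h1 : ∀ x, hf a b c M p x * hf a b c M p' x =
      (ka a b M p * ka a b M p')⁻¹ * ((2:ℝ) ^ b)⁻¹ * (sg a p (yy b c x) * sg a p' (yy b c x)) := by
    intro x
    unfold hf
    have h3 : ((2:ℝ) ^ b)⁻¹ = (√((2:ℝ) ^ b))⁻¹ * (√((2:ℝ) ^ b))⁻¹ := by rw [← mul_inv, h2b]
    rw [h3, mul_inv]; ring
  simp only [h1]
  rw [← Finset.mul_sum, sum_leaf (fun y => sg a p y * sg a p' y), sg_orth haH hp]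
  split_ifs with h
  · subst h
    rw [ka_sq, pow_nn, pow_add 2 b (c + 2)]
    field_simp
  · ring

lemma sum_qf (hab : a < 2 ^ b) (hLM : L ≤ M) {p : ℕ} (hp : p < 2 ^ HH a M) (g : ℕ → ℝ) :
    ∑ x ∈ range (2 ^ nn a b c M), qf a b c M p x * g (x / 2 ^ (nn a b c M - L)) =
      g (p / 2 ^ (HH a M - L)) * (2 ^ nn a b c M * ka a b M p) := by
  have h1 : ∀ x, qf a b c M p x * g (x / 2 ^ (nn a b c M - L)) =
      (g (p / 2 ^ (HH a M - L)) * (ka a b M p)⁻¹) *
        (if inI a p (yy b c x) ∧ tt b c x = lv a p then (1:ℝ) else 0) := by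
    intro x
    unfold qf
    split_ifs with h
    · rw [quot_eq hLM, inI_a h.1 (by unfold HH; omega)]; ring
    · ring
  simp only [h1]
  rw [← Finset.mul_sum, sum_supp hab hp]
  have hk := ka_sq (a := a) (b := b) (M := M) p
  have hk0 := ka_pos (a := a) (b := b) (M := M) p
  rw [pow_nn, mul_assoc, mul_assoc]
  congr 1
  rw [inv_mul_eq_iff_eq_mul₀ hk0.ne']
  have : (2:ℝ) ^ HH a M * (2 ^ b * 2 ^ (c + 2)) * ka a b M p =
      (2:ℝ) ^ HH a M * (2 ^ b * 2 ^ (c + 2)) * ka a b M p := rfl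
  calc (2:ℝ) ^ bl a p * 2 ^ (c + 2) = (2:ℝ) ^ HH a M * (2 ^ b * 2 ^ (c + 2)) *
        ((2:ℝ) ^ bl a p / (2 ^ HH a M * 2 ^ b)) := by field_simp
    _ = _ := by rw [← hk]; ring

lemma sum_wf (hLM : L ≤ M) {p : ℕ} (hp : p < 2 ^ HH a M) (g : ℕ → ℝ) :
    ∑ x ∈ range (2 ^ nn a b c M), wf a b c L M p x * g (x / 2 ^ (nn a b c M - L)) =
      g (p / 2 ^ (HH a M - L)) * (2 ^ nn a b c M * ka a b M p) := by
  have h1 : ∀ x, wf a b c L M p x * g (x / 2 ^ (nn a b c M - L)) =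
      (fun i => g (p / 2 ^ (HH a M - L)) * (2 ^ L * ka a b M p) *
        (if i = p / 2 ^ (HH a M - L) then 1 else 0)) (x / 2 ^ (nn a b c M - L)) := by
    intro x
    unfold wf
    simp only
    split_ifs with h
    · rw [h]; ring
    · ring
  rw [Finset.sum_congr rfl fun x _ => h1 x]
  have e : 2 ^ nn a b c M = 2 ^ L * 2 ^ (nn a b c M - L) := by
    rw [← pow_add]; congr 1; unfold nn HH; omega
  rw [e, sum_div (2 ^ L) (2 ^ (nn a b c M - L)) (fun i => g (p / 2 ^ (HH a M - L)) *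
    (2 ^ L * ka a b M p) * (if i = p / 2 ^ (HH a M - L) then 1 else 0)), ← Finset.mul_sum,
    Finset.sum_ite_eq' (range (2 ^ L)) _ (fun _ => (1:ℝ)), if_pos]
  · have e' : (2:ℝ) ^ nn a b c M = 2 ^ L * 2 ^ (nn a b c M - L) := by
      exact_mod_cast e
    rw [e']
    push_cast
    ring
  · rw [mem_range, Nat.div_lt_iff_lt_mul (by positivity), ← pow_add]
    have : L + (HH a M - L) = HH a M := by unfold HH; omega
    rw [this]; exact hp

lemma nn_four : ∃ A, 2 ^ nn a b c M = A * 4 := ⟨2 ^ (HH a M + (b + c)), by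
  rw [show nn a b c M = HH a M + (b + c) + 2 by unfold nn; omega, pow_add _ _ 2]; rfl⟩

lemma nn_two : ∃ A, 2 ^ nn a b c M = A * 2 := ⟨2 ^ (HH a M + (b + (c + 1))), by
  rw [show nn a b c M = HH a M + (b + (c + 1)) + 1 by unfold nn; omega, pow_add _ _ 1]; rfl⟩

lemma sign1 (f : ℕ → ℝ) (hf : ∀ x, f (2 * (x / 2)) = f x) :
    ∑ x ∈ range (2 ^ nn a b c M), (-1 : ℝ) ^ x * f x = 0 := by
  obtain ⟨A, hA⟩ := nn_two (a := a) (b := b) (c := c) (M := M)
  rw [hA]; exact sum_sign1 A f hf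

lemma sign2 (f : ℕ → ℝ) (hf : ∀ x, f (4 * (x / 4)) = f x) :
    ∑ x ∈ range (2 ^ nn a b c M), (-1 : ℝ) ^ (x / 2) * f x = 0 := by
  obtain ⟨A, hA⟩ := nn_four (a := a) (b := b) (c := c) (M := M)
  rw [hA]; exact sum_sign2 A f hf

lemma s0_inv (x : ℕ) : (-1 : ℝ) ^ (2 * (x / 2) / 2) = (-1) ^ (x / 2) := by
  congr 1; omega

lemma s_sq (k : ℕ) : ((-1 : ℝ) ^ k) * (-1) ^ k = 1 := by
  rw [← mul_pow]; norm_num

lemma ps_orth_L (hab : a < 2 ^ b) (hLM : L ≤ M) {p : ℕ} (hp : p < 2 ^ HH a M) (g : ℕ → ℝ) :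
    ∑ x ∈ range (2 ^ nn a b c M), ps a b c L M p x * g (x / 2 ^ (nn a b c M - L)) = 0 := by
  have h1 : ∀ x, ps a b c L M p x * g (x / 2 ^ (nn a b c M - L)) = (√2)⁻¹ *
      ((qf a b c M p x * g (x / 2 ^ (nn a b c M - L)) -
        wf a b c L M p x * g (x / 2 ^ (nn a b c M - L))) +
      (-1) ^ (x / 2) * (wf a b c L M p x * g (x / 2 ^ (nn a b c M - L))) +
      (-1) ^ x * (hf a b c M p x * g (x / 2 ^ (nn a b c M - L)))) := by
    intro x; unfold ps; ring
  simp only [h1]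
  rw [← Finset.mul_sum, Finset.sum_add_distrib, Finset.sum_add_distrib, Finset.sum_sub_distrib,
    sum_qf hab hLM hp, sum_wf hLM hp, sign2, sign1]
  · ring
  · exact inv42 (f := fun x => hf a b c M p x * g (x / 2 ^ (nn a b c M - L))) fun x => by
      rw [hf_inv, quot_inv hLM]
  · intro x
    rw [wf_inv hLM, quot_inv hLM]

lemma wf_fun (p x : ℕ) : wf a b c L M p x =
    (fun i => 2 ^ L * ka a b M p * (if i = p / 2 ^ (HH a M - L) then (1:ℝ) else 0))
      (x / 2 ^ (nn a b c M - L)) := rfl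

lemma ps_orth (hab : a < 2 ^ b) (hLM : L ≤ M) {p p' : ℕ} (hp : p < 2 ^ HH a M)
    (hp' : p' < 2 ^ HH a M) :
    ∑ x ∈ range (2 ^ nn a b c M), ps a b c L M p x * ps a b c L M p' x =
      if p = p' then 2 ^ nn a b c M else 0 := by
  have hs2 : (√2 : ℝ) * √2 = 2 := Real.mul_self_sqrt (by norm_num)
  set q := qf a b c M p with hq
  set q' := qf a b c M p' with hq'
  set w := wf a b c L M p with hw
  set w' := wf a b c L M p' with hw'
  set h := hf a b c M p with hh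
  set h' := hf a b c M p' with hh'
  have h1 : ∀ x, ps a b c L M p x * ps a b c L M p' x = (1 / 2) *
      ((q x * q' x - q x * w' x - q' x * w x + 2 * (w x * w' x) + h x * h' x) +
      (-1) ^ (x / 2) * (q x * w' x + w x * q' x - 2 * (w x * w' x)) +
      (-1) ^ x * ((q x + ((-1) ^ (x / 2) - 1) * w x) * h' x +
        h x * (q' x + ((-1) ^ (x / 2) - 1) * w' x))) := by
    intro x
    have e0 := s_sq (x / 2)
    have e1 := s_sq x
    have e2 : (√2 : ℝ)⁻¹ * (√2)⁻¹ = 1 / 2 := by rw [← mul_inv, hs2]; norm_num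
    unfold ps
    rw [← hq, ← hq', ← hw, ← hw', ← hh, ← hh']
    calc (√2)⁻¹ * (q x + ((-1) ^ (x / 2) - 1) * w x + (-1) ^ x * h x) *
          ((√2)⁻¹ * (q' x + ((-1) ^ (x / 2) - 1) * w' x + (-1) ^ x * h' x)) =
          ((√2)⁻¹ * (√2)⁻¹) * ((q x + ((-1) ^ (x / 2) - 1) * w x + (-1) ^ x * h x) *
          (q' x + ((-1) ^ (x / 2) - 1) * w' x + (-1) ^ x * h' x)) := by ring
      _ = _ := by
        rw [e2]
        congr 1
        linear_combination (w x * w' x) * e0 + (h x * h' x) * e1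
  simp only [h1]
  have t1 : ∑ x ∈ range (2 ^ nn a b c M), q x * w' x =
      ∑ x ∈ range (2 ^ nn a b c M), w x * w' x := by
    rw [hq, hw, hw']
    have := sum_qf (c := c) hab hLM hp
      (fun i => 2 ^ L * ka a b M p' * (if i = p' / 2 ^ (HH a M - L) then (1:ℝ) else 0))
    have h2 := sum_wf (b := b) (c := c) hLM hp
      (fun i => 2 ^ L * ka a b M p' * (if i = p' / 2 ^ (HH a M - L) then (1:ℝ) else 0))
    exact this.trans h2.symm
  have t2 : ∑ x ∈ range (2 ^ nn a b c M), q' x * w x =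
      ∑ x ∈ range (2 ^ nn a b c M), w x * w' x := by
    have e : ∑ x ∈ range (2 ^ nn a b c M), w x * w' x =
        ∑ x ∈ range (2 ^ nn a b c M), w' x * w x :=
      Finset.sum_congr rfl fun x _ => mul_comm _ _
    rw [e, hq', hw, hw']
    have := sum_qf (c := c) hab hLM hp'
      (fun i => 2 ^ L * ka a b M p * (if i = p / 2 ^ (HH a M - L) then (1:ℝ) else 0))
    have h2 := sum_wf (b := b) (c := c) hLM hp'
      (fun i => 2 ^ L * ka a b M p * (if i = p / 2 ^ (HH a M - L) then (1:ℝ) else 0))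
    exact this.trans h2.symm
  have i1 := qf_inv (a := a) (b := b) (c := c) (M := M)
  have i2 := hf_inv (a := a) (b := b) (c := c) (M := M)
  have i3 := wf_inv (a := a) (b := b) (c := c) (L := L) (M := M) hLM
  rw [← Finset.mul_sum, Finset.sum_add_distrib, Finset.sum_add_distrib, sign2, sign1,
    Finset.sum_add_distrib, Finset.sum_add_distrib, Finset.sum_sub_distrib,
    Finset.sum_sub_distrib, t1, t2, ← Finset.mul_sum, qf_orth hab hp, hf_orth hp]
  · split_ifs <;> ring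
  · intro x
    rw [s0_inv]
    rw [hq, hq', hw, hw', hh, hh', inv42 (i1 p), inv42 (i1 p'), inv42 (i2 p), inv42 (i2 p'),
      inv42 (i3 p), inv42 (i3 p')]
  · intro x
    rw [hq, hq', hw, hw', i1, i1, i3, i3]

end fam

end Pool.Agent.H100R3.Div
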