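import Mathlib
import Pool.Agent.H100R3.DivB

set_option autoImplicit false

open Finset

namespace Pool.Agent.H100R3.Div

section est

variable {a b c L M : ℕ}

/-- the coefficient -/
noncomputable def cf (a b c L M : ℕ) (F : ℕ → ℝ) (p : ℕ) : ℝ :=
  (∑ x ∈ range (2 ^ nn a b c M), F x * ps a b c L M p x) / 2 ^ nn a b c M

/-- normalised coefficient -/
noncomputable def dd (a b c L M : ℕ) (F : ℕ → ℝ) (p : ℕ) : ℝ :=
  (∑ x ∈ range (2 ^ nn a b c M), F x * (qf a b c M p x + ((-1) ^ (x / 2) - 1) * wf a b c L M p x +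
    (-1) ^ x * hf a b c M p x)) / 2 ^ nn a b c M

lemma cf_eq (F : ℕ → ℝ) (p : ℕ) : cf a b c L M F p = (√2)⁻¹ * dd a b c L M F p := by
  unfold cf dd ps
  rw [← mul_div_assoc, Finset.mul_sum]
  congr 1
  refine Finset.sum_congr rfl fun x _ => by ring

lemma dd_split (F : ℕ → ℝ) (p : ℕ) : dd a b c L M F p * 2 ^ nn a b c M =
    ∑ x ∈ range (2 ^ nn a b c M), F x * qf a b c M p x -
    ∑ x ∈ range (2 ^ nn a b c M), F x * wf a b c L M p x +
    ∑ x ∈ range (2 ^ nn a b c M), (-1) ^ (x / 2) * (F x * wf a b c L M p x) +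
    ∑ x ∈ range (2 ^ nn a b c M), (-1) ^ x * (F x * hf a b c M p x) := by
  unfold dd
  rw [div_mul_cancel₀ _ (by positivity), ← Finset.sum_sub_distrib, ← Finset.sum_add_distrib,
    ← Finset.sum_add_distrib]
  refine Finset.sum_congr rfl fun x _ => by ring

lemma qf_nonneg (p x : ℕ) : 0 ≤ qf a b c M p x := by
  unfold qf
  have := ka_pos (a := a) (b := b) (M := M) p
  split_ifs <;> positivity

lemma wf_nonneg (p x : ℕ) : 0 ≤ wf a b c L M p x := by
  unfold wf
  have := ka_pos (a := a) (b := b) (M := M) p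
  split_ifs <;> positivity

lemma sum_qf_one (hab : a < 2 ^ b) {p : ℕ} (hp : p < 2 ^ HH a M) :
    ∑ x ∈ range (2 ^ nn a b c M), qf a b c M p x = 2 ^ nn a b c M * ka a b M p := by
  have := sum_qf (c := c) (L := 0) hab (Nat.zero_le M) hp (fun _ => 1)
  simpa using this

lemma sum_wf_one (hLM : L ≤ M) {p : ℕ} (hp : p < 2 ^ HH a M) :
    ∑ x ∈ range (2 ^ nn a b c M), wf a b c L M p x = 2 ^ nn a b c M * ka a b M p := by
  have := sum_wf (b := b) (c := c) hLM hp (fun _ => 1)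
  simpa using this

lemma sum_hf_abs {p : ℕ} (hp : p < 2 ^ HH a M) :
    ∑ x ∈ range (2 ^ nn a b c M), |hf a b c M p x| = 2 ^ nn a b c M * (ka a b M p * √((2:ℝ) ^ b)) := by
  have hk := ka_pos (a := a) (b := b) (M := M) p
  have h2 : (0:ℝ) < √((2:ℝ) ^ b) := Real.sqrt_pos.2 (by positivity)
  have h2b : √((2:ℝ) ^ b) * √((2:ℝ) ^ b) = 2 ^ b := Real.mul_self_sqrt (by positivity)
  have h1 : ∀ x, |hf a b c M p x| = ((ka a b M p)⁻¹ * (√((2:ℝ) ^ b))⁻¹) *
      (fun y => if inI a p y then (1:ℝ) else 0) (yy b c x) := by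
    intro x
    unfold hf
    rw [abs_mul, sg_abs, abs_of_pos (by positivity)]
  rw [Finset.sum_congr rfl fun x _ => h1 x, ← Finset.mul_sum,
    sum_leaf (fun y => if inI a p y then (1:ℝ) else 0), sum_inI haH hp]
  have e1 : (2:ℝ) ^ nn a b c M = 2 ^ HH a M * 2 ^ (b + (c + 2)) := by rw [← pow_add]
  rw [e1, ← mul_inv, inv_mul_eq_iff_eq_mul₀ (by positivity)]
  have hsq := ka_sq (a := a) (b := b) (M := M) p
  calc (2:ℝ) ^ (b + (c + 2)) * 2 ^ bl a p = (2 ^ bl a p / (2 ^ HH a M * 2 ^ b)) * 2 ^ b *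
        (2 ^ HH a M * 2 ^ (b + (c + 2))) := by field_simp
    _ = (ka a b M p * ka a b M p) * (√((2:ℝ) ^ b) * √((2:ℝ) ^ b)) *
        (2 ^ HH a M * 2 ^ (b + (c + 2))) := by rw [hsq, h2b]
    _ = _ := by ring

/-- weighted bound -/
lemma weighted {N : ℕ} {G W : ℕ → ℝ} {K : ℝ} (hGW : ∀ x < N, W x ≠ 0 → |G x| ≤ K) :
    |∑ x ∈ range N, G x * W x| ≤ K * ∑ x ∈ range N, |W x| := by
  refine (Finset.abs_sum_le_sum_abs _ _).trans ?_
  rw [Finset.mul_sum]
  refine Finset.sum_le_sum fun x hx => ?_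
  rw [abs_mul]
  by_cases h : W x = 0
  · rw [h]; simp
  · exact mul_le_mul_of_nonneg_right (hGW x (Finset.mem_range.1 hx) h) (abs_nonneg _)

variable {F : ℕ → ℝ} {y0 : ℕ} {B ε ω : ℝ}

lemma hf_supp (hLM : L ≤ M) {p x : ℕ} (h : hf a b c M p x ≠ 0) :
    x / 2 ^ (nn a b c M - L) = p / 2 ^ (HH a M - L) := by
  unfold hf sg at h
  rw [quot_eq hLM]
  by_cases hi : inI a p (yy b c x)
  · exact inI_a hi (by unfold HH; omega)
  · rw [if_neg hi] at h; simp at h

lemma qf_supp (hLM : L ≤ M) {p x : ℕ} (h : qf a b c M p x ≠ 0) :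
    x / 2 ^ (nn a b c M - L) = p / 2 ^ (HH a M - L) := by
  unfold qf at h
  rw [quot_eq hLM]
  by_cases hi : inI a p (yy b c x)
  · exact inI_a hi (by unfold HH; omega)
  · rw [if_neg (fun h => hi h.1)] at h; simp at h

lemma wf_supp {p x : ℕ} (h : wf a b c L M p x ≠ 0) :
    x / 2 ^ (nn a b c M - L) = p / 2 ^ (HH a M - L) := by
  unfold wf at h
  by_contra hi
  rw [if_neg hi] at h; simp at h

lemma zeta_bound (hLM : L ≤ M) {p : ℕ} (hp : p < 2 ^ HH a M)
    (hω : ∀ x < 2 ^ nn a b c M, x / 2 ^ (nn a b c M - L) = p / 2 ^ (HH a M - L) →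
      |F x - F (4 * (x / 4))| ≤ ω) :
    |∑ x ∈ range (2 ^ nn a b c M), (-1) ^ (x / 2) * (F x * wf a b c L M p x)| ≤
      ω * (2 ^ nn a b c M * ka a b M p) := by
  have h0 : ∑ x ∈ range (2 ^ nn a b c M), (-1) ^ (x / 2) * (F (4 * (x / 4)) * wf a b c L M p x) = 0 := by
    refine sign2 (fun x => F (4 * (x / 4)) * wf a b c L M p x) fun x => ?_
    rw [wf_inv hLM]
    congr 2
    omega
  have h1 : ∑ x ∈ range (2 ^ nn a b c M), (-1) ^ (x / 2) * (F x * wf a b c L M p x) =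
      ∑ x ∈ range (2 ^ nn a b c M), ((-1) ^ (x / 2) * (F x - F (4 * (x / 4)))) *
        wf a b c L M p x := by
    rw [← sub_zero (∑ x ∈ range (2 ^ nn a b c M), (-1) ^ (x / 2) * (F x * wf a b c L M p x)),
      ← h0, ← Finset.sum_sub_distrib]
    refine Finset.sum_congr rfl fun x _ => by ring
  rw [h1]
  refine (weighted (K := ω) fun x hx hw => ?_).trans ?_
  · rw [abs_mul, abs_pow, abs_neg, abs_one, one_pow, one_mul]
    exact hω x hx (wf_supp hw)
  · rw [Finset.sum_congr rfl fun x _ => abs_of_nonneg (wf_nonneg p x), sum_wf_one hLM hp]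

lemma xi_bound (hLM : L ≤ M) {p : ℕ} (hp : p < 2 ^ HH a M)
    (hω : ∀ x < 2 ^ nn a b c M, x / 2 ^ (nn a b c M - L) = p / 2 ^ (HH a M - L) →
      |F x - F (4 * (x / 4))| ≤ ω) :
    |∑ x ∈ range (2 ^ nn a b c M), (-1) ^ x * (F x * hf a b c M p x)| ≤
      ω * (2 ^ nn a b c M * (ka a b M p * √((2:ℝ) ^ b))) := by
  have h0 : ∑ x ∈ range (2 ^ nn a b c M), (-1) ^ x * (F (4 * (x / 4)) * hf a b c M p x) = 0 := by
    refine sign1 (fun x => F (4 * (x / 4)) * hf a b c M p x)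
      (inv42 (f := fun x => F (4 * (x / 4)) * hf a b c M p x) fun x => ?_)
    rw [hf_inv]
    congr 2
    omega
  have h1 : ∑ x ∈ range (2 ^ nn a b c M), (-1) ^ x * (F x * hf a b c M p x) =
      ∑ x ∈ range (2 ^ nn a b c M), ((-1) ^ x * (F x - F (4 * (x / 4)))) *
        hf a b c M p x := by
    rw [← sub_zero (∑ x ∈ range (2 ^ nn a b c M), (-1) ^ x * (F x * hf a b c M p x)),
      ← h0, ← Finset.sum_sub_distrib]
    refine Finset.sum_congr rfl fun x _ => by ring
  rw [h1]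
  refine (weighted (K := ω) fun x hx hw => ?_).trans ?_
  · rw [abs_mul, abs_pow, abs_neg, abs_one, one_pow, one_mul]
    exact hω x hx (hf_supp hLM hw)
  · rw [sum_hf_abs hp]

lemma dd_bound (hab : a < 2 ^ b) (hLM : L ≤ M) {p : ℕ} (hp : p < 2 ^ HH a M)
    (hB : ∀ x < 2 ^ nn a b c M, x / 2 ^ (nn a b c M - L) = p / 2 ^ (HH a M - L) → |F x| ≤ B)
    (hω : ∀ x < 2 ^ nn a b c M, x / 2 ^ (nn a b c M - L) = p / 2 ^ (HH a M - L) →
      |F x - F (4 * (x / 4))| ≤ ω) :
    |dd a b c L M F p| ≤ ka a b M p * (2 * B + ω + √((2:ℝ) ^ b) * ω) := by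
  have hN : (0:ℝ) < 2 ^ nn a b c M := by positivity
  have h := dd_split (a := a) (b := b) (c := c) (L := L) (M := M) F p
  have h1 : |∑ x ∈ range (2 ^ nn a b c M), F x * qf a b c M p x| ≤
      B * (2 ^ nn a b c M * ka a b M p) := by
    refine (weighted (K := B) fun x hx hw => hB x hx (qf_supp hLM hw)).trans ?_
    rw [Finset.sum_congr rfl fun x _ => abs_of_nonneg (qf_nonneg p x), sum_qf_one hab hp]
  have h2 : |∑ x ∈ range (2 ^ nn a b c M), F x * wf a b c L M p x| ≤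
      B * (2 ^ nn a b c M * ka a b M p) := by
    refine (weighted (K := B) fun x hx hw => hB x hx (wf_supp hw)).trans ?_
    rw [Finset.sum_congr rfl fun x _ => abs_of_nonneg (wf_nonneg p x), sum_wf_one hLM hp]
  have h3 := zeta_bound hLM hp hω
  have h4 := xi_bound hLM hp hω
  have h5 : |dd a b c L M F p| * 2 ^ nn a b c M ≤
      (ka a b M p * (2 * B + ω + √((2:ℝ) ^ b) * ω)) * 2 ^ nn a b c M := by
    rw [← abs_of_pos hN, ← abs_mul, abs_of_pos hN, h]
    rw [abs_le] at h1 h2 h3 h4 ⊢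
    constructor <;> nlinarith [h1.1, h1.2, h2.1, h2.2, h3.1, h3.2, h4.1, h4.2]
  exact le_of_mul_le_mul_right h5 hN

/-- the average over the block of level `L` -/
noncomputable def avg (a b c L M : ℕ) (F : ℕ → ℝ) (Q : ℕ) : ℝ :=
  2 ^ L * (∑ x ∈ range (2 ^ nn a b c M), F x * if x / 2 ^ (nn a b c M - L) = Q then 1 else 0) /
    2 ^ nn a b c M

lemma gamma_eq (p : ℕ) : ∑ x ∈ range (2 ^ nn a b c M), F x * wf a b c L M p x =
    ka a b M p * avg a b c L M F (p / 2 ^ (HH a M - L)) * 2 ^ nn a b c M := by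
  unfold avg wf
  rw [mul_div_assoc', div_mul_cancel₀ _ (by positivity), Finset.mul_sum, Finset.mul_sum]
  refine Finset.sum_congr rfl fun x _ => by ring

lemma dd_approx (hab : a < 2 ^ b) (hLM : L ≤ M) {p : ℕ} (hp : p < 2 ^ HH a M)
    (hI : inI a p (yy b c y0))
    (hε : ∀ x < 2 ^ nn a b c M, x / 2 ^ (nn a b c M - M) = y0 / 2 ^ (nn a b c M - M) →
      |F x - F y0| ≤ ε)
    (hω : ∀ x < 2 ^ nn a b c M, x / 2 ^ (nn a b c M - L) = p / 2 ^ (HH a M - L) →
      |F x - F (4 * (x / 4))| ≤ ω) :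
    |dd a b c L M F p - ka a b M p * (F y0 - avg a b c L M F (p / 2 ^ (HH a M - L)))| ≤
      ka a b M p * (ε + ω + √((2:ℝ) ^ b) * ω) := by
  have hN : (0:ℝ) < 2 ^ nn a b c M := by positivity
  have h := dd_split (a := a) (b := b) (c := c) (L := L) (M := M) F p
  have h1 : |∑ x ∈ range (2 ^ nn a b c M), (F x - F y0) * qf a b c M p x| ≤
      ε * (2 ^ nn a b c M * ka a b M p) := by
    refine (weighted (K := ε) fun x hx hw => hε x hx ?_).trans ?_
    · rw [quot_eq le_rfl, quot_eq le_rfl]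
      have h2 : HH a M - M = a := by unfold HH; omega
      rw [h2]
      unfold qf at hw
      by_cases hi : inI a p (yy b c x)
      · rw [inI_a hi le_rfl, inI_a hI le_rfl]
      · rw [if_neg (fun h => hi h.1)] at hw; simp at hw
    rw [Finset.sum_congr rfl fun x _ => abs_of_nonneg (qf_nonneg p x), sum_qf_one hab hp]
  have h1' : ∑ x ∈ range (2 ^ nn a b c M), (F x - F y0) * qf a b c M p x =
      ∑ x ∈ range (2 ^ nn a b c M), F x * qf a b c M p x - F y0 * (2 ^ nn a b c M * ka a b M p) := by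
    rw [← sum_qf_one (c := c) hab hp, Finset.mul_sum, ← Finset.sum_sub_distrib]
    refine Finset.sum_congr rfl fun x _ => by ring
  rw [h1'] at h1
  have h2 := gamma_eq (a := a) (b := b) (c := c) (L := L) (M := M) (F := F) p
  have h3 := zeta_bound hLM hp hω
  have h4 := xi_bound hLM hp hω
  have h5 : |dd a b c L M F p - ka a b M p * (F y0 - avg a b c L M F (p / 2 ^ (HH a M - L)))| *
      2 ^ nn a b c M ≤ (ka a b M p * (ε + ω + √((2:ℝ) ^ b) * ω)) * 2 ^ nn a b c M := by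
    rw [← abs_of_pos hN, ← abs_mul, abs_of_pos hN, sub_mul, h, h2]
    rw [abs_le] at h1 h3 h4 ⊢
    constructor <;> nlinarith [h1.1, h1.2, h3.1, h3.2, h4.1, h4.2]
  exact le_of_mul_le_mul_right h5 hN

lemma sum_ka_sq (haT : a + 1 ≤ 2 ^ b) (Q : ℕ) (hQ : Q < 2 ^ L) (hLM : L ≤ M) :
    2 ^ L * ∑ p ∈ range (2 ^ HH a M), (if p / 2 ^ (HH a M - L) = Q then
      ka a b M p * ka a b M p else 0) ≤ 1 := by
  have h1 : ∑ p ∈ range (2 ^ HH a M), (if p / 2 ^ (HH a M - L) = Q then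
      (2:ℝ) ^ bl a p else 0) = (a + 1 : ℕ) * 2 ^ (HH a M - L) := by
    have h2 : ∀ p ∈ range (2 ^ HH a M), (if p / 2 ^ (HH a M - L) = Q then
        (2:ℝ) ^ bl a p else 0) = ∑ y ∈ range (2 ^ HH a M),
        if inI a p y then (if y / 2 ^ (HH a M - L) = Q then (1:ℝ) else 0) else 0 := by
      intro p hp
      have hp' := Finset.mem_range.1 hp
      by_cases hpQ : p / 2 ^ (HH a M - L) = Q
      · rw [if_pos hpQ, ← sum_inI (a := a) haH hp']
        refine Finset.sum_congr rfl fun y _ => ?_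
        by_cases hi : inI a p y
        · rw [if_pos hi, if_pos hi, if_pos]
          rw [inI_a hi (by unfold HH; omega), hpQ]
        · rw [if_neg hi, if_neg hi]
      · rw [if_neg hpQ]
        symm
        refine Finset.sum_eq_zero fun y _ => ?_
        by_cases hi : inI a p y
        · rw [if_pos hi, if_neg]
          rw [inI_a hi (by unfold HH; omega)]; exact hpQ
        · rw [if_neg hi]
    rw [Finset.sum_congr rfl h2, Finset.sum_comm]
    have h3 : ∀ y ∈ range (2 ^ HH a M), ∑ p ∈ range (2 ^ HH a M),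
        (if inI a p y then (if y / 2 ^ (HH a M - L) = Q then (1:ℝ) else 0) else 0) =
        (a + 1 : ℕ) * (if y / 2 ^ (HH a M - L) = Q then (1:ℝ) else 0) := by
      intro y hy
      rw [← card_chain (a := a) haH (Finset.mem_range.1 hy), Finset.card_filter]
      push_cast
      rw [Finset.sum_mul]
      refine Finset.sum_congr rfl fun p _ => ?_
      split_ifs <;> simp
    rw [Finset.sum_congr rfl h3, ← Finset.mul_sum]
    congr 1
    have e : 2 ^ HH a M = 2 ^ L * 2 ^ (HH a M - L) := by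
      rw [← pow_add]; congr 1; unfold HH; omega
    rw [e, sum_div (2 ^ L) (2 ^ (HH a M - L)) (fun i => if i = Q then (1:ℝ) else 0),
      Finset.sum_ite_eq' (range (2 ^ L)) Q (fun _ => (1:ℝ)), if_pos (Finset.mem_range.2 hQ)]
    push_cast; ring
  have h4 : ∑ p ∈ range (2 ^ HH a M), (if p / 2 ^ (HH a M - L) = Q then
      ka a b M p * ka a b M p else 0) = (1 / (2 ^ HH a M * 2 ^ b)) *
      ∑ p ∈ range (2 ^ HH a M), (if p / 2 ^ (HH a M - L) = Q then (2:ℝ) ^ bl a p else 0) := by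
    rw [Finset.mul_sum]
    refine Finset.sum_congr rfl fun p _ => ?_
    split_ifs
    · rw [ka_sq]; ring
    · ring
  rw [h4, h1]
  have e : (2:ℝ) ^ HH a M = 2 ^ L * 2 ^ (HH a M - L) := by
    rw [← pow_add]; congr 1; unfold HH; omega
  rw [e]
  have hT : ((a + 1 : ℕ) : ℝ) ≤ 2 ^ b := by exact_mod_cast haT
  have : (2:ℝ) ^ L * (1 / (2 ^ L * 2 ^ (HH a M - L) * 2 ^ b) * (((a + 1 : ℕ) : ℝ) * 2 ^ (HH a M - L))) =
      ((a + 1 : ℕ) : ℝ) / 2 ^ b := by
    field_simp
  rw [this, div_le_one (by positivity)]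
  exact hT

lemma bound_nonneg {C : ℝ} {p : ℕ} {D : ℝ} (h : |D| ≤ ka a b M p * C) : 0 ≤ C := by
  have hk := ka_pos (a := a) (b := b) (M := M) p
  by_contra hc
  push Not at hc
  have := abs_nonneg D
  nlinarith

theorem block_est (haT : a + 1 ≤ 2 ^ b) (hLM : L ≤ M) (hy0 : y0 < 2 ^ nn a b c M)
    (hB : ∀ x < 2 ^ nn a b c M, x / 2 ^ (nn a b c M - L) = y0 / 2 ^ (nn a b c M - L) → |F x| ≤ B)
    (hε : ∀ x < 2 ^ nn a b c M, x / 2 ^ (nn a b c M - M) = y0 / 2 ^ (nn a b c M - M) →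
      |F x - F y0| ≤ ε)
    (hω : ∀ x < 2 ^ nn a b c M, x / 2 ^ (nn a b c M - L) = y0 / 2 ^ (nn a b c M - L) →
      |F x - F (4 * (x / 4))| ≤ ω) :
    ∃ m ≤ 2 ^ HH a M, (1 / 2) * ((((a + 1 : ℕ) : ℝ) / √((2:ℝ) ^ b)) *
        (|F y0 - avg a b c L M F (y0 / 2 ^ (nn a b c M - L))| / 3 - (ε + ω + √((2:ℝ) ^ b) * ω)) -
        3 * (2 * B + ω + √((2:ℝ) ^ b) * ω)) ≤
      |∑ p ∈ range m, cf a b c L M F p * ps a b c L M p y0| := by
  have hab : a < 2 ^ b := haT
  set Y := yy b c y0 with hY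
  set Q := y0 / 2 ^ (nn a b c M - L) with hQ
  have hYQ : Y / 2 ^ (HH a M - L) = Q := by rw [hQ, quot_eq hLM]
  have hYlt : Y < 2 ^ HH a M := by
    rw [hY]; unfold yy
    rw [Nat.div_lt_iff_lt_mul (by positivity), ← pow_add]
    exact hy0
  have hQlt : Q < 2 ^ L := by
    rw [hQ, Nat.div_lt_iff_lt_mul (by positivity), ← pow_add]
    have : L + (nn a b c M - L) = nn a b c M := by unfold nn HH; omega
    rw [this]; exact hy0
  set R := F y0 - avg a b c L M F Q with hR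
  set T := √((2:ℝ) ^ b) with hT
  have hTpos : 0 < T := Real.sqrt_pos.2 (by positivity)
  set e1 := ε + ω + T * ω with he1
  set B' := 2 * B + ω + T * ω with hB'
  obtain ⟨m, hm, hbig⟩ := big_sum (a := a) (H := HH a M) (y := Y) haH hYlt
  refine ⟨m, hm, ?_⟩
  have hmH : ∀ p ∈ range m, p < 2 ^ HH a M := fun p hp => lt_of_lt_of_le (Finset.mem_range.1 hp) hm
  -- bounds on the normalised coefficients
  have hD1 : ∀ p, p < 2 ^ HH a M → p / 2 ^ (HH a M - L) = Q →
      |dd a b c L M F p| ≤ ka a b M p * B' := by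
    intro p hp hpQ
    refine dd_bound hab hLM hp ?_ ?_
    · intro x hx hxp; exact hB x hx (by rw [hxp, hpQ])
    · intro x hx hxp; exact hω x hx (by rw [hxp, hpQ])
  have hD2 : ∀ p, p < 2 ^ HH a M → inI a p Y →
      |dd a b c L M F p - ka a b M p * R| ≤ ka a b M p * e1 := by
    intro p hp hI
    have hpQ : p / 2 ^ (HH a M - L) = Q := by
      rw [← inI_a hI (by unfold HH; omega), hYQ]
    have := dd_approx (F := F) (y0 := y0) (ε := ε) (ω := ω) (c := c) hab hLM hp hI hε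
      (fun x hx hxp => hω x hx (by rw [hxp, hpQ]))
    rw [hpQ] at this
    exact this
  -- a node containing Y exists, hence B' and e1 are nonnegative
  obtain ⟨p0, hp0, hp0I⟩ : ∃ p0 < 2 ^ HH a M, inI a p0 Y := by
    have h := card_chain (a := a) (H := HH a M) (y := Y) haH hYlt
    have : ((range (2 ^ HH a M)).filter (fun p => inI a p Y)).Nonempty := by
      rw [← Finset.card_pos, h]; omega
    obtain ⟨p, hp⟩ := this
    rw [mem_filter, mem_range] at hp
    exact ⟨p, hp.1, hp.2⟩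
  have hB'0 : 0 ≤ B' := bound_nonneg (hD1 p0 hp0 (by
    rw [← inI_a hp0I (by unfold HH; omega), hYQ]))
  have he10 : 0 ≤ e1 := bound_nonneg (hD2 p0 hp0 hp0I)
  -- P1
  have hP1 : |∑ p ∈ range m, dd a b c L M F p * qf a b c M p y0| ≤ B' := by
    refine (Finset.abs_sum_le_sum_abs _ _).trans ?_
    have h1 : ∀ p ∈ range m, |dd a b c L M F p * qf a b c M p y0| ≤
        B' * (if inI a p Y ∧ lv a p = tt b c y0 then 1 else 0) := by
      intro p hp
      have hk := ka_pos (a := a) (b := b) (M := M) p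
      unfold qf
      rw [← hY]
      by_cases hc : inI a p Y ∧ lv a p = tt b c y0
      · rw [if_pos hc, if_pos ⟨hc.1, hc.2.symm⟩, abs_mul, mul_one, mul_one, abs_of_pos (inv_pos.2 hk)]
        have := hD1 p (hmH p hp) (by rw [← inI_a hc.1 (by unfold HH; omega), hYQ])
        rw [← div_eq_mul_inv, div_le_iff₀ hk]
        linarith
      · rw [if_neg hc, if_neg (fun h => hc ⟨h.1, h.2.symm⟩)]; simp
    refine (Finset.sum_le_sum h1).trans ?_
    rw [← Finset.mul_sum]
    have h2 : ∑ p ∈ range m, (if inI a p Y ∧ lv a p = tt b c y0 then (1:ℝ) else 0) ≤ 1 := by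
      refine (Finset.sum_le_sum_of_subset_of_nonneg (Finset.range_subset_range.2 hm)
        (fun _ _ _ => by split_ifs <;> norm_num)).trans ?_
      have := card_chain_lv (a := a) (H := HH a M) (y := Y) (t := tt b c y0)
      rw [Finset.card_filter] at this
      exact_mod_cast this
    nlinarith
  -- P2
  have hP2 : |∑ p ∈ range m, dd a b c L M F p * wf a b c L M p y0| ≤ B' := by
    refine (Finset.abs_sum_le_sum_abs _ _).trans ?_
    have h1 : ∀ p ∈ range m, |dd a b c L M F p * wf a b c L M p y0| ≤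
        B' * (2 ^ L * (if p / 2 ^ (HH a M - L) = Q then ka a b M p * ka a b M p else 0)) := by
      intro p hp
      have hk := ka_pos (a := a) (b := b) (M := M) p
      unfold wf
      rw [← hQ]
      by_cases hc : p / 2 ^ (HH a M - L) = Q
      · rw [if_pos hc, if_pos hc.symm, abs_mul, mul_one,
          abs_of_pos (show 0 < 2 ^ L * ka a b M p by positivity)]
        have := hD1 p (hmH p hp) hc
        have h2L : (0:ℝ) < 2 ^ L := by positivity
        calc |dd a b c L M F p| * (2 ^ L * ka a b M p) ≤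
              (ka a b M p * B') * (2 ^ L * ka a b M p) :=
              mul_le_mul_of_nonneg_right this (by positivity)
          _ = _ := by ring
      · rw [if_neg hc, if_neg (fun h => hc h.symm)]; simp
    refine (Finset.sum_le_sum h1).trans ?_
    rw [← Finset.mul_sum, ← Finset.mul_sum]
    have h2 : ∑ p ∈ range m, (if p / 2 ^ (HH a M - L) = Q then
        ka a b M p * ka a b M p else 0) ≤ ∑ p ∈ range (2 ^ HH a M),
        (if p / 2 ^ (HH a M - L) = Q then ka a b M p * ka a b M p else 0) := by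
      refine Finset.sum_le_sum_of_subset_of_nonneg (Finset.range_subset_range.2 hm)
        (fun p _ _ => ?_)
      split_ifs
      · exact mul_self_nonneg _
      · exact le_rfl
    have h3 := sum_ka_sq (a := a) (b := b) (L := L) (M := M) haT Q hQlt hLM
    have h2L : (0:ℝ) < 2 ^ L := by positivity
    have h4 := mul_le_mul_of_nonneg_left h2 h2L.le
    nlinarith
  -- P3
  have hP3 : |∑ p ∈ range m, dd a b c L M F p * hf a b c M p y0 -
      R / T * ∑ p ∈ range m, sg a p Y| ≤ ((a + 1 : ℕ) : ℝ) * e1 / T := by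
    rw [Finset.mul_sum, ← Finset.sum_sub_distrib]
    refine (Finset.abs_sum_le_sum_abs _ _).trans ?_
    have h1 : ∀ p ∈ range m, |dd a b c L M F p * hf a b c M p y0 - R / T * sg a p Y| ≤
        (e1 / T) * (if inI a p Y then 1 else 0) := by
      intro p hp
      have hk := ka_pos (a := a) (b := b) (M := M) p
      unfold hf
      rw [← hY, ← hT]
      by_cases hc : inI a p Y
      · have h2 := hD2 p (hmH p hp) hc
        have h3 : dd a b c L M F p * ((ka a b M p)⁻¹ * T⁻¹ * sg a p Y) - R / T * sg a p Y =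
            (dd a b c L M F p - ka a b M p * R) * ((ka a b M p)⁻¹ * T⁻¹) * sg a p Y := by
          field_simp
        rw [h3, abs_mul, sg_abs, if_pos hc, mul_one, mul_one, abs_mul,
          abs_of_pos (show 0 < (ka a b M p)⁻¹ * T⁻¹ by positivity)]
        calc |dd a b c L M F p - ka a b M p * R| * ((ka a b M p)⁻¹ * T⁻¹) ≤
              (ka a b M p * e1) * ((ka a b M p)⁻¹ * T⁻¹) :=
              mul_le_mul_of_nonneg_right h2 (by positivity)
          _ = e1 / T := by field_simp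
      · have : sg a p Y = 0 := by unfold sg; rw [if_neg hc]
        rw [this, if_neg hc]; simp
    refine (Finset.sum_le_sum h1).trans ?_
    rw [← Finset.mul_sum]
    have h2 : ∑ p ∈ range m, (if inI a p Y then (1:ℝ) else 0) ≤ ((a + 1 : ℕ) : ℝ) := by
      refine (Finset.sum_le_sum_of_subset_of_nonneg (Finset.range_subset_range.2 hm)
        (fun _ _ _ => by split_ifs <;> norm_num)).trans ?_
      have := card_chain (a := a) (H := HH a M) (y := Y) haH hYlt
      rw [Finset.card_filter] at this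
      rw [← this]
      push_cast
      exact le_rfl
    have h3 : 0 ≤ e1 / T := div_nonneg he10 hTpos.le
    calc e1 / T * ∑ p ∈ range m, (if inI a p Y then (1:ℝ) else 0) ≤
          e1 / T * ((a + 1 : ℕ) : ℝ) := mul_le_mul_of_nonneg_left h2 h3
      _ = _ := by ring
  -- assemble
  have hs2 : (√2 : ℝ) * √2 = 2 := Real.mul_self_sqrt (by norm_num)
  have e2 : (√2 : ℝ)⁻¹ * (√2)⁻¹ = 1 / 2 := by rw [← mul_inv, hs2]; norm_num
  set P1 := ∑ p ∈ range m, dd a b c L M F p * qf a b c M p y0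
  set P2 := ∑ p ∈ range m, dd a b c L M F p * wf a b c L M p y0
  set P3 := ∑ p ∈ range m, dd a b c L M F p * hf a b c M p y0
  have hS : ∑ p ∈ range m, cf a b c L M F p * ps a b c L M p y0 =
      (1 / 2) * (P1 + ((-1) ^ (y0 / 2) - 1) * P2 + (-1) ^ y0 * P3) := by
    simp only [P1, P2, P3, Finset.mul_sum, ← Finset.sum_add_distrib]
    refine Finset.sum_congr rfl fun p _ => ?_
    rw [cf_eq]; unfold ps
    calc (√2)⁻¹ * dd a b c L M F p * ((√2)⁻¹ * (qf a b c M p y0 +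
          ((-1) ^ (y0 / 2) - 1) * wf a b c L M p y0 + (-1) ^ y0 * hf a b c M p y0)) =
          ((√2)⁻¹ * (√2)⁻¹) * (dd a b c L M F p * (qf a b c M p y0 +
          ((-1) ^ (y0 / 2) - 1) * wf a b c L M p y0 + (-1) ^ y0 * hf a b c M p y0)) := by ring
      _ = _ := by rw [e2]; ring
  rw [hS, abs_mul, abs_of_pos (by norm_num : (0:ℝ) < 1 / 2)]
  refine mul_le_mul_of_nonneg_left ?_ (by norm_num)
  have h5 : |(-1 : ℝ) ^ y0 * P3| = |P3| := by
    rw [abs_mul, abs_pow, abs_neg, abs_one, one_pow, one_mul]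
  have h6 : |((-1 : ℝ) ^ (y0 / 2) - 1) * P2| ≤ 2 * B' := by
    rw [abs_mul]
    have : |(-1 : ℝ) ^ (y0 / 2) - 1| ≤ 2 := by
      rcases neg_one_pow_eq_or ℝ (y0 / 2) with h | h <;> rw [h] <;> norm_num
    exact mul_le_mul this hP2 (abs_nonneg _) (by norm_num)
  have h7 : |R| / T * (((a + 1 : ℕ) : ℝ) / 3) ≤ |R / T * ∑ p ∈ range m, sg a p Y| := by
    rw [abs_mul, abs_div, abs_of_pos hTpos]
    exact mul_le_mul_of_nonneg_left hbig (by positivity)
  have h8 : |R / T * ∑ p ∈ range m, sg a p Y| ≤ |P3| + ((a + 1 : ℕ) : ℝ) * e1 / T := by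
    have := abs_sub_abs_le_abs_sub (R / T * ∑ p ∈ range m, sg a p Y) P3
    rw [abs_sub_comm] at this
    linarith
  have h9 : |P3| - B' - 2 * B' ≤ |P1 + ((-1) ^ (y0 / 2) - 1) * P2 + (-1) ^ y0 * P3| := by
    have h10 : |(-1 : ℝ) ^ y0 * P3| ≤ |P1 + ((-1) ^ (y0 / 2) - 1) * P2 + (-1) ^ y0 * P3| +
        |P1| + |((-1 : ℝ) ^ (y0 / 2) - 1) * P2| := by
      have e3 : (-1 : ℝ) ^ y0 * P3 = (P1 + ((-1) ^ (y0 / 2) - 1) * P2 + (-1) ^ y0 * P3) - P1 -
          ((-1) ^ (y0 / 2) - 1) * P2 := by ring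
      calc |(-1 : ℝ) ^ y0 * P3| = |(P1 + ((-1) ^ (y0 / 2) - 1) * P2 + (-1) ^ y0 * P3) - P1 -
          ((-1) ^ (y0 / 2) - 1) * P2| := by rw [← e3]
        _ ≤ |(P1 + ((-1) ^ (y0 / 2) - 1) * P2 + (-1) ^ y0 * P3) - P1| +
          |((-1 : ℝ) ^ (y0 / 2) - 1) * P2| := abs_sub _ _
        _ ≤ _ := by
          have := abs_sub (P1 + ((-1 : ℝ) ^ (y0 / 2) - 1) * P2 + (-1) ^ y0 * P3) P1
          linarith
    rw [h5] at h10
    linarith
  have h11 : ((a + 1 : ℕ) : ℝ) / T * (|R| / 3 - e1) =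
      |R| / T * (((a + 1 : ℕ) : ℝ) / 3) - ((a + 1 : ℕ) : ℝ) * e1 / T := by ring
  rw [h11]
  linarith

end est

end Pool.Agent.H100R3.Div
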