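import Mathlib
import Pool.Agent.H100R3.DivC

set_option autoImplicit false

open Finset

namespace Pool.Agent.H100R3.Div

section basis

variable {n L K : ℕ}

noncomputable def toV (N : ℕ) (f : ℕ → ℝ) : EuclideanSpace ℝ (Fin N) :=
  WithLp.toLp 2 (fun i : Fin N => f i / √(N : ℝ))

lemma inner_toV {N : ℕ} (hN : 0 < N) (f g : ℕ → ℝ) :
    inner ℝ (toV N f) (toV N g) = (∑ x ∈ range N, f x * g x) / N := by
  have h : √(N : ℝ) * √(N : ℝ) = N := Real.mul_self_sqrt (by positivity)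
  rw [PiLp.inner_apply, Finset.sum_range, Finset.sum_div]
  refine Finset.sum_congr rfl fun i _ => ?_
  simp only [toV]
  have : inner ℝ (f i / √(N:ℝ)) (g i / √(N:ℝ)) = f i * g i / (√(N:ℝ) * √(N:ℝ)) := by
    simp only [RCLike.inner_apply, conj_trivial]
    ring
  rw [this, h]

/-- extension of a finite orthogonal family to a full one -/
theorem extend_family (n L K : ℕ) (hK : 2 ^ L + K ≤ 2 ^ n) (hLn : L ≤ n) (ψ : ℕ → ℕ → ℝ)
    (h1 : ∀ p < K, ∀ p' < K, ∑ x ∈ range (2 ^ n), ψ p x * ψ p' x = if p = p' then 2 ^ n else 0)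
    (h2 : ∀ p < K, ∀ g : ℕ → ℝ, ∑ x ∈ range (2 ^ n), ψ p x * g (x / 2 ^ (n - L)) = 0) :
    ∃ e : ℕ → ℕ → ℝ,
      (∀ i j, 2 ^ L ≤ i → i < 2 ^ n → 2 ^ L ≤ j → j < 2 ^ n →
        ∑ x ∈ range (2 ^ n), e i x * e j x = if i = j then 2 ^ n else 0) ∧
      (∀ j, 2 ^ L ≤ j → j < 2 ^ n → ∀ g : ℕ → ℝ,
        ∑ x ∈ range (2 ^ n), e j x * g (x / 2 ^ (n - L)) = 0) ∧
      (∀ G : ℕ → ℝ, (∀ i < 2 ^ L, ∑ x ∈ range (2 ^ n), (if x / 2 ^ (n - L) = i then G x else 0) = 0) →
        (∀ j, 2 ^ L ≤ j → j < 2 ^ n → ∑ x ∈ range (2 ^ n), G x * e j x = 0) →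
        ∀ x < 2 ^ n, G x = 0) ∧
      (∀ p < K, ∀ x < 2 ^ n, e (2 ^ L + p) x = ψ p x) := by
  classical
  set N : ℕ := 2 ^ n with hN
  have hNpos : 0 < N := by positivity
  have hNr : ((N : ℕ) : ℝ) = 2 ^ n := by rw [hN]; push_cast; rfl
  have hN0 : (0:ℝ) < (N : ℝ) := by exact_mod_cast hNpos
  have hsqrtN : (0:ℝ) < √(N : ℝ) := Real.sqrt_pos.2 hN0
  have h2L : √((2:ℝ) ^ L) * √((2:ℝ) ^ L) = 2 ^ L := Real.mul_self_sqrt (by positivity)
  have hs2L : (0:ℝ) < √((2:ℝ) ^ L) := Real.sqrt_pos.2 (by positivity)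
  have hsplit : N = 2 ^ L * 2 ^ (n - L) := by rw [hN, ← pow_add]; congr 1; omega
  set u : ℕ → ℕ → ℝ := fun i x => if i < 2 ^ L then
    √((2:ℝ) ^ L) * (if x / 2 ^ (n - L) = i then 1 else 0) else ψ (i - 2 ^ L) x with hu
  have hu1 : ∀ i < 2 ^ L, ∀ x, u i x = √((2:ℝ) ^ L) * (if x / 2 ^ (n - L) = i then 1 else 0) := by
    intro i hi x; simp only [hu, if_pos hi]
  have hu2 : ∀ i, ¬ i < 2 ^ L → ∀ x, u i x = ψ (i - 2 ^ L) x := by
    intro i hi x; simp only [hu, if_neg hi]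
  have horth : ∀ i < 2 ^ L + K, ∀ j < 2 ^ L + K,
      ∑ x ∈ range N, u i x * u j x = if i = j then (N : ℝ) else 0 := by
    intro i hi j hj
    by_cases hi' : i < 2 ^ L
    · by_cases hj' : j < 2 ^ L
      · have h3 : ∀ x, u i x * u j x = (fun k => (if i = j then (2:ℝ) ^ L else 0) *
            (if k = i then (1:ℝ) else 0)) (x / 2 ^ (n - L)) := by
          intro x
          rw [hu1 i hi', hu1 j hj']
          by_cases hij : i = j
          · subst hij
            by_cases hx : x / 2 ^ (n - L) = i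
            · simp only [hx, if_true, mul_one]; exact h2L
            · simp [hx]
          · by_cases hx : x / 2 ^ (n - L) = i
            · have : ¬ (x / 2 ^ (n - L) = j) := fun h => hij (hx.symm.trans h)
              simp only [if_neg this, if_neg hij]; ring
            · simp only [if_neg hx]; ring
        rw [Finset.sum_congr rfl fun x _ => h3 x]
        have hsum := sum_div (2 ^ L) (2 ^ (n - L)) (fun k => (if i = j then (2:ℝ) ^ L else 0) *
            (if k = i then (1:ℝ) else 0))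
        rw [← hsplit] at hsum
        rw [hsum, ← Finset.mul_sum, Finset.sum_ite_eq' (range (2 ^ L)) i (fun _ => (1:ℝ)),
          if_pos (Finset.mem_range.2 hi'), mul_one]
        split_ifs
        · rw [hsplit]; push_cast; ring
        · ring
      · have hne : i ≠ j := by omega
        rw [if_neg hne]
        have h3 : ∀ x, u i x * u j x = ψ (j - 2 ^ L) x *
            (fun k => √((2:ℝ) ^ L) * (if k = i then 1 else 0)) (x / 2 ^ (n - L)) := by
          intro x; rw [hu1 i hi', hu2 j hj']; ring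
        rw [Finset.sum_congr rfl fun x _ => h3 x]
        exact h2 (j - 2 ^ L) (by omega) (fun k => √((2:ℝ) ^ L) * (if k = i then 1 else 0))
    · by_cases hj' : j < 2 ^ L
      · have hne : i ≠ j := by omega
        rw [if_neg hne]
        have h3 : ∀ x, u i x * u j x = ψ (i - 2 ^ L) x *
            (fun k => √((2:ℝ) ^ L) * (if k = j then 1 else 0)) (x / 2 ^ (n - L)) := by
          intro x; rw [hu1 j hj', hu2 i hi']
        rw [Finset.sum_congr rfl fun x _ => h3 x]
        exact h2 (i - 2 ^ L) (by omega) (fun k => √((2:ℝ) ^ L) * (if k = j then 1 else 0))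
      · have h3 : ∀ x, u i x * u j x = ψ (i - 2 ^ L) x * ψ (j - 2 ^ L) x := by
          intro x; rw [hu2 i hi', hu2 j hj']
        rw [Finset.sum_congr rfl fun x _ => h3 x, h1 _ (by omega) _ (by omega), hNr]
        have : (i - 2 ^ L = j - 2 ^ L) ↔ i = j := by omega
        simp only [this]
  set v : Fin N → EuclideanSpace ℝ (Fin N) := fun i => toV N (u i) with hv
  set s : Set (Fin N) := {i | (i : ℕ) < 2 ^ L + K} with hs
  have hon : Orthonormal ℝ (s.domRestrict v) := by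
    rw [orthonormal_iff_ite]
    rintro ⟨i, hi⟩ ⟨j, hj⟩
    show inner ℝ (toV N (u i)) (toV N (u j)) = _
    rw [inner_toV hNpos, horth i hi j hj]
    by_cases hij : i = j
    · subst hij; simp [hN0.ne']
    · have h4 : ¬ ((i : ℕ) = j) := fun h => hij (Fin.ext h)
      simp [hij, h4]
  obtain ⟨b, hb⟩ := hon.exists_orthonormalBasis_extension_of_card_eq (by simp)
  set e : ℕ → ℕ → ℝ := fun j x => if h : j < N ∧ x < N then
    √(N : ℝ) * (b ⟨j, h.1⟩) ⟨x, h.2⟩ else 0 with he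
  have he1 : ∀ (j : ℕ) (hj : j < N) (f : ℕ → ℝ), ∑ x ∈ range N, f x * e j x =
      (N : ℝ) * inner ℝ (toV N f) (b ⟨j, hj⟩) := by
    intro j hj f
    rw [PiLp.inner_apply, Finset.sum_range, Finset.mul_sum]
    refine Finset.sum_congr rfl fun i _ => ?_
    simp only [he]
    rw [dif_pos ⟨hj, i.2⟩]
    simp only [toV, RCLike.inner_apply, conj_trivial]
    have h5 : √(N : ℝ) * √(N : ℝ) = N := Real.mul_self_sqrt (by positivity)
    have h6 : (N : ℝ) * ((b ⟨j, hj⟩) i * (f i / √(N : ℝ))) =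
        (√(N : ℝ) * √(N : ℝ)) * ((b ⟨j, hj⟩) i * (f i / √(N : ℝ))) := by rw [h5]
    rw [h6]
    field_simp
  have he2 : ∀ (j : ℕ) (hj : j < N), toV N (e j) = b ⟨j, hj⟩ := by
    intro j hj
    ext i
    simp only [toV, he]
    rw [dif_pos ⟨hj, i.2⟩]
    field_simp
  have he3 : ∀ i < N, ∀ j < N, ∑ x ∈ range N, e i x * e j x = if i = j then (N : ℝ) else 0 := by
    intro i hi j hj
    rw [he1 j hj, he2 i hi, orthonormal_iff_ite.1 b.orthonormal]
    simp only [Fin.mk.injEq]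
    split_ifs <;> simp
  have he4 : ∀ j < 2 ^ L + K, ∀ x < N, e j x = u j x := by
    intro j hj x hx
    have hjN : j < N := lt_of_lt_of_le hj hK
    have h5 := hb ⟨j, hjN⟩ hj
    simp only [he]
    rw [dif_pos ⟨hjN, hx⟩, h5]
    simp only [hv, toV]
    field_simp
  refine ⟨e, ?_, ?_, ?_, ?_⟩
  · intro i j _ hi _ hj
    rw [he3 i hi j hj, hNr]
  · intro j hjL hj g
    have h6 : ∀ i < 2 ^ L, ∑ x ∈ range N, e j x * (if x / 2 ^ (n - L) = i then 1 else 0) = 0 := by
      intro i hi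
      have h7 := he3 j hj i (by omega)
      rw [if_neg (by omega)] at h7
      have h8 : ∀ x ∈ range N, e j x * e i x = √((2:ℝ) ^ L) *
          (e j x * (if x / 2 ^ (n - L) = i then 1 else 0)) := by
        intro x hx
        rw [he4 i (by omega) x (Finset.mem_range.1 hx), hu1 i hi]; ring
      rw [Finset.sum_congr rfl h8, ← Finset.mul_sum] at h7
      exact (mul_eq_zero.1 h7).resolve_left hs2L.ne'
    have h9 : ∀ x ∈ range N, e j x * g (x / 2 ^ (n - L)) = ∑ i ∈ range (2 ^ L),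
        g i * (e j x * (if x / 2 ^ (n - L) = i then 1 else 0)) := by
      intro x hx
      rw [Finset.sum_eq_single (x / 2 ^ (n - L))]
      · rw [if_pos rfl]; ring
      · intro i _ hne
        rw [if_neg (Ne.symm hne)]; ring
      · intro hcon
        exfalso
        apply hcon
        rw [Finset.mem_range, Nat.div_lt_iff_lt_mul (by positivity), ← hsplit]
        exact Finset.mem_range.1 hx
    rw [Finset.sum_congr rfl h9, Finset.sum_comm]
    refine Finset.sum_eq_zero fun i hi => ?_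
    rw [← Finset.mul_sum, h6 i (Finset.mem_range.1 hi), mul_zero]
  · intro G hG1 hG2
    have h10 : ∀ j : Fin N, inner ℝ (toV N G) (b j) = 0 := by
      intro j
      have h11 := he1 j j.2 G
      by_cases hj : (j : ℕ) < 2 ^ L
      · have h12 : ∑ x ∈ range N, G x * e j x = 0 := by
          have h8 : ∀ x ∈ range N, G x * e j x = √((2:ℝ) ^ L) *
              (if x / 2 ^ (n - L) = (j : ℕ) then G x else 0) := by
            intro x hx
            rw [he4 j (by omega) x (Finset.mem_range.1 hx), hu1 j hj]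
            split_ifs <;> ring
          rw [Finset.sum_congr rfl h8, ← Finset.mul_sum, hG1 j hj, mul_zero]
        rw [h12] at h11
        exact (mul_eq_zero.1 h11.symm).resolve_left hN0.ne'
      · rw [hG2 j (by omega) j.2] at h11
        exact (mul_eq_zero.1 h11.symm).resolve_left hN0.ne'
    have h13 : toV N G = 0 := by
      have := b.sum_repr (toV N G)
      rw [← this]
      refine Finset.sum_eq_zero fun j _ => ?_
      rw [b.repr_apply_apply, real_inner_comm, h10 j, zero_smul]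
    intro x hx
    have h14 : (toV N G) ⟨x, hx⟩ = 0 := by rw [h13]; rfl
    simp only [toV] at h14
    exact (div_eq_zero_iff.1 h14).resolve_right hsqrtN.ne'
  · intro p hp x hx
    rw [he4 (2 ^ L + p) (by omega) x hx, hu2 _ (by omega)]
    congr 1
    omega

end basis

theorem block (L M : ℕ) (hLM : L ≤ M) (δ B A : ℝ) (hδ : 0 < δ) (hB0 : 0 ≤ B) :
    ∃ (K0 : ℕ) (ω : ℝ), 2 ≤ K0 ∧ 0 < ω ∧ ∀ c n : ℕ, n = M + K0 + c → ∃ e : ℕ → ℕ → ℝ,
      (∀ i j, 2 ^ L ≤ i → i < 2 ^ n → 2 ^ L ≤ j → j < 2 ^ n →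
        ∑ x ∈ range (2 ^ n), e i x * e j x = if i = j then 2 ^ n else 0) ∧
      (∀ j, 2 ^ L ≤ j → j < 2 ^ n → ∀ g : ℕ → ℝ,
        ∑ x ∈ range (2 ^ n), e j x * g (x / 2 ^ (n - L)) = 0) ∧
      (∀ G : ℕ → ℝ, (∀ i < 2 ^ L, ∑ x ∈ range (2 ^ n), (if x / 2 ^ (n - L) = i then G x else 0) = 0) →
        (∀ j, 2 ^ L ≤ j → j < 2 ^ n → ∑ x ∈ range (2 ^ n), G x * e j x = 0) →
        ∀ x < 2 ^ n, G x = 0) ∧
      (∀ (F : ℕ → ℝ) (y0 : ℕ), y0 < 2 ^ n →
        (∀ x < 2 ^ n, x / 2 ^ (n - L) = y0 / 2 ^ (n - L) → |F x| ≤ B) →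
        (∀ x < 2 ^ n, x / 2 ^ (n - M) = y0 / 2 ^ (n - M) → |F x - F y0| ≤ δ / 24) →
        (∀ x < 2 ^ n, x / 2 ^ (n - L) = y0 / 2 ^ (n - L) → |F x - F (4 * (x / 4))| ≤ ω) →
        δ ≤ |F y0 - 2 ^ L * (∑ x ∈ range (2 ^ n), F x *
          if x / 2 ^ (n - L) = y0 / 2 ^ (n - L) then 1 else 0) / 2 ^ n| →
        ∃ m, 2 ^ L ≤ m ∧ m ≤ 2 ^ n ∧
          A ≤ |∑ j ∈ Finset.Ico (2 ^ L) m, ((∑ x ∈ range (2 ^ n), F x * e j x) / 2 ^ n) * e j y0|) := by
  -- choose b
  set X : ℝ := (4 / δ) * (2 * |A| + 3 * (2 * B + 1)) with hX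
  obtain ⟨b, hb⟩ := pow_unbounded_of_one_lt (X ^ 2) (by norm_num : (1:ℝ) < 2)
  set a : ℕ := 2 ^ b - 1 with ha
  have h2b : 0 < 2 ^ b := by positivity
  have hab : a + 1 = 2 ^ b := by omega
  set T : ℝ := √((2:ℝ) ^ b) with hT
  have hTT : T * T = 2 ^ b := Real.mul_self_sqrt (by positivity)
  have hT0 : 0 < T := Real.sqrt_pos.2 (by positivity)
  have hXpos : 0 < X := by
    rw [hX]
    have : 0 ≤ |A| := abs_nonneg A
    have h3 : 0 < 4 / δ := by positivity
    nlinarith [mul_nonneg h3.le this]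
  have hXT : X ≤ T := by
    rw [hT]
    exact Real.le_sqrt_of_sq_le hb.le
  set ω : ℝ := min (δ / 24) 1 / (1 + T) with hω
  have hω0 : 0 < ω := by
    rw [hω]
    have : 0 < min (δ / 24) 1 := lt_min (by linarith) one_pos
    positivity
  have hω1 : ω + T * ω ≤ min (δ / 24) 1 := by
    have : ω + T * ω = ω * (1 + T) := by ring
    rw [this, hω, div_mul_cancel₀ _ (by positivity)]
  refine ⟨a + b + 2, ω, by omega, hω0, fun c n hn => ?_⟩
  have hnn : nn a b c M = n := by rw [hn]; unfold nn HH; omega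
  have hLn : L ≤ n := by omega
  have hsize : 2 ^ L + 2 ^ HH a M ≤ 2 ^ n := by
    have h5 : 2 ^ L ≤ 2 ^ (n - 1) := Nat.pow_le_pow_right (by norm_num) (by omega)
    have h6 : 2 ^ HH a M ≤ 2 ^ (n - 1) := Nat.pow_le_pow_right (by norm_num) (by
      unfold HH; omega)
    have h7 : 2 ^ n = 2 * 2 ^ (n - 1) := by rw [← pow_succ']; congr 1; omega
    omega
  obtain ⟨e, he1, he2, he3, he4⟩ := extend_family n L (2 ^ HH a M) hsize hLn
    (fun p x => ps a b c L M p x)
    (fun p hp p' hp' => by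
      have := ps_orth (a := a) (b := b) (c := c) (L := L) (M := M) (by omega) hLM hp hp'
      rw [hnn] at this
      exact this)
    (fun p hp g => by
      have := ps_orth_L (a := a) (b := b) (c := c) (L := L) (M := M) (by omega) hLM hp g
      rw [hnn] at this
      exact this)
  refine ⟨e, he1, he2, he3, ?_⟩
  intro F y0 hy0 hFB hFε hFω hδF
  have hest := block_est (a := a) (b := b) (c := c) (L := L) (M := M) (F := F) (y0 := y0)
    (B := B) (ε := δ / 24) (ω := ω) (by omega) hLM (by rw [hnn]; exact hy0)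
    (by rw [hnn]; exact hFB) (by rw [hnn]; exact hFε) (by rw [hnn]; exact hFω)
  obtain ⟨m, hm, hbig⟩ := hest
  refine ⟨2 ^ L + m, by omega, by omega, ?_⟩
  have hsum : ∑ j ∈ Finset.Ico (2 ^ L) (2 ^ L + m),
      ((∑ x ∈ range (2 ^ n), F x * e j x) / 2 ^ n) * e j y0 =
      ∑ p ∈ range m, cf a b c L M F p * ps a b c L M p y0 := by
    rw [Finset.sum_Ico_eq_sum_range, Nat.add_sub_cancel_left]
    refine Finset.sum_congr rfl fun p hp => ?_
    have hp' : p < 2 ^ HH a M := lt_of_lt_of_le (Finset.mem_range.1 hp) hm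
    rw [he4 p hp' y0 hy0]
    unfold cf
    rw [hnn]
    congr 2
    refine Finset.sum_congr rfl fun x hx => ?_
    rw [he4 p hp' x (Finset.mem_range.1 hx)]
  rw [hsum]
  refine le_trans ?_ hbig
  have hR : δ ≤ |F y0 - avg a b c L M F (y0 / 2 ^ (nn a b c M - L))| := by
    unfold avg
    rw [hnn]
    exact hδF
  set R := |F y0 - avg a b c L M F (y0 / 2 ^ (nn a b c M - L))| with hRdef
  have hac : ((a + 1 : ℕ) : ℝ) = 2 ^ b := by rw [hab]; push_cast; rfl
  rw [hac, ← hT, ← hTT]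
  have h8 : T * T / T = T := by field_simp
  rw [h8]
  have h9 : ω + T * ω ≤ δ / 24 := hω1.trans (min_le_left _ _)
  have h10 : ω + T * ω ≤ 1 := hω1.trans (min_le_right _ _)
  have h11 : δ / 4 ≤ R / 3 - (δ / 24 + ω + T * ω) := by linarith
  have h12 : T * (δ / 4) ≤ T * (R / 3 - (δ / 24 + ω + T * ω)) :=
    mul_le_mul_of_nonneg_left h11 hT0.le
  have h13 : 2 * |A| + 3 * (2 * B + 1) ≤ T * (δ / 4) := by
    have : X * (δ / 4) = 2 * |A| + 3 * (2 * B + 1) := by
      rw [hX]; field_simp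
    rw [← this]
    exact mul_le_mul_of_nonneg_right hXT (by linarith)
  have h14 := le_abs_self A
  nlinarith [abs_nonneg A]

end Pool.Agent.H100R3.Div
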