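import Mathlib
import Pool.Agent.H100R3.DivD

set_option autoImplicit false

open Finset MeasureTheory

namespace Pool.Agent.H100R3.Div

/-- cell index -/
noncomputable def cix (n : ℕ) (t : ℝ) : ℕ := ⌊(2:ℝ) ^ n * t ^ 2⌋₊

/-- cell -/
noncomputable def cell (n x : ℕ) : Set ℝ := Set.Ico (√((x:ℝ) / 2 ^ n)) (√(((x:ℝ) + 1) / 2 ^ n))

lemma mem_cell {n x : ℕ} {t : ℝ} : t ∈ cell n x ↔ 0 ≤ t ∧ cix n t = x := by
  unfold cell cix
  have hp : (0:ℝ) < 2 ^ n := by positivity
  rw [Set.mem_Ico, Real.sqrt_le_iff, Nat.floor_eq_iff (by positivity)]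
  constructor
  · rintro ⟨⟨h0, h1⟩, h2⟩
    rw [Real.lt_sqrt h0, lt_div_iff₀ hp] at h2
    rw [div_le_iff₀ hp] at h1
    exact ⟨h0, by linarith, by linarith⟩
  · rintro ⟨h0, h1, h2⟩
    refine ⟨⟨h0, ?_⟩, ?_⟩
    · rw [div_le_iff₀ hp]; linarith
    · rw [Real.lt_sqrt h0, lt_div_iff₀ hp]; linarith

lemma cell_meas (n x : ℕ) : MeasurableSet (cell n x) := measurableSet_Ico

lemma cix_lt {n : ℕ} {t : ℝ} (h0 : 0 ≤ t) (h1 : t < 1) : cix n t < 2 ^ n := by
  unfold cix
  rw [Nat.floor_lt (by positivity)]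
  push_cast
  have : t ^ 2 < 1 := by nlinarith
  have hp : (0:ℝ) < 2 ^ n := by positivity
  nlinarith

lemma cell_sub {n x : ℕ} (hx : x < 2 ^ n) : cell n x ⊆ Set.Ico 0 1 := by
  intro t ht
  unfold cell at ht
  refine ⟨(Real.sqrt_nonneg _).trans ht.1, lt_of_lt_of_le ht.2 ?_⟩
  refine Real.sqrt_le_one.2 ?_
  rw [div_le_one (by positivity)]
  exact_mod_cast hx

lemma Ico_eq (n : ℕ) : Set.Ico (0:ℝ) 1 = ⋃ x ∈ range (2 ^ n), cell n x := by
  ext t
  simp only [Set.mem_iUnion, Finset.mem_range, exists_prop]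
  constructor
  · intro ht
    exact ⟨cix n t, cix_lt ht.1 ht.2, mem_cell.2 ⟨ht.1, rfl⟩⟩
  · rintro ⟨x, hx, ht⟩
    exact cell_sub hx ht

lemma cell_disj (n : ℕ) : (↑(range (2 ^ n)) : Set ℕ).PairwiseDisjoint (cell n) := by
  intro x _ y _ hxy
  rw [Function.onFun, Set.disjoint_left]
  intro t h1 h2
  exact hxy ((mem_cell.1 h1).2.symm.trans (mem_cell.1 h2).2)

lemma int_Ico (G : ℝ → ℝ) : ∫ t in Set.Icc (0:ℝ) 1, G t = ∫ t in Set.Ico (0:ℝ) 1, G t := by
  rw [integral_Icc_eq_integral_Ioc, integral_Ico_eq_integral_Ioc]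

lemma int_cells (n : ℕ) {G : ℝ → ℝ} (hG : IntegrableOn G (Set.Icc 0 1)) (g : ℕ → ℝ) :
    ∫ t in Set.Icc (0:ℝ) 1, G t * g (cix n t) =
      ∑ x ∈ range (2 ^ n), (∫ t in cell n x, G t) * g x := by
  rw [int_Ico, Ico_eq n, integral_biUnion_finset]
  · refine Finset.sum_congr rfl fun x _ => ?_
    rw [← integral_mul_const]
    refine setIntegral_congr_fun (cell_meas n x) fun t ht => ?_
    rw [(mem_cell.1 ht).2]
  · exact fun x _ => cell_meas n x
  · exact cell_disj n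
  · intro x hx
    have h1 : IntegrableOn (fun t => G t * g x) (cell n x) :=
      (hG.mono_set ((cell_sub (Finset.mem_range.1 hx)).trans Set.Ico_subset_Icc_self)).mul_const _
    refine h1.congr_fun (fun t ht => ?_) (cell_meas n x)
    rw [(mem_cell.1 ht).2]

/-- the averages over the cells of level `n` -/
noncomputable def av (f : ℝ → ℝ) (n x : ℕ) : ℝ := 2 ^ n * ∫ s in cell n x, f s * √(2 * s)

lemma int_two (n x : ℕ) : ∫ s in cell n x, 2 * s = 1 / 2 ^ n := by
  unfold cell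
  have hle : √((x:ℝ) / 2 ^ n) ≤ √(((x:ℝ) + 1) / 2 ^ n) := Real.sqrt_le_sqrt (by gcongr; linarith)
  rw [integral_Ico_eq_integral_Ioc, ← intervalIntegral.integral_of_le hle,
    intervalIntegral.integral_const_mul, integral_id]
  rw [Real.sq_sqrt (by positivity), Real.sq_sqrt (by positivity)]
  field_simp
  ring

lemma two_int (n x : ℕ) : IntegrableOn (fun s : ℝ => 2 * s) (cell n x) := by
  unfold cell
  exact ((continuous_const.mul continuous_id).integrableOn_Icc).mono_set Set.Ico_subset_Icc_self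

lemma sqrt_two_mul {s : ℝ} (hs : 0 ≤ s) (f : ℝ → ℝ) :
    f s * √(2 * s) = (f s / √(2 * s)) * (2 * s) := by
  rcases hs.eq_or_lt with rfl | h
  · simp
  · have h2 : √(2 * s) * √(2 * s) = 2 * s := Real.mul_self_sqrt (by positivity)
    have h3 : √(2 * s) ≠ 0 := (Real.sqrt_pos.2 (by positivity)).ne'
    rw [div_mul_eq_mul_div, eq_div_iff h3, mul_assoc, h2]

lemma av_close {f : ℝ → ℝ} {n x : ℕ} (hf : IntegrableOn (fun s => f s * √(2 * s)) (cell n x))
    {v K : ℝ} (h : ∀ s ∈ cell n x, |f s / √(2 * s) - v| ≤ K) : |av f n x - v| ≤ K := by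
  have hp : (0:ℝ) < 2 ^ n := by positivity
  have h1 : av f n x - v = 2 ^ n * ∫ s in cell n x, (f s * √(2 * s) - v * (2 * s)) := by
    rw [integral_sub hf ((two_int n x).const_mul v), integral_const_mul, int_two]
    unfold av
    field_simp
  have h2 : |∫ s in cell n x, (f s * √(2 * s) - v * (2 * s))| ≤ ∫ s in cell n x, K * (2 * s) := by
    rw [← Real.norm_eq_abs]
    refine norm_integral_le_of_norm_le ((two_int n x).const_mul K) ?_
    rw [ae_restrict_iff' (cell_meas n x)]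
    refine ae_of_all _ fun s hs => ?_
    have hs0 := (mem_cell.1 hs).1
    rw [sqrt_two_mul hs0, ← sub_mul, Real.norm_eq_abs, abs_mul, abs_of_nonneg (by positivity : 0 ≤ 2 * s)]
    exact mul_le_mul_of_nonneg_right (h s hs) (by positivity)
  rw [integral_const_mul, int_two] at h2
  rw [h1, abs_mul, abs_of_pos hp]
  calc 2 ^ n * |∫ s in cell n x, (f s * √(2 * s) - v * (2 * s))| ≤ 2 ^ n * (K * (1 / 2 ^ n)) :=
        mul_le_mul_of_nonneg_left h2 hp.le
    _ = K := by field_simp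

lemma cell_diam {n x : ℕ} {s t : ℝ} (hs : s ∈ cell n x) (ht : t ∈ cell n x) :
    |s - t| ≤ √(1 / 2 ^ n) := by
  have hp : (0:ℝ) < 2 ^ n := by positivity
  have hs1 := mem_cell.1 hs
  have ht1 := mem_cell.1 ht
  have h1 : ∀ u : ℝ, 0 ≤ u → cix n u = x → (x:ℝ) ≤ 2 ^ n * u ^ 2 ∧ 2 ^ n * u ^ 2 < x + 1 := by
    intro u _ hu
    unfold cix at hu
    rwa [Nat.floor_eq_iff (by positivity)] at hu
  have h2 := h1 s hs1.1 hs1.2
  have h3 := h1 t ht1.1 ht1.2
  apply Real.le_sqrt_of_sq_le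
  rw [sq_abs, le_div_iff₀ hp]
  have h4 : (s - t) ^ 2 ≤ |s ^ 2 - t ^ 2| := by
    have : s ^ 2 - t ^ 2 = (s - t) * (s + t) := by ring
    rw [this, abs_mul, ← sq_abs, pow_two]
    refine mul_le_mul_of_nonneg_left ?_ (abs_nonneg _)
    rw [abs_of_nonneg (by linarith [hs1.1, ht1.1] : 0 ≤ s + t), abs_le]
    constructor <;> linarith [hs1.1, ht1.1]
  have h5 : |s ^ 2 - t ^ 2| * 2 ^ n ≤ 1 := by
    rw [← abs_of_pos hp, ← abs_mul, abs_le]
    constructor <;> nlinarith [h2.1, h2.2, h3.1, h3.2]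
  nlinarith

lemma cix_div {L n : ℕ} (hLn : L ≤ n) (t : ℝ) : cix n t / 2 ^ (n - L) = cix L t := by
  unfold cix
  have h1 : (2:ℝ) ^ L * t ^ 2 = (2 ^ n * t ^ 2) / ((2 ^ (n - L) : ℕ) : ℝ) := by
    have : (2:ℝ) ^ n = 2 ^ L * 2 ^ (n - L) := by rw [← pow_add]; congr 1; omega
    rw [this]; push_cast; field_simp
  rw [h1, Nat.floor_div_natCast]

lemma cell_sub_cell {L n x : ℕ} (hLn : L ≤ n) : cell n x ⊆ cell L (x / 2 ^ (n - L)) := by
  intro t ht
  have h := mem_cell.1 ht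
  exact mem_cell.2 ⟨h.1, by rw [← cix_div hLn, h.2]⟩

lemma cell_nonempty (n x : ℕ) : (cell n x).Nonempty := by
  unfold cell
  rw [Set.nonempty_Ico]
  refine Real.sqrt_lt_sqrt (by positivity) ?_
  rw [div_lt_div_iff_of_pos_right (by positivity)]
  linarith

/-- the class of good functions on a set -/
structure Cls (N : ℝ) (J : Set ℝ) (f : ℝ → ℝ) : Prop where
  bd : ∀ s ∈ J, |f s / √(2 * s)| ≤ N
  lip : ∀ s ∈ J, ∀ t ∈ J, |f s / √(2 * s) - f t / √(2 * t)| ≤ N * |s - t|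
  low : ∀ s ∈ J, ∀ t ∈ J, |s - t| ≤ N * |f s / √(2 * s) - f t / √(2 * t)|

lemma exc_meas {N : ℝ} {J : Set ℝ} {f : ℝ → ℝ} (hf : Cls N J f) (hN : 0 < N) (c δ : ℝ)
    (hδ : 0 < δ) :
    volume {t | t ∈ J ∧ |f t / √(2 * t) - c| < 2 * δ} ≤ ENNReal.ofReal (8 * δ * N) := by
  rcases Set.eq_empty_or_nonempty {t | t ∈ J ∧ |f t / √(2 * t) - c| < 2 * δ} with h | ⟨t0, h0⟩
  · rw [h]; simp
  · have hsub : {t | t ∈ J ∧ |f t / √(2 * t) - c| < 2 * δ} ⊆
        Set.Icc (t0 - 4 * δ * N) (t0 + 4 * δ * N) := by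
      rintro t ⟨htJ, ht⟩
      have h1 := hf.low t htJ t0 h0.1
      have h2 : |f t / √(2 * t) - f t0 / √(2 * t0)| ≤ 4 * δ := by
        have h3 := abs_lt.1 ht
        have h4 := abs_lt.1 h0.2
        rw [abs_le]
        constructor <;> linarith
      have h3 : |t - t0| ≤ 4 * δ * N := by nlinarith
      rw [abs_le] at h3
      constructor <;> linarith [h3.1, h3.2]
    refine (measure_mono hsub).trans ?_
    rw [Real.volume_Icc]
    refine ENNReal.ofReal_le_ofReal ?_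
    linarith

theorem stage (L k l i : ℕ) (N A : ℝ) (hN : 0 < N) (hlL : l ≤ L) (hi : i < 2 ^ l) :
    ∃ n, L < n ∧ ∃ e : ℕ → ℕ → ℝ,
      (∀ i j, 2 ^ L ≤ i → i < 2 ^ n → 2 ^ L ≤ j → j < 2 ^ n →
        ∑ x ∈ range (2 ^ n), e i x * e j x = if i = j then 2 ^ n else 0) ∧
      (∀ j, 2 ^ L ≤ j → j < 2 ^ n → ∀ g : ℕ → ℝ,
        ∑ x ∈ range (2 ^ n), e j x * g (x / 2 ^ (n - L)) = 0) ∧
      (∀ G : ℕ → ℝ, (∀ i < 2 ^ L, ∑ x ∈ range (2 ^ n), (if x / 2 ^ (n - L) = i then G x else 0) = 0) →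
        (∀ j, 2 ^ L ≤ j → j < 2 ^ n → ∑ x ∈ range (2 ^ n), G x * e j x = 0) →
        ∀ x < 2 ^ n, G x = 0) ∧
      (∀ f : ℝ → ℝ, IntegrableOn (fun s => f s * √(2 * s)) (Set.Icc 0 1) → Cls N (cell l i) f →
        ∃ E : Set ℝ, volume E ≤ ENNReal.ofReal (1 / 2 ^ k) ∧ ∀ t ∈ cell l i, t ∉ E →
          ∃ m, 2 ^ L ≤ m ∧ m ≤ 2 ^ n ∧
          A ≤ |∑ j ∈ Finset.Ico (2 ^ L) m,
            (∫ s in Set.Icc (0:ℝ) 1, f s * √(2 * s) * e j (cix n s)) * e j (cix n t)|) := by
  set δ : ℝ := 1 / (2 ^ k * 2 ^ L * 8 * N) with hδ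
  have hδ0 : 0 < δ := by rw [hδ]; positivity
  -- a level at which the functions are nearly constant
  have hlev : ∀ κ : ℝ, 0 < κ → ∃ M0 : ℕ, ∀ M ≥ M0, N * √(1 / 2 ^ M) ≤ κ := by
    intro κ hκ
    have h1 : Filter.Tendsto (fun M : ℕ => N * √(1 / 2 ^ M)) Filter.atTop (nhds (N * √0)) := by
      have h2 : Filter.Tendsto (fun M : ℕ => (1:ℝ) / 2 ^ M) Filter.atTop (nhds 0) := by
        have := tendsto_pow_atTop_nhds_zero_of_lt_one (r := (1/2:ℝ)) (by norm_num) (by norm_num)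
        refine this.congr fun M => ?_
        rw [one_div, one_div, inv_pow]
      exact ((Real.continuous_sqrt.tendsto 0).comp h2).const_mul N
    rw [Real.sqrt_zero, mul_zero] at h1
    have h3 := h1.eventually (gt_mem_nhds hκ)
    obtain ⟨M0, hM0⟩ := Filter.eventually_atTop.1 h3
    exact ⟨M0, fun M hM => (hM0 M hM).le⟩
  obtain ⟨M0, hM0⟩ := hlev (δ / 48) (by linarith)
  set M := max M0 L with hM
  have hLM : L ≤ M := le_max_right _ _
  obtain ⟨K0, ω, hK0, hω, hblock⟩ := block L M hLM δ N A hδ0 hN.le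
  obtain ⟨M1, hM1⟩ := hlev (min (ω / 2) δ) (lt_min (by linarith) hδ0)
  set c := M1 + 2 with hc
  set n := M + K0 + c with hn
  obtain ⟨e, he1, he2, he3, he4⟩ := hblock c n hn
  have hLn : L ≤ n := by omega
  have hMn : M ≤ n := by omega
  have hln : l ≤ n := by omega
  refine ⟨n, by omega, e, he1, he2, he3, ?_⟩
  intro f hfi hf
  -- the exceptional set
  set cQ : ℕ → ℝ := fun Q => 2 ^ L * (∑ x ∈ range (2 ^ n), av f n x *
    if x / 2 ^ (n - L) = Q then 1 else 0) / 2 ^ n with hcQ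
  refine ⟨⋃ Q ∈ range (2 ^ L), {t | t ∈ cell l i ∧ |f t / √(2 * t) - cQ Q| < 2 * δ}, ?_, ?_⟩
  · refine (measure_biUnion_finset_le _ _).trans ?_
    refine (Finset.sum_le_sum fun Q _ => exc_meas hf hN (cQ Q) δ hδ0).trans ?_
    rw [Finset.sum_const, Finset.card_range, nsmul_eq_mul]
    have h1 : ((2 ^ L : ℕ) : ENNReal) = ENNReal.ofReal (2 ^ L) := by
      rw [ENNReal.ofReal_pow (by norm_num)]; simp
    rw [h1, ← ENNReal.ofReal_mul (by positivity)]
    refine ENNReal.ofReal_le_ofReal (le_of_eq ?_)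
    rw [hδ]
    field_simp
  · intro t ht hE
    have ht1 := mem_cell.1 ht
    have ht01 := cell_sub hi ht
    set y0 := cix n t with hy0
    have hy0lt : y0 < 2 ^ n := cix_lt ht01.1 ht01.2
    have hint : ∀ x < 2 ^ n, IntegrableOn (fun s => f s * √(2 * s)) (cell n x) := fun x hx =>
      hfi.mono_set ((cell_sub hx).trans Set.Ico_subset_Icc_self)
    -- every cell of level n in the block of y0 of level L is inside cell l i
    have hy0L : y0 / 2 ^ (n - l) = i := by rw [hy0, cix_div hln, ht1.2]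
    have hin : ∀ x, x / 2 ^ (n - L) = y0 / 2 ^ (n - L) → cell n x ⊆ cell l i := by
      intro x hx
      have h1 : x / 2 ^ (n - l) = i := by
        have h2 : n - l = (n - L) + (L - l) := by omega
        rw [h2, pow_add, ← Nat.div_div_eq_div_mul, hx, Nat.div_div_eq_div_mul, ← pow_add, ← h2, hy0L]
      have := cell_sub_cell (x := x) hln
      rwa [h1] at this
    have htn : t ∈ cell n y0 := mem_cell.2 ⟨ht1.1, rfl⟩
    -- closeness at level M' for points of the same cell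
    have hclose : ∀ M' x, M' ≤ n → x < 2 ^ n → cell n x ⊆ cell l i → ∀ u ∈ cell l i,
        cix M' u = x / 2 ^ (n - M') → |av f n x - f u / √(2 * u)| ≤ N * √(1 / 2 ^ M') := by
      intro M' x hM' hx hsub u hu huM
      refine av_close (hint x hx) fun s hs => ?_
      refine (hf.lip s (hsub hs) u hu).trans ?_
      refine mul_le_mul_of_nonneg_left ?_ hN.le
      refine cell_diam (n := M') (x := x / 2 ^ (n - M')) (cell_sub_cell hM' hs) ?_
      exact mem_cell.2 ⟨(mem_cell.1 hu).1, huM⟩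
    have hLl : ∀ x, x / 2 ^ (n - M) = y0 / 2 ^ (n - M) → x / 2 ^ (n - L) = y0 / 2 ^ (n - L) := by
      intro x hx
      have h2 : n - L = (n - M) + (M - L) := by omega
      rw [h2, pow_add, ← Nat.div_div_eq_div_mul, hx, Nat.div_div_eq_div_mul]
    have hgoal := he4 (av f n) y0 hy0lt ?_ ?_ ?_ ?_
    · obtain ⟨m, hm1, hm2, hm3⟩ := hgoal
      refine ⟨m, hm1, hm2, hm3.trans (le_of_eq ?_)⟩
      congr 1
      refine Finset.sum_congr rfl fun j _ => ?_
      congr 1
      rw [int_cells n hfi, Finset.sum_div]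
      refine Finset.sum_congr rfl fun x _ => ?_
      unfold av
      field_simp
    · intro x hx hxL
      have := av_close (hint x hx) (v := 0) (K := N) (fun s hs => by
        rw [sub_zero]; exact hf.bd s (hin x hxL hs))
      simpa using this
    · intro x hx hxM
      have h1 := hclose M x hMn hx (hin x (hLl x hxM)) t ht (by rw [← cix_div hMn, ← hy0, hxM])
      have h2 := hclose M y0 hMn hy0lt (hin y0 rfl) t ht (by rw [← cix_div hMn, ← hy0])
      have h3 := hM0 M (le_max_left _ _)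
      rw [abs_le] at h1 h2 ⊢
      constructor <;> linarith [h1.1, h1.2, h2.1, h2.2]
    · intro x hx hxL
      have h1 := hM1 (n - 2) (by omega)
      have h2 := h1.trans (min_le_left _ _)
      obtain ⟨u, hu⟩ := cell_nonempty n x
      have huc := mem_cell.1 hu
      have hul : u ∈ cell l i := hin x hxL hu
      have e4 : n - (n - 2) = 2 := by omega
      have hx4 : 4 * (x / 4) < 2 ^ n := by omega
      have e5 : (4 * (x / 4)) / 2 ^ (n - (n - 2)) = x / 2 ^ (n - (n - 2)) := by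
        rw [e4]; omega
      have hx4L : (4 * (x / 4)) / 2 ^ (n - L) = y0 / 2 ^ (n - L) := by
        rw [← hxL]
        have h6 : n - L = 2 + (n - L - 2) := by omega
        have h7 : (2:ℕ) ^ (2 + (n - L - 2)) = 4 * 2 ^ (n - L - 2) := by rw [pow_add]; norm_num
        rw [h6, h7, inv_div4]
      have h3 := hclose (n - 2) x (by omega) hx (hin x hxL) u hul (by
        rw [← cix_div (show n - 2 ≤ n by omega), huc.2])
      have h4 := hclose (n - 2) (4 * (x / 4)) (by omega) hx4 (hin _ hx4L) u hul (by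
        rw [← cix_div (show n - 2 ≤ n by omega), huc.2, e5])
      rw [abs_le] at h3 h4 ⊢
      constructor <;> linarith [h3.1, h3.2, h4.1, h4.2]
    · have h1 := hM1 n (by omega)
      have h2 := h1.trans (min_le_right _ _)
      have h3 := hclose n y0 le_rfl hy0lt (hin y0 rfl) t ht (by simp [hy0])
      have hQ : y0 / 2 ^ (n - L) ∈ range (2 ^ L) := by
        rw [Finset.mem_range, Nat.div_lt_iff_lt_mul (by positivity), ← pow_add]
        have : L + (n - L) = n := by omega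
        rw [this]; exact hy0lt
      have h4 : 2 * δ ≤ |f t / √(2 * t) - cQ (y0 / 2 ^ (n - L))| := by
        by_contra hcon
        push Not at hcon
        apply hE
        simp only [Set.mem_iUnion]
        exact ⟨_, hQ, ht, hcon⟩
      have h5 : |f t / √(2 * t) - cQ (y0 / 2 ^ (n - L))| ≤
          |av f n y0 - cQ (y0 / 2 ^ (n - L))| + |av f n y0 - f t / √(2 * t)| := by
        have := abs_sub_le (f t / √(2 * t)) (av f n y0) (cQ (y0 / 2 ^ (n - L)))
        rw [abs_sub_comm (f t / √(2 * t)) (av f n y0)] at this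
        linarith
      linarith
end Pool.Agent.H100R3.Div
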