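import Mathlib
import Pool.Agent.H100R3.DivE

set_option autoImplicit false

open Finset MeasureTheory

namespace Pool.Agent.H100R3.Div

def tq (k L : ℕ) : ℕ × ℕ :=
  if (k.unpair.1.unpair.1 ≤ L ∧ k.unpair.1.unpair.2 < 2 ^ k.unpair.1.unpair.1) then
    k.unpair.1.unpair else (0, 0)

lemma tq_spec (k L : ℕ) : (tq k L).1 ≤ L ∧ (tq k L).2 < 2 ^ (tq k L).1 := by
  unfold tq
  split_ifs with h
  · exact h
  · simp

def Sp (k L n : ℕ) (e : ℕ → ℕ → ℝ) : Prop :=
      (∀ i j, 2 ^ L ≤ i → i < 2 ^ n → 2 ^ L ≤ j → j < 2 ^ n →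
        ∑ x ∈ range (2 ^ n), e i x * e j x = if i = j then 2 ^ n else 0) ∧
      (∀ j, 2 ^ L ≤ j → j < 2 ^ n → ∀ g : ℕ → ℝ,
        ∑ x ∈ range (2 ^ n), e j x * g (x / 2 ^ (n - L)) = 0) ∧
      (∀ G : ℕ → ℝ, (∀ i < 2 ^ L, ∑ x ∈ range (2 ^ n), (if x / 2 ^ (n - L) = i then G x else 0) = 0) →
        (∀ j, 2 ^ L ≤ j → j < 2 ^ n → ∑ x ∈ range (2 ^ n), G x * e j x = 0) →
        ∀ x < 2 ^ n, G x = 0) ∧
      (∀ f : ℝ → ℝ, IntegrableOn (fun s => f s * √(2 * s)) (Set.Icc 0 1) →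
        Cls ((k:ℝ) + 1) (cell (tq k L).1 (tq k L).2) f →
        ∃ E : Set ℝ, volume E ≤ ENNReal.ofReal (1 / 2 ^ k) ∧
          ∀ t ∈ cell (tq k L).1 (tq k L).2, t ∉ E →
          ∃ m, 2 ^ L ≤ m ∧ m ≤ 2 ^ n ∧
          (k:ℝ) ≤ |∑ j ∈ Finset.Ico (2 ^ L) m,
            (∫ s in Set.Icc (0:ℝ) 1, f s * √(2 * s) * e j (cix n s)) * e j (cix n t)|)

lemma stage' (k L : ℕ) : ∃ n, L < n ∧ ∃ e : ℕ → ℕ → ℝ, Sp k L n e :=
  stage L k (tq k L).1 (tq k L).2 ((k:ℝ) + 1) k (by positivity)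
  (tq_spec k L).1 (tq_spec k L).2

noncomputable def nx (k L : ℕ) : ℕ := (stage' k L).choose

noncomputable def es (k L : ℕ) : ℕ → ℕ → ℝ := (stage' k L).choose_spec.2.choose

noncomputable def LL : ℕ → ℕ
  | 0 => 0
  | (k + 1) => nx k (LL k)

noncomputable def EE (k : ℕ) : ℕ → ℕ → ℝ := es k (LL k)

lemma LL_lt (k : ℕ) : LL k < LL (k + 1) := (stage' k (LL k)).choose_spec.1

lemma EE_spec (k : ℕ) : Sp k (LL k) (LL (k + 1)) (EE k) :=
  (stage' k (LL k)).choose_spec.2.choose_spec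

lemma EE_o1 (k : ℕ) : ∀ i j, 2 ^ LL k ≤ i → i < 2 ^ LL (k + 1) → 2 ^ LL k ≤ j → j < 2 ^ LL (k + 1) →
    ∑ x ∈ range (2 ^ LL (k + 1)), EE k i x * EE k j x = if i = j then 2 ^ LL (k + 1) else 0 :=
  (EE_spec k).1

lemma EE_o2 (k : ℕ) : ∀ j, 2 ^ LL k ≤ j → j < 2 ^ LL (k + 1) → ∀ g : ℕ → ℝ,
    ∑ x ∈ range (2 ^ LL (k + 1)), EE k j x * g (x / 2 ^ (LL (k + 1) - LL k)) = 0 :=
  (EE_spec k).2.1

lemma EE_o3 (k : ℕ) : ∀ G : ℕ → ℝ, (∀ i < 2 ^ LL k, ∑ x ∈ range (2 ^ LL (k + 1)),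
      (if x / 2 ^ (LL (k + 1) - LL k) = i then G x else 0) = 0) →
    (∀ j, 2 ^ LL k ≤ j → j < 2 ^ LL (k + 1) →
      ∑ x ∈ range (2 ^ LL (k + 1)), G x * EE k j x = 0) →
    ∀ x < 2 ^ LL (k + 1), G x = 0 :=
  (EE_spec k).2.2.1

lemma EE_d (k : ℕ) : ∀ f : ℝ → ℝ, IntegrableOn (fun s => f s * √(2 * s)) (Set.Icc 0 1) →
    Cls ((k:ℝ) + 1) (cell (tq k (LL k)).1 (tq k (LL k)).2) f →
    ∃ E : Set ℝ, volume E ≤ ENNReal.ofReal (1 / 2 ^ k) ∧
      ∀ t ∈ cell (tq k (LL k)).1 (tq k (LL k)).2, t ∉ E →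
      ∃ m, 2 ^ LL k ≤ m ∧ m ≤ 2 ^ LL (k + 1) ∧
        (k:ℝ) ≤ |∑ j ∈ Finset.Ico (2 ^ LL k) m,
          (∫ s in Set.Icc (0:ℝ) 1, f s * √(2 * s) * EE k j (cix (LL (k + 1)) s)) *
            EE k j (cix (LL (k + 1)) t)| :=
  (EE_spec k).2.2.2

lemma LL_mono : StrictMono LL := strictMono_nat_of_lt_succ LL_lt

lemma le_LL (k : ℕ) : k ≤ LL k := LL_mono.le_apply

lemma ex_k (j : ℕ) : ∃ k, j < 2 ^ LL (k + 1) := by
  refine ⟨j, ?_⟩
  calc j < 2 ^ j := Nat.lt_two_pow_self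
    _ ≤ 2 ^ LL (j + 1) := Nat.pow_le_pow_right (by norm_num) (by have := le_LL (j + 1); omega)

noncomputable def kk (j : ℕ) : ℕ := Nat.find (ex_k j)

lemma kk_lt (j : ℕ) : j < 2 ^ LL (kk j + 1) := Nat.find_spec (ex_k j)

lemma kk_le {j : ℕ} (hj : j ≠ 0) : 2 ^ LL (kk j) ≤ j := by
  rcases Nat.eq_zero_or_pos (kk j) with h | h
  · rw [h]
    show 2 ^ 0 ≤ j
    omega
  · have := Nat.find_min (ex_k j) (m := kk j - 1) (by unfold kk at *; omega)
    have h2 : kk j - 1 + 1 = kk j := by omega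
    rw [h2] at this
    omega

lemma kk_unique {j k : ℕ} (h1 : 2 ^ LL k ≤ j) (h2 : j < 2 ^ LL (k + 1)) : kk j = k := by
  have hj : j ≠ 0 := by
    have : 0 < 2 ^ LL k := by positivity
    omega
  have h3 := kk_lt j
  have h4 := kk_le hj
  rcases lt_trichotomy (kk j) k with h | h | h
  · have : LL (kk j + 1) ≤ LL k := LL_mono.monotone h
    have := Nat.pow_le_pow_right (show 0 < 2 by norm_num) this
    omega
  · exact h
  · have : LL (k + 1) ≤ LL (kk j) := LL_mono.monotone h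
    have := Nat.pow_le_pow_right (show 0 < 2 by norm_num) this
    omega

noncomputable def ea (j x : ℕ) : ℝ := if j = 0 then 1 else EE (kk j) j x

noncomputable def lev (j : ℕ) : ℕ := if j = 0 then 0 else LL (kk j + 1)

noncomputable def ph (j : ℕ) (t : ℝ) : ℝ := √(2 * t) * ea j (cix (lev j) t)

lemma cix_meas (n : ℕ) : Measurable (cix n) :=
  Nat.measurable_floor.comp ((measurable_id.pow_const 2).const_mul _)

lemma ph_meas (j : ℕ) : Measurable (ph j) :=
  (Real.continuous_sqrt.measurable.comp (measurable_const_mul 2)).mul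
    ((Measurable.of_discrete (f := ea j)).comp (cix_meas _))

lemma cix_le {n : ℕ} {t : ℝ} (ht : t ∈ Set.Icc (0:ℝ) 1) : cix n t ≤ 2 ^ n := by
  unfold cix
  apply Nat.floor_le_of_le
  push_cast
  have h1 : t ^ 2 ≤ 1 := by nlinarith [ht.1, ht.2]
  have hp : (0:ℝ) < 2 ^ n := by positivity
  nlinarith

lemma ea_bound (j : ℕ) {t : ℝ} (ht : t ∈ Set.Icc (0:ℝ) 1) :
    |ea j (cix (lev j) t)| ≤ ∑ x ∈ range (2 ^ lev j + 1), |ea j x| :=
  Finset.single_le_sum (f := fun x => |ea j x|) (fun _ _ => abs_nonneg _)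
    (Finset.mem_range.2 (by have := cix_le (n := lev j) ht; omega))

lemma ph_bound (j : ℕ) {t : ℝ} (ht : t ∈ Set.Icc (0:ℝ) 1) :
    |ph j t| ≤ √2 * ∑ x ∈ range (2 ^ lev j + 1), |ea j x| := by
  unfold ph
  rw [abs_mul, abs_of_nonneg (Real.sqrt_nonneg _)]
  exact mul_le_mul (Real.sqrt_le_sqrt (by linarith [ht.2])) (ea_bound j ht) (abs_nonneg _)
    (Real.sqrt_nonneg _)

lemma ph_memLp (j : ℕ) : MemLp (ph j) 2 (volume.restrict (Set.Icc (0:ℝ) 1)) := by
  refine MemLp.of_bound (ph_meas j).aestronglyMeasurable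
    (√2 * ∑ x ∈ range (2 ^ lev j + 1), |ea j x|) ?_
  rw [ae_restrict_iff' measurableSet_Icc]
  exact ae_of_all _ fun t ht => by rw [Real.norm_eq_abs]; exact ph_bound j ht

lemma two_intOn : IntegrableOn (fun s : ℝ => 2 * s) (Set.Icc 0 1) :=
  (continuous_const.mul continuous_id).integrableOn_Icc

/-- inner products -/
lemma ph_inner {i j n : ℕ} (hi : lev i ≤ n) (hj : lev j ≤ n) :
    ∫ t in Set.Icc (0:ℝ) 1, ph i t * ph j t = (∑ x ∈ range (2 ^ n),
      ea i (x / 2 ^ (n - lev i)) * ea j (x / 2 ^ (n - lev j))) / 2 ^ n := by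
  have h1 : ∫ t in Set.Icc (0:ℝ) 1, ph i t * ph j t = ∫ t in Set.Icc (0:ℝ) 1,
      (2 * t) * (fun x => ea i (x / 2 ^ (n - lev i)) * ea j (x / 2 ^ (n - lev j))) (cix n t) := by
    refine setIntegral_congr_fun measurableSet_Icc fun t ht => ?_
    simp only
    unfold ph
    rw [cix_div hi, cix_div hj]
    have : √(2 * t) * √(2 * t) = 2 * t := Real.mul_self_sqrt (by linarith [ht.1])
    linear_combination (ea i (cix (lev i) t) * ea j (cix (lev j) t)) * this
  rw [h1, int_cells n two_intOn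
    (fun x => ea i (x / 2 ^ (n - lev i)) * ea j (x / 2 ^ (n - lev j))), Finset.sum_div]
  refine Finset.sum_congr rfl fun x _ => ?_
  rw [int_two]; ring

lemma lev_of {j k : ℕ} (h1 : 2 ^ LL k ≤ j) (h2 : j < 2 ^ LL (k + 1)) :
    lev j = LL (k + 1) ∧ (∀ x, ea j x = EE k j x) := by
  have hj : j ≠ 0 := by
    have : 0 < 2 ^ LL k := by positivity
    omega
  unfold lev ea
  simp only [if_neg hj, kk_unique h1 h2]
  exact ⟨trivial, fun _ => trivial⟩

lemma lev_lt_of {i k : ℕ} (h : i < 2 ^ LL k) : lev i ≤ LL k := by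
  unfold lev
  split_ifs with h0
  · omega
  · apply LL_mono.monotone
    by_contra hc
    push Not at hc
    have h1 := kk_le h0
    have : LL k ≤ LL (kk i) := LL_mono.monotone (by omega)
    have := Nat.pow_le_pow_right (show 0 < 2 by norm_num) this
    omega

lemma ph_orth_lt {i j : ℕ} (hj : j ≠ 0) (hi : i < 2 ^ LL (kk j)) :
    ∫ t in Set.Icc (0:ℝ) 1, ph i t * ph j t = 0 := by
  obtain ⟨h1, h2⟩ := lev_of (kk_le hj) (kk_lt j)
  have h3 := lev_lt_of hi
  have h4 := LL_lt (kk j)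
  rw [ph_inner (n := LL (kk j + 1)) (by omega) (by omega)]
  have h5 : ∑ x ∈ range (2 ^ LL (kk j + 1)), ea i (x / 2 ^ (LL (kk j + 1) - lev i)) *
      ea j (x / 2 ^ (LL (kk j + 1) - lev j)) = 0 := by
    have h6 := EE_o2 (kk j) j (kk_le hj) (kk_lt j) (fun z => ea i (z / 2 ^ (LL (kk j) - lev i)))
    rw [← h6]
    refine Finset.sum_congr rfl fun x _ => ?_
    rw [h1, Nat.sub_self, pow_zero, Nat.div_one, h2, Nat.div_div_eq_div_mul, ← pow_add]
    have : LL (kk j + 1) - LL (kk j) + (LL (kk j) - lev i) = LL (kk j + 1) - lev i := by omega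
    rw [this]; ring
  rw [h5, zero_div]

lemma ph_orth (i j : ℕ) :
    ∫ t in Set.Icc (0:ℝ) 1, ph i t * ph j t = if i = j then (1:ℝ) else 0 := by
  have hcomm : ∀ i j, ∫ t in Set.Icc (0:ℝ) 1, ph i t * ph j t =
      ∫ t in Set.Icc (0:ℝ) 1, ph j t * ph i t := fun i j => by simp only [mul_comm]
  by_cases hi : i = 0
  · by_cases hj : j = 0
    · subst hi; subst hj
      have hl : lev 0 = 0 := by unfold lev; simp
      rw [ph_inner (n := 0) (by omega) (by omega)]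
      simp [ea]
    · subst hi
      rw [ph_orth_lt hj (by positivity), if_neg (Ne.symm hj)]
  · by_cases hj : j = 0
    · subst hj
      rw [hcomm, ph_orth_lt hi (by positivity), if_neg hi]
    · rcases lt_trichotomy (kk i) (kk j) with h | h | h
      · have h1 : LL (kk i + 1) ≤ LL (kk j) := LL_mono.monotone h
        have h2 := Nat.pow_le_pow_right (show 0 < 2 by norm_num) h1
        have h3 := kk_lt i
        have h4 := kk_le hj
        rw [ph_orth_lt hj (by omega), if_neg (by omega)]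
      · obtain ⟨h1, h2⟩ := lev_of (kk_le hj) (kk_lt j)
        obtain ⟨h3, h4⟩ := lev_of (kk_le hi) (kk_lt i)
        rw [h] at h3 h4
        rw [ph_inner (n := LL (kk j + 1)) (by omega) (by omega), h1, h3]
        have h5 := EE_o1 (kk j) i j (h ▸ kk_le hi) (h ▸ kk_lt i) (kk_le hj) (kk_lt j)
        have h6 : ∑ x ∈ range (2 ^ LL (kk j + 1)),
            ea i (x / 2 ^ (LL (kk j + 1) - LL (kk j + 1))) *
            ea j (x / 2 ^ (LL (kk j + 1) - LL (kk j + 1))) =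
            if i = j then (2:ℝ) ^ LL (kk j + 1) else 0 := by
          rw [← h5]
          refine Finset.sum_congr rfl fun x _ => ?_
          rw [Nat.sub_self, pow_zero, Nat.div_one, h2, h4]
        rw [h6]
        split_ifs
        · field_simp
        · simp
      · have h1 : LL (kk j + 1) ≤ LL (kk i) := LL_mono.monotone h
        have h2 := Nat.pow_le_pow_right (show 0 < 2 by norm_num) h1
        have h3 := kk_lt j
        have h4 := kk_le hi
        rw [hcomm, ph_orth_lt hi (by omega), if_neg (by omega)]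

lemma mul_sqrt_int {g : ℝ → ℝ} (hg : MemLp g 2 (volume.restrict (Set.Icc (0:ℝ) 1))) :
    IntegrableOn (fun s => g s * √(2 * s)) (Set.Icc 0 1) := by
  have h1 : Integrable g (volume.restrict (Set.Icc (0:ℝ) 1)) := hg.integrable (by norm_num)
  have h2 : Integrable (fun s => √(2 * s) * g s) (volume.restrict (Set.Icc (0:ℝ) 1)) := by
    refine h1.bdd_mul (c := √2)
      (Real.continuous_sqrt.measurable.comp (measurable_const_mul 2)).aestronglyMeasurable ?_
    rw [ae_restrict_iff' measurableSet_Icc]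
    refine ae_of_all _ fun t ht => ?_
    rw [Real.norm_eq_abs, abs_of_nonneg (Real.sqrt_nonneg _)]
    exact Real.sqrt_le_sqrt (by linarith [ht.2])
  have h3 : (fun s => g s * √(2 * s)) = fun s => √(2 * s) * g s := by
    funext s; ring
  rw [h3]
  exact h2

lemma coef_eq (g : ℝ → ℝ) (j : ℕ) : ∫ t in Set.Icc (0:ℝ) 1, g t * ph j t =
    ∫ t in Set.Icc (0:ℝ) 1, (g t * √(2 * t)) * ea j (cix (lev j) t) := by
  refine setIntegral_congr_fun measurableSet_Icc fun t _ => ?_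
  unfold ph; ring

lemma complete_cells {g : ℝ → ℝ} (hg : IntegrableOn (fun s => g s * √(2 * s)) (Set.Icc 0 1))
    (h0 : ∀ j, ∫ t in Set.Icc (0:ℝ) 1, g t * ph j t = 0) (k : ℕ) :
    ∀ x < 2 ^ LL k, ∫ t in cell (LL k) x, g t * √(2 * t) = 0 := by
  induction k with
  | zero =>
    intro x hx
    have hx0 : x = 0 := by
      have : 2 ^ LL 0 = 1 := rfl
      omega
    subst hx0
    have h1 := h0 0
    rw [coef_eq, int_cells (lev 0) hg] at h1
    have hl : lev 0 = 0 := by unfold lev; simp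
    rw [hl] at h1
    have hl0 : LL 0 = 0 := rfl
    rw [hl0]
    simpa [ea] using h1
  | succ k ih =>
    have hlt := LL_lt k
    refine EE_o3 k (fun x => ∫ t in cell (LL (k + 1)) x, g t * √(2 * t)) ?_ ?_
    · intro i hi
      refine Eq.trans ?_ (ih i hi)
      have h1 := int_cells (LL (k + 1)) hg
        (fun x => if x / 2 ^ (LL (k + 1) - LL k) = i then (1:ℝ) else 0)
      have h2 := int_cells (LL k) hg (fun x => if x = i then (1:ℝ) else 0)
      have h3 : ∫ t in Set.Icc (0:ℝ) 1, g t * √(2 * t) *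
          (fun x => if x / 2 ^ (LL (k + 1) - LL k) = i then (1:ℝ) else 0) (cix (LL (k + 1)) t) =
          ∫ t in Set.Icc (0:ℝ) 1, g t * √(2 * t) *
          (fun x => if x = i then (1:ℝ) else 0) (cix (LL k) t) := by
        refine setIntegral_congr_fun measurableSet_Icc fun t _ => ?_
        simp only
        rw [cix_div hlt.le]
      rw [h1, h2] at h3
      simp only [mul_ite, mul_one, mul_zero] at h3
      rw [h3, Finset.sum_ite_eq' (range (2 ^ LL k)) i, if_pos (Finset.mem_range.2 hi)]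
    · intro j hj1 hj2
      obtain ⟨h1, h2⟩ := lev_of hj1 hj2
      have h3 := h0 j
      rw [coef_eq, int_cells (lev j) hg, h1] at h3
      rw [← h3]
      exact Finset.sum_congr rfl fun x _ => by rw [h2]

lemma prim_grid {G : ℝ → ℝ} (hG : IntegrableOn G (Set.Icc 0 1)) (n : ℕ)
    (h : ∀ x < 2 ^ n, ∫ t in cell n x, G t = 0) :
    ∀ x : ℕ, x ≤ 2 ^ n → ∫ t in (0:ℝ)..√((x:ℝ) / 2 ^ n), G t = 0 := by
  have hsub : ∀ a b : ℝ, 0 ≤ a → a ≤ b → b ≤ 1 → IntervalIntegrable G volume a b := by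
    intro a b ha hab hb
    rw [intervalIntegrable_iff_integrableOn_Icc_of_le hab]
    exact hG.mono_set (Set.Icc_subset_Icc ha hb)
  intro x
  induction x with
  | zero => intro _; simp
  | succ x ih =>
    intro hx
    have hp : (0:ℝ) < 2 ^ n := by positivity
    have h1 : √((x:ℝ) / 2 ^ n) ≤ √(((x:ℝ) + 1) / 2 ^ n) := Real.sqrt_le_sqrt (by gcongr; linarith)
    have h2 : √(((x:ℝ) + 1) / 2 ^ n) ≤ 1 := by
      rw [Real.sqrt_le_one, div_le_one hp]
      exact_mod_cast hx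
    have h3 := intervalIntegral.integral_add_adjacent_intervals
      (hsub 0 _ le_rfl (Real.sqrt_nonneg _) (h1.trans h2)) (hsub _ _ (Real.sqrt_nonneg _) h1 h2)
    push_cast
    rw [← h3, ih (by omega), zero_add, intervalIntegral.integral_of_le h1,
      ← integral_Ico_eq_integral_Ioc]
    exact h x (by omega)

lemma complete {g : ℝ → ℝ} (hg : IntegrableOn (fun s => g s * √(2 * s)) (Set.Icc 0 1))
    (h0 : ∀ j, ∫ t in Set.Icc (0:ℝ) 1, g t * ph j t = 0) :
    g =ᵐ[volume.restrict (Set.Icc (0:ℝ) 1)] 0 := by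
  set G : ℝ → ℝ := fun s => g s * √(2 * s) with hGdef
  have hGi : IntervalIntegrable G volume 0 1 := by
    rw [intervalIntegrable_iff_integrableOn_Icc_of_le zero_le_one]; exact hg
  have hprim : ∀ y ∈ Set.Icc (0:ℝ) 1, ∫ t in (0:ℝ)..y, G t = 0 := by
    intro y hy
    have hcont : ContinuousOn (fun y => ∫ t in (0:ℝ)..y, G t) (Set.Icc 0 1) := by
      have := intervalIntegral.continuousOn_primitive_interval' hGi (Set.left_mem_uIcc)
      rwa [Set.uIcc_of_le (by norm_num)] at this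
    have hseq : Filter.Tendsto (fun k : ℕ => √(((⌊2 ^ LL k * y ^ 2⌋₊ : ℕ) : ℝ) / 2 ^ LL k))
        Filter.atTop (nhds y) := by
      have h2 : Filter.Tendsto (fun k : ℕ => (2:ℝ) ^ LL k) Filter.atTop Filter.atTop :=
        (tendsto_pow_atTop_atTop_of_one_lt (by norm_num : (1:ℝ) < 2)).comp LL_mono.tendsto_atTop
      have h3 := (tendsto_nat_floor_mul_div_atTop (R := ℝ) (sq_nonneg y)).comp h2
      have h4 := (Real.continuous_sqrt.tendsto (y ^ 2)).comp h3
      rw [Real.sqrt_sq hy.1] at h4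
      refine h4.congr fun k => ?_
      simp only [Function.comp]
      rw [mul_comm (y ^ 2)]
    have hmem : ∀ k : ℕ, ⌊2 ^ LL k * y ^ 2⌋₊ ≤ 2 ^ LL k := by
      intro k
      have : 2 ^ LL k * y ^ 2 ≤ ((2 ^ LL k : ℕ) : ℝ) := by
        push_cast
        have h1 : y ^ 2 ≤ 1 := by nlinarith [hy.1, hy.2]
        have : (0:ℝ) < 2 ^ LL k := by positivity
        nlinarith
      exact Nat.floor_le_of_le this
    have hmem' : ∀ k : ℕ, √(((⌊2 ^ LL k * y ^ 2⌋₊ : ℕ) : ℝ) / 2 ^ LL k) ∈ Set.Icc (0:ℝ) 1 := by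
      intro k
      refine ⟨Real.sqrt_nonneg _, ?_⟩
      rw [Real.sqrt_le_one, div_le_one (by positivity)]
      exact_mod_cast hmem k
    have h4 := (hcont y hy).tendsto.comp
      (tendsto_nhdsWithin_of_tendsto_nhds_of_eventually_within _ hseq
        (Filter.Eventually.of_forall hmem'))
    have h5 : ((fun y => ∫ t in (0:ℝ)..y, G t) ∘ fun k : ℕ =>
        √(((⌊2 ^ LL k * y ^ 2⌋₊ : ℕ) : ℝ) / 2 ^ LL k)) = fun _ => 0 := by
      funext k
      exact prim_grid hg (LL k) (complete_cells hg h0 k) _ (hmem k)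
    rw [h5] at h4
    exact tendsto_nhds_unique h4 tendsto_const_nhds
  have hG0 : ∀ᵐ x, x ∈ Set.Ioo (0:ℝ) 1 → G x = 0 := by
    filter_upwards [hGi.ae_hasDerivAt_integral] with x hx hxI
    have h6 := hx (by rw [Set.uIcc_of_le (by norm_num)]; exact Set.Ioo_subset_Icc_self hxI) 0
      Set.left_mem_uIcc
    have h7 : (fun x => ∫ t in (0:ℝ)..x, G t) =ᶠ[nhds x] fun _ => 0 := by
      filter_upwards [Ioo_mem_nhds hxI.1 hxI.2] with y hy
      exact hprim y (Set.Ioo_subset_Icc_self hy)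
    exact (h6.congr_of_eventuallyEq h7.symm).unique (hasDerivAt_const x 0)
  have h8 : ∀ᵐ x ∂(volume.restrict (Set.Ioo (0:ℝ) 1)), g x = 0 := by
    rw [ae_restrict_iff' measurableSet_Ioo]
    filter_upwards [hG0] with x hx hxI
    have h9 := hx hxI
    simp only [hGdef] at h9
    exact (mul_eq_zero.1 h9).resolve_right (Real.sqrt_pos.2 (by linarith [hxI.1])).ne'
  have h10 : volume.restrict (Set.Ioo (0:ℝ) 1) = volume.restrict (Set.Icc (0:ℝ) 1) :=
    Measure.restrict_congr_set Ioo_ae_eq_Icc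
  rw [h10] at h8
  exact h8

lemma Cls.mono {N N' : ℝ} {J : Set ℝ} {f : ℝ → ℝ} (h : Cls N J f) (hN : N ≤ N') : Cls N' J f :=
  ⟨fun s hs => (h.bd s hs).trans hN,
   fun s hs t ht => (h.lip s hs t ht).trans (mul_le_mul_of_nonneg_right hN (abs_nonneg _)),
   fun s hs t ht => (h.low s hs t ht).trans (mul_le_mul_of_nonneg_right hN (abs_nonneg _))⟩

theorem div_cell {f : ℝ → ℝ} (hf : IntegrableOn (fun s => f s * √(2 * s)) (Set.Icc 0 1))
    {l i : ℕ} (hi : i < 2 ^ l) {N : ℝ} (hN : Cls N (cell l i) f) :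
    ∀ᵐ t, t ∈ cell l i → ¬ ∃ c : ℝ, Filter.Tendsto
      (fun M : ℕ => ∑ n ∈ range M, (∫ s in Set.Icc (0:ℝ) 1, f s * ph n s) * ph n t)
      Filter.atTop (nhds c) := by
  set q := Nat.pair l i with hq
  set K : ℕ → ℕ := fun r => Nat.pair q r with hK
  have hKr : ∀ r, r ≤ K r := fun r => Nat.right_le_pair q r
  have htq : ∀ r, tq (K r) (LL (K r)) = (l, i) := by
    intro r
    have h1 : (K r).unpair.1.unpair = (l, i) := by
      simp only [hK, Nat.unpair_pair, hq]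
    unfold tq
    rw [h1]
    simp only
    rw [if_pos]
    refine ⟨?_, hi⟩
    have h2 : l ≤ q := Nat.left_le_pair l i
    have h3 : q ≤ K r := Nat.left_le_pair q r
    have h4 := le_LL (K r)
    omega
  obtain ⟨r0, hr0⟩ := exists_nat_ge N
  have hE : ∀ r, r0 ≤ r → ∃ E : Set ℝ, volume E ≤ ENNReal.ofReal (1 / 2 ^ (K r)) ∧
      ∀ t ∈ cell l i, t ∉ E → ∃ m, 2 ^ LL (K r) ≤ m ∧ m ≤ 2 ^ LL (K r + 1) ∧
        (K r:ℝ) ≤ |∑ j ∈ Finset.Ico (2 ^ LL (K r)) m,
          (∫ s in Set.Icc (0:ℝ) 1, f s * √(2 * s) * EE (K r) j (cix (LL (K r + 1)) s)) *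
            EE (K r) j (cix (LL (K r + 1)) t)| := by
    intro r hr
    have h1 := EE_d (K r) f hf
    rw [htq r] at h1
    refine h1 (hN.mono ?_)
    have h2 : (r0:ℝ) ≤ K r := by exact_mod_cast hr.trans (hKr r)
    linarith
  choose! E hE1 hE2 using hE
  have hnull : volume ({0} ∪ ⋃ r1 : ℕ, ⋂ r : ℕ, ⋂ (_ : r1 ≤ r ∧ r0 ≤ r), E r) = 0 := by
    rw [measure_union_null_iff]
    refine ⟨by simp, ?_⟩
    rw [measure_iUnion_null_iff]
    intro r1
    refine le_antisymm ?_ bot_le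
    refine ge_of_tendsto' (x := Filter.atTop) (f := fun r : ℕ => ENNReal.ofReal (1 / 2 ^ (r + r1 + r0)))
      ?_ ?_
    · have h1 : Filter.Tendsto (fun r : ℕ => (1:ℝ) / 2 ^ (r + r1 + r0)) Filter.atTop (nhds 0) := by
        have h2 := tendsto_pow_atTop_nhds_zero_of_lt_one (r := (1/2:ℝ)) (by norm_num) (by norm_num)
        have h3 := (Filter.tendsto_add_atTop_iff_nat (r1 + r0)).2 h2
        refine h3.congr fun r => ?_
        rw [← add_assoc, one_div, one_div, inv_pow]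
      have := ENNReal.tendsto_ofReal h1
      rwa [ENNReal.ofReal_zero] at this
    · intro r
      refine (measure_mono (Set.iInter_subset_of_subset (r + r1 + r0)
        (Set.iInter_subset_of_subset ⟨by omega, by omega⟩ Set.Subset.rfl))).trans ?_
      refine (hE1 (r + r1 + r0) (by omega)).trans (ENNReal.ofReal_le_ofReal ?_)
      refine one_div_le_one_div_of_le (by positivity) ?_
      exact pow_le_pow_right₀ (by norm_num) (hKr _)
  rw [ae_iff]
  refine measure_mono_null ?_ hnull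
  intro t ht
  simp only [Set.mem_ofPred_eq, Classical.not_imp, not_not] at ht
  obtain ⟨htc, c, hc⟩ := ht
  have ht0 := (mem_cell.1 htc).1
  rcases ht0.eq_or_lt with h | htpos
  · left; exact h.symm
  right
  have hsq : 0 < √(2 * t) := Real.sqrt_pos.2 (by linarith)
  -- Cauchy
  rw [Metric.tendsto_atTop] at hc
  obtain ⟨M0, hM0⟩ := hc (1 / 2) (by norm_num)
  obtain ⟨r2, hr2⟩ := exists_nat_ge (1 / √(2 * t))
  rw [Set.mem_iUnion]
  refine ⟨M0 + r2, ?_⟩
  simp only [Set.mem_iInter]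
  rintro r ⟨hr, hrr⟩
  by_contra hcon
  obtain ⟨m, hm1, hm2, hm3⟩ := hE2 r hrr t htc hcon
  have hKM : M0 ≤ 2 ^ LL (K r) := by
    have h1 : K r ≤ LL (K r) := le_LL _
    have h2 : LL (K r) < 2 ^ LL (K r) := Nat.lt_two_pow_self
    have := hKr r
    omega
  have hd1 := hM0 (2 ^ LL (K r)) hKM
  have hd2 := hM0 m (hKM.trans hm1)
  have hd3 : |∑ n ∈ range m, (∫ s in Set.Icc (0:ℝ) 1, f s * ph n s) * ph n t -
      ∑ n ∈ range (2 ^ LL (K r)), (∫ s in Set.Icc (0:ℝ) 1, f s * ph n s) * ph n t| < 1 := by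
    rw [Real.dist_eq] at hd1 hd2
    rw [abs_lt] at *
    constructor <;> linarith [hd1.1, hd1.2, hd2.1, hd2.2]
  rw [← Finset.sum_Ico_eq_sub _ hm1] at hd3
  have hd4 : ∑ n ∈ Finset.Ico (2 ^ LL (K r)) m, (∫ s in Set.Icc (0:ℝ) 1, f s * ph n s) * ph n t =
      √(2 * t) * ∑ j ∈ Finset.Ico (2 ^ LL (K r)) m,
          (∫ s in Set.Icc (0:ℝ) 1, f s * √(2 * s) * EE (K r) j (cix (LL (K r + 1)) s)) *
            EE (K r) j (cix (LL (K r + 1)) t) := by
    rw [Finset.mul_sum]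
    refine Finset.sum_congr rfl fun j hj => ?_
    rw [Finset.mem_Ico] at hj
    obtain ⟨h1, h2⟩ := lev_of hj.1 (lt_of_lt_of_le hj.2 hm2)
    rw [coef_eq]
    unfold ph
    rw [h1]
    simp only [h2]
    ring
  rw [hd4, abs_mul, abs_of_pos hsq] at hd3
  have h5 : 1 ≤ √(2 * t) * (K r : ℝ) := by
    have h6 : (r2:ℝ) ≤ K r := by
      have := hKr r
      exact_mod_cast (show r2 ≤ K r by omega)
    have h7 : 1 / √(2 * t) ≤ K r := hr2.trans h6
    rw [div_le_iff₀ hsq] at h7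
    linarith
  have h8 := mul_le_mul_of_nonneg_left hm3 hsq.le
  linarith

end Pool.Agent.H100R3.Div
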