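import Mathlib
import Pool.Agent.H100R3.DivF

set_option autoImplicit false

open Finset MeasureTheory

namespace Pool.Agent.H100R3.Div

lemma sqrt_an {t : ℝ} (ht : 0 < t) : AnalyticAt ℝ (fun t : ℝ => √(2 * t)) t := by
  have h1 : AnalyticAt ℝ (fun t : ℝ => Real.exp (Real.log (2 * t) / 2)) t := by
    have h2 : AnalyticAt ℝ (fun t : ℝ => 2 * t) t := analyticAt_const.mul analyticAt_id
    have h3 : AnalyticAt ℝ (fun t : ℝ => Real.log (2 * t)) t := h2.log (by positivity)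
    exact (h3.div analyticAt_const (by norm_num)).rexp
  refine h1.congr ?_
  filter_upwards [lt_mem_nhds ht] with s hs
  rw [Real.sqrt_eq_rpow, Real.rpow_def_of_pos (by positivity)]
  ring_nf

lemma an_nonconst {f : ℝ → ℝ} (hf : AnalyticOnNhd ℝ f (Set.Icc (0:ℝ) 1))
    (hne : ∃ x ∈ Set.Icc (0:ℝ) 1, f x ≠ 0)
    (hF : ∀ t ∈ Set.Ioo (0:ℝ) 1, deriv (fun t => f t / √(2 * t)) t = 0)
    (hFa : AnalyticOnNhd ℝ (fun t => f t / √(2 * t)) (Set.Ioo (0:ℝ) 1)) : False := by
  have hc : ∀ t ∈ Set.Ioo (0:ℝ) 1, f t / √(2 * t) = f (1/2) / √(2 * (1/2)) := by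
    intro t ht
    exact IsOpen.is_const_of_deriv_eq_zero isOpen_Ioo isPreconnected_Ioo
      (fun x hx => (hFa x hx).differentiableAt.differentiableWithinAt) (fun x hx => hF x hx) ht
      (by norm_num)
  set c := f (1/2) / √(2 * (1/2)) with hcdef
  have hf2 : ∀ t ∈ Set.Ioo (0:ℝ) 1, f t * f t = c * c * 2 * t := by
    intro t ht
    have h1 := hc t ht
    have h2 : √(2 * t) * √(2 * t) = 2 * t := Real.mul_self_sqrt (by linarith [ht.1])
    have h3 : √(2 * t) ≠ 0 := (Real.sqrt_pos.2 (by linarith [ht.1])).ne'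
    rw [div_eq_iff h3] at h1
    rw [h1]
    linear_combination (c * c) * h2
  have h0 := (hf 0 (by simp)).differentiableAt
  have hmem : Set.Ioo (0:ℝ) 1 ∈ nhdsWithin (0:ℝ) (Set.Ioi 0) := Ioo_mem_nhdsGT one_pos
  have hcont : f 0 * f 0 = 0 := by
    have h1 : Filter.Tendsto (fun t => f t * f t) (nhdsWithin 0 (Set.Ioi 0)) (nhds (f 0 * f 0)) :=
      ((h0.continuousAt.mul h0.continuousAt).tendsto).mono_left nhdsWithin_le_nhds
    have h2 : Filter.Tendsto (fun t : ℝ => c * c * 2 * t) (nhdsWithin 0 (Set.Ioi 0))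
        (nhds (c * c * 2 * 0)) :=
      ((continuous_const.mul continuous_id).tendsto 0).mono_left nhdsWithin_le_nhds
    rw [mul_zero] at h2
    refine tendsto_nhds_unique (h1.congr' ?_) h2
    filter_upwards [hmem] with t ht using hf2 t ht
  have hf0 : f 0 = 0 := mul_self_eq_zero.1 hcont
  have hd1 : HasDerivWithinAt (fun t => f t * f t) 0 (Set.Ioi 0) 0 := by
    have := (h0.hasDerivAt.mul h0.hasDerivAt).hasDerivWithinAt (s := Set.Ioi (0:ℝ))
    rw [hf0, mul_zero, zero_mul, add_zero] at this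
    exact this
  have hd2 : HasDerivWithinAt (fun t => f t * f t) (c * c * 2) (Set.Ioi 0) 0 := by
    have h1 : HasDerivWithinAt (fun t : ℝ => c * c * 2 * t) (c * c * 2) (Set.Ioi 0) 0 := by
      simpa using ((hasDerivAt_id (0:ℝ)).const_mul (c * c * 2)).hasDerivWithinAt
    refine h1.congr_of_eventuallyEq ?_ (by simp [hf0])
    filter_upwards [hmem] with t ht using hf2 t ht
  have hcc : c * c * 2 = 0 := (uniqueDiffWithinAt_Ioi (0:ℝ)).eq_deriv _ hd2 hd1
  have hf2' : ∀ t ∈ Set.Ioo (0:ℝ) 1, f t = 0 := by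
    intro t ht
    have := hf2 t ht
    rw [hcc, zero_mul] at this
    exact mul_self_eq_zero.1 this
  obtain ⟨x, hx, hxn⟩ := hne
  apply hxn
  have hcl : x ∈ closure (Set.Ioo (0:ℝ) 1) := by rw [closure_Ioo (by norm_num)]; exact hx
  have h1 : (nhdsWithin x (Set.Ioo (0:ℝ) 1)).NeBot := mem_closure_iff_nhdsWithin_neBot.1 hcl
  have h2 : Filter.Tendsto f (nhdsWithin x (Set.Ioo (0:ℝ) 1)) (nhds (f x)) :=
    (hf x hx).continuousAt.tendsto.mono_left nhdsWithin_le_nhds
  have h3 : Filter.Tendsto f (nhdsWithin x (Set.Ioo (0:ℝ) 1)) (nhds 0) := by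
    refine tendsto_const_nhds.congr' ?_
    filter_upwards [self_mem_nhdsWithin] with t ht using (hf2' t ht).symm
  exact tendsto_nhds_unique h2 h3

lemma deriv_zero_null {F : ℝ → ℝ} (hF : AnalyticOnNhd ℝ F (Set.Ioo (0:ℝ) 1))
    (hne : ¬ ∀ t ∈ Set.Ioo (0:ℝ) 1, F t = 0) :
    volume {t | t ∈ Set.Ioo (0:ℝ) 1 ∧ F t = 0} = 0 := by
  refine measure_null_of_locally_null _ fun x hx => ?_
  refine ⟨{x}, ?_, by simp⟩
  rcases (hF x hx.1).eventually_eq_zero_or_eventually_ne_zero with h | h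
  · exfalso
    apply hne
    exact hF.eqOn_zero_of_preconnected_of_eventuallyEq_zero isPreconnected_Ioo hx.1 h
  · rw [eventually_nhdsWithin_iff] at h
    rw [mem_nhdsWithin_iff_eventually]
    filter_upwards [h] with y hy hyZ
    by_contra hne
    exact hy hne hyZ.2

lemma exists_cls {f : ℝ → ℝ} {t0 : ℝ} (ht0 : t0 ∈ Set.Ioo (0:ℝ) 1)
    (hF : AnalyticAt ℝ (fun t => f t / √(2 * t)) t0)
    (hd : deriv (fun t => f t / √(2 * t)) t0 ≠ 0) :
    ∃ l i N : ℕ, i < 2 ^ l ∧ Cls (N:ℝ) (cell l i) f ∧ t0 ∈ cell l i := by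
  set F : ℝ → ℝ := fun t => f t / √(2 * t) with hFdef
  set a := deriv F t0 with ha
  have hapos : 0 < |a| := abs_pos.2 hd
  have h1 : HasStrictDerivAt F a t0 := hF.hasStrictDerivAt
  have h2 := h1.hasStrictFDerivAt.isLittleO.def (c := |a| / 2) (by positivity)
  rw [Metric.eventually_nhds_iff] at h2
  obtain ⟨δ1, hδ1, h2⟩ := h2
  have h3 := hF.continuousAt
  rw [Metric.continuousAt_iff] at h3
  obtain ⟨δ2, hδ2, h3⟩ := h3 1 one_pos
  -- the level
  have hlev : ∃ l : ℕ, √(1 / 2 ^ l) < min δ1 δ2 := by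
    have h4 : Filter.Tendsto (fun M : ℕ => √(1 / 2 ^ M)) Filter.atTop (nhds (√0)) := by
      have h2 : Filter.Tendsto (fun M : ℕ => (1:ℝ) / 2 ^ M) Filter.atTop (nhds 0) := by
        have := tendsto_pow_atTop_nhds_zero_of_lt_one (r := (1/2:ℝ)) (by norm_num) (by norm_num)
        refine this.congr fun M => ?_
        rw [one_div, one_div, inv_pow]
      exact (Real.continuous_sqrt.tendsto 0).comp h2
    rw [Real.sqrt_zero] at h4
    exact (h4.eventually (gt_mem_nhds (lt_min hδ1 hδ2))).exists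
  obtain ⟨l, hl⟩ := hlev
  have hmem : t0 ∈ cell l (cix l t0) := mem_cell.2 ⟨ht0.1.le, rfl⟩
  obtain ⟨N, hN⟩ := exists_nat_ge (max (|F t0| + 1) (max (2 * |a|) (2 / |a|)))
  have hN1 : |F t0| + 1 ≤ N := (le_max_left _ _).trans hN
  have hN2 : 2 * |a| ≤ N := ((le_max_left _ _).trans (le_max_right _ _)).trans hN
  have hN3 : 2 / |a| ≤ N := ((le_max_right _ _).trans (le_max_right _ _)).trans hN
  have hkey : ∀ s ∈ cell l (cix l t0), ∀ t ∈ cell l (cix l t0),
      |F s - F t - a * (s - t)| ≤ |a| / 2 * |s - t| := by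
    intro s hs t ht
    have hs1 : dist s t0 < δ1 := by
      rw [Real.dist_eq]
      exact lt_of_le_of_lt (cell_diam hs hmem) (hl.trans_le (min_le_left _ _))
    have ht1 : dist t t0 < δ1 := by
      rw [Real.dist_eq]
      exact lt_of_le_of_lt (cell_diam ht hmem) (hl.trans_le (min_le_left _ _))
    have := @h2 (s, t) (by rw [Prod.dist_eq]; exact max_lt hs1 ht1)
    simpa [mul_comm] using this
  refine ⟨l, cix l t0, N, cix_lt ht0.1.le ht0.2, ⟨?_, ?_, ?_⟩, hmem⟩
  · intro s hs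
    have hs1 : dist s t0 < δ2 := by
      rw [Real.dist_eq]
      exact lt_of_le_of_lt (cell_diam hs hmem) (hl.trans_le (min_le_right _ _))
    have h5 := h3 hs1
    rw [Real.dist_eq] at h5
    have h6 : |F s| ≤ |F t0| + 1 := by
      have := abs_sub_abs_le_abs_sub (F s) (F t0)
      linarith
    exact h6.trans hN1
  · intro s hs t ht
    have h5 := hkey s hs t ht
    have h6 : |F s - F t| ≤ |a| * |s - t| + |a| / 2 * |s - t| := by
      rw [← abs_mul]
      have := abs_sub_abs_le_abs_sub (F s - F t) (a * (s - t))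
      linarith
    refine h6.trans ?_
    have : |a| * |s - t| + |a| / 2 * |s - t| ≤ 2 * |a| * |s - t| := by
      nlinarith [mul_nonneg hapos.le (abs_nonneg (s - t))]
    exact this.trans (mul_le_mul_of_nonneg_right hN2 (abs_nonneg _))
  · intro s hs t ht
    have h5 := hkey s hs t ht
    have h6 : |a| * |s - t| - |F s - F t| ≤ |a| / 2 * |s - t| := by
      rw [← abs_mul]
      have := abs_sub_abs_le_abs_sub (a * (s - t)) (F s - F t)
      rw [abs_sub_comm (a * (s - t)) (F s - F t)] at this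
      linarith
    have h7 : |s - t| ≤ 2 / |a| * |F s - F t| := by
      rw [div_mul_eq_mul_div, le_div_iff₀ hapos]
      linarith
    exact h7.trans (mul_le_mul_of_nonneg_right hN3 (abs_nonneg _))

theorem main_div {f : ℝ → ℝ} (hf : AnalyticOnNhd ℝ f (Set.Icc (0:ℝ) 1))
    (hne : ∃ x ∈ Set.Icc (0:ℝ) 1, f x ≠ 0) :
    ∀ᵐ t ∂(volume.restrict (Set.Icc (0:ℝ) 1)),
      ¬ ∃ c : ℝ, Filter.Tendsto
        (fun M : ℕ => ∑ n ∈ range M, (∫ s in Set.Icc (0:ℝ) 1, f s * ph n s) * ph n t)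
        Filter.atTop (nhds c) := by
  have hcont : ContinuousOn f (Set.Icc 0 1) := fun x hx => (hf x hx).continuousAt.continuousWithinAt
  have hfi : IntegrableOn (fun s => f s * √(2 * s)) (Set.Icc 0 1) :=
    (hcont.mul (Real.continuous_sqrt.comp
      (continuous_const.mul continuous_id)).continuousOn).integrableOn_Icc
  have hFa : AnalyticOnNhd ℝ (fun t => f t / √(2 * t)) (Set.Ioo (0:ℝ) 1) := by
    intro t ht
    exact (hf t (Set.Ioo_subset_Icc_self ht)).div (sqrt_an ht.1)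
      (Real.sqrt_pos.2 (by linarith [ht.1])).ne'
  have hnull := deriv_zero_null hFa.deriv (fun h => an_nonconst hf hne h hFa)
  have hall : ∀ᵐ t, ∀ l i N : ℕ, i < 2 ^ l → Cls (N:ℝ) (cell l i) f → t ∈ cell l i →
      ¬ ∃ c : ℝ, Filter.Tendsto
        (fun M : ℕ => ∑ n ∈ range M, (∫ s in Set.Icc (0:ℝ) 1, f s * ph n s) * ph n t)
        Filter.atTop (nhds c) := by
    refine ae_all_iff.2 fun l => ae_all_iff.2 fun i => ae_all_iff.2 fun N => ?_
    refine ae_all_iff.2 fun hi => ae_all_iff.2 fun hN => ?_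
    exact div_cell hfi hi hN
  have hfin : ∀ᵐ t, t ∈ Set.Ioo (0:ℝ) 1 → ¬ ∃ c : ℝ, Filter.Tendsto
        (fun M : ℕ => ∑ n ∈ range M, (∫ s in Set.Icc (0:ℝ) 1, f s * ph n s) * ph n t)
        Filter.atTop (nhds c) := by
    have hz : ∀ᵐ t, ¬ (t ∈ Set.Ioo (0:ℝ) 1 ∧ deriv (fun t => f t / √(2 * t)) t = 0) := by
      rw [ae_iff]
      simp only [not_not]
      exact hnull
    filter_upwards [hall, hz] with t h1 h2 ht
    obtain ⟨l, i, N, hi, hN, hmem⟩ := exists_cls ht (hFa t ht) (fun h => h2 ⟨ht, h⟩)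
    exact h1 l i N hi hN hmem
  have h11 := (ae_restrict_iff' (μ := volume) measurableSet_Ioo).2 hfin
  have h10 : volume.restrict (Set.Ioo (0:ℝ) 1) = volume.restrict (Set.Icc (0:ℝ) 1) :=
    Measure.restrict_congr_set Ioo_ae_eq_Icc
  exact (congrArg (fun m => ∀ᵐ t ∂m, ¬ ∃ c : ℝ, Filter.Tendsto
        (fun M : ℕ => ∑ n ∈ range M, (∫ s in Set.Icc (0:ℝ) 1, f s * ph n s) * ph n t)
        Filter.atTop (nhds c)) h10).mp h11

end Pool.Agent.H100R3.Div
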