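import Mathlib

open Filter Topology Set

namespace Pool.Agent.H100R3.HLpsi

variable {H : Type*} [NormedAddCommGroup H] [InnerProductSpace ℝ H]

theorem evalCont (f : StrongDual ℝ H) :
    Continuous fun x : WeakSpace ℝ H => f ((toWeakSpace ℝ H).symm x) :=
  WeakBilin.eval_continuous (topDualPairing ℝ H).flip f

theorem t2 : T2Space (WeakSpace ℝ H) := by
  have hB : Function.Injective (topDualPairing ℝ H).flip := by
    intro x y hxy
    by_contra hne
    have h1 : inner ℝ (x - y) x = inner ℝ (x - y) y := by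
      exact LinearMap.congr_fun hxy (innerSL ℝ (x - y))
    have h2 : inner ℝ (x - y) (x - y) = 0 := by
      rw [inner_sub_right, h1, sub_self]
    exact hne (sub_eq_zero.1 (inner_self_eq_zero.1 h2))
  exact (WeakBilin.isEmbedding hB).t2Space

/-- weakly compact sets are norm bounded -/
theorem bdd [CompleteSpace H] {K : Set (WeakSpace ℝ H)} (hK : IsCompact K) :
    ∃ R : ℝ, 0 < R ∧ ∀ x ∈ K, ‖(toWeakSpace ℝ H).symm x‖ ≤ R := by
  obtain ⟨R, hR⟩ := banach_steinhaus (ι := K) (𝕜 := ℝ) (𝕜₂ := ℝ) (σ₁₂ := RingHom.id ℝ)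
    (g := fun x : K => innerSL ℝ ((toWeakSpace ℝ H).symm x.1)) (by
      intro y
      have h1 : ContinuousOn (fun x : WeakSpace ℝ H => ‖innerSL ℝ y ((toWeakSpace ℝ H).symm x)‖) K :=
        ((evalCont (innerSL ℝ y)).norm).continuousOn
      obtain ⟨B, hB⟩ := hK.bddAbove_image h1
      refine ⟨B, fun i => ?_⟩
      have h2 := hB (mem_image_of_mem _ i.2)
      simp only [innerSL_apply_apply] at h2 ⊢
      rw [real_inner_comm]
      exact h2)
  refine ⟨max R 1, by positivity, fun x hx => ?_⟩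
  have := hR ⟨x, hx⟩
  rw [innerSL_apply_norm] at this
  exact this.trans (le_max_left _ _)

theorem cone_closed (C : PointedCone ℝ (WeakSpace ℝ H)) {U K : Set (WeakSpace ℝ H)}
    (hU : U ∈ 𝓝 (0 : WeakSpace ℝ H)) (hK : IsCompact K) (hUK : (C : Set (WeakSpace ℝ H)) ∩ U ⊆ K)
    (hKC : K ⊆ C) : IsClosed (C : Set (WeakSpace ℝ H)) := by
  have : T2Space (WeakSpace ℝ H) := t2
  refine isClosed_of_closure_subset fun x hx => ?_
  have h1 : Tendsto (fun t : ℝ => t • x) (𝓝[>] 0) (𝓝 (0 : WeakSpace ℝ H)) := by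
    have h2 : Continuous fun t : ℝ => t • x := by fun_prop
    have h3 := (h2.tendsto 0).mono_left (nhdsWithin_le_nhds (s := Ioi 0))
    simpa using h3
  have h4 : ∀ᶠ t in 𝓝[>] (0 : ℝ), t • x ∈ interior U := h1 (interior_mem_nhds.2 hU)
  have h5 : ∀ᶠ t in 𝓝[>] (0 : ℝ), 0 < t := self_mem_nhdsWithin
  obtain ⟨t, ht1, ht2⟩ := (h4.and h5).exists
  have h6 : t • x ∈ closure ((C : Set (WeakSpace ℝ H)) ∩ U) := by
    have h7 : t • x ∈ closure (C : Set (WeakSpace ℝ H)) := by
      have h8 : MapsTo (fun y : WeakSpace ℝ H => t • y) (C : Set (WeakSpace ℝ H)) C := by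
        intro y hy
        exact C.smul_mem ht2.le hy
      have h9 : Continuous fun y : WeakSpace ℝ H => t • y := by fun_prop
      exact map_mem_closure h9 hx h8
    have h8 : t • x ∈ closure ((C : Set (WeakSpace ℝ H)) ∩ interior U) := by
      rw [inter_comm]
      exact isOpen_interior.inter_closure ⟨ht1, h7⟩
    exact closure_mono (inter_subset_inter_right _ interior_subset) h8
  have h7 : t • x ∈ K := (hK.isClosed.closure_subset_iff.2 hUK) h6
  have h8 : t⁻¹ • (t • x) ∈ C :=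
    C.smul_mem (inv_pos.2 ht2).le (hKC h7)
  rw [inv_smul_smul₀ ht2.ne'] at h8
  exact h8

/-- separation of a point from a closed convex cone -/
theorem sep (C : PointedCone ℝ (WeakSpace ℝ H)) (hC : IsClosed (C : Set (WeakSpace ℝ H)))
    {z : WeakSpace ℝ H} (hz : z ∉ C) :
    ∃ f : WeakSpace ℝ H →L[ℝ] ℝ, (∀ x ∈ C, 0 ≤ f x) ∧ f z < 0 := by
  have hconv : Convex ℝ (C : Set (WeakSpace ℝ H)) := C.toConvexCone.convex
  have hlc : LocallyConvexSpace ℝ (WeakSpace ℝ H) :=
    WeakBilin.locallyConvexSpace (B := (topDualPairing ℝ H).flip)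
  obtain ⟨f, u, hu, hf⟩ := geometric_hahn_banach_point_closed hconv hC hz
  have h0 : u < 0 := by
    have := hf 0 C.zero_mem
    simpa using this
  refine ⟨f, fun x hx => ?_, hu.trans h0⟩
  by_contra hneg
  push Not at hneg
  have h1 : (u / f x) • x ∈ C := C.smul_mem
    (div_pos_of_neg_of_neg h0 hneg).le hx
  have h2 := hf _ h1
  rw [map_smul, smul_eq_mul, div_mul_cancel₀ _ hneg.ne] at h2
  exact lt_irrefl _ h2

theorem exists_psi_of_locallyCompact [CompleteSpace H] (C : PointedCone ℝ (WeakSpace ℝ H))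
    (hp : ∀ x ∈ C, -x ∈ C → x = 0) (hC : LocallyCompactSpace (C : Set (WeakSpace ℝ H))) :
    IsClosed ((toWeakSpace ℝ H) ⁻¹' (C : Set (WeakSpace ℝ H))) ∧
      ∃ (ψ : H →L[ℝ] ℝ) (r : ℝ), 0 < r ∧ ∀ x : H, toWeakSpace ℝ H x ∈ C → r * ‖x‖ ≤ ψ x := by
  have : T2Space (WeakSpace ℝ H) := t2
  -- compact neighbourhood of 0 in C
  obtain ⟨s, hs1, -, hs3⟩ := hC.local_compact_nhds
    (⟨0, C.zero_mem⟩ : (C : Set (WeakSpace ℝ H))) univ univ_mem
  rw [nhds_subtype, mem_comap] at hs1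
  obtain ⟨U, hU, hUs⟩ := hs1
  set K : Set (WeakSpace ℝ H) := Subtype.val '' s with hK
  have hKc : IsCompact K := hs3.image continuous_subtype_val
  have hUK : (C : Set (WeakSpace ℝ H)) ∩ U ⊆ K := by
    rintro x ⟨hx1, hx2⟩
    exact ⟨⟨x, hx1⟩, hUs hx2, rfl⟩
  have hKC : K ⊆ C := by
    rintro _ ⟨x, -, rfl⟩
    exact x.2
  have hcl : IsClosed (C : Set (WeakSpace ℝ H)) := cone_closed C hU hKc hUK hKC
  have hsmul : ∀ (t : ℝ), 0 ≤ t → ∀ x ∈ C, t • x ∈ C := fun t ht x hx =>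
    C.smul_mem ht hx
  refine ⟨hcl.preimage (toWeakSpaceCLM ℝ H).continuous, ?_⟩
  obtain ⟨R, hR0, hR⟩ := bdd hKc
  -- a basic seminorm ball inside U
  have hWS := LinearMap.weakBilin_withSeminorms (topDualPairing ℝ H).flip
  obtain ⟨F, r, hr, hF⟩ := (hWS.mem_nhds_iff 0 U).1 hU
  set N : WeakSpace ℝ H → ℝ := fun x => ∑ f ∈ F, |f ((toWeakSpace ℝ H).symm x)| with hN
  have hNcont : Continuous N := by
    refine continuous_finsetSum F fun f _ => ?_
    exact (evalCont f).abs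
  have hN0 : ∀ x, 0 ≤ N x := fun x => Finset.sum_nonneg fun f _ => abs_nonneg _
  have hNs : ∀ (t : ℝ) (x : WeakSpace ℝ H), 0 ≤ t → N (t • x) = t * N x := by
    intro t x ht
    simp only [hN, map_smul, smul_eq_mul, abs_mul, abs_of_nonneg ht, Finset.mul_sum]
  have hNz : N 0 = 0 := by
    simp [hN]
  have hball : ∀ x : WeakSpace ℝ H, N x < r → x ∈ U := by
    intro x hx
    refine hF ((Seminorm.mem_ball_zero _).2 (Seminorm.finset_sup_apply_lt hr fun f hf => ?_))
    have h1 : |f ((toWeakSpace ℝ H).symm x)| ≤ N x :=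
      Finset.single_le_sum (f := fun f : StrongDual ℝ H => |f ((toWeakSpace ℝ H).symm x)|)
        (fun g _ => abs_nonneg _) hf
    exact lt_of_le_of_lt h1 hx
  have hKb : ∀ x ∈ C, N x < r → x ∈ K := fun x hx h => hUK ⟨hx, hball x h⟩
  have hnorm : ∀ x ∈ C, ‖(toWeakSpace ℝ H).symm x‖ ≤ (2 * R / r) * N x := by
    intro x hx
    rcases (hN0 x).eq_or_lt with h0 | hpos
    · -- N x = 0
      rw [← h0, mul_zero]
      by_contra hne
      push Not at hne
      have h1 : ∀ t : ℝ, 0 ≤ t → t * ‖(toWeakSpace ℝ H).symm x‖ ≤ R := by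
        intro t ht
        have h2 := hR _ (hKb (t • x) (hsmul t ht x hx) (by
          rw [hNs t x ht, ← h0, mul_zero]; exact hr))
        rw [map_smul, norm_smul, Real.norm_of_nonneg ht] at h2
        exact h2
      have h2 := h1 ((R + 1) / ‖(toWeakSpace ℝ H).symm x‖) (by positivity)
      rw [div_mul_cancel₀ _ hne.ne'] at h2
      linarith
    · have h2 := hR _ (hKb ((r / (2 * N x)) • x) (hsmul _ (by positivity) x hx) (by
          rw [hNs _ x (by positivity)]
          have : r / (2 * N x) * N x = r / 2 := by field_simp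
          rw [this]; linarith))
      rw [map_smul, norm_smul, Real.norm_of_nonneg (by positivity)] at h2
      have h3 : ‖(toWeakSpace ℝ H).symm x‖ =
          (2 * N x / r) * (r / (2 * N x) * ‖(toWeakSpace ℝ H).symm x‖) := by field_simp
      rw [h3]
      calc (2 * N x / r) * (r / (2 * N x) * ‖(toWeakSpace ℝ H).symm x‖)
          ≤ (2 * N x / r) * R := by gcongr
        _ = (2 * R / r) * N x := by ring
  -- the base
  set S : Set (WeakSpace ℝ H) := {x | x ∈ C ∧ N x = 1} with hS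
  have hSc : IsCompact S := by
    have h1 : IsCompact ((fun y : WeakSpace ℝ H => (2 / r) • y) '' K) :=
      hKc.image (by fun_prop)
    refine h1.of_isClosed_subset (hcl.inter (isClosed_eq hNcont continuous_const)) ?_
    rintro x ⟨hx1, hx2⟩
    refine ⟨(r / 2) • x, hKb _ (hsmul _ (by positivity) x hx1) ?_, ?_⟩
    · rw [hNs _ x (by positivity), hx2]
      linarith
    · change (2 / r) • ((r / 2) • x) = x
      rw [smul_smul]
      have : (2 / r) * (r / 2) = 1 := by field_simp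
      rw [this, one_smul]
  have hsep : ∀ z ∈ S, ∃ f : WeakSpace ℝ H →L[ℝ] ℝ, (∀ x ∈ C, 0 ≤ f x) ∧ 0 < f z := by
    intro z hz
    have h1 : -z ∉ C := by
      intro h
      have h2 := hp z hz.1 h
      have h3 := hz.2
      rw [h2, hNz] at h3
      norm_num at h3
    obtain ⟨f, hf1, hf2⟩ := sep C hcl h1
    refine ⟨f, hf1, ?_⟩
    rw [map_neg] at hf2
    linarith
  choose! f hf1 hf2 using hsep
  obtain ⟨T, hT1, hT2⟩ := hSc.elim_nhds_subcover (fun z => {w | 0 < f z w}) (by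
    intro z hz
    exact (isOpen_lt continuous_const (f z).continuous).mem_nhds (hf2 z hz))
  set Ψ : WeakSpace ℝ H →L[ℝ] ℝ := ∑ z ∈ T, f z with hΨ
  have hΨ0 : ∀ x ∈ S, 0 < Ψ x := by
    intro x hx
    have h1 := hT2 hx
    simp only [mem_iUnion] at h1
    obtain ⟨z, hz, hzx⟩ := h1
    rw [hΨ, sum_apply]
    exact Finset.sum_pos' (fun w hw => hf1 w (hT1 w hw) x hx.1) ⟨z, hz, hzx⟩
  obtain ⟨m, hm0, hm⟩ : ∃ m : ℝ, 0 < m ∧ ∀ x ∈ S, m ≤ Ψ x := by
    rcases S.eq_empty_or_nonempty with he | hne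
    · exact ⟨1, one_pos, by rw [he]; simp⟩
    · obtain ⟨x0, hx0, hmin⟩ := hSc.exists_isMinOn hne Ψ.continuous.continuousOn
      exact ⟨Ψ x0, hΨ0 x0 hx0, fun x hx => hmin hx⟩
  refine ⟨Ψ.comp (toWeakSpaceCLM ℝ H), m / (2 * R / r), by positivity, fun x hx => ?_⟩
  have hx' := hnorm _ hx
  rw [LinearEquiv.symm_apply_apply] at hx'
  have hcomp : (Ψ.comp (toWeakSpaceCLM ℝ H)) x = Ψ (toWeakSpace ℝ H x) := rfl
  rw [hcomp]
  rcases (hN0 (toWeakSpace ℝ H x)).eq_or_lt with h0 | hpos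
  · rw [← h0, mul_zero] at hx'
    have h1 : x = 0 := norm_le_zero_iff.1 hx'
    rw [h1]
    simp
  · have h2 : (N (toWeakSpace ℝ H x))⁻¹ • (toWeakSpace ℝ H x) ∈ S := by
      refine ⟨hsmul _ (by positivity) _ hx, ?_⟩
      rw [hNs _ _ (by positivity), inv_mul_cancel₀ hpos.ne']
    have h3 := hm _ h2
    rw [map_smul, smul_eq_mul] at h3
    have h4 : m * N (toWeakSpace ℝ H x) ≤ Ψ (toWeakSpace ℝ H x) := by
      have := mul_le_mul_of_nonneg_left h3 hpos.le
      rw [← mul_assoc, mul_inv_cancel₀ hpos.ne', one_mul] at this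
      linarith
    refine le_trans ?_ h4
    rw [div_mul_eq_mul_div, div_le_iff₀ (by positivity)]
    calc m * ‖x‖ ≤ m * (2 * R / r * N (toWeakSpace ℝ H x)) := by gcongr
      _ = m * N (toWeakSpace ℝ H x) * (2 * R / r) := by ring

end Pool.Agent.H100R3.HLpsi
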