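import Mathlib

set_option autoImplicit false
set_option linter.unusedSectionVars false

open scoped InnerProductSpace ENNReal
open Cardinal

namespace Pool.Agent.H100R3.Inv

universe u

section Families

variable {H : Type u} [NormedAddCommGroup H] [InnerProductSpace ℂ H] [CompleteSpace H]

/-- The index set of a Hilbert basis of an infinite-dimensional space is infinite. -/
theorem infinite_index {ι : Type u} (b : HilbertBasis ι ℂ H) (hH : ¬ FiniteDimensional ℂ H) :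
    Infinite ι := by
  by_contra h
  rw [not_infinite_iff_finite] at h
  have := Fintype.ofFinite ι
  exact hH b.toOrthonormalBasis.toBasis.finiteDimensional_of_finite

/-- A set of fewer than `#ι` vectors has a common orthogonal unit vector. -/
theorem exists_unit_orthogonal {ι : Type u} (b : HilbertBasis ι ℂ H)
    (hH : ¬ FiniteDimensional ℂ H) (V : Set H) (hV : #V < #ι) :
    ∃ x : H, ‖x‖ = 1 ∧ ∀ v ∈ V, ⟪v, x⟫_ℂ = 0 := by
  by_cases hfin : V.Finite
  · have hfd : FiniteDimensional ℂ (Submodule.span ℂ V) :=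
      FiniteDimensional.span_of_finite ℂ hfin
    have hne : (Submodule.span ℂ V)ᗮ ≠ ⊥ := by
      intro h
      rw [Submodule.orthogonal_eq_bot_iff] at h
      apply hH
      rw [h] at hfd
      exact (Submodule.topEquiv : (⊤ : Submodule ℂ H) ≃ₗ[ℂ] H).finiteDimensional
    obtain ⟨y, hy, hy0⟩ := Submodule.exists_mem_ne_zero_of_ne_bot hne
    refine ⟨((‖y‖⁻¹ : ℝ) : ℂ) • y, ?_, fun v hv => ?_⟩
    · rw [norm_smul, Complex.norm_real, norm_inv, norm_norm]
      exact inv_mul_cancel₀ (norm_ne_zero_iff.2 hy0)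
    · rw [inner_smul_right, Submodule.inner_right_of_mem_orthogonal
        (Submodule.subset_span hv) hy, mul_zero]
  · have hinf : ℵ₀ ≤ #V := by
      rw [← not_lt, Cardinal.lt_aleph0_iff_set_finite]
      exact hfin
    have hcount : ∀ v : H, {i | ⟪b i, v⟫_ℂ ≠ 0}.Countable := by
      intro v
      have h1 := (b.orthonormal.inner_products_summable v).countable_support
      refine h1.mono (fun i hi => ?_)
      simp only [Function.mem_support]
      have : ‖⟪b i, v⟫_ℂ‖ ≠ 0 := norm_ne_zero_iff.2 hi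
      positivity
    have hcard : #(⋃ v : V, {i | ⟪b i, (v : H)⟫_ℂ ≠ 0}) < #ι := by
      refine lt_of_le_of_lt (Cardinal.mk_iUnion_le _) ?_
      refine lt_of_le_of_lt (mul_le_mul' le_rfl (ciSup_le' (fun v : V =>
        (Cardinal.le_aleph0_iff_set_countable.2 (hcount v))))) ?_
      rw [Cardinal.mul_aleph0_eq hinf]
      exact hV
    have hne : ∃ i, i ∉ (⋃ v : V, {i | ⟪b i, (v : H)⟫_ℂ ≠ 0}) := by
      by_contra h
      push Not at h
      have h2 : (⋃ v : V, {i | ⟪b i, (v : H)⟫_ℂ ≠ 0}) = Set.univ := Set.eq_univ_of_forall h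
      rw [h2, Cardinal.mk_univ] at hcard
      exact lt_irrefl _ hcard
    obtain ⟨i, hi⟩ := hne
    refine ⟨b i, b.orthonormal.1 i, fun v hv => ?_⟩
    rw [← inner_conj_symm]
    have h3 : ⟪b i, v⟫_ℂ = 0 := by
      by_contra h
      exact hi (Set.mem_iUnion.2 ⟨⟨v, hv⟩, h⟩)
    rw [h3, map_zero]

/-- the compatibility relation between two pairs of vectors -/
def Rel (A Ai : H →L[ℂ] H) (p q : H × H) : Prop :=
  ⟪p.1, q.2⟫_ℂ = 0 ∧ ⟪q.2, A p.1⟫_ℂ = 0 ∧ ⟪p.1, Ai q.2⟫_ℂ = 0 ∧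
    (p ≠ q → ⟪p.1, q.1⟫_ℂ = 0 ∧ ⟪p.2, q.2⟫_ℂ = 0)

/-- admissible families -/
def Adm (A Ai : H →L[ℂ] H) (S : Set (H × H)) : Prop :=
  ∀ p ∈ S, ‖p.1‖ = 1 ∧ ‖p.2‖ = 1 ∧ ∀ q ∈ S, Rel A Ai p q

theorem exists_maximal (A Ai : H →L[ℂ] H) : ∃ S, Maximal (Adm A Ai) S := by
  refine zorn_subset {S | Adm A Ai S} ?_
  intro c hc hchain
  refine ⟨⋃₀ c, ?_, fun s hs => Set.subset_sUnion_of_mem hs⟩
  intro p hp
  obtain ⟨s, hs, hps⟩ := hp
  have h1 : Adm A Ai s := hc hs
  refine ⟨(h1 p hps).1, (h1 p hps).2.1, ?_⟩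
  rintro q ⟨t, ht, hqt⟩
  rcases hchain.total hs ht with h | h
  · exact ((hc ht : Adm A Ai t) p (h hps)).2.2 q hqt
  · exact (h1 p hps).2.2 q (h hqt)

theorem mk_le_of_maximal {ι : Type u} (b : HilbertBasis ι ℂ H)
    (hH : ¬ FiniteDimensional ℂ H) (A Ai : H →L[ℂ] H) (S : Set (H × H))
    (hS : Maximal (Adm A Ai) S) : #ι ≤ #S := by
  by_contra hlt
  rw [not_le] at hlt
  have hinf : Infinite ι := infinite_index b hH
  have hι : ℵ₀ ≤ #ι := Cardinal.aleph0_le_mk ι
  have himg : ∀ f : H × H → H, #(f '' S) < #ι := fun f => lt_of_le_of_lt Cardinal.mk_image_le hlt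
  have hun : ∀ V W : Set H, #V < #ι → #W < #ι → #(V ∪ W : Set H) < #ι := fun V W h1 h2 =>
    lt_of_le_of_lt (Cardinal.mk_union_le V W) (Cardinal.add_lt_of_lt hι h1 h2)
  have hsing : ∀ v : H, #({v} : Set H) < #ι := fun v => by
    rw [Cardinal.mk_singleton]
    exact lt_of_lt_of_le Cardinal.one_lt_aleph0 hι
  -- first vector
  obtain ⟨x, hx1, hx⟩ := exists_unit_orthogonal b hH
    (((fun q : H × H => q.1) '' S) ∪ ((fun q : H × H => q.2) '' S) ∪
      ((fun q : H × H => (ContinuousLinearMap.adjoint A) q.2) '' S) ∪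
      ((fun q : H × H => Ai q.2) '' S))
    (hun _ _ (hun _ _ (hun _ _ (himg _) (himg _)) (himg _)) (himg _))
  obtain ⟨y, hy1, hy⟩ := exists_unit_orthogonal b hH
    (((fun q : H × H => q.1) '' S) ∪ ((fun q : H × H => q.2) '' S) ∪
      ((fun q : H × H => A q.1) '' S) ∪
      ((fun q : H × H => (ContinuousLinearMap.adjoint Ai) q.1) '' S) ∪
      {x} ∪ {A x} ∪ {(ContinuousLinearMap.adjoint Ai) x})
    (hun _ _ (hun _ _ (hun _ _ (hun _ _ (hun _ _ (hun _ _ (himg _) (himg _)) (himg _)) (himg _))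
      (hsing _)) (hsing _)) (hsing _))
  have hx_fst : ∀ q ∈ S, ⟪q.1, x⟫_ℂ = 0 := fun q hq =>
    hx _ (Or.inl (Or.inl (Or.inl ⟨q, hq, rfl⟩)))
  have hx_snd : ∀ q ∈ S, ⟪q.2, x⟫_ℂ = 0 := fun q hq =>
    hx _ (Or.inl (Or.inl (Or.inr ⟨q, hq, rfl⟩)))
  have hx_A : ∀ q ∈ S, ⟪q.2, A x⟫_ℂ = 0 := fun q hq => by
    rw [← ContinuousLinearMap.adjoint_inner_left]
    exact hx _ (Or.inl (Or.inr ⟨q, hq, rfl⟩))
  have hx_Ai : ∀ q ∈ S, ⟪Ai q.2, x⟫_ℂ = 0 := fun q hq =>
    hx _ (Or.inr ⟨q, hq, rfl⟩)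
  have hy_fst : ∀ q ∈ S, ⟪q.1, y⟫_ℂ = 0 := fun q hq =>
    hy _ (Or.inl (Or.inl (Or.inl (Or.inl (Or.inl (Or.inl ⟨q, hq, rfl⟩))))))
  have hy_snd : ∀ q ∈ S, ⟪q.2, y⟫_ℂ = 0 := fun q hq =>
    hy _ (Or.inl (Or.inl (Or.inl (Or.inl (Or.inl (Or.inr ⟨q, hq, rfl⟩))))))
  have hy_A : ∀ q ∈ S, ⟪A q.1, y⟫_ℂ = 0 := fun q hq =>
    hy _ (Or.inl (Or.inl (Or.inl (Or.inl (Or.inr ⟨q, hq, rfl⟩)))))
  have hy_Ai : ∀ q ∈ S, ⟪q.1, Ai y⟫_ℂ = 0 := fun q hq => by
    rw [← ContinuousLinearMap.adjoint_inner_left]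
    exact hy _ (Or.inl (Or.inl (Or.inl (Or.inr ⟨q, hq, rfl⟩))))
  have hxy : ⟪x, y⟫_ℂ = 0 := hy _ (Or.inl (Or.inl (Or.inr rfl)))
  have hxAy : ⟪A x, y⟫_ℂ = 0 := hy _ (Or.inl (Or.inr rfl))
  have hxAiy : ⟪x, Ai y⟫_ℂ = 0 := by
    rw [← ContinuousLinearMap.adjoint_inner_left]
    exact hy _ (Or.inr rfl)
  have symm0 : ∀ u v : H, ⟪u, v⟫_ℂ = 0 → ⟪v, u⟫_ℂ = 0 := fun u v h => by
    rw [← inner_conj_symm, h, map_zero]
  have hnew : Adm A Ai (insert (x, y) S) := by
    intro p hp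
    rcases hp with rfl | hp
    · refine ⟨hx1, hy1, ?_⟩
      intro q hq
      rcases hq with rfl | hq
      · exact ⟨hxy, symm0 _ _ hxAy, hxAiy, fun h => absurd rfl h⟩
      · exact ⟨symm0 _ _ (hx_snd q hq), hx_A q hq, symm0 _ _ (hx_Ai q hq),
          fun _ => ⟨symm0 _ _ (hx_fst q hq), symm0 _ _ (hy_snd q hq)⟩⟩
    · refine ⟨(hS.prop p hp).1, (hS.prop p hp).2.1, ?_⟩
      intro q hq
      rcases hq with rfl | hq
      · exact ⟨hy_fst p hp, symm0 _ _ (hy_A p hp), hy_Ai p hp,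
          fun _ => ⟨hx_fst p hp, hy_snd p hp⟩⟩
      · exact (hS.prop p hp).2.2 q hq
  have hmem : (x, y) ∈ S := hS.le_of_ge hnew (Set.subset_insert _ _) (Set.mem_insert _ _)
  have := hx_fst _ hmem
  simp only [inner_self_eq_zero] at this
  rw [this, norm_zero] at hx1
  exact zero_ne_one hx1


/-- an operator whose matrix entries vanish is zero -/
theorem eq_zero_of_basis {ι : Type u} (b : HilbertBasis ι ℂ H) (Z : H →L[ℂ] H)
    (h : ∀ i j, ⟪b j, Z (b i)⟫_ℂ = 0) : Z = 0 := by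
  have h1 : ∀ i, Z (b i) = 0 := by
    intro i
    apply b.repr.injective
    ext j
    rw [b.repr_apply_apply, h i j]
    simp
  refine ContinuousLinearMap.ext_on
    (Submodule.dense_iff_topologicalClosure_eq_top.2 b.dense_span) ?_
  rintro _ ⟨i, rfl⟩
  rw [h1 i]
  rfl

theorem adjoint_mul_self (V : H →ₗᵢ[ℂ] H) :
    ContinuousLinearMap.adjoint V.toContinuousLinearMap * V.toContinuousLinearMap = 1 := by
  refine ContinuousLinearMap.ext fun v => ext_inner_left ℂ fun w => ?_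
  show ⟪w, (ContinuousLinearMap.adjoint V.toContinuousLinearMap) (V v)⟫_ℂ = ⟪w, v⟫_ℂ
  rw [ContinuousLinearMap.adjoint_inner_right]
  exact V.inner_map_map w v

/-- the two isometries -/
theorem exists_isometries (hH : ¬ FiniteDimensional ℂ H) (A Ai : H →L[ℂ] H) :
    ∃ X Y : H →L[ℂ] H,
      ContinuousLinearMap.adjoint X * X = 1 ∧ ContinuousLinearMap.adjoint Y * Y = 1 ∧
      ContinuousLinearMap.adjoint X * Y = 0 ∧ ContinuousLinearMap.adjoint Y * X = 0 ∧
      ContinuousLinearMap.adjoint Y * A * X = 0 ∧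
      ContinuousLinearMap.adjoint X * Ai * Y = 0 := by
  obtain ⟨w, b, hb⟩ := exists_hilbertBasis ℂ H
  obtain ⟨S, hS⟩ := exists_maximal A Ai
  obtain ⟨e⟩ : Nonempty (w ↪ S) := (Cardinal.le_def _ _).1 (mk_le_of_maximal b hH A Ai S hS)
  have hrel : ∀ i j, Rel A Ai (e i : H × H) (e j : H × H) := fun i j =>
    (hS.prop (e i : H × H) (e i).2).2.2 _ (e j).2
  have hne : ∀ i j, i ≠ j → (e i : H × H) ≠ (e j : H × H) := fun i j hij h =>
    hij (e.injective (Subtype.ext h))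
  have hx : Orthonormal ℂ (fun i : w => (e i : H × H).1) := by
    refine ⟨fun i => (hS.prop (e i : H × H) (e i).2).1, fun i j hij => ?_⟩
    exact ((hrel i j).2.2.2 (hne i j hij)).1
  have hy : Orthonormal ℂ (fun i : w => (e i : H × H).2) := by
    refine ⟨fun i => (hS.prop (e i : H × H) (e i).2).2.1, fun i j hij => ?_⟩
    exact ((hrel i j).2.2.2 (hne i j hij)).2
  classical
  let X₀ : H →ₗᵢ[ℂ] H := hx.orthogonalFamily.linearIsometry.comp b.repr.toLinearIsometry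
  let Y₀ : H →ₗᵢ[ℂ] H := hy.orthogonalFamily.linearIsometry.comp b.repr.toLinearIsometry
  have hX : ∀ i, X₀ (b i) = (e i : H × H).1 := by
    intro i
    show hx.orthogonalFamily.linearIsometry (b.repr (b i)) = _
    rw [b.repr_self, hx.orthogonalFamily.linearIsometry_apply_single]
    simp
  have hY : ∀ i, Y₀ (b i) = (e i : H × H).2 := by
    intro i
    show hy.orthogonalFamily.linearIsometry (b.repr (b i)) = _
    rw [b.repr_self, hy.orthogonalFamily.linearIsometry_apply_single]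
    simp
  have symm0 : ∀ u v : H, ⟪u, v⟫_ℂ = 0 → ⟪v, u⟫_ℂ = 0 := fun u v h => by
    rw [← inner_conj_symm, h, map_zero]
  refine ⟨X₀.toContinuousLinearMap, Y₀.toContinuousLinearMap, ?_, ?_, ?_, ?_, ?_, ?_⟩
  · exact adjoint_mul_self X₀
  · exact adjoint_mul_self Y₀
  · apply eq_zero_of_basis b
    intro i j
    show ⟪b j, (ContinuousLinearMap.adjoint X₀.toContinuousLinearMap) (Y₀ (b i))⟫_ℂ = 0
    rw [ContinuousLinearMap.adjoint_inner_right]
    show ⟪X₀ (b j), Y₀ (b i)⟫_ℂ = 0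
    rw [hX, hY]
    exact (hrel j i).1
  · apply eq_zero_of_basis b
    intro i j
    show ⟪b j, (ContinuousLinearMap.adjoint Y₀.toContinuousLinearMap) (X₀ (b i))⟫_ℂ = 0
    rw [ContinuousLinearMap.adjoint_inner_right]
    show ⟪Y₀ (b j), X₀ (b i)⟫_ℂ = 0
    rw [hX, hY]
    exact symm0 _ _ (hrel i j).1
  · apply eq_zero_of_basis b
    intro i j
    show ⟪b j, (ContinuousLinearMap.adjoint Y₀.toContinuousLinearMap) (A (X₀ (b i)))⟫_ℂ = 0
    rw [ContinuousLinearMap.adjoint_inner_right]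
    show ⟪Y₀ (b j), A (X₀ (b i))⟫_ℂ = 0
    rw [hX, hY]
    exact (hrel i j).2.1
  · apply eq_zero_of_basis b
    intro i j
    show ⟪b j, (ContinuousLinearMap.adjoint X₀.toContinuousLinearMap) (Ai (Y₀ (b i)))⟫_ℂ = 0
    rw [ContinuousLinearMap.adjoint_inner_right]
    show ⟪X₀ (b j), Ai (Y₀ (b i))⟫_ℂ = 0
    rw [hX, hY]
    exact (hrel j i).2.2.1

end Families

/-! ### ring identities -/

section Ring

variable {R : Type u} [Ring R]

theorem ring_part (X Xs Y Ys A Ai : R) (h1 : Xs * X = 1) (h2 : Ys * Y = 1) (h3 : Xs * Y = 0)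
    (h4 : Ys * X = 0) (h5 : Ys * A * X = 0) (h6 : Xs * Ai * Y = 0) (h7 : A * Ai = 1)
    (h8 : Ai * A = 1) :
    ∃ J₁ J₂ B Bi : R, J₁ * J₁ = 1 ∧ J₂ * J₂ = 1 ∧ B * Bi = 1 ∧ Bi * B = 1 ∧ A = J₁ * J₂ * B ∧
      B * X = X ∧ Xs * B = Xs := by
  set J₁ : R := Y * Xs + X * Ys + (1 - X * Xs - Y * Ys) with hJ1
  have eJX : J₁ * X = Y := by
    have : J₁ * X = Y * (Xs * X) + X * (Ys * X) + (X - X * (Xs * X) - Y * (Ys * X)) := by
      rw [hJ1]; noncomm_ring
    rw [this, h1, h4]; noncomm_ring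
  have eJY : J₁ * Y = X := by
    have : J₁ * Y = Y * (Xs * Y) + X * (Ys * Y) + (Y - X * (Xs * Y) - Y * (Ys * Y)) := by
      rw [hJ1]; noncomm_ring
    rw [this, h2, h3]; noncomm_ring
  have eXJ : Xs * J₁ = Ys := by
    have : Xs * J₁ = (Xs * Y) * Xs + (Xs * X) * Ys + (Xs - (Xs * X) * Xs - (Xs * Y) * Ys) := by
      rw [hJ1]; noncomm_ring
    rw [this, h1, h3]; noncomm_ring
  have eJJ : J₁ * J₁ = 1 := by
    have : J₁ * J₁ = (J₁ * Y) * Xs + (J₁ * X) * Ys + (J₁ - (J₁ * X) * Xs - (J₁ * Y) * Ys) := by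
      conv_lhs => rw [hJ1]
      conv_rhs => rw [hJ1]
      noncomm_ring
    rw [this, eJX, eJY, hJ1]
    noncomm_ring
  set A₁ : R := J₁ * A with hA1
  set A₁i : R := Ai * J₁ with hA1i
  have a1 : A₁ * A₁i = 1 := by
    rw [hA1, hA1i, mul_assoc, ← mul_assoc A, h7, one_mul, eJJ]
  have a2 : A₁i * A₁ = 1 := by
    rw [hA1, hA1i, mul_assoc, ← mul_assoc J₁, eJJ, one_mul, h8]
  have b1 : Xs * A₁ * X = 0 := by
    rw [hA1, ← mul_assoc, eXJ, h5]
  have b2 : Xs * A₁i * X = 0 := by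
    rw [hA1i, mul_assoc, mul_assoc, eJX, ← mul_assoc, h6]
  set P : R := X * Xs with hP
  have p0 : P * P = P := by rw [hP, mul_assoc, ← mul_assoc Xs, h1, one_mul]
  have p1 : P * A₁ * P = 0 := by
    have : P * A₁ * P = X * (Xs * A₁ * X) * Xs := by rw [hP]; noncomm_ring
    rw [this, b1]; noncomm_ring
  have p2 : P * A₁i * P = 0 := by
    have : P * A₁i * P = X * (Xs * A₁i * X) * Xs := by rw [hP]; noncomm_ring
    rw [this, b2]; noncomm_ring
  set J₂ : R := A₁ * P + P * A₁i + (1 - P - A₁ * P * A₁i) with hJ2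
  have c1 : J₂ * (A₁ * P) = P := by
    have : J₂ * (A₁ * P) = A₁ * (P * A₁ * P) + P * (A₁i * A₁) * P +
        (A₁ * P - P * A₁ * P - A₁ * P * (A₁i * A₁) * P) := by
      rw [hJ2]; noncomm_ring
    rw [this, p1, a2, mul_one, mul_one, p0, mul_assoc A₁ P P, p0]; noncomm_ring
  have c2 : J₂ * P = A₁ * P := by
    have : J₂ * P = A₁ * (P * P) + P * A₁i * P + (P - P * P - A₁ * (P * A₁i * P)) := by
      rw [hJ2]; noncomm_ring
    rw [this, p2, p0]; noncomm_ring
  have c3 : J₂ * J₂ = 1 := by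
    have : J₂ * J₂ = J₂ * (A₁ * P) + (J₂ * P) * A₁i + (J₂ - J₂ * P - (J₂ * (A₁ * P)) * A₁i) := by
      conv_lhs => rw [hJ2]
      conv_rhs => rw [hJ2]
      noncomm_ring
    rw [this, c1, c2, hJ2]
    noncomm_ring
  refine ⟨J₁, J₂, J₂ * A₁, A₁i * J₂, eJJ, c3, ?_, ?_, ?_, ?_, ?_⟩
  · rw [mul_assoc, ← mul_assoc A₁, a1, one_mul, c3]
  · rw [mul_assoc, ← mul_assoc J₂, c3, one_mul, a2]
  · rw [← mul_assoc, mul_assoc J₁, c3, mul_one, hA1, ← mul_assoc, eJJ, one_mul]
  · have hPX : P * X = X := by rw [hP, mul_assoc, h1, mul_one]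
    calc J₂ * A₁ * X = J₂ * (A₁ * P) * X := by
          rw [mul_assoc J₂ (A₁ * P) X, mul_assoc A₁ P X, hPX, mul_assoc]
      _ = X := by rw [c1, hPX]
  · have hXP : Xs * P = Xs := by rw [hP, ← mul_assoc, h1, one_mul]
    have d1 : Xs * A₁ * P = 0 := by rw [hP, ← mul_assoc, b1, zero_mul]
    have : Xs * (J₂ * A₁) = (Xs * A₁ * P) * A₁ + (Xs * P) * (A₁i * A₁) +
        (Xs * A₁ - (Xs * P) * A₁ - (Xs * A₁ * P) * (A₁i * A₁)) := by
      rw [hJ2]; noncomm_ring
    rw [this, d1, hXP, a2]; noncomm_ring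

end Ring

/-! ### the sequence space -/

section Seq

variable {H : Type u} [NormedAddCommGroup H] [InnerProductSpace ℂ H] [CompleteSpace H]

/-- square summable sequences in `H` -/
abbrev L (H : Type u) [NormedAddCommGroup H] [InnerProductSpace ℂ H] := lp (fun _ : ℕ => H) 2

theorem summable_sq (f : L H) : Summable (fun n => ‖f n‖ ^ 2) := by
  have := (lp.memℓp f).summable (by norm_num)
  simpa using this

theorem memℓp_two {f : ℕ → H} (h : Summable (fun n => ‖f n‖ ^ 2)) : Memℓp f 2 := by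
  apply memℓp_gen
  simpa using h

theorem norm_sq_eq (f : L H) : ‖f‖ ^ 2 = ∑' n, ‖f n‖ ^ 2 := by
  have := lp.norm_rpow_eq_tsum (p := 2) (by norm_num) f
  simpa using this

theorem blk_summable (σ : ℕ ≃ ℕ) (F : ℕ → H →L[ℂ] H) (C : ℝ) (hF : ∀ n, ‖F n‖ ≤ C) (f : L H) :
    Summable (fun n => ‖F n (f (σ n))‖ ^ 2) := by
  have hC : 0 ≤ C := (norm_nonneg _).trans (hF 0)
  have h1 : Summable (fun n => C ^ 2 * ‖f (σ n)‖ ^ 2) :=
    (((summable_sq f).comp_injective σ.injective)).mul_left _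
  refine Summable.of_nonneg_of_le (fun n => by positivity) (fun n => ?_) h1
  rw [← mul_pow]
  exact pow_le_pow_left₀ (norm_nonneg _) ((F n).le_of_opNorm_le (hF n) _) 2

/-- permuted block diagonal operator -/
noncomputable def blk (σ : ℕ ≃ ℕ) (F : ℕ → H →L[ℂ] H) (C : ℝ) (hF : ∀ n, ‖F n‖ ≤ C) :
    L H →L[ℂ] L H :=
  LinearMap.mkContinuous
    { toFun := fun f => ⟨fun n => F n (f (σ n)), memℓp_two (blk_summable σ F C hF f)⟩
      map_add' := fun f g => by
        ext n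
        exact map_add (F n) _ _
      map_smul' := fun c f => by
        ext n
        exact map_smul (F n) _ _ } C (fun f => by
      have hC : 0 ≤ C := (norm_nonneg _).trans (hF 0)
      apply (pow_le_pow_iff_left₀ (norm_nonneg _) (by positivity) two_ne_zero).1
      rw [mul_pow, norm_sq_eq, norm_sq_eq]
      have h1 : Summable (fun n => C ^ 2 * ‖f (σ n)‖ ^ 2) :=
        (((summable_sq f).comp_injective σ.injective)).mul_left _
      have h2 : ∑' n, C ^ 2 * ‖f (σ n)‖ ^ 2 = C ^ 2 * ∑' n, ‖f n‖ ^ 2 := by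
        rw [tsum_mul_left]
        congr 1
        exact σ.tsum_eq (fun n => ‖f n‖ ^ 2)
      rw [← h2]
      refine (blk_summable σ F C hF f).tsum_le_tsum (fun n => ?_) h1
      rw [← mul_pow]
      exact pow_le_pow_left₀ (norm_nonneg _) ((F n).le_of_opNorm_le (hF n) _) 2)

theorem blk_apply (σ : ℕ ≃ ℕ) (F : ℕ → H →L[ℂ] H) (C : ℝ) (hF : ∀ n, ‖F n‖ ≤ C) (f : L H)
    (n : ℕ) : (blk σ F C hF f) n = F n (f (σ n)) := rfl

theorem L_ext {S T : L H →L[ℂ] L H} (h : ∀ f n, (S f) n = (T f) n) : S = T := by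
  refine ContinuousLinearMap.ext fun f => ?_
  ext n
  exact h f n

/-- the pairing `2k ↔ 2k+1` -/
def tau0 : ℕ ≃ ℕ where
  toFun n := if n % 2 = 0 then n + 1 else n - 1
  invFun n := if n % 2 = 0 then n + 1 else n - 1
  left_inv n := by
    by_cases h : n % 2 = 0
    · have h1 : ¬ (n + 1) % 2 = 0 := by omega
      simp [h, h1]
    · have h1 : (n - 1) % 2 = 0 := by omega
      simp only [h, h1, if_true, if_false]
      omega
  right_inv n := by
    by_cases h : n % 2 = 0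
    · have h1 : ¬ (n + 1) % 2 = 0 := by omega
      simp [h, h1]
    · have h1 : (n - 1) % 2 = 0 := by omega
      simp only [h, h1, if_true, if_false]
      omega

/-- the pairing `2k+1 ↔ 2k+2` -/
def tau1 : ℕ ≃ ℕ where
  toFun n := if n = 0 then 0 else if n % 2 = 1 then n + 1 else n - 1
  invFun n := if n = 0 then 0 else if n % 2 = 1 then n + 1 else n - 1
  left_inv n := by
    by_cases h0 : n = 0
    · simp [h0]
    · by_cases h : n % 2 = 1
      · have h1 : ¬ (n + 1) % 2 = 1 := by omega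
        simp [h0, h, h1]
      · have h1 : (n - 1) % 2 = 1 := by omega
        have h2 : ¬ (n - 1 = 0) := by omega
        simp only [h0, h, h1, h2, if_true, if_false]
        omega
  right_inv n := by
    by_cases h0 : n = 0
    · simp [h0]
    · by_cases h : n % 2 = 1
      · have h1 : ¬ (n + 1) % 2 = 1 := by omega
        simp [h0, h, h1]
      · have h1 : (n - 1) % 2 = 1 := by omega
        have h2 : ¬ (n - 1 = 0) := by omega
        simp only [h0, h, h1, h2, if_true, if_false]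
        omega

theorem tau0_tau0 (n : ℕ) : tau0 (tau0 n) = n := tau0.left_inv n
theorem tau1_tau1 (n : ℕ) : tau1 (tau1 n) = n := tau1.left_inv n

theorem tau0_even {n : ℕ} (h : n % 2 = 0) : tau0 n = n + 1 := if_pos h
theorem tau0_odd {n : ℕ} (h : ¬ n % 2 = 0) : tau0 n = n - 1 := if_neg h

theorem tau1_zero : tau1 0 = 0 := rfl
theorem tau1_odd {n : ℕ} (h0 : n ≠ 0) (h : n % 2 = 1) : tau1 n = n + 1 := by
  show (if n = 0 then 0 else if n % 2 = 1 then n + 1 else n - 1) = n + 1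
  rw [if_neg h0, if_pos h]
theorem tau1_even {n : ℕ} (h0 : n ≠ 0) (h : ¬ n % 2 = 1) : tau1 n = n - 1 := by
  show (if n = 0 then 0 else if n % 2 = 1 then n + 1 else n - 1) = n - 1
  rw [if_neg h0, if_neg h]

/-- the diagonal operator `(B, 1, 1, …)` is a product of four involutions. -/
theorem diag_four (B Bi : H →L[ℂ] H) (h1 : B * Bi = 1) (h2 : Bi * B = 1) (D : L H →L[ℂ] L H)
    (hD0 : ∀ f, (D f) 0 = B (f 0)) (hD : ∀ f n, n ≠ 0 → (D f) n = f n) :
    ∃ P₁ P₂ P₃ P₄ : L H →L[ℂ] L H, P₁ * P₁ = 1 ∧ P₂ * P₂ = 1 ∧ P₃ * P₃ = 1 ∧ P₄ * P₄ = 1 ∧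
      D = P₁ * P₂ * P₃ * P₄ := by
  have e1 : ∀ v, B (Bi v) = v := fun v => congrArg (fun T : H →L[ℂ] H => T v) h1
  have e2 : ∀ v, Bi (B v) = v := fun v => congrArg (fun T : H →L[ℂ] H => T v) h2
  set C : ℝ := max (max ‖B‖ ‖Bi‖) ‖(1 : H →L[ℂ] H)‖ with hC
  have c1 : ‖B‖ ≤ C := (le_max_left _ _).trans (le_max_left _ _)
  have c2 : ‖Bi‖ ≤ C := (le_max_right _ _).trans (le_max_left _ _)
  have c3 : ‖(1 : H →L[ℂ] H)‖ ≤ C := le_max_right _ _
  let F1 : ℕ → H →L[ℂ] H := fun n => if n % 2 = 0 then B else Bi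
  let F3 : ℕ → H →L[ℂ] H := fun n => if n = 0 then 1 else if n % 2 = 1 then B else Bi
  have b1 : ∀ n, ‖F1 n‖ ≤ C := fun n => by
    show ‖if n % 2 = 0 then B else Bi‖ ≤ C
    split_ifs <;> assumption
  have b3 : ∀ n, ‖F3 n‖ ≤ C := fun n => by
    show ‖if n = 0 then 1 else if n % 2 = 1 then B else Bi‖ ≤ C
    split_ifs <;> assumption
  refine ⟨blk tau0 F1 C b1, blk tau0 (fun _ => 1) C (fun _ => c3), blk tau1 F3 C b3,
    blk tau1 (fun _ => 1) C (fun _ => c3), ?_, ?_, ?_, ?_, ?_⟩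
  · apply L_ext
    intro f n
    show F1 n (F1 (tau0 n) (f (tau0 (tau0 n)))) = f n
    rw [tau0_tau0]
    by_cases h : n % 2 = 0
    · have a1 : F1 n = B := if_pos h
      have a2 : F1 (tau0 n) = Bi := by
        rw [tau0_even h]; exact if_neg (by omega)
      rw [a1, a2, e1]
    · have a1 : F1 n = Bi := if_neg h
      have a2 : F1 (tau0 n) = B := by
        rw [tau0_odd h]; exact if_pos (by omega)
      rw [a1, a2, e2]
  · apply L_ext
    intro f n
    show f (tau0 (tau0 n)) = f n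
    rw [tau0_tau0]
  · apply L_ext
    intro f n
    show F3 n (F3 (tau1 n) (f (tau1 (tau1 n)))) = f n
    rw [tau1_tau1]
    by_cases h0 : n = 0
    · subst h0
      rfl
    · by_cases h : n % 2 = 1
      · have a1 : F3 n = B := by
          show (if n = 0 then 1 else if n % 2 = 1 then B else Bi) = B
          rw [if_neg h0, if_pos h]
        have a2 : F3 (tau1 n) = Bi := by
          rw [tau1_odd h0 h]
          show (if n + 1 = 0 then 1 else if (n + 1) % 2 = 1 then B else Bi) = Bi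
          rw [if_neg (by omega), if_neg (by omega)]
        rw [a1, a2, e1]
      · have a1 : F3 n = Bi := by
          show (if n = 0 then 1 else if n % 2 = 1 then B else Bi) = Bi
          rw [if_neg h0, if_neg h]
        have a2 : F3 (tau1 n) = B := by
          rw [tau1_even h0 h]
          show (if n - 1 = 0 then 1 else if (n - 1) % 2 = 1 then B else Bi) = B
          rw [if_neg (by omega), if_pos (by omega)]
        rw [a1, a2, e2]
  · apply L_ext
    intro f n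
    show f (tau1 (tau1 n)) = f n
    rw [tau1_tau1]
  · apply L_ext
    intro f n
    show (D f) n = F1 n (F3 (tau0 (tau0 n)) (f (tau1 (tau1 (tau0 (tau0 n))))))
    rw [tau0_tau0, tau1_tau1]
    by_cases h0 : n = 0
    · subst h0
      rw [hD0]
      rfl
    · rw [hD f n h0]
      by_cases h : n % 2 = 1
      · have a1 : F1 n = Bi := if_neg (by omega)
        have a3 : F3 n = B := by
          show (if n = 0 then 1 else if n % 2 = 1 then B else Bi) = B
          rw [if_neg h0, if_pos h]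
        rw [a1, a3, e2]
      · have a1 : F1 n = B := if_pos (by omega)
        have a3 : F3 n = Bi := by
          show (if n = 0 then 1 else if n % 2 = 1 then B else Bi) = Bi
          rw [if_neg h0, if_neg h]
        rw [a1, a3, e1]

/-- `H` is isometric to the space of square summable sequences in `H`. -/
theorem exists_equiv_seq (hH : ¬ FiniteDimensional ℂ H) : Nonempty (H ≃ₗᵢ[ℂ] L H) := by
  classical
  obtain ⟨w, b, hb⟩ := exists_hilbertBasis ℂ H
  have hinf : Infinite w := infinite_index b hH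
  have hcard : #(ℕ × w) = #w := by
    rw [Cardinal.mk_prod]
    simp only [Cardinal.lift_uzero, Cardinal.mk_nat, Cardinal.lift_aleph0]
    exact Cardinal.aleph0_mul_eq (Cardinal.aleph0_le_mk w)
  obtain ⟨e⟩ : Nonempty (ℕ × w ≃ w) := Cardinal.eq.1 hcard
  have ho1 : Orthonormal ℂ (fun p : ℕ × w => b (e p)) := b.orthonormal.comp _ e.injective
  have hz1 : (Submodule.span ℂ (Set.range fun p : ℕ × w => b (e p)))ᗮ = ⊥ := by
    rw [eq_bot_iff]
    intro v hv
    rw [Submodule.mem_bot]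
    apply b.repr.injective
    ext j
    rw [b.repr_apply_apply, map_zero]
    have : b j ∈ Submodule.span ℂ (Set.range fun p : ℕ × w => b (e p)) :=
      Submodule.subset_span ⟨e.symm j, by simp⟩
    rw [Submodule.inner_right_of_mem_orthogonal this hv]
    rfl
  let b1 : HilbertBasis (ℕ × w) ℂ H := HilbertBasis.mkOfOrthogonalEqBot ho1 hz1
  have ho2 : Orthonormal ℂ (fun p : ℕ × w => (lp.single 2 p.1 (b p.2) : L H)) := by
    rw [orthonormal_iff_ite]
    rintro ⟨n, i⟩ ⟨m, j⟩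
    rw [lp.inner_single_left]
    by_cases h : n = m
    · subst h
      rw [lp.single_apply_self, orthonormal_iff_ite.1 b.orthonormal i j]
      simp
    · rw [lp.single_apply_ne _ _ _ h, inner_zero_right]
      simp [h]
  have hz2 : (Submodule.span ℂ (Set.range fun p : ℕ × w =>
      (lp.single 2 p.1 (b p.2) : L H)))ᗮ = ⊥ := by
    rw [eq_bot_iff]
    intro f hf
    rw [Submodule.mem_bot]
    ext n
    apply b.repr.injective
    ext j
    rw [b.repr_apply_apply]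
    have h1 : (lp.single 2 n (b j) : L H) ∈ Submodule.span ℂ (Set.range fun p : ℕ × w =>
      (lp.single 2 p.1 (b p.2) : L H)) := Submodule.subset_span ⟨(n, j), rfl⟩
    have h2 := Submodule.inner_right_of_mem_orthogonal h1 hf
    rw [lp.inner_single_left] at h2
    rw [h2]
    show (0 : ℂ) = b.repr (0 : H) j
    rw [map_zero]
    rfl
  let b2 : HilbertBasis (ℕ × w) ℂ (L H) := HilbertBasis.mkOfOrthogonalEqBot ho2 hz2
  exact ⟨b1.repr.trans b2.repr.symm⟩


/-- if `B` fixes the range of an isometry `X` and `X† B = X†`, then `B` is similar to the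
diagonal operator `(B, 1, 1, …)`, so it is a product of four involutions. -/
theorem four_of_fixed (hH : ¬ FiniteDimensional ℂ H) (X Xs B Bi : H →L[ℂ] H) (hX : Xs * X = 1)
    (h1 : B * Bi = 1) (h2 : Bi * B = 1) (hBX : B * X = X) (hXB : Xs * B = Xs) :
    ∃ P₁ P₂ P₃ P₄ : H →L[ℂ] H, P₁ * P₁ = 1 ∧ P₂ * P₂ = 1 ∧ P₃ * P₃ = 1 ∧ P₄ * P₄ = 1 ∧
      B = P₁ * P₂ * P₃ * P₄ := by
  classical
  obtain ⟨S⟩ := exists_equiv_seq hH
  have eX : ∀ v, Xs (X v) = v := fun v => congrArg (fun T : H →L[ℂ] H => T v) hX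
  have eBX : ∀ v, B (X v) = X v := fun v => congrArg (fun T : H →L[ℂ] H => T v) hBX
  have eXB : ∀ v, Xs (B v) = Xs v := fun v => congrArg (fun T : H →L[ℂ] H => T v) hXB
  let ev : L H →L[ℂ] H := lp.evalCLM ℂ (fun _ : ℕ => H) 2 0
  let sg : H →L[ℂ] L H := lp.singleContinuousLinearMap ℂ (fun _ : ℕ => H) 2 0
  have ev_sg : ∀ v, ev (sg v) = v := fun v =>
    lp.single_apply_self (E := fun _ : ℕ => H) 2 0 v
  have sg_ne : ∀ v n, n ≠ 0 → (sg v) n = 0 := fun v n hn =>
    lp.single_apply_ne (E := fun _ : ℕ => H) 2 0 v hn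
  let S₁ : H →L[ℂ] L H := S.toContinuousLinearEquiv.toContinuousLinearMap
  let S₂ : L H →L[ℂ] H := S.symm.toContinuousLinearEquiv.toContinuousLinearMap
  have s12 : ∀ f, S₁ (S₂ f) = f := fun f => S.apply_symm_apply f
  have s21 : ∀ v, S₂ (S₁ v) = v := fun v => S.symm_apply_apply v
  let T : L H →L[ℂ] H := ev - X.comp (Xs.comp ev) +
    X.comp (S₂.comp (ContinuousLinearMap.id ℂ (L H) + sg.comp (Xs.comp ev - ev)))
  have hT : ∀ f, T f = (ev f - X (Xs (ev f))) + X (S₂ (f + sg (Xs (ev f) - ev f))) :=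
    fun f => rfl
  let T' : H →L[ℂ] L H := S₁.comp Xs +
    sg.comp (ContinuousLinearMap.id ℂ H - X.comp Xs + X.comp (ev.comp (S₁.comp Xs)) -
      ev.comp (S₁.comp Xs))
  have hT' : ∀ v, T' v = S₁ (Xs v) + sg (v - X (Xs v) + X (ev (S₁ (Xs v))) - ev (S₁ (Xs v))) :=
    fun v => rfl
  have hTT' : ∀ v, T (T' v) = v := by
    intro v
    have f0 : ev (T' v) = v - X (Xs v) + X (ev (S₁ (Xs v))) := by
      rw [hT', map_add, ev_sg]
      abel
    have f1 : Xs (ev (T' v)) = ev (S₁ (Xs v)) := by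
      rw [f0, map_add, map_sub, eX, eX]
      abel
    have f2 : T' v + sg (Xs (ev (T' v)) - ev (T' v)) = S₁ (Xs v) := by
      rw [f1, f0, hT', add_assoc, ← map_add]
      have : v - X (Xs v) + X (ev (S₁ (Xs v))) - ev (S₁ (Xs v)) +
          (ev (S₁ (Xs v)) - (v - X (Xs v) + X (ev (S₁ (Xs v))))) = 0 := by abel
      rw [this, map_zero, add_zero]
    rw [hT, f2, f1, f0, s21]
    abel
  have hT'T : ∀ f, T' (T f) = f := by
    intro f
    have f1 : Xs (T f) = S₂ (f + sg (Xs (ev f) - ev f)) := by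
      rw [hT, map_add, map_sub, eX, eX]
      abel
    have f2 : S₁ (Xs (T f)) = f + sg (Xs (ev f) - ev f) := by rw [f1, s12]
    have f3 : ev (S₁ (Xs (T f))) = Xs (ev f) := by
      rw [f2, map_add, ev_sg]; abel
    have f4 : T f - X (Xs (T f)) = ev f - X (Xs (ev f)) := by
      rw [f1, hT]; abel
    rw [hT', f3, f4, f2, add_assoc, ← map_add]
    have : Xs (ev f) - ev f + (ev f - X (Xs (ev f)) + X (Xs (ev f)) - Xs (ev f)) = 0 := by abel
    rw [this, map_zero, add_zero]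
  let D : L H →L[ℂ] L H := ContinuousLinearMap.id ℂ (L H) + sg.comp (B.comp ev - ev)
  have hD : ∀ f, D f = f + sg (B (ev f) - ev f) := fun f => rfl
  have hTD : ∀ f, T (D f) = B (T f) := by
    intro f
    have f0 : ev (D f) = B (ev f) := by
      rw [hD, map_add, ev_sg]; abel
    have f1 : D f + sg (Xs (ev (D f)) - ev (D f)) = f + sg (Xs (ev f) - ev f) := by
      rw [f0, eXB, hD, add_assoc, ← map_add]
      congr 2
      abel
    rw [hT (D f), f1, f0, eXB, hT f, map_add B, map_sub B, eBX, eBX]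
  obtain ⟨P₁, P₂, P₃, P₄, q1, q2, q3, q4, q5⟩ := diag_four B Bi h1 h2 D
    (fun f => by
      have : ev (D f) = B (ev f) := by rw [hD, map_add, ev_sg]; abel
      exact this)
    (fun f n hn => by
      have : (D f) n = f n + (sg (B (ev f) - ev f)) n := rfl
      rw [this, sg_ne _ _ hn, add_zero])
  have conj_sq : ∀ P : L H →L[ℂ] L H, P * P = 1 →
      (T.comp (P.comp T')) * (T.comp (P.comp T')) = 1 := by
    intro P hP
    refine ContinuousLinearMap.ext fun v => ?_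
    show T (P (T' (T (P (T' v))))) = v
    rw [hT'T]
    have : P (P (T' v)) = T' v := congrArg (fun Q : L H →L[ℂ] L H => Q (T' v)) hP
    rw [this, hTT']
  refine ⟨T.comp (P₁.comp T'), T.comp (P₂.comp T'), T.comp (P₃.comp T'), T.comp (P₄.comp T'),
    conj_sq _ q1, conj_sq _ q2, conj_sq _ q3, conj_sq _ q4, ?_⟩
  refine ContinuousLinearMap.ext fun v => ?_
  show B v = T (P₁ (T' (T (P₂ (T' (T (P₃ (T' (T (P₄ (T' v)))))))))))
  rw [hT'T, hT'T, hT'T]
  have h5 : D (T' v) = P₁ (P₂ (P₃ (P₄ (T' v)))) :=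
    congrArg (fun Q : L H →L[ℂ] L H => Q (T' v)) q5
  rw [← h5, hTD, hTT']

end Seq


end Pool.Agent.H100R3.Inv
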