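import Pool.Agent.H100R3.InvC

set_option autoImplicit false
set_option linter.unusedSectionVars false

open scoped InnerProductSpace ENNReal
open Cardinal

namespace Pool.Agent.H100R3.Inv

universe u

variable {H : Type u} [NormedAddCommGroup H] [InnerProductSpace ℂ H] [CompleteSpace H]

/-- families of unit vectors that are orthogonal also after applying `A` -/
def Adm1 (A : H →L[ℂ] H) (S : Set H) : Prop :=
  ∀ p ∈ S, ‖p‖ = 1 ∧ ∀ q ∈ S, p ≠ q → ⟪p, q⟫_ℂ = 0 ∧ ⟪p, A q⟫_ℂ = 0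

theorem exists_maximal1 (A : H →L[ℂ] H) : ∃ S, Maximal (Adm1 A) S := by
  refine zorn_subset {S | Adm1 A S} ?_
  intro c hc hchain
  refine ⟨⋃₀ c, ?_, fun s hs => Set.subset_sUnion_of_mem hs⟩
  intro p hp
  obtain ⟨s, hs, hps⟩ := hp
  have h1 : Adm1 A s := hc hs
  refine ⟨(h1 p hps).1, ?_⟩
  rintro q ⟨t, ht, hqt⟩
  rcases hchain.total hs ht with h | h
  · exact ((hc ht : Adm1 A t) p (h hps)).2 q hqt
  · exact (h1 p hps).2 q (h hqt)

theorem mk_le_of_maximal1 {ι : Type u} (b : HilbertBasis ι ℂ H)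
    (hH : ¬ FiniteDimensional ℂ H) (A : H →L[ℂ] H) (S : Set H)
    (hS : Maximal (Adm1 A) S) : #ι ≤ #S := by
  by_contra hlt
  rw [not_le] at hlt
  have hinf : Infinite ι := infinite_index b hH
  have hι : ℵ₀ ≤ #ι := Cardinal.aleph0_le_mk ι
  have himg : ∀ f : H → H, #(f '' S) < #ι := fun f => lt_of_le_of_lt Cardinal.mk_image_le hlt
  have hun : ∀ V W : Set H, #V < #ι → #W < #ι → #(V ∪ W : Set H) < #ι := fun V W h1 h2 =>
    lt_of_le_of_lt (Cardinal.mk_union_le V W) (Cardinal.add_lt_of_lt hι h1 h2)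
  obtain ⟨x, hx1, hx⟩ := exists_unit_orthogonal b hH
    (((fun q : H => q) '' S) ∪ ((fun q : H => (ContinuousLinearMap.adjoint A) q) '' S) ∪
      ((fun q : H => A q) '' S))
    (hun _ _ (hun _ _ (himg _) (himg _)) (himg _))
  have hx_id : ∀ q ∈ S, ⟪q, x⟫_ℂ = 0 := fun q hq => hx _ (Or.inl (Or.inl ⟨q, hq, rfl⟩))
  have hx_A : ∀ q ∈ S, ⟪q, A x⟫_ℂ = 0 := fun q hq => by
    rw [← ContinuousLinearMap.adjoint_inner_left]
    exact hx _ (Or.inl (Or.inr ⟨q, hq, rfl⟩))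
  have hx_Aq : ∀ q ∈ S, ⟪A q, x⟫_ℂ = 0 := fun q hq => hx _ (Or.inr ⟨q, hq, rfl⟩)
  have symm0 : ∀ u v : H, ⟪u, v⟫_ℂ = 0 → ⟪v, u⟫_ℂ = 0 := fun u v h => by
    rw [← inner_conj_symm, h, map_zero]
  have hnew : Adm1 A (insert x S) := by
    intro p hp
    rcases hp with rfl | hp
    · refine ⟨hx1, ?_⟩
      intro q hq hne
      rcases hq with rfl | hq
      · exact absurd rfl hne
      · exact ⟨symm0 _ _ (hx_id q hq), symm0 _ _ (hx_Aq q hq)⟩
    · refine ⟨(hS.prop p hp).1, ?_⟩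
      intro q hq hne
      rcases hq with rfl | hq
      · exact ⟨hx_id p hp, hx_A p hp⟩
      · exact (hS.prop p hp).2 q hq hne
  have hmem : x ∈ S := hS.le_of_ge hnew (Set.subset_insert _ _) (Set.mem_insert _ _)
  have := hx_id _ hmem
  simp only [inner_self_eq_zero] at this
  rw [this, norm_zero] at hx1
  exact zero_ne_one hx1

theorem split_set {κ : Cardinal.{u}} (hκ : ℵ₀ ≤ κ) (S : Set H) (P : H → Prop) (h : κ ≤ #S) :
    κ ≤ #{x | x ∈ S ∧ P x} ∨ κ ≤ #{x | x ∈ S ∧ ¬ P x} := by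
  by_contra hcon
  push Not at hcon
  have hS : S ⊆ {x | x ∈ S ∧ P x} ∪ {x | x ∈ S ∧ ¬ P x} := fun x hx => by
    by_cases hp : P x
    · exact Or.inl ⟨hx, hp⟩
    · exact Or.inr ⟨hx, hp⟩
  have := (Cardinal.mk_le_mk_of_subset hS).trans (Cardinal.mk_union_le _ _)
  exact absurd (h.trans this) (not_le.2 (Cardinal.add_lt_of_lt hκ hcon.1 hcon.2))

/-- a big family with large diagonal entries in one direction, or with small ones -/
theorem exists_family {κ : Cardinal.{u}} (hκ : ℵ₀ ≤ κ) (A : H →L[ℂ] H) (S : Set H)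
    (h : κ ≤ #S) (δ : ℝ) :
    ∃ S' ⊆ S, κ ≤ #S' ∧ ((∃ θ : ℂ, ‖θ‖ = 1 ∧ ∀ e ∈ S', δ ≤ (θ * ⟪e, A e⟫_ℂ).re) ∨
      ∀ e ∈ S', ‖⟪e, A e⟫_ℂ‖ ≤ 2 * δ) := by
  rcases split_set hκ S (fun e => δ ≤ (⟪e, A e⟫_ℂ).re) h with h1 | h1
  · exact ⟨_, fun x hx => hx.1, h1, Or.inl ⟨1, by simp, fun e he => by simpa using he.2⟩⟩
  rcases split_set hκ _ (fun e => δ ≤ -(⟪e, A e⟫_ℂ).re) h1 with h2 | h2
  · exact ⟨_, fun x hx => hx.1.1, h2, Or.inl ⟨-1, by simp, fun e he => by simpa using he.2⟩⟩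
  rcases split_set hκ _ (fun e => δ ≤ (⟪e, A e⟫_ℂ).im) h2 with h3 | h3
  · exact ⟨_, fun x hx => hx.1.1.1, h3, Or.inl ⟨-Complex.I, by simp, fun e he => by
      simpa using he.2⟩⟩
  rcases split_set hκ _ (fun e => δ ≤ -(⟪e, A e⟫_ℂ).im) h3 with h4 | h4
  · exact ⟨_, fun x hx => hx.1.1.1.1, h4, Or.inl ⟨Complex.I, by simp, fun e he => by
      simpa using he.2⟩⟩
  refine ⟨_, fun x hx => hx.1.1.1.1, h4, Or.inr ?_⟩
  intro e he
  have a1 := he.1.1.1.2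
  have a2 := he.1.1.2
  have a3 := he.1.2
  have a4 := he.2
  push Not at a1 a2 a3 a4
  have b1 : |(⟪e, A e⟫_ℂ).re| ≤ δ := abs_le.2 ⟨by linarith, by linarith⟩
  have b2 : |(⟪e, A e⟫_ℂ).im| ≤ δ := abs_le.2 ⟨by linarith, by linarith⟩
  linarith [Complex.norm_le_abs_re_add_abs_im ⟪e, A e⟫_ℂ]

theorem isometry_of_family {w : Type u} (b : HilbertBasis w ℂ H) (f : w → H)
    (hf : Orthonormal ℂ f) : ∃ X : H →L[ℂ] H, ContinuousLinearMap.adjoint X * X = 1 ∧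
      ∀ i, X (b i) = f i := by
  classical
  let X₀ : H →ₗᵢ[ℂ] H := hf.orthogonalFamily.linearIsometry.comp b.repr.toLinearIsometry
  refine ⟨X₀.toContinuousLinearMap, adjoint_mul_self X₀, ?_⟩
  intro i
  show hf.orthogonalFamily.linearIsometry (b.repr (b i)) = _
  rw [b.repr_self, hf.orthogonalFamily.linearIsometry_apply_single]
  simp

theorem parseval {w : Type u} (b : HilbertBasis w ℂ H) (x : H) :
    HasSum (fun i => ‖⟪b i, x⟫_ℂ‖ ^ 2) (‖x‖ ^ 2) := by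
  have h := Complex.reCLM.hasSum (b.hasSum_inner_mul_inner x x)
  have e1 : Complex.reCLM ⟪x, x⟫_ℂ = ‖x‖ ^ 2 := by
    rw [inner_self_eq_norm_sq_to_K]
    show ((‖x‖ : ℂ) ^ 2).re = ‖x‖ ^ 2
    rw [← Complex.ofReal_pow, Complex.ofReal_re]
  rw [e1] at h
  convert h using 2 with i
  show _ = (⟪x, b i⟫_ℂ * ⟪b i, x⟫_ℂ).re
  rw [← inner_conj_symm x (b i), ← Complex.normSq_eq_conj_mul_self, Complex.ofReal_re,
    Complex.normSq_eq_norm_sq]

/-- a diagonal operator acts diagonally -/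
theorem diag_apply {w : Type u} (b : HilbertBasis w ℂ H) (a : H →L[ℂ] H)
    (ha : ∀ i j, j ≠ i → ⟪b j, a (b i)⟫_ℂ = 0) (j : w) (x : H) :
    ⟪b j, a x⟫_ℂ = ⟪b j, a (b j)⟫_ℂ * ⟪b j, x⟫_ℂ := by
  classical
  have h1 : (ContinuousLinearMap.adjoint a) (b j) -
      (starRingEnd ℂ ⟪b j, a (b j)⟫_ℂ) • b j = 0 := by
    apply eq_zero_of_orth b
    intro i
    rw [inner_sub_right, inner_smul_right, ContinuousLinearMap.adjoint_inner_right,
      ← inner_conj_symm]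
    by_cases h : j = i
    · subst h
      rw [orthonormal_iff_ite.1 b.orthonormal j j]
      simp
    · rw [ha i j h]
      have : ⟪b i, b j⟫_ℂ = 0 := b.orthonormal.2 (fun hh => h hh.symm)
      rw [this]
      simp
  rw [sub_eq_zero] at h1
  rw [← ContinuousLinearMap.adjoint_inner_left, h1, inner_smul_left]
  simp

theorem diag_re {w : Type u} (b : HilbertBasis w ℂ H) (a : H →L[ℂ] H)
    (ha : ∀ i j, j ≠ i → ⟪b j, a (b i)⟫_ℂ = 0) (θ : ℂ) (δ : ℝ)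
    (h : ∀ i, δ ≤ (θ * ⟪b i, a (b i)⟫_ℂ).re) (x : H) :
    δ * ‖x‖ ^ 2 ≤ (θ * ⟪x, a x⟫_ℂ).re := by
  have h1 := Complex.reCLM.hasSum ((b.hasSum_inner_mul_inner x (a x)).mul_left θ)
  have h2 := (parseval b x).mul_left δ
  refine hasSum_le ?_ h2 h1
  intro i
  show δ * ‖⟪b i, x⟫_ℂ‖ ^ 2 ≤ (θ * (⟪x, b i⟫_ℂ * ⟪b i, a x⟫_ℂ)).re
  rw [diag_apply b a ha i x, ← inner_conj_symm x (b i)]
  have e : θ * ((starRingEnd ℂ ⟪b i, x⟫_ℂ) * (⟪b i, a (b i)⟫_ℂ * ⟪b i, x⟫_ℂ)) =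
      (θ * ⟪b i, a (b i)⟫_ℂ) * ((starRingEnd ℂ ⟪b i, x⟫_ℂ) * ⟪b i, x⟫_ℂ) := by ring
  rw [e, ← Complex.normSq_eq_conj_mul_self, Complex.re_mul_ofReal, Complex.normSq_eq_norm_sq]
  exact mul_le_mul_of_nonneg_right (h i) (by positivity)

theorem diag_norm {w : Type u} (b : HilbertBasis w ℂ H) (a : H →L[ℂ] H)
    (ha : ∀ i j, j ≠ i → ⟪b j, a (b i)⟫_ℂ = 0) (ε : ℝ)
    (h : ∀ i, ‖⟪b i, a (b i)⟫_ℂ‖ ≤ ε) (hε : 0 ≤ ε) : ‖a‖ ≤ ε := by
  refine ContinuousLinearMap.opNorm_le_bound _ hε fun x => ?_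
  have h1 := parseval b (a x)
  have h2 := (parseval b x).mul_left (ε ^ 2)
  have h3 : ‖a x‖ ^ 2 ≤ ε ^ 2 * ‖x‖ ^ 2 := by
    refine hasSum_le ?_ h1 h2
    intro i
    rw [diag_apply b a ha i x, norm_mul, mul_pow]
    gcongr
    exact h i
  have h4 : ‖a x‖ ^ 2 ≤ (ε * ‖x‖) ^ 2 := by rw [mul_pow]; exact h3
  exact le_of_sq_le_sq h4 (by positivity)

/-- a splitting of `H` into two copies adapted to `A` -/
theorem good_system (hH : ¬ FiniteDimensional ℂ H) (A Ai : H →L[ℂ] H)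
    (h2 : Ai * A = 1) :
    ∃ X Xs U V : H →L[ℂ] H, Sys X Xs U V ∧
      ((∃ ai, (Xs * A * X) * ai = 1 ∧ ai * (Xs * A * X) = 1) ∨ ∃ l, l * (V * A * X) = 1) := by
  classical
  obtain ⟨w, b, hb⟩ := exists_hilbertBasis ℂ H
  obtain ⟨S, hS⟩ := exists_maximal1 A
  have hinf : Infinite w := infinite_index b hH
  have hι : ℵ₀ ≤ #w := Cardinal.aleph0_le_mk w
  set δ : ℝ := (4 * (‖Ai‖ + 1))⁻¹ with hδ
  have δ0 : 0 < δ := by positivity
  have δ1 : 2 * δ * ‖Ai‖ < 1 := by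
    have e : δ * (4 * (‖Ai‖ + 1)) = 1 := inv_mul_cancel₀ (by positivity)
    nlinarith [norm_nonneg Ai]
  obtain ⟨S', hS', hcard, hcase⟩ := exists_family hι A S (mk_le_of_maximal1 b hH A S hS) δ
  have hsum : #(w ⊕ w) ≤ #S' := by
    rw [Cardinal.mk_sum]
    simp only [Cardinal.lift_id]
    rw [Cardinal.add_eq_self hι]
    exact hcard
  obtain ⟨g⟩ : Nonempty (w ⊕ w ↪ S') := (Cardinal.le_def _ _).1 hsum
  have hmem : ∀ i, (g i : H) ∈ S := fun i => hS' (g i).2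
  have hne : ∀ i j, i ≠ j → (g i : H) ≠ (g j : H) := fun i j hij h =>
    hij (g.injective (Subtype.ext h))
  have hrel : ∀ i j, i ≠ j → ⟪(g i : H), (g j : H)⟫_ℂ = 0 ∧ ⟪(g i : H), A (g j : H)⟫_ℂ = 0 :=
    fun i j hij => (hS.prop _ (hmem i)).2 _ (hmem j) (hne i j hij)
  have hx : Orthonormal ℂ (fun i : w => (g (Sum.inl i) : H)) :=
    ⟨fun i => (hS.prop _ (hmem _)).1, fun i j hij =>
      (hrel _ _ (fun h => hij (Sum.inl_injective h))).1⟩
  have hz : Orthonormal ℂ (fun i : w => (g (Sum.inr i) : H)) :=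
    ⟨fun i => (hS.prop _ (hmem _)).1, fun i j hij =>
      (hrel _ _ (fun h => hij (Sum.inr_injective h))).1⟩
  obtain ⟨X, X1, X2⟩ := isometry_of_family b _ hx
  obtain ⟨Z, Z1, Z2⟩ := isometry_of_family b _ hz
  have XZ : ContinuousLinearMap.adjoint X * Z = 0 := by
    apply eq_zero_of_basis b
    intro i j
    show ⟪b j, (ContinuousLinearMap.adjoint X) (Z (b i))⟫_ℂ = 0
    rw [ContinuousLinearMap.adjoint_inner_right, X2, Z2]
    exact (hrel _ _ (by simp)).1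
  set Xs := ContinuousLinearMap.adjoint X with hXs
  have hF : (1 - X * Xs) * (1 - X * Xs) = 1 - X * Xs := by
    have : (1 - X * Xs) * (1 - X * Xs) = 1 - X * Xs - X * Xs + X * (Xs * X) * Xs := by
      noncomm_ring
    rw [this, X1]
    noncomm_ring
  have hFZ : (1 - X * Xs) * Z = Z := by
    have : (1 - X * Xs) * Z = Z - X * (Xs * Z) := by noncomm_ring
    rw [this, XZ, mul_zero, sub_zero]
  obtain ⟨U, V, u1, u2⟩ := mvn hH (1 - X * Xs) Z _ hF Z1 hFZ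
  have Ssys : Sys X Xs U V := by
    refine ⟨X1, u1, ?_, ?_, ?_⟩
    · have : Xs * U = Xs * (U * V) * U := by
        rw [mul_assoc, mul_assoc, u1, mul_one]
      rw [this, u2]
      have : Xs * (1 - X * Xs) * U = Xs * U - (Xs * X) * Xs * U := by noncomm_ring
      rw [this, X1, one_mul, sub_self]
    · have : V * X = V * (U * V) * X := by
        rw [← mul_assoc, u1, one_mul]
      rw [this, u2]
      have : V * (1 - X * Xs) * X = V * X - V * X * (Xs * X) := by noncomm_ring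
      rw [this, X1, mul_one, sub_self]
    · rw [u2]; abel
  refine ⟨X, Xs, U, V, Ssys, ?_⟩
  -- the compression is diagonal
  have hentry : ∀ i j : w, ⟪b j, (Xs * A * X) (b i)⟫_ℂ =
      ⟪(g (Sum.inl j) : H), A (g (Sum.inl i) : H)⟫_ℂ := by
    intro i j
    show ⟪b j, (ContinuousLinearMap.adjoint X) (A (X (b i)))⟫_ℂ = _
    rw [ContinuousLinearMap.adjoint_inner_right, X2, X2]
  have hdiag : ∀ i j : w, j ≠ i → ⟪b j, (Xs * A * X) (b i)⟫_ℂ = 0 := by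
    intro i j hij
    rw [hentry]
    exact (hrel _ _ (fun h => hij (Sum.inl_injective h))).2
  rcases hcase with ⟨θ, hθ, hbig⟩ | hsmall
  · left
    have hre : ∀ x, δ * ‖x‖ ^ 2 ≤ (θ * ⟪x, (Xs * A * X) x⟫_ℂ).re :=
      diag_re b (Xs * A * X) hdiag θ δ (fun i => by rw [hentry]; exact hbig _ (g _).2)
    have hunit : IsUnit (Xs * A * X) := by
      have hδn : (0 : NNReal) < ⟨δ, δ0.le⟩ := δ0
      refine ContinuousLinearMap.isUnit_of_forall_le_norm_inner_map _ hδn fun x => ?_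
      have h3 : (θ * ⟪x, (Xs * A * X) x⟫_ℂ).re ≤ ‖⟪(Xs * A * X) x, x⟫_ℂ‖ := by
        calc (θ * ⟪x, (Xs * A * X) x⟫_ℂ).re ≤ ‖θ * ⟪x, (Xs * A * X) x⟫_ℂ‖ :=
              Complex.re_le_norm _
          _ = ‖⟪(Xs * A * X) x, x⟫_ℂ‖ := by rw [norm_mul, hθ, one_mul, norm_inner_symm]
      calc ‖x‖ ^ 2 * ((⟨δ, δ0.le⟩ : NNReal) : ℝ) = δ * ‖x‖ ^ 2 := by
            show ‖x‖ ^ 2 * δ = _
            ring
        _ ≤ _ := (hre x).trans h3
    obtain ⟨v, hv⟩ := hunit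
    exact ⟨v.inv, by rw [← hv]; exact v.val_inv, by rw [← hv]; exact v.inv_val⟩
  · right
    have hnorm : ‖Xs * A * X‖ ≤ 2 * δ :=
      diag_norm b (Xs * A * X) hdiag (2 * δ) (fun i => by rw [hentry]; exact hsmall _ (g _).2)
        (by positivity)
    have hXn : ∀ x, ‖X x‖ = ‖x‖ := by
      intro x
      have : ‖X x‖ ^ 2 = ‖x‖ ^ 2 := by
        have e1 : ⟪X x, X x⟫_ℂ = ⟪x, x⟫_ℂ := by
          rw [← ContinuousLinearMap.adjoint_inner_left]
          have : (ContinuousLinearMap.adjoint X) (X x) = x :=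
            congrArg (fun T : H →L[ℂ] H => T x) X1
          rw [this]
        have e2 := congrArg Complex.re e1
        rw [inner_self_eq_norm_sq_to_K, inner_self_eq_norm_sq_to_K] at e2
        have e3 : ∀ r : ℝ, (((r : ℝ) : ℂ) ^ 2).re = r ^ 2 := fun r => by
          rw [← Complex.ofReal_pow, Complex.ofReal_re]
        rw [← e3, ← e3]
        exact e2
      exact (sq_eq_sq₀ (norm_nonneg _) (norm_nonneg _)).1 this
    have hX1 : ‖X‖ ≤ 1 := ContinuousLinearMap.opNorm_le_bound _ zero_le_one fun x => by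
      rw [hXn, one_mul]
    have hXs1 : ‖Xs‖ ≤ 1 := by
      rw [hXs, LinearIsometryEquiv.norm_map]
      exact hX1
    have hsm : ‖Xs * Ai * X * (Xs * A * X)‖ < 1 := by
      calc ‖Xs * Ai * X * (Xs * A * X)‖ ≤ ‖Xs * Ai * X‖ * ‖Xs * A * X‖ := norm_mul_le _ _
        _ ≤ (‖Xs‖ * ‖Ai‖ * ‖X‖) * (2 * δ) := by
            gcongr
            exact (norm_mul_le _ _).trans (by gcongr; exact norm_mul_le _ _)
        _ ≤ (1 * ‖Ai‖ * 1) * (2 * δ) := by gcongr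
        _ = 2 * δ * ‖Ai‖ := by ring
        _ < 1 := δ1
    obtain ⟨v, hv⟩ := isUnit_one_sub_of_norm_lt_one hsm
    have hv2 : v.inv * (1 - Xs * Ai * X * (Xs * A * X)) = 1 := by rw [← hv]; exact v.inv_val
    refine ⟨v.inv * (Xs * Ai * U), ?_⟩
    have : v.inv * (Xs * Ai * U) * (V * A * X) = v.inv * (Xs * Ai * (U * V) * A * X) := by
      noncomm_ring
    rw [this, u2]
    have : Xs * Ai * (1 - X * Xs) * A * X = Xs * (Ai * A) * X - Xs * Ai * X * (Xs * A * X) := by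
      noncomm_ring
    rw [this, h2, mul_one, X1, hv2]

end Pool.Agent.H100R3.Inv
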