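import Pool.Agent.H100R3.InvD

set_option autoImplicit false
set_option linter.unusedSectionVars false

open scoped InnerProductSpace ENNReal
open Cardinal

namespace Pool.Agent.H100R3.Inv

universe u

section Alg

variable {R : Type u} [Ring R]

/-- changing the second summand to a graph -/
theorem Sys.change {X Xs U V : R} (S : Sys X Xs U V) (γ α αi : R) (h1 : α * αi = 1)
    (h2 : αi * α = 1) :
    Sys X (Xs - γ * αi * V) (X * γ + U * α) (αi * V) := by
  refine ⟨?_, ?_, ?_, ?_, ?_⟩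
  · have : (Xs - γ * αi * V) * X = Xs * X - γ * αi * (V * X) := by noncomm_ring
    rw [this, S.xx, S.yx, mul_zero, sub_zero]
  · have : αi * V * (X * γ + U * α) = αi * (V * X) * γ + αi * (V * U) * α := by noncomm_ring
    rw [this, S.yx, S.yy]
    have : αi * 0 * γ + αi * 1 * α = αi * α := by noncomm_ring
    rw [this, h2]
  · have : (Xs - γ * αi * V) * (X * γ + U * α) = (Xs * X) * γ + (Xs * U) * α
        - γ * αi * (V * X) * γ - γ * αi * (V * U) * α := by noncomm_ring
    rw [this, S.xx, S.xy, S.yx, S.yy]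
    have : 1 * γ + 0 * α - γ * αi * 0 * γ - γ * αi * 1 * α = γ - γ * (αi * α) := by noncomm_ring
    rw [this, h2, mul_one, sub_self]
  · have : αi * V * X = αi * (V * X) := by noncomm_ring
    rw [this, S.yx, mul_zero]
  · have : X * (Xs - γ * αi * V) + (X * γ + U * α) * (αi * V) =
        X * Xs + U * (α * αi) * V := by noncomm_ring
    rw [this, h1, mul_one, S.sum]

/-- the matrix of `B` when `B X = Y` -/
theorem Sys.matrix {X Xs Y Ys : R} (S : Sys X Xs Y Ys) (B : R) (hB : B * X = Y) :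
    B = Phi X Xs Y Ys 0 (Xs * B * Y) 1 (Ys * B * Y) := by
  have e1 : B = (X * Xs + Y * Ys) * B * (X * Xs + Y * Ys) := by rw [S.sum, one_mul, mul_one]
  have e2 : (X * Xs + Y * Ys) * B * (X * Xs + Y * Ys) =
      X * (Xs * (B * X)) * Xs + X * (Xs * B * Y) * Ys + Y * (Ys * (B * X)) * Xs +
        Y * (Ys * B * Y) * Ys := by noncomm_ring
  rw [hB, S.xy, S.yy] at e2
  exact e1.trans e2

end Alg

variable {H : Type u} [NormedAddCommGroup H] [InnerProductSpace ℂ H] [CompleteSpace H]

/-- an involution `T` and a splitting with `T A X = Y` -/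
theorem exists_involution (hH : ¬ FiniteDimensional ℂ H) (A Ai : H →L[ℂ] H)
    (h2 : Ai * A = 1) :
    ∃ T X Xs Y Ys : H →L[ℂ] H, T * T = 1 ∧ Sys X Xs Y Ys ∧ T * A * X = Y := by
  obtain ⟨X, Xs, U, V, S, hcase⟩ := good_system hH A Ai h2
  have hAX : A * X = X * (Xs * A * X) + U * (V * A * X) := by
    calc A * X = (X * Xs + U * V) * (A * X) := by rw [S.sum, one_mul]
      _ = X * (Xs * A * X) + U * (V * A * X) := by noncomm_ring
  set a := Xs * A * X with ha
  set c := V * A * X with hc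
  rcases hcase with ⟨ai, a1, a2⟩ | ⟨l, hl⟩
  · refine ⟨Phi X Xs U V 0 1 1 0, X, Xs - c * ai * V, X * c + U * a, ai * V, ?_,
      S.change c a ai a1 a2, ?_⟩
    · rw [Phi_mul S]
      apply Phi_eq_one S <;> simp
    · rw [mul_assoc, hAX]
      unfold Phi
      have : (X * 0 * Xs + X * 1 * V + U * 1 * Xs + U * 0 * V) * (X * a + U * c) =
          X * (V * X) * a + X * (V * U) * c + U * (Xs * X) * a + U * (Xs * U) * c := by
        noncomm_ring
      rw [this, S.xx, S.xy, S.yx, S.yy]
      noncomm_ring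
  · obtain ⟨s, s0, hs⟩ : ∃ s : ℝ, 0 < s ∧ s * ‖l * a‖ < 1 := by
      refine ⟨(1 + ‖l * a‖)⁻¹, by positivity, ?_⟩
      have h1 : (1 + ‖l * a‖)⁻¹ * (1 + ‖l * a‖) = 1 := inv_mul_cancel₀ (by positivity)
      have h3 : 0 < (1 + ‖l * a‖)⁻¹ := by positivity
      nlinarith
    have sc : ((s : ℝ) : ℂ) ≠ 0 := Complex.ofReal_ne_zero.2 s0.ne'
    have ns : ‖((s : ℝ) : ℂ)‖ = s := by rw [Complex.norm_real, Real.norm_of_nonneg s0.le]
    set σ : ℂ := ((s : ℝ) : ℂ) with hσ
    have hsm : ‖σ • (l * a)‖ < 1 := by rw [norm_smul, ns]; exact hs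
    obtain ⟨v, hv⟩ := isUnit_one_sub_of_norm_lt_one hsm
    have hv2 : v.inv * (1 - σ • (l * a)) = 1 := by rw [← hv]; exact v.inv_val
    set t := (1 - σ • a) * (-(v.inv * l)) with ht
    have ht2 : σ • a + t * (σ • a - c) = 1 := by
      have e : (v.inv * l) * (σ • a - c) = -1 := by
        have : (v.inv * l) * (σ • a - c) = -(v.inv * (l * c - l * (σ • a))) := by noncomm_ring
        rw [this, hl, mul_smul_comm, hv2]
      rw [ht, mul_assoc, neg_mul, e]
      noncomm_ring
    refine ⟨Phi X Xs U V t (σ⁻¹ • (1 - t)) (σ • (1 + t)) (-t), X,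
      Xs - (t * a + σ⁻¹ • (1 - t) * c) * 1 * V, X * (t * a + σ⁻¹ • (1 - t) * c) + U * 1, 1 * V,
      ?_, S.change _ 1 1 (one_mul 1) (one_mul 1), ?_⟩
    · rw [Phi_mul S]
      apply Phi_eq_one S
      · rw [smul_mul_smul_comm, inv_mul_cancel₀ sc, one_smul]
        noncomm_ring
      · rw [mul_smul_comm, smul_mul_assoc, ← smul_add]
        have : t * (1 - t) + (1 - t) * -t = 0 := by noncomm_ring
        rw [this, smul_zero]
      · rw [mul_smul_comm, smul_mul_assoc, ← smul_add]
        have : (1 + t) * t + -t * (1 + t) = 0 := by noncomm_ring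
        rw [this, smul_zero]
      · rw [smul_mul_smul_comm, mul_inv_cancel₀ sc, one_smul]
        noncomm_ring
    · rw [mul_assoc, hAX]
      unfold Phi
      have : ∀ p q : H →L[ℂ] H,
          (X * t * Xs + X * p * V + U * q * Xs + U * -t * V) * (X * a + U * c) =
          X * t * (Xs * X) * a + X * t * (Xs * U) * c + X * p * (V * X) * a + X * p * (V * U) * c
          + U * q * (Xs * X) * a + U * q * (Xs * U) * c - U * t * (V * X) * a
          - U * t * (V * U) * c := fun p q => by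
        noncomm_ring
      rw [this, S.xx, S.xy, S.yx, S.yy]
      have e3 : σ • (1 + t) * a - t * c = 1 := by
        refine Eq.trans ?_ ht2
        have : σ • (1 + t) * a = σ • a + t * (σ • a) := by
          rw [smul_mul_assoc, mul_smul_comm, ← smul_add, add_mul, one_mul]
        rw [this, mul_sub]
        abel
      have : ∀ p q : H →L[ℂ] H,
          X * t * 1 * a + X * t * 0 * c + X * p * 0 * a + X * p * 1 * c + U * q * 1 * a +
          U * q * 0 * c - U * t * 0 * a - U * t * 1 * c =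
          X * (t * a + p * c) + U * (q * a - t * c) := fun p q => by noncomm_ring
      rw [this, e3]

/-- every invertible operator is a product of five involutions -/
theorem five (hH : ¬ FiniteDimensional ℂ H) (A Ai : H →L[ℂ] H) (h1 : A * Ai = 1)
    (h2 : Ai * A = 1) :
    ∃ T P Q P' Q' : H →L[ℂ] H, T * T = 1 ∧ P * P = 1 ∧ Q * Q = 1 ∧ P' * P' = 1 ∧
      Q' * Q' = 1 ∧ A = T * P * Q * P' * Q' := by
  obtain ⟨T, X, Xs, Y, Ys, hT, S, hY⟩ := exists_involution hH A Ai h2
  set B := T * A with hB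
  set Bi := Ai * T with hBi
  have b1 : B * Bi = 1 := by
    have : B * Bi = T * (A * Ai) * T := by rw [hB, hBi]; noncomm_ring
    rw [this, h1, mul_one, hT]
  have b2 : Bi * B = 1 := by
    have : Bi * B = Ai * (T * T) * A := by rw [hB, hBi]; noncomm_ring
    rw [this, hT, mul_one, h2]
  have hBm := S.matrix B hY
  set b := Xs * B * Y with hb
  set d := Ys * B * Y with hd
  set bi := Ys * Bi * X with hbi
  have hBiY : Bi * Y = X := by rw [← hY, ← mul_assoc, b2, one_mul]
  have c1 : b * bi = 1 := by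
    have e1 : Y * Ys = 1 - X * Xs := by rw [← S.sum]; abel
    have e2 : b * bi = Xs * B * (Y * Ys) * Bi * X := by rw [hb, hbi]; noncomm_ring
    rw [e2, e1]
    have e3 : Xs * B * (1 - X * Xs) * Bi * X = Xs * (B * Bi) * X - Xs * (B * X) * Xs * Bi * X := by
      noncomm_ring
    rw [e3, b1, hY, mul_one, S.xx, S.xy]
    noncomm_ring
  have c2 : bi * b = 1 := by
    have e1 : X * Xs = 1 - Y * Ys := by rw [← S.sum]; abel
    have e2 : bi * b = Ys * Bi * (X * Xs) * B * Y := by rw [hb, hbi]; noncomm_ring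
    rw [e2, e1]
    have e3 : Ys * Bi * (1 - Y * Ys) * B * Y = Ys * (Bi * B) * Y - Ys * (Bi * Y) * Ys * B * Y := by
      noncomm_ring
    rw [e3, b2, hBiY, mul_one, S.yy, S.yx]
    noncomm_ring
  obtain ⟨D, Di, r, ri, E, Ei, Q, Qi, d1, d2, r1, r2, e1, e2, q1, q2, hcomm⟩ :=
    two_commutators hH (-b) (-bi) (by rw [neg_mul_neg, c1]) (by rw [neg_mul_neg, c2])
  have h4 := block_I4 S b d D Di r ri E Ei Q Qi d1 d2 r1 r2 e1 e2 q1 q2 hcomm
  rw [← hBm] at h4
  obtain ⟨P, Q, P', Q', p, q, p', q', hprod⟩ := h4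
  refine ⟨T, P, Q, P', Q', hT, p, q, p', q', ?_⟩
  have e : A = T * B := by rw [hB, ← mul_assoc, hT, one_mul]
  rw [e, hprod]
  noncomm_ring

end Pool.Agent.H100R3.Inv
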