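import Mathlib

set_option autoImplicit false

open Finset MeasureTheory

namespace Pool.Agent.H100R3.RegW

lemma sum_div_range {n : ℕ} (hn : 0 < n) (K : ℕ) :
    (∑ j ∈ range (n * K), ((j / n : ℕ) : ℝ)) = n * (K * (K - 1) / 2) := by
  induction K with
  | zero => simp
  | succ K ih =>
    rw [Nat.mul_succ, Finset.sum_range_add, ih]
    have h1 : ∀ j ∈ range n, (((n * K + j) / n : ℕ) : ℝ) = K := by
      intro j hj
      have : (n * K + j) / n = K := by
        rw [Nat.mul_add_div hn, Nat.div_eq_of_lt (Finset.mem_range.1 hj), add_zero]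
      rw [this]
    rw [Finset.sum_congr rfl h1, Finset.sum_const, Finset.card_range, nsmul_eq_mul]
    push_cast
    ring

lemma vander {n : ℕ} (hn : 0 < n) {F : Set ℝ} (hF : F ⊆ Set.Icc (-1) 1)
    (q : Polynomial ℝ) (hq : q.Monic) (hdeg : q.natDegree = n) {A : ℝ} (hA : 0 < A)
    (hqA : ∀ x ∈ F, |q.eval x| ≤ A) (K : ℕ) (x : Fin (n * K) → ℝ) (hx : ∀ i, x i ∈ F)
    (hinj : ∀ i j, i ≠ j → x i ≠ x j) :
    ∑ i : Fin (n * K), ∑ j ∈ Ioi i, Real.log |x j - x i| ≤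
      Real.log ((n * K).factorial) + n * (K * (K - 1) / 2) * Real.log A := by
  have h1 : Real.log |(Matrix.vandermonde x).det| =
      ∑ i : Fin (n * K), ∑ j ∈ Ioi i, Real.log |x j - x i| := by
    rw [Matrix.det_vandermonde, Finset.abs_prod, Real.log_prod]
    · refine Finset.sum_congr rfl fun i _ => ?_
      rw [Finset.abs_prod, Real.log_prod]
      intro j hj
      rw [abs_ne_zero, sub_ne_zero]
      exact hinj j i (Finset.mem_Ioi.1 hj).ne'
    · intro i _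
      rw [abs_ne_zero, Finset.prod_ne_zero_iff]
      intro j hj
      rw [sub_ne_zero]
      exact hinj j i (Finset.mem_Ioi.1 hj).ne'
  have hdet : (Matrix.vandermonde x).det ≠ 0 := by
    rw [Ne, Matrix.det_vandermonde_eq_zero_iff]
    rintro ⟨i, j, he, hne⟩
    exact hinj i j hne he
  rw [← h1]
  set PP : Fin (n * K) → Polynomial ℝ := fun j => q ^ ((j:ℕ) / n) * Polynomial.X ^ ((j:ℕ) % n)
    with hPP
  have hPm : ∀ j, (PP j).Monic := fun j => (hq.pow _).mul (Polynomial.monic_X_pow _)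
  have hPd : ∀ j, (PP j).natDegree = j := by
    intro j
    simp only [hPP]
    rw [(hq.pow _).natDegree_mul (Polynomial.monic_X_pow _), hq.natDegree_pow, hdeg,
      Polynomial.natDegree_X_pow]
    exact Nat.div_add_mod' _ _
  have hPb : ∀ j, ∀ y ∈ F, |(PP j).eval y| ≤ A ^ ((j:ℕ) / n) := by
    intro j y hy
    simp only [hPP]
    rw [Polynomial.eval_mul, Polynomial.eval_pow, Polynomial.eval_pow, Polynomial.eval_X, abs_mul,
      abs_pow, abs_pow]
    have h2 : |y| ≤ 1 := abs_le.2 ⟨(hF hy).1, (hF hy).2⟩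
    calc |q.eval y| ^ ((j:ℕ) / n) * |y| ^ ((j:ℕ) % n) ≤ A ^ ((j:ℕ) / n) * 1 :=
          mul_le_mul (pow_le_pow_left₀ (abs_nonneg _) (hqA y hy) _)
            (pow_le_one₀ (abs_nonneg _) h2) (by positivity) (by positivity)
      _ = _ := mul_one _
  have h2 := Matrix.det_eval_matrixOfPolynomials_eq_det_vandermonde x PP hPd hPm
  have h3 : |(Matrix.vandermonde x).det| ≤ ((n * K).factorial : ℝ) *
      ∏ j : Fin (n * K), A ^ ((j:ℕ) / n) := by
    rw [h2, Matrix.det_apply]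
    refine (Finset.abs_sum_le_sum_abs _ _).trans ?_
    have h4 : ∀ σ ∈ (Finset.univ : Finset (Equiv.Perm (Fin (n * K)))),
        |Equiv.Perm.sign σ • ∏ i, (Matrix.of (fun i j => ((PP j).eval (x i)))) (σ i) i| ≤
          ∏ j : Fin (n * K), A ^ ((j:ℕ) / n) := by
      intro σ _
      rcases Int.units_eq_one_or (Equiv.Perm.sign σ) with h | h
      · rw [h, one_smul, Finset.abs_prod]
        exact Finset.prod_le_prod (fun _ _ => abs_nonneg _) fun i _ => hPb i _ (hx (σ i))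
      · rw [h, Units.neg_smul, one_smul, abs_neg, Finset.abs_prod]
        exact Finset.prod_le_prod (fun _ _ => abs_nonneg _) fun i _ => hPb i _ (hx (σ i))
    refine (Finset.sum_le_sum h4).trans ?_
    rw [Finset.sum_const, Finset.card_univ, Fintype.card_perm, Fintype.card_fin, nsmul_eq_mul]
  have h5 := Real.log_le_log (abs_pos.2 hdet) h3
  have h6 : 0 < ∏ j : Fin (n * K), A ^ ((j:ℕ) / n) := Finset.prod_pos fun j _ => by positivity
  have h7 : Real.log (∏ j : Fin (n * K), A ^ ((j:ℕ) / n)) =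
      n * (K * (K - 1) / 2) * Real.log A := by
    rw [Real.log_prod (fun (j : Fin (n * K)) _ => by positivity)]
    simp only [Real.log_pow]
    rw [← Finset.sum_mul, Fin.sum_univ_eq_sum_range (fun j => ((j / n : ℕ) : ℝ)),
      sum_div_range hn]
  rw [Real.log_mul (by positivity) h6.ne', h7] at h5
  exact h5

lemma diag_null (τ : Measure ℝ) [IsProbabilityMeasure τ] [NullSingletonClass τ] :
    (τ.prod τ) {p : ℝ × ℝ | p.1 = p.2} = 0 := by
  rw [Measure.measure_prod_null (measurableSet_eq_fun measurable_fst measurable_snd)]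
  refine Filter.Eventually.of_forall fun x => ?_
  have : Prod.mk x ⁻¹' {p : ℝ × ℝ | p.1 = p.2} = {x} := by
    ext y; simp [eq_comm]
  show τ (Prod.mk x ⁻¹' {p : ℝ × ℝ | p.1 = p.2}) = 0
  rw [this]
  simp

lemma factorial_log (m : ℕ) : Real.log (m.factorial) ≤ m * Real.log m := by
  have h1 : (m.factorial : ℝ) ≤ (m : ℝ) ^ m := by
    exact_mod_cast Nat.factorial_le_pow m
  have h2 := Real.log_le_log (by positivity) h1
  rw [Real.log_pow] at h2
  exact h2

lemma pairs (m : ℕ) : (∑ i : Fin m, ((Ioi i).card : ℝ)) = m * (m - 1) / 2 := by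
  have h1 : ∀ m : ℕ, ∀ i : Fin m, ((Ioi i).card : ℝ) = ((fun j : ℕ => ((m - 1 - j : ℕ) : ℝ)) (i : ℕ)) := by
    intro m i
    rw [Fin.card_Ioi]
  rw [Finset.sum_congr rfl (fun i _ => h1 m i),
    Fin.sum_univ_eq_sum_range (fun j : ℕ => ((m - 1 - j : ℕ) : ℝ)),
    Finset.sum_range_reflect (fun j : ℕ => (j:ℝ)) m]
  induction m with
  | zero => simp
  | succ m ih =>
    rw [Finset.sum_range_succ, ih]
    push_cast
    ring

theorem energy_fin {n : ℕ} (hn : 0 < n) (τ : Measure ℝ) [IsProbabilityMeasure τ]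
    [NullSingletonClass τ] {F : Set ℝ} (hF : F ⊆ Set.Icc (-1) 1) (hτ : τ Fᶜ = 0)
    (hint : Integrable (fun p : ℝ × ℝ => Real.log |p.1 - p.2|) (τ.prod τ))
    (q : Polynomial ℝ) (hq : q.Monic) (hdeg : q.natDegree = n) {A : ℝ} (hA : 0 < A)
    (hqA : ∀ x ∈ F, |q.eval x| ≤ A) (K : ℕ) :
    (((n * K : ℕ) : ℝ) * (((n * K : ℕ) : ℝ) - 1) / 2) * ∫ p, Real.log |p.1 - p.2| ∂(τ.prod τ) ≤
      (n * K : ℕ) * Real.log (n * K : ℕ) + n * (K * (K - 1) / 2) * Real.log A := by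
  set Q : Measure (ℕ → ℝ) := Measure.infinitePi (fun _ : ℕ => τ) with hQ
  have hmap : ∀ i j : ℕ, i ≠ j → Q.map (fun ω => (ω i, ω j)) = τ.prod τ := fun i j hij =>
    Measure.infinitePi_map_eval_prod hij
  have hmeas : ∀ i j : ℕ, Measurable (fun ω : ℕ → ℝ => (ω i, ω j)) := fun i j => by fun_prop
  have hlogm : Measurable (fun p : ℝ × ℝ => Real.log |p.1 - p.2|) := by fun_prop
  -- distinctness
  have hdist : ∀ i j : ℕ, i ≠ j → ∀ᵐ ω ∂Q, ω i ≠ ω j := by
    intro i j hij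
    have h1 : ∀ᵐ p ∂(Q.map (fun ω => (ω i, ω j))), p.1 ≠ p.2 := by
      rw [hmap i j hij, ae_iff]
      simp only [ne_eq, not_not]
      exact diag_null τ
    exact ae_of_ae_map (hmeas i j).aemeasurable h1
  have hinK : ∀ i : ℕ, ∀ᵐ ω ∂Q, ω i ∈ F := by
    intro i
    have h1 : ∀ᵐ p ∂(Q.map (fun ω => ω i)), p ∈ F := by
      rw [hQ, Measure.infinitePi_map_eval, ae_iff]
      exact hτ
    exact ae_of_ae_map (measurable_pi_apply i).aemeasurable h1
  have hae : ∀ᵐ ω ∂Q, ∑ i : Fin (n * K), ∑ j ∈ Ioi i, Real.log |ω j - ω i| ≤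
      Real.log ((n * K).factorial) + n * (K * (K - 1) / 2) * Real.log A := by
    have h1 : ∀ᵐ ω ∂Q, ∀ i j : ℕ, i ≠ j → ω i ≠ ω j :=
      ae_all_iff.2 fun i => ae_all_iff.2 fun j => ae_all_iff.2 fun h => hdist i j h
    have h2 : ∀ᵐ ω ∂Q, ∀ i : ℕ, ω i ∈ F := ae_all_iff.2 hinK
    filter_upwards [h1, h2] with ω h3 h4
    exact vander hn hF q hq hdeg hA hqA K (fun i => ω i) (fun i => h4 i) (fun i j hij => h3 i j
      (fun h => hij (Fin.ext h)))
  have hI : ∀ i j : ℕ, i ≠ j → Integrable (fun ω : ℕ → ℝ => Real.log |ω i - ω j|) Q := by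
    intro i j hij
    have h1 := hint
    rw [← hmap i j hij] at h1
    exact h1.comp_measurable (hmeas i j)
  have hIv : ∀ i j : ℕ, i ≠ j → ∫ ω, Real.log |ω i - ω j| ∂Q =
      ∫ p, Real.log |p.1 - p.2| ∂(τ.prod τ) := by
    intro i j hij
    rw [← hmap i j hij, integral_map (hmeas i j).aemeasurable hlogm.aestronglyMeasurable]
  have hIs : ∀ i : Fin (n * K), Integrable (fun ω : ℕ → ℝ => ∑ j ∈ Ioi i, Real.log |ω j - ω i|) Q := by
    intro i
    refine integrable_finsetSum _ fun j hj => hI _ _ ?_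
    exact (Fin.lt_def.1 (Finset.mem_Ioi.1 hj)).ne'
  have h5 : ∫ ω, ∑ i : Fin (n * K), ∑ j ∈ Ioi i, Real.log |ω j - ω i| ∂Q =
      (((n * K : ℕ) : ℝ) * (((n * K : ℕ) : ℝ) - 1) / 2) *
        ∫ p, Real.log |p.1 - p.2| ∂(τ.prod τ) := by
    rw [integral_finsetSum _ (fun i _ => hIs i)]
    have h6 : ∀ i : Fin (n * K), ∫ ω, ∑ j ∈ Ioi i, Real.log |ω j - ω i| ∂Q =
        ((Ioi i).card : ℝ) * ∫ p, Real.log |p.1 - p.2| ∂(τ.prod τ) := by
      intro i
      rw [integral_finsetSum _ (fun j hj => hI _ _ (Fin.lt_def.1 (Finset.mem_Ioi.1 hj)).ne')]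
      rw [Finset.sum_congr rfl (fun j hj => hIv _ _ (Fin.lt_def.1 (Finset.mem_Ioi.1 hj)).ne'),
        Finset.sum_const, nsmul_eq_mul]
    rw [Finset.sum_congr rfl (fun i _ => h6 i), ← Finset.sum_mul, pairs]
  rw [← h5]
  have h7 : ∫ ω, ∑ i : Fin (n * K), ∑ j ∈ Ioi i, Real.log |ω j - ω i| ∂Q ≤
      ∫ _ω, (Real.log ((n * K).factorial) + n * (K * (K - 1) / 2) * Real.log A) ∂Q := by
    refine integral_mono_ae (integrable_finsetSum _ fun i _ => hIs i) (integrable_const _) hae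
  rw [integral_const, probReal_univ, one_smul] at h7
  have := factorial_log (n * K)
  linarith

theorem cheb_lower {n : ℕ} (hn : 0 < n) (τ : Measure ℝ) [IsProbabilityMeasure τ]
    [NullSingletonClass τ] {F : Set ℝ} (hF : F ⊆ Set.Icc (-1) 1) (hτ : τ Fᶜ = 0)
    (hint : Integrable (fun p : ℝ × ℝ => Real.log |p.1 - p.2|) (τ.prod τ))
    (q : Polynomial ℝ) (hq : q.Monic) (hdeg : q.natDegree = n) {A : ℝ} (hA : 0 < A)
    (hqA : ∀ x ∈ F, |q.eval x| ≤ A) :
    n * ∫ p, Real.log |p.1 - p.2| ∂(τ.prod τ) ≤ Real.log A := by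
  set I := ∫ p, Real.log |p.1 - p.2| ∂(τ.prod τ) with hI
  have hn' : (0:ℝ) < n := by exact_mod_cast hn
  have h1 : ∀ K : ℕ, (n - ((K:ℝ) + 1)⁻¹) * I ≤
      2 * Real.log n * ((K:ℝ) + 1)⁻¹ + 2 * (Real.log ((K:ℝ) + 1) / ((K:ℝ) + 1)) +
        (1 - ((K:ℝ) + 1)⁻¹) * Real.log A := by
    intro K
    have h2 := energy_fin hn τ hF hτ hint q hq hdeg hA hqA (K + 1)
    rw [← hI] at h2
    have hK : (0:ℝ) < (K:ℝ) + 1 := by positivity
    push_cast at h2
    rw [Real.log_mul hn'.ne' hK.ne'] at h2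
    have h3 : 0 < 2 / (n * ((K:ℝ) + 1) ^ 2) := by positivity
    have h4 := mul_le_mul_of_nonneg_left h2 h3.le
    have e1 : 2 / (n * ((K:ℝ) + 1) ^ 2) * ((n * ((K:ℝ) + 1)) * ((n * ((K:ℝ) + 1)) - 1) / 2 * I) =
        (n - ((K:ℝ) + 1)⁻¹) * I := by field_simp
    have e2 : 2 / (n * ((K:ℝ) + 1) ^ 2) * ((n * ((K:ℝ) + 1)) *
        (Real.log n + Real.log ((K:ℝ) + 1)) + n * (((K:ℝ) + 1) * (((K:ℝ) + 1) - 1) / 2) *
          Real.log A) =
        2 * Real.log n * ((K:ℝ) + 1)⁻¹ + 2 * (Real.log ((K:ℝ) + 1) / ((K:ℝ) + 1)) +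
        (1 - ((K:ℝ) + 1)⁻¹) * Real.log A := by field_simp
    rw [e1, e2] at h4
    exact h4
  have t0 : Filter.Tendsto (fun K : ℕ => ((K:ℝ) + 1)⁻¹) Filter.atTop (nhds 0) := by
    have := tendsto_one_div_add_atTop_nhds_zero_nat (𝕜 := ℝ)
    simpa [one_div] using this
  have t1 : Filter.Tendsto (fun K : ℕ => Real.log ((K:ℝ) + 1) / ((K:ℝ) + 1)) Filter.atTop
      (nhds 0) := by
    have h2 : Filter.Tendsto (fun x : ℝ => Real.log x / x) Filter.atTop (nhds 0) :=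
      Real.isLittleO_log_id_atTop.tendsto_div_nhds_zero
    exact h2.comp (tendsto_natCast_atTop_atTop.atTop_add tendsto_const_nhds)
  have l1 : Filter.Tendsto (fun K : ℕ => (n - ((K:ℝ) + 1)⁻¹) * I) Filter.atTop
      (nhds ((n - 0) * I)) := (t0.const_sub _).mul_const I
  have l2 : Filter.Tendsto (fun K : ℕ => 2 * Real.log n * ((K:ℝ) + 1)⁻¹ +
      2 * (Real.log ((K:ℝ) + 1) / ((K:ℝ) + 1)) + (1 - ((K:ℝ) + 1)⁻¹) * Real.log A) Filter.atTop
      (nhds (2 * Real.log n * 0 + 2 * 0 + (1 - 0) * Real.log A)) :=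
    ((t0.const_mul _).add (t1.const_mul 2)).add ((t0.const_sub 1).mul_const _)
  have := le_of_tendsto_of_tendsto' l1 l2 h1
  linarith

end Pool.Agent.H100R3.RegW
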