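import Mathlib

set_option autoImplicit false

open Finset MeasureTheory

namespace Pool.Agent.H100R3.RegW

noncomputable def Am (ρ x y : ℝ) : ℝ := 1 - 2 * ρ * Real.cos (Real.arccos x - Real.arccos y) + ρ ^ 2
noncomputable def Ap (ρ x y : ℝ) : ℝ := 1 - 2 * ρ * Real.cos (Real.arccos x + Real.arccos y) + ρ ^ 2

noncomputable def ker (ρ x y : ℝ) : ℝ :=
  Real.log 2 - (1/2) * Real.log (Am ρ x y) - (1/2) * Real.log (Ap ρ x y)

lemma Am_symm (ρ x y : ℝ) : Am ρ x y = Am ρ y x := by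
  unfold Am
  rw [← Real.cos_neg, neg_sub]

lemma Ap_symm (ρ x y : ℝ) : Ap ρ x y = Ap ρ y x := by
  unfold Ap
  rw [add_comm (Real.arccos x)]

lemma ker_symm (ρ x y : ℝ) : ker ρ x y = ker ρ y x := by
  unfold ker
  rw [Am_symm, Ap_symm]

lemma quad_low {ρ c : ℝ} (h0 : 0 ≤ ρ) (hc : c ≤ 1) : (1 - ρ) ^ 2 ≤ 1 - 2 * ρ * c + ρ ^ 2 := by
  nlinarith

lemma quad_hi {ρ c : ℝ} (h0 : 0 ≤ ρ) (h1 : ρ ≤ 1) (hc : -1 ≤ c) : 1 - 2 * ρ * c + ρ ^ 2 ≤ 4 := by
  nlinarith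

lemma cos_prod {x y : ℝ} (hx : x ∈ Set.Icc (-1:ℝ) 1) (hy : y ∈ Set.Icc (-1:ℝ) 1) :
    Real.cos (Real.arccos x - Real.arccos y) + Real.cos (Real.arccos x + Real.arccos y) = 2 * x * y ∧
    Real.cos (Real.arccos x - Real.arccos y) * Real.cos (Real.arccos x + Real.arccos y) =
      x ^ 2 + y ^ 2 - 1 := by
  have h1 : Real.cos (Real.arccos x) = x := Real.cos_arccos hx.1 hx.2
  have h2 : Real.cos (Real.arccos y) = y := Real.cos_arccos hy.1 hy.2
  have h3 : Real.sin (Real.arccos x) ^ 2 = 1 - x ^ 2 := by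
    rw [Real.sin_sq, h1]
  have h4 : Real.sin (Real.arccos y) ^ 2 = 1 - y ^ 2 := by
    rw [Real.sin_sq, h2]
  rw [Real.cos_sub, Real.cos_add, h1, h2]
  constructor
  · ring
  · have : (x * y + Real.sin (Real.arccos x) * Real.sin (Real.arccos y)) *
        (x * y - Real.sin (Real.arccos x) * Real.sin (Real.arccos y)) =
        x ^ 2 * y ^ 2 - Real.sin (Real.arccos x) ^ 2 * Real.sin (Real.arccos y) ^ 2 := by ring
    rw [this, h3, h4]
    ring

variable {ρ x y : ℝ}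

lemma AmAp (hx : x ∈ Set.Icc (-1:ℝ) 1) (hy : y ∈ Set.Icc (-1:ℝ) 1) :
    Am ρ x y * Ap ρ x y = (1 - ρ) ^ 4 + 4 * ρ * (1 - ρ) ^ 2 * (1 - x * y) +
      4 * ρ ^ 2 * (x - y) ^ 2 := by
  obtain ⟨h1, h2⟩ := cos_prod hx hy
  unfold Am Ap
  set c := Real.cos (Real.arccos x - Real.arccos y)
  set d := Real.cos (Real.arccos x + Real.arccos y)
  have h3 : (1 - 2 * ρ * c + ρ ^ 2) * (1 - 2 * ρ * d + ρ ^ 2) =
      (1 + ρ ^ 2) ^ 2 - 2 * ρ * (1 + ρ ^ 2) * (c + d) + 4 * ρ ^ 2 * (c * d) := by ring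
  rw [h3, h1, h2]
  ring

lemma xy_le (hx : x ∈ Set.Icc (-1:ℝ) 1) (hy : y ∈ Set.Icc (-1:ℝ) 1) :
    0 ≤ 1 - x * y ∧ 1 - x * y ≤ 2 := by
  constructor <;> nlinarith [hx.1, hx.2, hy.1, hy.2, mul_nonneg (sub_nonneg.2 hx.2) (sub_nonneg.2 hy.2),
    mul_nonneg (sub_nonneg.2 hx.1) (sub_nonneg.2 hy.1), mul_nonneg (sub_nonneg.2 hx.1) (sub_nonneg.2 hy.2),
    mul_nonneg (sub_nonneg.2 hx.2) (sub_nonneg.2 hy.1)]

lemma Am_pos (h0 : 0 < ρ) (h1 : ρ < 1) : 0 < Am ρ x y := by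
  have := quad_low (ρ := ρ) h0.le (Real.cos_le_one (Real.arccos x - Real.arccos y))
  unfold Am
  have h2 : 0 < (1 - ρ) ^ 2 := by have : 0 < 1 - ρ := by linarith
                                  positivity
  linarith

lemma Ap_pos (h0 : 0 < ρ) (h1 : ρ < 1) : 0 < Ap ρ x y := by
  have := quad_low (ρ := ρ) h0.le (Real.cos_le_one (Real.arccos x + Real.arccos y))
  unfold Ap
  have h2 : 0 < (1 - ρ) ^ 2 := by have : 0 < 1 - ρ := by linarith
                                  positivity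
  linarith

lemma ker_eq (h0 : 0 < ρ) (h1 : ρ < 1) :
    ker ρ x y = Real.log 2 - (1/2) * Real.log (Am ρ x y * Ap ρ x y) := by
  unfold ker
  rw [Real.log_mul (Am_pos h0 h1).ne' (Ap_pos h0 h1).ne']
  ring

lemma ker_le_log (h0 : 0 < ρ) (h1 : ρ < 1) (hx : x ∈ Set.Icc (-1:ℝ) 1)
    (hy : y ∈ Set.Icc (-1:ℝ) 1) (hxy : x ≠ y) :
    ker ρ x y ≤ - Real.log |x - y| - Real.log ρ := by
  rw [ker_eq h0 h1]
  have hpos : 0 < |x - y| := abs_pos.2 (sub_ne_zero.2 hxy)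
  have h2 : (2 * ρ * |x - y|) ^ 2 ≤ Am ρ x y * Ap ρ x y := by
    rw [AmAp hx hy, mul_pow, mul_pow, sq_abs]
    have h3 := (xy_le hx hy).1
    have h4 : 0 ≤ (1 - ρ) ^ 4 + 4 * ρ * (1 - ρ) ^ 2 * (1 - x * y) := by positivity
    linarith
  have h3 := Real.log_le_log (by positivity) h2
  rw [Real.log_pow, Real.log_mul (by positivity) hpos.ne', Real.log_mul (by norm_num) h0.ne'] at h3
  push_cast at h3
  linarith

lemma ker_le_const (h0 : 0 < ρ) (h1 : ρ < 1) : ker ρ x y ≤ Real.log 2 - 2 * Real.log (1 - ρ) := by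
  have hp : 0 < 1 - ρ := by linarith
  unfold ker
  have h2 : Real.log ((1 - ρ) ^ 2) ≤ Real.log (Am ρ x y) :=
    Real.log_le_log (by positivity) (quad_low h0.le (Real.cos_le_one _))
  have h3 : Real.log ((1 - ρ) ^ 2) ≤ Real.log (Ap ρ x y) :=
    Real.log_le_log (by positivity) (quad_low h0.le (Real.cos_le_one _))
  rw [Real.log_pow] at h2 h3
  push_cast at h2 h3
  linarith

lemma ker_ge (h0 : 0 < ρ) (h1 : ρ < 1) : - Real.log 2 ≤ ker ρ x y := by
  unfold ker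
  have h2 : Real.log (Am ρ x y) ≤ Real.log 4 :=
    Real.log_le_log (Am_pos h0 h1) (quad_hi h0.le h1.le (Real.neg_one_le_cos _))
  have h3 : Real.log (Ap ρ x y) ≤ Real.log 4 :=
    Real.log_le_log (Ap_pos h0 h1) (quad_hi h0.le h1.le (Real.neg_one_le_cos _))
  have h4 : Real.log 4 = 2 * Real.log 2 := by
    rw [show (4:ℝ) = 2 ^ 2 by norm_num, Real.log_pow]; norm_num
  linarith

lemma log_one_add_sq {t : ℝ} (ht : 0 ≤ t) : (1/2) * Real.log (1 + t ^ 2) ≤ 2 * √t := by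
  have h1 : 1 + t ^ 2 ≤ (1 + √t) ^ 4 := by
    have hs : √t ^ 2 = t := Real.sq_sqrt ht
    have h2 : 0 ≤ √t := Real.sqrt_nonneg t
    have h3 : (√t) ^ 4 = t ^ 2 := by rw [show (4:ℕ) = 2 * 2 by norm_num, pow_mul, hs]
    nlinarith [pow_nonneg h2 3]
  have h2 := Real.log_le_log (by positivity) h1
  rw [Real.log_pow] at h2
  have h3 : Real.log (1 + √t) ≤ √t := by
    have := Real.log_le_sub_one_of_pos (show 0 < 1 + √t by positivity)
    linarith
  push_cast at h2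
  linarith

lemma log_le_ker (h0 : 0 < ρ) (h1 : ρ < 1) (hx : x ∈ Set.Icc (-1:ℝ) 1)
    (hy : y ∈ Set.Icc (-1:ℝ) 1) (hxy : x ≠ y) :
    - Real.log |x - y| ≤ ker ρ x y + 4 * √(1 - ρ) * √(1 / |x - y|) := by
  rw [ker_eq h0 h1]
  have hpos : 0 < |x - y| := abs_pos.2 (sub_ne_zero.2 hxy)
  have hr : 0 < 1 - ρ := by linarith
  set t : ℝ := 3 * (1 - ρ) / (2 * |x - y|) with ht
  have ht0 : 0 ≤ t := by positivity
  have h2 : Am ρ x y * Ap ρ x y ≤ (2 * |x - y|) ^ 2 * (1 + t ^ 2) := by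
    have e1 : (2 * |x - y|) ^ 2 * (1 + t ^ 2) = 4 * (x - y) ^ 2 + 9 * (1 - ρ) ^ 2 := by
      rw [ht, div_pow, mul_add, mul_div_cancel₀ _ (by positivity), mul_pow, sq_abs]
      ring
    rw [e1, AmAp hx hy]
    have h3 := xy_le hx hy
    have h4 : (1 - ρ) ^ 4 ≤ (1 - ρ) ^ 2 := by
      have h5 : (1 - ρ) ^ 2 ≤ 1 := by nlinarith
      nlinarith [sq_nonneg (1 - ρ)]
    have h5 : 4 * ρ * (1 - ρ) ^ 2 * (1 - x * y) ≤ 8 * (1 - ρ) ^ 2 := by
      have h6 : ρ * (1 - x * y) ≤ 2 := by nlinarith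
      nlinarith [sq_nonneg (1 - ρ)]
    have h6 : 4 * ρ ^ 2 * (x - y) ^ 2 ≤ 4 * (x - y) ^ 2 := by
      have : ρ ^ 2 ≤ 1 := by nlinarith
      nlinarith [sq_nonneg (x - y)]
    linarith
  have h3 := Real.log_le_log (mul_pos (Am_pos h0 h1) (Ap_pos h0 h1)) h2
  rw [Real.log_mul (x := (2 * |x - y|) ^ 2) (y := 1 + t ^ 2) (by positivity) (by positivity),
    Real.log_pow, Real.log_mul (x := 2) (y := |x - y|) (by norm_num) hpos.ne'] at h3
  have h4 := log_one_add_sq ht0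
  have h5 : 2 * √t ≤ 4 * √(1 - ρ) * √(1 / |x - y|) := by
    have h6 : √t = √(3/2) * (√(1 - ρ) * √(1 / |x - y|)) := by
      rw [← Real.sqrt_mul hr.le, ← Real.sqrt_mul (by norm_num)]
      congr 1
      rw [ht]; field_simp
    have h7 : √(3/2:ℝ) ≤ 2 := by
      rw [Real.sqrt_le_left (by norm_num)]; norm_num
    rw [h6]
    have h8 : 0 ≤ √(1 - ρ) * √(1 / |x - y|) := by positivity
    nlinarith
  push_cast at h3
  linarith

/-- real part of the logarithm series -/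
lemma hasSum_log (h0 : 0 < ρ) (h1 : ρ < 1) (α : ℝ) :
    HasSum (fun n : ℕ => ρ ^ n / n * Real.cos (n * α))
      (-((1/2) * Real.log (1 - 2 * ρ * Real.cos α + ρ ^ 2))) := by
  set z : ℂ := (ρ : ℂ) * Complex.exp (α * Complex.I) with hz
  have hnorm : ‖z‖ < 1 := by
    rw [hz, norm_mul, Complex.norm_exp_ofReal_mul_I, mul_one, Complex.norm_real, Real.norm_eq_abs,
      abs_of_pos h0]
    exact h1
  have h2 := Complex.hasSum_re (Complex.hasSum_taylorSeries_neg_log hnorm)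
  have h3 : ∀ n : ℕ, (z ^ n / n).re = ρ ^ n / n * Real.cos (n * α) := by
    intro n
    have h4 : z ^ n = ((ρ ^ n : ℝ) : ℂ) * Complex.exp ((n * α : ℝ) * Complex.I) := by
      rw [hz, mul_pow, ← Complex.exp_nat_mul]
      push_cast
      ring_nf
    have h5 : z ^ n / n = ((ρ ^ n / n : ℝ) : ℂ) * Complex.exp ((n * α : ℝ) * Complex.I) := by
      rw [h4]; push_cast; ring
    rw [h5, Complex.re_ofReal_mul, Complex.exp_ofReal_mul_I_re]
  have h6 : (-Complex.log (1 - z)).re = -((1/2) * Real.log (1 - 2 * ρ * Real.cos α + ρ ^ 2)) := by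
    rw [Complex.neg_re, Complex.log_re]
    have h7 : ‖1 - z‖ ^ 2 = 1 - 2 * ρ * Real.cos α + ρ ^ 2 := by
      rw [← Complex.normSq_eq_norm_sq, Complex.normSq_apply]
      have hre : (1 - z).re = 1 - ρ * Real.cos α := by
        rw [Complex.sub_re, Complex.one_re, hz, Complex.re_ofReal_mul, Complex.exp_ofReal_mul_I_re]
      have him : (1 - z).im = - (ρ * Real.sin α) := by
        rw [Complex.sub_im, Complex.one_im, hz, Complex.im_ofReal_mul, Complex.exp_ofReal_mul_I_im]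
        ring
      rw [hre, him]
      linear_combination ρ ^ 2 * (Real.sin_sq_add_cos_sq α)
    rw [← h7, Real.log_pow]
    push_cast
    ring
  rw [h6] at h2
  exact h2.congr_fun fun n => (h3 n).symm

lemma ker_hasSum (h0 : 0 < ρ) (h1 : ρ < 1) (x y : ℝ) :
    HasSum (fun n : ℕ => (2 * ρ ^ n / n) * (Real.cos (n * Real.arccos x) * Real.cos (n * Real.arccos y)))
      (ker ρ x y - Real.log 2) := by
  have h2 := (hasSum_log h0 h1 (Real.arccos x - Real.arccos y)).add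
    (hasSum_log h0 h1 (Real.arccos x + Real.arccos y))
  have h3 : ker ρ x y - Real.log 2 =
      -((1/2) * Real.log (1 - 2 * ρ * Real.cos (Real.arccos x - Real.arccos y) + ρ ^ 2)) +
      -((1/2) * Real.log (1 - 2 * ρ * Real.cos (Real.arccos x + Real.arccos y) + ρ ^ 2)) := by
    unfold ker Am Ap; ring
  rw [h3]
  have h4 : (fun n : ℕ => (2 * ρ ^ n / n) *
      (Real.cos (n * Real.arccos x) * Real.cos (n * Real.arccos y))) =
      fun n : ℕ => ρ ^ n / n * Real.cos (n * (Real.arccos x - Real.arccos y)) +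
        ρ ^ n / n * Real.cos (n * (Real.arccos x + Real.arccos y)) := by
    funext n
    rw [mul_sub, mul_add, Real.cos_sub, Real.cos_add]
    ring
  rw [h4]
  exact h2

lemma ker_cont (h0 : 0 < ρ) (h1 : ρ < 1) : Continuous (fun p : ℝ × ℝ => ker ρ p.1 p.2) := by
  have hc1 : Continuous fun p : ℝ × ℝ => Am ρ p.1 p.2 := by
    unfold Am
    have := Real.continuous_arccos
    fun_prop
  have hc2 : Continuous fun p : ℝ × ℝ => Ap ρ p.1 p.2 := by
    unfold Ap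
    have := Real.continuous_arccos
    fun_prop
  unfold ker
  exact (continuous_const.sub (continuous_const.mul
    (hc1.log fun p => (Am_pos h0 h1).ne'))).sub (continuous_const.mul
    (hc2.log fun p => (Ap_pos h0 h1).ne'))

end Pool.Agent.H100R3.RegW
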