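import Mathlib
import Pool.Agent.H100R3.RegB

set_option autoImplicit false

open Finset MeasureTheory

namespace Pool.Agent.H100R3.RegW

section
variable (P : Measure ℝ) [IsProbabilityMeasure P]

noncomputable def QQ (n : ℕ) : Measure (Fin n → ℝ) := Measure.pi (fun _ : Fin n => P)

instance QQ_prob (n : ℕ) : IsProbabilityMeasure (QQ P n) := by unfold QQ; infer_instance

def VV (n : ℕ) (x : Fin n → ℝ) : ℝ := ∏ i : Fin n, ∏ j ∈ Ioi i, (x j - x i) ^ 2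

lemma VV_nonneg (n : ℕ) (x : Fin n → ℝ) : 0 ≤ VV n x :=
  Finset.prod_nonneg fun i _ => Finset.prod_nonneg fun j _ => sq_nonneg _

lemma VV_cont (n : ℕ) : Continuous (VV n) := by
  unfold VV
  fun_prop

lemma VV_cons (n : ℕ) (a : ℝ) (x : Fin n → ℝ) :
    VV (n + 1) (Fin.cons a x) = (∏ i, (x i - a) ^ 2) * VV n x := by
  unfold VV
  rw [Fin.prod_univ_succ, Fin.prod_Ioi_zero]
  simp only [Fin.cons_succ, Fin.cons_zero, Fin.prod_Ioi_succ]

variable {P}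

lemma QQ_ae (hP : ∀ᵐ x ∂P, x ∈ Set.Icc (-1:ℝ) 1) (n : ℕ) :
    ∀ᵐ x ∂(QQ P n), ∀ i, x i ∈ Set.Icc (-1:ℝ) 1 := by
  rw [ae_all_iff]
  intro i
  exact (measurePreserving_eval (fun _ : Fin n => P) i).quasiMeasurePreserving.ae hP

lemma cont_bdd {n : ℕ} {f : (Fin n → ℝ) → ℝ} (hf : Continuous f) :
    ∃ C, ∀ x : Fin n → ℝ, (∀ i, x i ∈ Set.Icc (-1:ℝ) 1) → ‖f x‖ ≤ C := by
  have hc : IsCompact (Set.pi Set.univ (fun _ : Fin n => Set.Icc (-1:ℝ) 1)) :=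
    isCompact_univ_pi fun _ => isCompact_Icc
  obtain ⟨C, hC⟩ := hc.exists_bound_of_continuousOn hf.continuousOn
  exact ⟨C, fun x hx => hC x (fun i _ => hx i)⟩

lemma int_cont (hP : ∀ᵐ x ∂P, x ∈ Set.Icc (-1:ℝ) 1) {n : ℕ} {f : (Fin n → ℝ) → ℝ}
    (hf : Continuous f) : Integrable f (QQ P n) := by
  obtain ⟨C, hC⟩ := cont_bdd hf
  refine Integrable.of_bound hf.aestronglyMeasurable C ?_
  filter_upwards [QQ_ae hP n] with x hx using hC x hx

variable (P) in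
noncomputable def ZZ (n : ℕ) : ℝ := ∫ x, VV n x ∂(QQ P n)

lemma ZZ_zero : ZZ P 0 = 1 := by
  unfold ZZ
  have : ∀ x : Fin 0 → ℝ, VV 0 x = 1 := fun x => by simp [VV]
  simp [this]

lemma poly_prod {n : ℕ} (x : Fin n → ℝ) :
    ∃ q : Polynomial ℝ, q.Monic ∧ q.natDegree = n ∧ ∀ a, (q.eval a) ^ 2 = ∏ i, (x i - a) ^ 2 := by
  refine ⟨∏ i, (Polynomial.X - Polynomial.C (x i)), Polynomial.monic_prod_X_sub_C _ _, ?_, ?_⟩
  · rw [Polynomial.natDegree_finsetProd_X_sub_C_eq_card]; simp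
  · intro a
    rw [Polynomial.eval_prod, ← Finset.prod_pow]
    refine Finset.prod_congr rfl fun i _ => ?_
    simp only [Polynomial.eval_sub, Polynomial.eval_X, Polynomial.eval_C]
    ring

lemma ZZ_succ (hP : ∀ᵐ x ∂P, x ∈ Set.Icc (-1:ℝ) 1) (n : ℕ) {g : ℝ}
    (hg : ∀ q : Polynomial ℝ, q.Monic → q.natDegree = n → g ≤ ∫ a, (q.eval a) ^ 2 ∂P) :
    g * ZZ P n ≤ ZZ P (n + 1) := by
  have hmp := (measurePreserving_piFinSuccAbove (fun _ : Fin (n + 1) => P) 0).symm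
  have h1 : ZZ P (n + 1) = ∫ y : ℝ × (Fin n → ℝ), (∏ i, (y.2 i - y.1) ^ 2) * VV n y.2
      ∂(P.prod (QQ P n)) := by
    unfold ZZ QQ
    rw [← hmp.integral_comp']
    refine integral_congr_ae (Filter.Eventually.of_forall fun y => ?_)
    simp only [MeasurableEquiv.piFinSuccAbove_symm_apply, Fin.insertNthEquiv,
      Fin.insertNth_zero, Equiv.coe_fn_mk]
    exact VV_cons n y.1 y.2
  have hint : Integrable (fun y : ℝ × (Fin n → ℝ) => (∏ i, (y.2 i - y.1) ^ 2) * VV n y.2)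
      (P.prod (QQ P n)) := by
    have h2 : Integrable (VV (n + 1)) (QQ P (n + 1)) := int_cont hP (VV_cont _)
    unfold QQ at h2
    rw [← hmp.integrable_comp_emb (MeasurableEquiv.measurableEmbedding _)] at h2
    refine h2.congr (Filter.Eventually.of_forall fun y => ?_)
    simp only [Function.comp, MeasurableEquiv.piFinSuccAbove_symm_apply, Fin.insertNthEquiv,
      Fin.insertNth_zero, Equiv.coe_fn_mk]
    exact VV_cons n y.1 y.2
  rw [h1, integral_prod_symm _ hint]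
  unfold ZZ
  rw [← integral_const_mul]
  refine integral_mono_ae ((int_cont hP (VV_cont n)).const_mul g) hint.integral_prod_right ?_
  refine Filter.Eventually.of_forall fun x => ?_
  simp only
  rw [integral_mul_const]
  obtain ⟨q, hq1, hq2, hq3⟩ := poly_prod x
  have h3 := hg q hq1 hq2
  simp only [hq3] at h3
  exact mul_le_mul_of_nonneg_right h3 (VV_nonneg n x)

lemma ZZ_lower (hP : ∀ᵐ x ∂P, x ∈ Set.Icc (-1:ℝ) 1) {c : ℝ} (hc : 0 ≤ c) {K : ℕ}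
    (hg : ∀ k : ℕ, ∀ q : Polynomial ℝ, q.Monic → q.natDegree = k →
      Real.exp (-(2 * ((k:ℝ) + K) * c)) ≤ ∫ a, (q.eval a) ^ 2 ∂P) (n : ℕ) :
    Real.exp (-(((n:ℝ) ^ 2 + 2 * K * n) * c)) ≤ ZZ P n := by
  induction n with
  | zero => rw [ZZ_zero]; simp
  | succ n ih =>
    refine le_trans ?_ (ZZ_succ hP n (hg n))
    refine le_trans ?_ (mul_le_mul_of_nonneg_left ih (Real.exp_pos _).le)
    rw [← Real.exp_add, Real.exp_le_exp]
    push_cast
    nlinarith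

lemma ZZ_pos (hP : ∀ᵐ x ∂P, x ∈ Set.Icc (-1:ℝ) 1) {c : ℝ} (hc : 0 ≤ c) {K : ℕ}
    (hg : ∀ k : ℕ, ∀ q : Polynomial ℝ, q.Monic → q.natDegree = k →
      Real.exp (-(2 * ((k:ℝ) + K) * c)) ≤ ∫ a, (q.eval a) ^ 2 ∂P) (n : ℕ) : 0 < ZZ P n :=
  lt_of_lt_of_le (Real.exp_pos _) (ZZ_lower hP hc hg n)

end

end Pool.Agent.H100R3.RegW
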