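import Mathlib
import Pool.Agent.H100R3.RegC

set_option autoImplicit false

open Finset MeasureTheory ENNReal NNReal

namespace Pool.Agent.H100R3.RegW

section
variable (P : Measure ℝ) [IsProbabilityMeasure P]

noncomputable def FF (n : ℕ) (x : Fin n → ℝ) : ℝ≥0 := Real.toNNReal (VV n x / ZZ P n)

noncomputable def RR (n : ℕ) : Measure (Fin n → ℝ) :=
  (QQ P n).withDensity (fun x => (FF P n x : ℝ≥0∞))

variable {P}

lemma FF_meas (n : ℕ) : Measurable (FF P n) :=
  ((VV_cont n).measurable.div_const _).real_toNNReal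

lemma RR_int {n : ℕ} (hZ : 0 < ZZ P n) (φ : (Fin n → ℝ) → ℝ) :
    ∫ x, φ x ∂(RR P n) = ∫ x, (VV n x / ZZ P n) * φ x ∂(QQ P n) := by
  unfold RR
  rw [integral_withDensity_eq_integral_smul (FF_meas n)]
  refine integral_congr_ae (Filter.Eventually.of_forall fun x => ?_)
  simp only
  unfold FF
  rw [NNReal.smul_def, Real.coe_toNNReal _ (div_nonneg (VV_nonneg n x) hZ.le), smul_eq_mul]

lemma RR_prob (hP : ∀ᵐ x ∂P, x ∈ Set.Icc (-1:ℝ) 1) {n : ℕ} (hZ : 0 < ZZ P n) :
    IsProbabilityMeasure (RR P n) := by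
  constructor
  unfold RR
  rw [withDensity_apply _ MeasurableSet.univ, Measure.restrict_univ]
  have h1 : ∫⁻ x, (FF P n x : ℝ≥0∞) ∂(QQ P n) = ENNReal.ofReal (∫ x, VV n x / ZZ P n ∂(QQ P n)) := by
    rw [ofReal_integral_eq_lintegral_ofReal ((int_cont hP (VV_cont n)).div_const _)
      (Filter.Eventually.of_forall fun x => div_nonneg (VV_nonneg n x) hZ.le)]
    rfl
  rw [h1, integral_div]
  have h2 : ∫ x, VV n x ∂(QQ P n) = ZZ P n := rfl
  rw [h2, div_self hZ.ne', ENNReal.ofReal_one]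

lemma RR_ae (hP : ∀ᵐ x ∂P, x ∈ Set.Icc (-1:ℝ) 1) (n : ℕ) :
    ∀ᵐ x ∂(RR P n), ∀ i, x i ∈ Set.Icc (-1:ℝ) 1 :=
  (withDensity_absolutelyContinuous _ _).ae_le (QQ_ae hP n)

lemma bdd_int {Ω : Type*} [MeasurableSpace Ω] {μ : Measure Ω} [IsFiniteMeasure μ] {f : Ω → ℝ}
    (hf : Measurable f) {C : ℝ} (hC : ∀ x, |f x| ≤ C) : Integrable f μ :=
  Integrable.of_bound hf.aestronglyMeasurable C (Filter.Eventually.of_forall fun x => hC x)

variable (P) in
noncomputable def Pb (n : ℕ) : Measure ℝ :=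
  ((n : ℝ≥0∞)⁻¹) • ∑ i : Fin n, (RR P n).map (fun x => x i)

lemma Pb_apply {n : ℕ} {A : Set ℝ} (hA : MeasurableSet A) :
    Pb P n A = (n : ℝ≥0∞)⁻¹ * ∑ i : Fin n, RR P n {x | x i ∈ A} := by
  unfold Pb
  rw [Measure.smul_apply, Measure.finsetSum_apply, smul_eq_mul]
  congr 1
  refine Finset.sum_congr rfl fun i _ => ?_
  rw [Measure.map_apply (measurable_pi_apply i) hA]
  rfl

lemma Pb_prob (hP : ∀ᵐ x ∂P, x ∈ Set.Icc (-1:ℝ) 1) {n : ℕ} (hn : 0 < n) (hZ : 0 < ZZ P n) :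
    IsProbabilityMeasure (Pb P n) := by
  haveI := RR_prob hP hZ
  constructor
  rw [Pb_apply MeasurableSet.univ]
  simp only [Set.mem_univ, Set.ofPred_true, measure_univ, Finset.sum_const, Finset.card_univ,
    Fintype.card_fin, nsmul_eq_mul, mul_one]
  exact ENNReal.inv_mul_cancel (by exact_mod_cast hn.ne') (ENNReal.natCast_ne_top n)

lemma Pb_ac (n : ℕ) : Pb P n ≪ P := by
  refine Measure.AbsolutelyContinuous.mk fun S hS h0 => ?_
  rw [Pb_apply hS]
  have h1 : ∀ i : Fin n, RR P n {x | x i ∈ S} = 0 := by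
    intro i
    refine withDensity_absolutelyContinuous _ _ ?_
    have h2 := (measurePreserving_eval (fun _ : Fin n => P) i).measure_preimage hS.nullMeasurableSet
    rw [h0] at h2
    exact h2
  simp [h1]

lemma Pb_int (hP : ∀ᵐ x ∂P, x ∈ Set.Icc (-1:ℝ) 1) {n : ℕ} (hn : 0 < n) (hZ : 0 < ZZ P n)
    {φ : ℝ → ℝ} (hφ : Measurable φ) {C : ℝ} (hC : ∀ x, |φ x| ≤ C) :
    ∑ i : Fin n, ∫ x, φ (x i) ∂(RR P n) = n * ∫ y, φ y ∂(Pb P n) := by
  haveI := RR_prob hP hZ
  have hn' : (n:ℝ) ≠ 0 := by exact_mod_cast hn.ne'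
  unfold Pb
  haveI : ∀ i : Fin n, IsFiniteMeasure ((RR P n).map (fun x => x i)) := fun i =>
    Measure.isFiniteMeasure_map _ _
  rw [integral_smul_measure, integral_finsetSum_measure fun i _ => bdd_int hφ hC]
  have h1 : ((n : ℝ≥0∞)⁻¹).toReal = (n:ℝ)⁻¹ := by
    rw [ENNReal.toReal_inv, ENNReal.toReal_natCast]
  rw [h1, smul_eq_mul, mul_inv_cancel_left₀ hn']
  refine Finset.sum_congr rfl fun i _ => ?_
  rw [integral_map (measurable_pi_apply i).aemeasurable hφ.aestronglyMeasurable]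

/-- symmetric double sums -/
lemma double_sum {n : ℕ} (f : Fin n → Fin n → ℝ) (hf : ∀ i j, f i j = f j i) :
    ∑ i, ∑ j, f i j = ∑ i, f i i + 2 * ∑ i, ∑ j ∈ Ioi i, f i j := by
  have h1 : ∀ i : Fin n, ∑ j ∈ Ioi i, f i j = ∑ j, if i < j then f i j else 0 := by
    intro i
    rw [← Finset.sum_filter]
    congr 1
    ext j; simp
  have h2 : ∀ i : Fin n, ∑ j, f i j = f i i + (∑ j, if i < j then f i j else 0) +
      ∑ j, if j < i then f i j else 0 := by
    intro i
    have h3 : f i i = ∑ j, if i = j then f i j else 0 := by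
      rw [Finset.sum_ite_eq]; simp
    rw [h3, ← Finset.sum_add_distrib, ← Finset.sum_add_distrib]
    refine Finset.sum_congr rfl fun j _ => ?_
    rcases lt_trichotomy i j with h | h | h
    · simp [h, h.ne, not_lt.2 h.le]
    · subst h; simp
    · simp [h, h.ne', not_lt.2 h.le]
  have h4 : ∑ i : Fin n, ∑ j, (if j < i then f i j else 0) =
      ∑ i : Fin n, ∑ j, (if i < j then f i j else 0) := by
    rw [Finset.sum_comm]
    refine Finset.sum_congr rfl fun i _ => Finset.sum_congr rfl fun j _ => ?_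
    rw [hf j i]
  rw [Finset.sum_congr rfl (fun i _ => h2 i), Finset.sum_add_distrib, Finset.sum_add_distrib, h4,
    Finset.sum_congr rfl (fun i _ => h1 i)]
  ring

lemma log_VV {ρ : ℝ} (h0 : 0 < ρ) (h1 : ρ < 1) {n : ℕ} {x : Fin n → ℝ}
    (hx : ∀ i, x i ∈ Set.Icc (-1:ℝ) 1) (hV : VV n x ≠ 0) :
    Real.log (VV n x) ≤ - (∑ i, ∑ j, ker ρ (x i) (x j)) +
      n * (Real.log 2 - 2 * Real.log (1 - ρ)) - n ^ 2 * Real.log ρ := by
  have hlρ : Real.log ρ ≤ 0 := Real.log_nonpos h0.le h1.le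
  have hne : ∀ i : Fin n, ∀ j ∈ Ioi i, x j ≠ x i := by
    intro i j hj h
    apply hV
    unfold VV
    refine Finset.prod_eq_zero (Finset.mem_univ i) (Finset.prod_eq_zero hj ?_)
    rw [h, sub_self]; norm_num
  have h2 : Real.log (VV n x) = ∑ i : Fin n, ∑ j ∈ Ioi i, 2 * Real.log |x i - x j| := by
    unfold VV
    rw [Real.log_prod]
    · refine Finset.sum_congr rfl fun i _ => ?_
      rw [Real.log_prod]
      · refine Finset.sum_congr rfl fun j hj => ?_
        rw [Real.log_pow, abs_sub_comm, Real.log_abs]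
        norm_num
      · intro j hj
        exact pow_ne_zero _ (sub_ne_zero.2 (hne i j hj))
    · intro i _
      rw [Finset.prod_ne_zero_iff]
      intro j hj
      exact pow_ne_zero _ (sub_ne_zero.2 (hne i j hj))
  have h3 : ∑ i : Fin n, ∑ j ∈ Ioi i, 2 * Real.log |x i - x j| ≤
      ∑ i : Fin n, ∑ j ∈ Ioi i, (2 * (- ker ρ (x i) (x j)) + 2 * (- Real.log ρ)) := by
    refine Finset.sum_le_sum fun i _ => Finset.sum_le_sum fun j hj => ?_
    have := ker_le_log h0 h1 (hx i) (hx j) (hne i j hj).symm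
    linarith
  have h4 : ∑ i : Fin n, ∑ j ∈ Ioi i, (2 * (- ker ρ (x i) (x j)) + 2 * (- Real.log ρ)) =
      -(2 * ∑ i : Fin n, ∑ j ∈ Ioi i, ker ρ (x i) (x j)) +
        (∑ i : Fin n, ((Ioi i).card : ℝ)) * (2 * (- Real.log ρ)) := by
    rw [Finset.mul_sum, Finset.sum_mul, ← Finset.sum_neg_distrib, ← Finset.sum_add_distrib]
    refine Finset.sum_congr rfl fun i _ => ?_
    rw [Finset.sum_add_distrib, Finset.sum_const, nsmul_eq_mul, Finset.mul_sum,
      ← Finset.sum_neg_distrib]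
    congr 1
    refine Finset.sum_congr rfl fun j _ => ?_
    ring
  have h5 := double_sum (fun i j => ker ρ (x i) (x j)) (fun i j => ker_symm _ _ _)
  have h6 : ∑ i : Fin n, ker ρ (x i) (x i) ≤ n * (Real.log 2 - 2 * Real.log (1 - ρ)) := by
    have := Finset.sum_le_sum (s := (Finset.univ : Finset (Fin n)))
      (f := fun i => ker ρ (x i) (x i)) (fun i _ => ker_le_const (x := x i) (y := x i) h0 h1)
    rw [Finset.sum_const, Finset.card_univ, Fintype.card_fin, nsmul_eq_mul] at this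
    exact this
  have h7 : (∑ i : Fin n, ((Ioi i).card : ℝ)) ≤ n ^ 2 / 2 := by
    have h8 : ∀ m : ℕ, (∑ i : Fin m, ((Ioi i).card : ℝ)) = m * (m - 1) / 2 := by
      intro m
      have h1 : ∀ i : Fin m, ((Ioi i).card : ℝ) = ((fun j : ℕ => ((m - 1 - j : ℕ) : ℝ)) (i : ℕ)) := by
        intro i
        rw [Fin.card_Ioi]
      rw [Finset.sum_congr rfl (fun i _ => h1 i),
        Fin.sum_univ_eq_sum_range (fun j : ℕ => ((m - 1 - j : ℕ) : ℝ)),
        Finset.sum_range_reflect (fun j : ℕ => (j:ℝ)) m]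
      clear h1
      induction m with
      | zero => simp
      | succ m ih =>
        rw [Finset.sum_range_succ, ih]
        push_cast
        ring
    rw [h8]
    have : (0:ℝ) ≤ n := Nat.cast_nonneg n
    nlinarith
  rw [h2]
  refine h3.trans ?_
  rw [h4]
  have h9 : (∑ i : Fin n, ((Ioi i).card : ℝ)) * (2 * (- Real.log ρ)) ≤
      n ^ 2 / 2 * (2 * (- Real.log ρ)) := mul_le_mul_of_nonneg_right h7 (by linarith)
  linarith

end

end Pool.Agent.H100R3.RegW
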