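import Mathlib
import Pool.Agent.H100R3.RegD

set_option autoImplicit false

open Finset MeasureTheory ENNReal NNReal

namespace Pool.Agent.H100R3.RegW

noncomputable def cm (m : ℕ) (y : ℝ) : ℝ := Real.cos (m * Real.arccos y)

lemma cm_meas (m : ℕ) : Measurable (cm m) := by
  unfold cm
  exact Real.measurable_cos.comp (Real.continuous_arccos.measurable.const_mul _)

lemma cm_abs (m : ℕ) (y : ℝ) : |cm m y| ≤ 1 := Real.abs_cos_le_one _

lemma coeff_nonneg {ρ : ℝ} (h0 : 0 < ρ) (m : ℕ) : 0 ≤ 2 * ρ ^ m / m := by positivity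

lemma coeff_summable {ρ : ℝ} (h0 : 0 < ρ) (h1 : ρ < 1) : Summable (fun m : ℕ => 2 * ρ ^ m / m) := by
  have h2 : Summable (fun m : ℕ => 2 * ρ ^ m) := (summable_geometric_of_lt_one h0.le h1).mul_left 2
  refine Summable.of_nonneg_of_le (fun m => coeff_nonneg h0 m) (fun m => ?_) h2
  rcases Nat.eq_zero_or_pos m with h | h
  · subst h; simp
  · refine div_le_self (by positivity) ?_
    exact_mod_cast h

lemma var_ineq {Ω : Type*} [MeasurableSpace Ω] {μ : Measure Ω} [IsProbabilityMeasure μ]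
    {f : Ω → ℝ} (hf : Measurable f) {C : ℝ} (hC : ∀ x, |f x| ≤ C) :
    (∫ x, f x ∂μ) ^ 2 ≤ ∫ x, f x ^ 2 ∂μ := by
  set m := ∫ x, f x ∂μ with hm
  have h1 : 0 ≤ ∫ x, (f x - m) ^ 2 ∂μ := integral_nonneg fun x => sq_nonneg _
  have hfi : Integrable f μ := bdd_int hf hC
  have hfi2 : Integrable (fun x => f x ^ 2) μ := by
    refine bdd_int (hf.pow_const 2) (C := C ^ 2) fun x => ?_
    rw [abs_pow]
    exact pow_le_pow_left₀ (abs_nonneg _) (hC x) 2
  have h2 : ∫ x, (f x - m) ^ 2 ∂μ = ∫ x, f x ^ 2 ∂μ - m ^ 2 := by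
    have h3 : ∀ x, (f x - m) ^ 2 = (f x ^ 2 - (2 * m) * f x) + m ^ 2 := fun x => by ring
    simp only [h3]
    have i1 : Integrable (fun x => (2 * m) * f x) μ := hfi.const_mul _
    have i2 : Integrable (fun x => f x ^ 2 - (2 * m) * f x) μ := hfi2.sub i1
    rw [integral_add i2 (integrable_const _),
      integral_sub hfi2 i1, integral_const_mul, integral_const, probReal_univ,
      ← hm, one_smul]
    ring
  linarith

section
variable {P : Measure ℝ} [IsProbabilityMeasure P]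

lemma energy_hasSum {μ : Measure ℝ} [IsProbabilityMeasure μ] {ρ : ℝ} (h0 : 0 < ρ) (h1 : ρ < 1) :
    HasSum (fun m : ℕ => (2 * ρ ^ m / m) * (∫ y, cm m y ∂μ) ^ 2)
      (∫ p, ker ρ p.1 p.2 ∂(μ.prod μ) - Real.log 2) := by
  have hF : ∀ m : ℕ, Measurable (fun p : ℝ × ℝ => (2 * ρ ^ m / m) * (cm m p.1 * cm m p.2)) :=
    fun m => (((cm_meas m).comp measurable_fst).mul ((cm_meas m).comp measurable_snd)).const_mul _
  have hFb : ∀ m : ℕ, ∀ p : ℝ × ℝ, |(2 * ρ ^ m / m) * (cm m p.1 * cm m p.2)| ≤ 2 * ρ ^ m / m := by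
    intro m p
    rw [abs_mul, abs_mul, abs_of_nonneg (coeff_nonneg h0 m)]
    have h2 : |cm m p.1| * |cm m p.2| ≤ 1 := by
      calc |cm m p.1| * |cm m p.2| ≤ 1 * 1 :=
            mul_le_mul (cm_abs m p.1) (cm_abs m p.2) (abs_nonneg _) (by norm_num)
        _ = 1 := by norm_num
    calc 2 * ρ ^ m / m * (|cm m p.1| * |cm m p.2|) ≤ 2 * ρ ^ m / m * 1 :=
          mul_le_mul_of_nonneg_left h2 (coeff_nonneg h0 m)
      _ = _ := mul_one _
  have h2 := hasSum_integral_of_summable_integral_norm (μ := μ.prod μ)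
    (F := fun m : ℕ => fun p : ℝ × ℝ => (2 * ρ ^ m / m) * (cm m p.1 * cm m p.2))
    (fun m => bdd_int (hF m) (hFb m)) (by
      refine Summable.of_nonneg_of_le (fun m => integral_nonneg fun p => norm_nonneg _)
        (fun m => ?_) (coeff_summable h0 h1)
      have h3 : ∫ p, ‖(2 * ρ ^ m / m) * (cm m p.1 * cm m p.2)‖ ∂(μ.prod μ) ≤
          ∫ _p, (2 * ρ ^ m / m) ∂(μ.prod μ) := by
        refine integral_mono (bdd_int (hF m) (hFb m)).norm (integrable_const _) fun p => ?_
        rw [Real.norm_eq_abs]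
        exact hFb m p
      rw [integral_const, probReal_univ, one_smul] at h3
      exact h3)
  have h3 : ∫ p : ℝ × ℝ, ∑' m : ℕ, (2 * ρ ^ m / m) * (cm m p.1 * cm m p.2) ∂(μ.prod μ) =
      ∫ p, ker ρ p.1 p.2 ∂(μ.prod μ) - Real.log 2 := by
    have h4 : ∀ p : ℝ × ℝ, ∑' m : ℕ, (2 * ρ ^ m / m) * (cm m p.1 * cm m p.2) =
        ker ρ p.1 p.2 - Real.log 2 := fun p => (ker_hasSum h0 h1 p.1 p.2).tsum_eq
    simp only [h4]
    rw [integral_sub _ (integrable_const _), integral_const, probReal_univ, one_smul]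
    refine bdd_int (ker_cont h0 h1).measurable
      (C := |Real.log 2| + |Real.log 2 - 2 * Real.log (1 - ρ)|) fun p => ?_
    have h5 := ker_ge (x := p.1) (y := p.2) h0 h1
    have h6 := ker_le_const (x := p.1) (y := p.2) h0 h1
    have h7 := neg_abs_le (Real.log 2)
    have h8 := le_abs_self (Real.log 2)
    have h9 := le_abs_self (Real.log 2 - 2 * Real.log (1 - ρ))
    have h10 := abs_nonneg (Real.log 2 - 2 * Real.log (1 - ρ))
    have h11 := abs_nonneg (Real.log 2)
    rw [abs_le]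
    constructor <;> linarith
  rw [h3] at h2
  refine h2.congr_fun fun m => ?_
  rw [integral_const_mul, integral_prod_mul (cm m) (cm m)]
  ring

lemma energy_ge {μ : Measure ℝ} [IsProbabilityMeasure μ] {ρ : ℝ} (h0 : 0 < ρ) (h1 : ρ < 1) :
    Real.log 2 ≤ ∫ p, ker ρ p.1 p.2 ∂(μ.prod μ) := by
  have h2 := (energy_hasSum (μ := μ) h0 h1).nonneg
    (fun m => mul_nonneg (coeff_nonneg h0 m) (sq_nonneg _))
  linarith

lemma ker_sum_bdd {ρ : ℝ} (h0 : 0 < ρ) (h1 : ρ < 1) (n : ℕ) : ∃ C, ∀ x : Fin n → ℝ,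
    |∑ i, ∑ j, ker ρ (x i) (x j)| ≤ C := by
  refine ⟨∑ _i : Fin n, ∑ _j : Fin n, (|Real.log 2| + |Real.log 2 - 2 * Real.log (1 - ρ)|),
    fun x => ?_⟩
  refine (Finset.abs_sum_le_sum_abs _ _).trans (Finset.sum_le_sum fun i _ => ?_)
  refine (Finset.abs_sum_le_sum_abs _ _).trans (Finset.sum_le_sum fun j _ => ?_)
  have h5 := ker_ge (x := x i) (y := x j) h0 h1
  have h6 := ker_le_const (x := x i) (y := x j) h0 h1
  have h7 := neg_abs_le (Real.log 2)
  have h8 := le_abs_self (Real.log 2)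
  have h9 := le_abs_self (Real.log 2 - 2 * Real.log (1 - ρ))
  have h10 := abs_nonneg (Real.log 2 - 2 * Real.log (1 - ρ))
  have h11 := abs_nonneg (Real.log 2)
  rw [abs_le]
  constructor <;> linarith

lemma ker_sum_meas {ρ : ℝ} (h0 : 0 < ρ) (h1 : ρ < 1) (n : ℕ) :
    Measurable fun x : Fin n → ℝ => ∑ i, ∑ j, ker ρ (x i) (x j) := by
  have h4 : ∀ i j : Fin n, Measurable fun x : Fin n → ℝ => ker ρ (x i) (x j) := by
    intro i j
    have h2 : Measurable fun x : Fin n → ℝ => (x i, x j) :=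
      (measurable_pi_apply i).prodMk (measurable_pi_apply j)
    have h3 : Measurable fun p : ℝ × ℝ => ker ρ p.1 p.2 := (ker_cont h0 h1).measurable
    have := h3.comp h2
    exact this
  have h5 : ∀ i : Fin n, Measurable fun x : Fin n → ℝ => ∑ j, ker ρ (x i) (x j) := by
    intro i
    exact Finset.measurable_sum _ fun j _ => h4 i j
  exact Finset.measurable_sum _ fun i _ => h5 i

theorem psd (hP : ∀ᵐ x ∂P, x ∈ Set.Icc (-1:ℝ) 1) {n : ℕ} (hn : 0 < n) (hZ : 0 < ZZ P n)
    {ρ : ℝ} (h0 : 0 < ρ) (h1 : ρ < 1) :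
    n ^ 2 * ∫ p, ker ρ p.1 p.2 ∂((Pb P n).prod (Pb P n)) ≤
      ∫ x, ∑ i, ∑ j, ker ρ (x i) (x j) ∂(RR P n) := by
  haveI := RR_prob hP hZ
  haveI := Pb_prob hP hn hZ
  have hS : ∀ m : ℕ, Measurable fun x : Fin n → ℝ => ∑ i, cm m (x i) := fun m =>
    Finset.measurable_sum _ fun i _ => (cm_meas m).comp (measurable_pi_apply i)
  have hSb : ∀ m : ℕ, ∀ x : Fin n → ℝ, |∑ i, cm m (x i)| ≤ n := by
    intro m x
    refine (Finset.abs_sum_le_sum_abs _ _).trans ?_
    have := Finset.sum_le_sum (s := (Finset.univ : Finset (Fin n))) (fun i _ => cm_abs m (x i))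
    simpa using this
  have hF : ∀ m : ℕ, Measurable (fun x : Fin n → ℝ => (2 * ρ ^ m / m) * (∑ i, cm m (x i)) ^ 2) :=
    fun m => ((hS m).pow_const 2).const_mul _
  have hFb : ∀ m : ℕ, ∀ x : Fin n → ℝ, |(2 * ρ ^ m / m) * (∑ i, cm m (x i)) ^ 2| ≤
      (2 * ρ ^ m / m) * n ^ 2 := by
    intro m x
    rw [abs_mul, abs_of_nonneg (coeff_nonneg h0 m), abs_pow]
    exact mul_le_mul_of_nonneg_left (pow_le_pow_left₀ (abs_nonneg _) (hSb m x) 2)
      (coeff_nonneg h0 m)
  have h2 := hasSum_integral_of_summable_integral_norm (μ := RR P n)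
    (F := fun m : ℕ => fun x : Fin n → ℝ => (2 * ρ ^ m / m) * (∑ i, cm m (x i)) ^ 2)
    (fun m => bdd_int (hF m) (hFb m)) (by
      refine Summable.of_nonneg_of_le (fun m => integral_nonneg fun p => norm_nonneg _)
        (fun m => ?_) ((coeff_summable h0 h1).mul_right ((n:ℝ) ^ 2))
      have h3 : ∫ x, ‖(2 * ρ ^ m / m) * (∑ i, cm m (x i)) ^ 2‖ ∂(RR P n) ≤
          ∫ _x, ((2 * ρ ^ m / m) * (n:ℝ) ^ 2) ∂(RR P n) := by
        refine integral_mono (bdd_int (hF m) (hFb m)).norm (integrable_const _) fun p => ?_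
        rw [Real.norm_eq_abs]
        exact hFb m p
      rw [integral_const, probReal_univ, one_smul] at h3
      exact h3)
  have hpt : ∀ x : Fin n → ℝ, HasSum (fun m : ℕ => (2 * ρ ^ m / m) * (∑ i, cm m (x i)) ^ 2)
      (∑ i, ∑ j, ker ρ (x i) (x j) - n ^ 2 * Real.log 2) := by
    intro x
    have h3 : HasSum (fun m : ℕ => ∑ i : Fin n, ∑ j : Fin n,
        (2 * ρ ^ m / m) * (cm m (x i) * cm m (x j)))
        (∑ i : Fin n, ∑ j : Fin n, (ker ρ (x i) (x j) - Real.log 2)) :=
      hasSum_sum fun i _ => hasSum_sum fun j _ => ker_hasSum h0 h1 (x i) (x j)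
    have h4 : (∑ i : Fin n, ∑ j : Fin n, (ker ρ (x i) (x j) - Real.log 2)) =
        ∑ i, ∑ j, ker ρ (x i) (x j) - n ^ 2 * Real.log 2 := by
      simp only [Finset.sum_sub_distrib, Finset.sum_const, Finset.card_univ, Fintype.card_fin,
        nsmul_eq_mul]
      ring
    rw [h4] at h3
    refine h3.congr_fun fun m => ?_
    rw [pow_two, Finset.sum_mul_sum, Finset.mul_sum]
    refine Finset.sum_congr rfl fun i _ => ?_
    rw [Finset.mul_sum]
  obtain ⟨C, hC⟩ := ker_sum_bdd h0 h1 n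
  have hki : Integrable (fun x : Fin n → ℝ => ∑ i, ∑ j, ker ρ (x i) (x j)) (RR P n) :=
    bdd_int (ker_sum_meas h0 h1 n) hC
  have h3 : ∫ x : Fin n → ℝ, ∑' m : ℕ, (2 * ρ ^ m / m) * (∑ i, cm m (x i)) ^ 2 ∂(RR P n) =
      ∫ x, ∑ i, ∑ j, ker ρ (x i) (x j) ∂(RR P n) - n ^ 2 * Real.log 2 := by
    simp only [fun x => (hpt x).tsum_eq]
    rw [integral_sub hki (integrable_const _), integral_const, probReal_univ, one_smul]
  rw [h3] at h2
  have h5 := (energy_hasSum (μ := Pb P n) h0 h1).mul_left ((n:ℝ) ^ 2)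
  have h6 := hasSum_le (fun m => ?_) h5 h2
  · linarith
  · rw [integral_const_mul]
    have h7 := var_ineq (μ := RR P n) (hS m) (hSb m)
    have h8 : ∫ x, ∑ i, cm m (x i) ∂(RR P n) = n * ∫ y, cm m y ∂(Pb P n) := by
      rw [← Pb_int hP hn hZ (cm_meas m) (cm_abs m), integral_finsetSum]
      intro i _
      exact bdd_int ((cm_meas m).comp (measurable_pi_apply i)) fun x => cm_abs m (x i)
    rw [h8] at h7
    calc (n:ℝ) ^ 2 * (2 * ρ ^ m / m * (∫ y, cm m y ∂(Pb P n)) ^ 2)
        = 2 * ρ ^ m / m * (n * ∫ y, cm m y ∂(Pb P n)) ^ 2 := by ring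
      _ ≤ _ := mul_le_mul_of_nonneg_left h7 (coeff_nonneg h0 m)

theorem main_ineq (hP : ∀ᵐ x ∂P, x ∈ Set.Icc (-1:ℝ) 1) {n : ℕ} (hn : 0 < n) (hZ : 0 < ZZ P n)
    {ρ : ℝ} (h0 : 0 < ρ) (h1 : ρ < 1) {D : ℝ} (hD : 1 ≤ D) {A : Set ℝ} (hA : MeasurableSet A)
    (hPA : P.real A * D ≤ 1) :
    n * Real.log D * (Pb P n).real A + ∫ x, ∑ i, ∑ j, ker ρ (x i) (x j) ∂(RR P n) ≤
      n * (Real.log 2 - 2 * Real.log (1 - ρ) + Real.log 2) - n ^ 2 * Real.log ρ -
        Real.log (ZZ P n) := by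
  haveI := RR_prob hP hZ
  haveI := Pb_prob hP hn hZ
  set ind : ℝ → ℝ := A.indicator 1 with hind
  have hindm : Measurable ind := measurable_one.indicator hA
  have hind01 : ∀ y, ind y = 0 ∨ ind y = 1 := by
    intro y
    by_cases hy : y ∈ A
    · right; simp [hind, hy]
    · left; simp [hind, hy]
  have hindb : ∀ y, |ind y| ≤ 1 := by
    intro y
    rcases hind01 y with h | h <;> rw [h] <;> norm_num
  set g : ℝ → ℝ := fun y => 1 + (D - 1) * ind y with hg
  have hgm : Measurable g := (hindm.const_mul _).const_add _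
  have hg1 : ∀ y, 1 ≤ g y := by
    intro y
    have : 0 ≤ (D - 1) * ind y := by
      rcases hind01 y with h | h <;> rw [h]
      · simp
      · linarith
    simp only [hg]; linarith
  have hlogg : ∀ y, Real.log (g y) = Real.log D * ind y := by
    intro y
    simp only [hg]
    rcases hind01 y with h | h <;> rw [h]
    · simp
    · rw [mul_one, mul_one]; congr 1; ring
  have hgint : ∫ y, g y ∂P ≤ 2 := by
    have hi : Integrable ind P := bdd_int hindm hindb
    have h2 : ∫ y, g y ∂P = 1 + (D - 1) * P.real A := by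
      simp only [hg]
      rw [integral_add (integrable_const _) (hi.const_mul _), integral_const, probReal_univ,
        one_smul, integral_const_mul, hind, integral_indicator_one hA]
    rw [h2]
    have h3 : 0 ≤ P.real A := measureReal_nonneg
    nlinarith
  set a : (Fin n → ℝ) → ℝ := fun x => ∏ i, g (x i) with ha
  have ha1 : ∀ x, 0 < a x := fun x => Finset.prod_pos fun i _ => by linarith [hg1 (x i)]
  have hloga : ∀ x, Real.log (a x) = Real.log D * ∑ i, ind (x i) := by
    intro x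
    simp only [ha]
    rw [Real.log_prod (fun i _ => (by linarith [hg1 (x i)] : g (x i) ≠ 0)), Finset.mul_sum]
    exact Finset.sum_congr rfl fun i _ => hlogg (x i)
  have haint : ∫ x, a x ∂(QQ P n) ≤ 2 ^ n := by
    have h2 : ∫ x, a x ∂(QQ P n) = (∫ y, g y ∂P) ^ n := by
      simp only [ha]
      unfold QQ
      rw [integral_fintype_prod_eq_pow, Fintype.card_fin]
    rw [h2]
    refine pow_le_pow_left₀ ?_ hgint n
    exact integral_nonneg fun y => by
      have := hg1 y
      show (0:ℝ) ≤ g y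
      linarith
  have hgb : ∀ y, |g y| ≤ D := by
    intro y
    rw [abs_of_nonneg (by linarith [hg1 y])]
    simp only [hg]
    rcases hind01 y with h | h <;> rw [h]
    · linarith
    · linarith
  have ham : Measurable a := Finset.measurable_prod _ fun i _ => hgm.comp (measurable_pi_apply i)
  have hab : ∀ x, |a x| ≤ D ^ n := by
    intro x
    simp only [ha]
    rw [Finset.abs_prod]
    have := Finset.prod_le_prod (s := (Finset.univ : Finset (Fin n)))
      (fun i _ => abs_nonneg (g (x i))) (fun i _ => hgb (x i))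
    rw [Finset.prod_const, Finset.card_univ, Fintype.card_fin] at this
    exact this
  have hai : Integrable a (QQ P n) := bdd_int ham hab
  set W : ℝ := n * (Real.log 2 - 2 * Real.log (1 - ρ)) - n ^ 2 * Real.log ρ -
        Real.log (ZZ P n) with hW
  set Φ : (Fin n → ℝ) → ℝ := fun x => Real.log D * ∑ i, ind (x i) - n * Real.log 2 +
    ∑ i, ∑ j, ker ρ (x i) (x j) - W with hΦ
  have hpt : ∀ x : Fin n → ℝ, (∀ i, x i ∈ Set.Icc (-1:ℝ) 1) →
      (VV n x / ZZ P n) * Φ x ≤ a x / 2 ^ n - VV n x / ZZ P n := by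
    intro x hx
    have h2n : (0:ℝ) < 2 ^ n := by positivity
    by_cases hV : VV n x = 0
    · rw [hV, zero_div, zero_mul, sub_zero]
      exact div_nonneg (ha1 x).le h2n.le
    · have hVp : 0 < VV n x := lt_of_le_of_ne (VV_nonneg n x) (Ne.symm hV)
      have hFp : 0 < VV n x / ZZ P n := div_pos hVp hZ
      have h2 := log_VV h0 h1 hx hV
      have h3 : Real.log (VV n x / ZZ P n) = Real.log (VV n x) - Real.log (ZZ P n) :=
        Real.log_div hV hZ.ne'
      have h4 : Φ x ≤ Real.log (a x / 2 ^ n / (VV n x / ZZ P n)) := by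
        rw [Real.log_div (div_pos (ha1 x) h2n).ne' hFp.ne', Real.log_div (ha1 x).ne' h2n.ne',
          Real.log_pow, hloga x, h3]
        simp only [hΦ, hW]
        linarith
      have h5 : Real.log (a x / 2 ^ n / (VV n x / ZZ P n)) ≤
          a x / 2 ^ n / (VV n x / ZZ P n) - 1 :=
        Real.log_le_sub_one_of_pos (div_pos (div_pos (ha1 x) h2n) hFp)
      have h6 := mul_le_mul_of_nonneg_left (h4.trans h5) hFp.le
      refine h6.trans (le_of_eq ?_)
      rw [mul_sub, mul_div_cancel₀ _ hFp.ne', mul_one]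
  obtain ⟨C, hC⟩ := ker_sum_bdd h0 h1 n
  have hkm := ker_sum_meas h0 h1 n
  have hsm : Measurable fun x : Fin n → ℝ => ∑ i, ind (x i) :=
    Finset.measurable_sum _ fun i _ => hindm.comp (measurable_pi_apply i)
  have hsb : ∀ x : Fin n → ℝ, |∑ i, ind (x i)| ≤ n := by
    intro x
    refine (Finset.abs_sum_le_sum_abs _ _).trans ?_
    have := Finset.sum_le_sum (s := (Finset.univ : Finset (Fin n))) (fun i _ => hindb (x i))
    simpa using this
  have hki : Integrable (fun x : Fin n → ℝ => ∑ i, ∑ j, ker ρ (x i) (x j)) (RR P n) :=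
    bdd_int hkm hC
  have hsi : Integrable (fun x : Fin n → ℝ => ∑ i, ind (x i)) (RR P n) := bdd_int hsm hsb
  have hΦm : Measurable Φ := ((hsm.const_mul _).sub_const _).add hkm |>.sub_const _
  have hΦb : ∀ x, |Φ x| ≤ |Real.log D| * n + n * Real.log 2 + C + |W| := by
    intro x
    simp only [hΦ]
    have h2 : |Real.log D * ∑ i, ind (x i)| ≤ |Real.log D| * n := by
      rw [abs_mul]; exact mul_le_mul_of_nonneg_left (hsb x) (abs_nonneg _)
    have h3 := hC x
    have h4 : 0 ≤ n * Real.log 2 := by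
      have : 0 < Real.log 2 := Real.log_pos (by norm_num)
      positivity
    have h5 := abs_le.1 h2
    have h6 := abs_le.1 h3
    have h7 := neg_abs_le W
    have h8 := le_abs_self W
    rw [abs_le]
    constructor <;> linarith [h5.1, h5.2, h6.1, h6.2]
  have hle : ∫ x, Φ x ∂(RR P n) ≤ 0 := by
    rw [RR_int hZ]
    have h2 : ∫ x, (VV n x / ZZ P n) * Φ x ∂(QQ P n) ≤
        ∫ x, (a x / 2 ^ n - VV n x / ZZ P n) ∂(QQ P n) := by
      refine integral_mono_ae ?_ ((hai.div_const _).sub ((int_cont hP (VV_cont n)).div_const _)) ?_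
      · exact ((int_cont hP (VV_cont n)).div_const _).mul_bdd hΦm.aestronglyMeasurable
          (Filter.Eventually.of_forall fun x => hΦb x)
      · filter_upwards [QQ_ae hP n] with x hx using hpt x hx
    refine h2.trans ?_
    rw [integral_sub (hai.div_const _) ((int_cont hP (VV_cont n)).div_const _), integral_div,
      integral_div]
    have h3 : ∫ x, VV n x ∂(QQ P n) = ZZ P n := rfl
    rw [h3, div_self hZ.ne']
    have h4 : (∫ x, a x ∂(QQ P n)) / 2 ^ n ≤ 1 := by
      rw [div_le_one (by positivity)]; exact haint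
    linarith
  have hexp : ∫ x, Φ x ∂(RR P n) = Real.log D * (n * (Pb P n).real A) - n * Real.log 2 +
      ∫ x, ∑ i, ∑ j, ker ρ (x i) (x j) ∂(RR P n) - W := by
    have h2 : ∫ x, ∑ i, ind (x i) ∂(RR P n) = n * (Pb P n).real A := by
      have i0 : ∀ i : Fin n, Integrable (fun x : Fin n → ℝ => ind (x i)) (RR P n) := fun i =>
        bdd_int (hindm.comp (measurable_pi_apply i)) (fun x => hindb (x i))
      rw [integral_finsetSum _ (fun i _ => i0 i), Pb_int hP hn hZ hindm hindb, hind,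
        integral_indicator_one hA]
    simp only [hΦ]
    have i1 : Integrable (fun x : Fin n → ℝ => Real.log D * ∑ i, ind (x i)) (RR P n) :=
      hsi.const_mul _
    have i2 : Integrable (fun x : Fin n → ℝ => Real.log D * ∑ i, ind (x i) - n * Real.log 2)
      (RR P n) := i1.sub (integrable_const _)
    have i3 : Integrable (fun x : Fin n → ℝ => Real.log D * ∑ i, ind (x i) - n * Real.log 2 +
      ∑ i, ∑ j, ker ρ (x i) (x j)) (RR P n) := i2.add hki
    rw [integral_sub i3 (integrable_const _), integral_add i2 hki,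
      integral_sub i1 (integrable_const _), integral_const_mul, h2]
    simp only [integral_const, probReal_univ, one_smul]
  rw [hexp] at hle
  simp only [hW] at hle
  linarith

end

end Pool.Agent.H100R3.RegW
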