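import Mathlib
import Pool.Agent.H100R3.RegA
import Pool.Agent.H100R3.RegE

set_option autoImplicit false

open Finset MeasureTheory ENNReal

namespace Pool.Agent.H100R3.RegW

/-- the singular function -/
noncomputable def sg (u : ℝ) : ℝ≥0∞ := ENNReal.ofReal √(1 / |u|)

lemma sg_meas : Measurable sg := by
  unfold sg
  exact ENNReal.measurable_ofReal.comp (Real.continuous_sqrt.measurable.comp
    ((measurable_const.div continuous_abs.measurable)))

noncomputable def CG : ℝ≥0∞ := ∫⁻ u in Set.Icc (-2:ℝ) 2, sg u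

lemma CG_ne_top : CG ≠ ∞ := by
  have h1 : IntervalIntegrable (fun u : ℝ => √(1 / |u|)) volume 0 2 := by
    have h2 : IntervalIntegrable (fun u : ℝ => u ^ (-(1/2) : ℝ)) volume 0 2 :=
      intervalIntegral.intervalIntegrable_rpow' (by norm_num)
    refine h2.congr ?_
    intro u hu
    rw [Set.uIoc_of_le (by norm_num)] at hu
    simp only
    rw [abs_of_pos hu.1, Real.sqrt_eq_rpow, Real.rpow_neg hu.1.le, ← Real.inv_rpow hu.1.le,
      one_div u]
  have h3 : IntervalIntegrable (fun u : ℝ => √(1 / |u|)) volume (-2) 0 := by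
    have h4 := (IntervalIntegrable.iff_comp_neg (f := fun u : ℝ => √(1 / |u|)) (a := 0) (b := 2)
      (by simp)).1 h1
    simp only [abs_neg, neg_zero] at h4
    exact h4.symm
  have h5 := (h3.trans h1)
  rw [intervalIntegrable_iff_integrableOn_Icc_of_le (by norm_num)] at h5
  have h6 := h5.2
  rw [hasFiniteIntegral_iff_norm] at h6
  refine ne_of_lt (lt_of_le_of_lt (le_of_eq ?_) h6)
  unfold CG sg
  refine lintegral_congr fun u => ?_
  rw [Real.norm_eq_abs, abs_of_nonneg (Real.sqrt_nonneg _)]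

lemma sg_int {x : ℝ} (hx : x ∈ Set.Icc (-1:ℝ) 1) :
    ∫⁻ y in Set.Icc (-1:ℝ) 1, sg (x - y) ≤ CG := by
  have h1 : ∫⁻ y in Set.Icc (-1:ℝ) 1, sg (x - y) =
      ∫⁻ y, (Set.Icc (-1:ℝ) 1).indicator (fun y => sg (x - y)) y := by
    rw [lintegral_indicator measurableSet_Icc]
  have h2 : CG = ∫⁻ y, (fun u => (Set.Icc (-2:ℝ) 2).indicator sg u) (x - y) := by
    rw [lintegral_sub_left_eq_self (fun u => (Set.Icc (-2:ℝ) 2).indicator sg u) x,
      lintegral_indicator measurableSet_Icc]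
    rfl
  rw [h1, h2]
  refine lintegral_mono fun y => ?_
  simp only
  by_cases hy : y ∈ Set.Icc (-1:ℝ) 1
  · have hxy : x - y ∈ Set.Icc (-2:ℝ) 2 := by
      constructor <;> linarith [hx.1, hx.2, hy.1, hy.2]
    rw [Set.indicator_of_mem hy, Set.indicator_of_mem hxy]
  · rw [Set.indicator_of_notMem hy]
    exact bot_le

/-- double integral of the singular function against measures with bounded density -/
lemma sg_double {ν : Measure ℝ} [IsFiniteMeasure ν] {B : ℝ≥0∞}
    (hν : ν ≤ B • (volume.restrict (Set.Icc (-1:ℝ) 1))) (h1 : ν Set.univ ≤ 1) :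
    ∫⁻ p, sg (p.1 - p.2) ∂(ν.prod ν) ≤ B * CG := by
  have hm : Measurable fun p : ℝ × ℝ => sg (p.1 - p.2) := sg_meas.comp (measurable_fst.sub measurable_snd)
  rw [lintegral_prod _ hm.aemeasurable]
  have hsupp : ∀ᵐ x ∂ν, x ∈ Set.Icc (-1:ℝ) 1 := by
    rw [ae_iff]
    have h2 := hν {x | ¬ x ∈ Set.Icc (-1:ℝ) 1}
    refine le_antisymm (h2.trans (le_of_eq ?_)) bot_le
    rw [Measure.smul_apply, smul_eq_mul]
    have h3 : (volume.restrict (Set.Icc (-1:ℝ) 1)) {x | ¬ x ∈ Set.Icc (-1:ℝ) 1} = 0 := by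
      have := ae_restrict_mem (μ := (volume : Measure ℝ)) (measurableSet_Icc (a := (-1:ℝ)) (b := 1))
      rwa [ae_iff] at this
    rw [h3, mul_zero]
  have h2 : ∀ᵐ x ∂ν, ∫⁻ y, sg (x - y) ∂ν ≤ B * CG := by
    filter_upwards [hsupp] with x hx
    calc ∫⁻ y, sg (x - y) ∂ν ≤ ∫⁻ y, sg (x - y) ∂(B • (volume.restrict (Set.Icc (-1:ℝ) 1))) :=
          lintegral_mono' hν le_rfl
      _ = B * ∫⁻ y in Set.Icc (-1:ℝ) 1, sg (x - y) := by rw [lintegral_smul_measure, smul_eq_mul]
      _ ≤ B * CG := by gcongr; exact sg_int hx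
  calc ∫⁻ x, ∫⁻ y, sg (x - y) ∂ν ∂ν ≤ ∫⁻ _x, B * CG ∂ν := lintegral_mono_ae h2
    _ = B * CG * ν Set.univ := by rw [lintegral_const]
    _ ≤ B * CG * 1 := by gcongr
    _ = _ := mul_one _

/-- truncation of a density -/
lemma trunc {P R : Measure ℝ} [IsProbabilityMeasure P] [IsProbabilityMeasure R] (hac : R ≪ P)
    {D : ℝ} (hD : 0 < D) : ∃ A : Set ℝ, MeasurableSet A ∧ P.real A * D ≤ 1 ∧
      ∀ S, MeasurableSet S → R (S \ A) ≤ ENNReal.ofReal D * P S := by
  set h := R.rnDeriv P with hh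
  have hm : Measurable h := Measure.measurable_rnDeriv R P
  have hR : R = P.withDensity h := (Measure.withDensity_rnDeriv_eq R P hac).symm
  set A : Set ℝ := {x | ENNReal.ofReal D < h x} with hA
  have hAm : MeasurableSet A := measurableSet_lt measurable_const hm
  refine ⟨A, hAm, ?_, ?_⟩
  · have e1 : ∫⁻ x in A, h x ∂P = R A := by
      conv_rhs => rw [hR]
      rw [withDensity_apply _ hAm]
    have h1 : P A * ENNReal.ofReal D ≤ 1 := by
      calc P A * ENNReal.ofReal D = ∫⁻ _x in A, ENNReal.ofReal D ∂P := by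
            rw [setLIntegral_const, mul_comm]
        _ ≤ ∫⁻ x in A, h x ∂P := setLIntegral_mono' hAm fun x hx => le_of_lt hx
        _ = R A := e1
        _ ≤ 1 := prob_le_one
    have h2 := ENNReal.toReal_mono ENNReal.one_ne_top h1
    rw [ENNReal.toReal_mul, ENNReal.toReal_ofReal hD.le, ENNReal.toReal_one] at h2
    exact h2
  · intro S hS
    have hSA : MeasurableSet (S \ A) := hS.diff hAm
    have e1 : R (S \ A) = ∫⁻ x in S \ A, h x ∂P := by
      conv_lhs => rw [hR]
      rw [withDensity_apply _ hSA]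
    calc R (S \ A) = ∫⁻ x in S \ A, h x ∂P := e1
      _ ≤ ∫⁻ _x in S \ A, ENNReal.ofReal D ∂P :=
          setLIntegral_mono' hSA fun x hx => not_lt.1 hx.2
      _ = ENNReal.ofReal D * P (S \ A) := setLIntegral_const _ _
      _ ≤ ENNReal.ofReal D * P S := by gcongr; exact Set.sdiff_subset

end Pool.Agent.H100R3.RegW
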