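import Mathlib
import Pool.Agent.H100R3.RegF

set_option autoImplicit false

open Finset MeasureTheory ENNReal

namespace Pool.Agent.H100R3.RegW

noncomputable def phi (p : ℝ × ℝ) : ℝ := Real.log 2 - Real.log |p.1 - p.2|

lemma phi_meas : Measurable phi := by
  unfold phi
  fun_prop

lemma energyF {R : Measure ℝ} [IsProbabilityMeasure R] {ρ : ℝ} (h0 : 0 < ρ) (h1 : ρ < 1)
    {F : Set ℝ} (hFm : MeasurableSet F) (hF : F ⊆ Set.Icc (-1) 1) {B : ℝ≥0∞} (hBt : B ≠ ∞)
    (hB : R.restrict F ≤ B • (volume.restrict (Set.Icc (-1:ℝ) 1))) {e1 : ℝ}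
    (he : ∫ p, ker ρ p.1 p.2 ∂(R.prod R) ≤ e1) :
    Integrable phi ((R.restrict F).prod (R.restrict F)) ∧
    ∫ p, phi p ∂((R.restrict F).prod (R.restrict F)) ≤
      e1 + Real.log 2 + 4 * √(1 - ρ) * (B * CG).toReal := by
  set ν := R.restrict F with hν
  have hν1 : ν Set.univ ≤ 1 := by
    rw [hν, Measure.restrict_apply_univ]; exact prob_le_one
  have hlog2 : 0 < Real.log 2 := Real.log_pos (by norm_num)
  have hBC : B * CG ≠ ∞ := ENNReal.mul_ne_top hBt CG_ne_top
  -- a.e. facts
  have hna : ∀ x, ν {x} = 0 := by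
    intro x
    have h2 := hB {x}
    have h3 : (volume.restrict (Set.Icc (-1:ℝ) 1)) {x} = 0 := by simp
    rw [Measure.smul_apply, h3, smul_eq_mul, mul_zero] at h2
    exact le_antisymm h2 bot_le
  have hdist : ∀ᵐ p ∂(ν.prod ν), p.1 ≠ p.2 := by
    rw [ae_iff]
    simp only [ne_eq, not_not]
    rw [Measure.measure_prod_null (measurableSet_eq_fun measurable_fst measurable_snd)]
    refine Filter.Eventually.of_forall fun x => ?_
    have h2 : Prod.mk x ⁻¹' {p : ℝ × ℝ | p.1 = p.2} = {x} := by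
      ext y; simp [eq_comm]
    show ν (Prod.mk x ⁻¹' {p : ℝ × ℝ | p.1 = p.2}) = 0
    rw [h2, hna]
  have hprod : ν.prod ν = (R.prod R).restrict (F ×ˢ F) := Measure.prod_restrict F F
  have hmem : ∀ᵐ p ∂(ν.prod ν), p.1 ∈ F ∧ p.2 ∈ F := by
    rw [hprod]
    filter_upwards [ae_restrict_mem (hFm.prod hFm)] with p hp using hp
  have hae : ∀ᵐ p ∂(ν.prod ν), 0 ≤ phi p ∧
      phi p ≤ (ker ρ p.1 p.2 + Real.log 2) + 4 * √(1 - ρ) * √(1 / |p.1 - p.2|) := by
    filter_upwards [hdist, hmem] with p hp1 hp2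
    have hx := hF hp2.1
    have hy := hF hp2.2
    have hpos : 0 < |p.1 - p.2| := abs_pos.2 (sub_ne_zero.2 hp1)
    constructor
    · unfold phi
      have h2 : |p.1 - p.2| ≤ 2 := by
        rw [abs_le]; constructor <;> linarith [hx.1, hx.2, hy.1, hy.2]
      have := Real.log_le_log hpos h2
      linarith
    · unfold phi
      have := log_le_ker h0 h1 hx hy hp1
      linarith
  have hkerm : Measurable fun p : ℝ × ℝ => ker ρ p.1 p.2 := (ker_cont h0 h1).measurable
  have hkb : ∀ p : ℝ × ℝ, |ker ρ p.1 p.2 + Real.log 2| ≤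
      2 * Real.log 2 - 2 * Real.log (1 - ρ) := by
    intro p
    have h5 := ker_ge (x := p.1) (y := p.2) h0 h1
    have h6 := ker_le_const (x := p.1) (y := p.2) h0 h1
    rw [abs_of_nonneg (by linarith)]
    linarith
  have hki : Integrable (fun p : ℝ × ℝ => ker ρ p.1 p.2 + Real.log 2) (R.prod R) :=
    bdd_int (hkerm.add_const _) hkb
  have hki' : Integrable (fun p : ℝ × ℝ => ker ρ p.1 p.2) (R.prod R) := by
    have := hki.sub (integrable_const (Real.log 2))
    refine this.congr (Filter.Eventually.of_forall fun p => ?_)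
    simp
  have hL : ∫⁻ p, ENNReal.ofReal (phi p) ∂(ν.prod ν) ≤
      ENNReal.ofReal (e1 + Real.log 2 + 4 * √(1 - ρ) * (B * CG).toReal) := by
    have h2 : ∫⁻ p, ENNReal.ofReal (phi p) ∂(ν.prod ν) ≤
        ∫⁻ p, (ENNReal.ofReal (ker ρ p.1 p.2 + Real.log 2) +
          ENNReal.ofReal (4 * √(1 - ρ)) * sg (p.1 - p.2)) ∂(ν.prod ν) := by
      refine lintegral_mono_ae ?_
      filter_upwards [hae] with p hp
      refine (ENNReal.ofReal_le_ofReal hp.2).trans ?_
      refine ENNReal.ofReal_add_le.trans ?_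
      rw [ENNReal.ofReal_mul (by positivity)]
      exact le_rfl
    refine h2.trans ?_
    have m1 : Measurable fun p : ℝ × ℝ => ENNReal.ofReal (ker ρ p.1 p.2 + Real.log 2) :=
      ENNReal.measurable_ofReal.comp (hkerm.add_const _)
    have m2 : Measurable fun p : ℝ × ℝ => sg (p.1 - p.2) :=
      sg_meas.comp (measurable_fst.sub measurable_snd)
    rw [lintegral_add_left m1, lintegral_const_mul _ m2]
    have h3 : ∫⁻ p, ENNReal.ofReal (ker ρ p.1 p.2 + Real.log 2) ∂(ν.prod ν) ≤
        ENNReal.ofReal (e1 + Real.log 2) := by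
      calc ∫⁻ p, ENNReal.ofReal (ker ρ p.1 p.2 + Real.log 2) ∂(ν.prod ν)
          ≤ ∫⁻ p, ENNReal.ofReal (ker ρ p.1 p.2 + Real.log 2) ∂(R.prod R) := by
            refine lintegral_mono' ?_ le_rfl
            rw [hprod]; exact Measure.restrict_le_self
        _ = ENNReal.ofReal (∫ p, (ker ρ p.1 p.2 + Real.log 2) ∂(R.prod R)) := by
            rw [ofReal_integral_eq_lintegral_ofReal hki]
            refine Filter.Eventually.of_forall fun p => ?_
            have h5 := ker_ge (x := p.1) (y := p.2) h0 h1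
            show 0 ≤ ker ρ p.1 p.2 + Real.log 2
            linarith
        _ ≤ ENNReal.ofReal (e1 + Real.log 2) := by
            refine ENNReal.ofReal_le_ofReal ?_
            rw [integral_add hki' (integrable_const _), integral_const, probReal_univ, one_smul]
            linarith
    have h4 : ENNReal.ofReal (4 * √(1 - ρ)) * ∫⁻ p, sg (p.1 - p.2) ∂(ν.prod ν) ≤
        ENNReal.ofReal (4 * √(1 - ρ) * (B * CG).toReal) := by
      rw [ENNReal.ofReal_mul (p := 4 * √(1 - ρ)) (q := (B * CG).toReal) (by positivity),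
        ENNReal.ofReal_toReal hBC]
      gcongr
      exact sg_double hB hν1
    have he0 : 0 ≤ e1 + Real.log 2 := by
      have := energy_ge (μ := R) h0 h1
      linarith
    rw [ENNReal.ofReal_add he0 (by positivity)]
    exact add_le_add h3 h4
  have hint : Integrable phi (ν.prod ν) := by
    refine ⟨phi_meas.aestronglyMeasurable, ?_⟩
    rw [hasFiniteIntegral_iff_norm]
    refine lt_of_le_of_lt (le_trans (le_of_eq ?_) hL) ENNReal.ofReal_lt_top
    refine lintegral_congr_ae ?_
    filter_upwards [hae] with p hp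
    rw [Real.norm_eq_abs, abs_of_nonneg hp.1]
  refine ⟨hint, ?_⟩
  rw [integral_eq_lintegral_of_nonneg_ae (by filter_upwards [hae] with p hp using hp.1)
    phi_meas.aestronglyMeasurable]
  refine ENNReal.toReal_le_of_le_ofReal ?_ hL
  have he0 : 0 ≤ e1 + Real.log 2 := by
    have := energy_ge (μ := R) h0 h1
    linarith
  positivity

lemma cheb_final {R : Measure ℝ} [IsProbabilityMeasure R] 
    {F : Set ℝ} (hFm : MeasurableSet F) (hF : F ⊆ Set.Icc (-1) 1)
    (hna : ∀ x, R.restrict F {x} = 0) (hm : 0 < R.real F)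
    (hint : Integrable phi ((R.restrict F).prod (R.restrict F))) {E : ℝ}
    (hE : ∫ p, phi p ∂((R.restrict F).prod (R.restrict F)) ≤ E)
    {n : ℕ} (hn : 0 < n) (q : Polynomial ℝ) (hq : q.Monic) (hdeg : q.natDegree = n) {A : ℝ}
    (hA : 0 < A) (hqA : ∀ x ∈ F, |q.eval x| ≤ A) :
    n * (Real.log 2 - E / (R.real F) ^ 2) ≤ Real.log A := by
  have hRF : R F ≠ 0 := by
    intro h
    unfold Measure.real at hm
    rw [h] at hm
    simp at hm
  have hRFt : (R F)⁻¹ ≠ ∞ := ENNReal.inv_ne_top.2 hRF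
  set τ : Measure ℝ := (R F)⁻¹ • R.restrict F with hτ
  haveI : IsProbabilityMeasure τ := by
    constructor
    rw [hτ, Measure.smul_apply, Measure.restrict_apply_univ, smul_eq_mul]
    exact ENNReal.inv_mul_cancel hRF (measure_ne_top R F)
  haveI : NullSingletonClass τ := by
    constructor
    intro x
    rw [hτ, Measure.smul_apply, hna, smul_zero]
  have hτF : τ Fᶜ = 0 := by
    rw [hτ, Measure.smul_apply, Measure.restrict_apply hFm.compl]
    simp
  have hpp : τ.prod τ = ((R F)⁻¹ * (R F)⁻¹) • ((R.restrict F).prod (R.restrict F)) := by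
    rw [hτ, Measure.prod_smul_left, Measure.prod_smul_right, smul_smul]
  have hφ : Integrable phi (τ.prod τ) := by
    rw [hpp]
    exact hint.smul_measure (ENNReal.mul_ne_top hRFt hRFt)
  have hφv : ∫ p, phi p ∂(τ.prod τ) ≤ E / (R.real F) ^ 2 := by
    rw [hpp, integral_smul_measure, ENNReal.toReal_mul, ENNReal.toReal_inv, smul_eq_mul]
    have h1 : (R F).toReal = R.real F := rfl
    rw [h1]
    have h2 : (R.real F)⁻¹ * (R.real F)⁻¹ * ∫ p, phi p ∂((R.restrict F).prod (R.restrict F)) ≤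
        (R.real F)⁻¹ * (R.real F)⁻¹ * E := mul_le_mul_of_nonneg_left hE (by positivity)
    refine h2.trans (le_of_eq ?_)
    field_simp
  have hl : (fun p : ℝ × ℝ => Real.log |p.1 - p.2|) = fun p => Real.log 2 - phi p := by
    funext p; unfold phi; ring
  have hli : Integrable (fun p : ℝ × ℝ => Real.log |p.1 - p.2|) (τ.prod τ) := by
    rw [hl]; exact (integrable_const _).sub hφ
  have h3 := cheb_lower hn τ hF hτF hli q hq hdeg hA hqA
  have h4 : ∫ p, Real.log |p.1 - p.2| ∂(τ.prod τ) = Real.log 2 - ∫ p, phi p ∂(τ.prod τ) := by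
    rw [show (∫ p, Real.log |p.1 - p.2| ∂(τ.prod τ)) = ∫ p, (Real.log 2 - phi p) ∂(τ.prod τ) from
      congrArg (fun f : ℝ × ℝ → ℝ => ∫ p, f p ∂(τ.prod τ)) hl,
      integral_sub (integrable_const _) hφ, integral_const, probReal_univ, one_smul]
  rw [h4] at h3
  refine le_trans ?_ h3
  exact mul_le_mul_of_nonneg_left (by linarith) (Nat.cast_nonneg n)

end Pool.Agent.H100R3.RegW
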