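import Mathlib
import Pool.Agent.H100R3.RegG

set_option autoImplicit false

open Finset MeasureTheory ENNReal

namespace Pool.Agent.H100R3.RegW

lemma choose_alpha {η : ℝ} (hη : 0 < η) (hη2 : η < 1 / 2) : ∃ α : ℝ, 0 < α ∧ α < 1 / 10 ∧
    (2 * Real.log 2 + 12 * α) / (1 - 5 * α) ^ 2 ≤ Real.log 2 - Real.log (1 / 2 - η) := by
  have h1 : Filter.Tendsto (fun α : ℝ => (2 * Real.log 2 + 12 * α) / (1 - 5 * α) ^ 2) (nhds 0)
      (nhds ((2 * Real.log 2 + 12 * 0) / (1 - 5 * 0) ^ 2)) := by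
    refine Filter.Tendsto.div ?_ ?_ (by norm_num)
    · exact (continuous_const.add (continuous_const.mul continuous_id)).tendsto 0
    · exact ((continuous_const.sub (continuous_const.mul continuous_id)).pow 2).tendsto 0
  have h2 : (2 * Real.log 2 + 12 * 0) / (1 - 5 * 0) ^ 2 < Real.log 2 - Real.log (1 / 2 - η) := by
    have h3 : Real.log (1 / 2 - η) < Real.log (1 / 2) := Real.log_lt_log (by linarith) (by linarith)
    have h4 : Real.log (1 / 2) = - Real.log 2 := by rw [one_div, Real.log_inv]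
    rw [h4] at h3
    norm_num
    linarith
  have h3 := h1.eventually (gt_mem_nhds h2)
  rw [Metric.eventually_nhds_iff] at h3
  obtain ⟨δ, hδ, h3⟩ := h3
  refine ⟨min (δ / 2) (1 / 20), by positivity, ?_, ?_⟩
  · exact lt_of_le_of_lt (min_le_right _ _) (by norm_num)
  · refine (h3 ?_).le
    rw [Real.dist_eq, sub_zero, abs_of_pos (by positivity)]
    exact lt_of_le_of_lt (min_le_left _ _) (by linarith)

lemma log_one_sub {t : ℝ} (h0 : 0 ≤ t) (h1 : t ≤ 1 / 2) : - Real.log (1 - t) ≤ 2 * t := by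
  have h2 : Real.log (1 - t)⁻¹ ≤ (1 - t)⁻¹ - 1 :=
    Real.log_le_sub_one_of_pos (by rw [inv_pos]; linarith)
  rw [Real.log_inv] at h2
  have h3 : (1 - t)⁻¹ - 1 ≤ 2 * t := by
    have h4 : (1 - t)⁻¹ ≤ 1 + 2 * t := by
      rw [inv_le_iff_one_le_mul₀ (by linarith)]
      nlinarith
    linarith
  linarith

theorem main_reg (P : Measure ℝ) [IsProbabilityMeasure P]
    (hP : ∀ᵐ x ∂P, x ∈ Set.Icc (-1:ℝ) 1) {M : ℝ≥0∞} (hMt : M ≠ ∞)
    (hM : ∀ S, MeasurableSet S → P S ≤ M * volume S)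
    (HR : ∀ δ : ℝ, 0 < δ → ∃ K : ℕ, ∀ k : ℕ, ∀ q : Polynomial ℝ, q.Monic → q.natDegree = k →
      Real.exp (-(2 * ((k:ℝ) + K) * (Real.log 2 + δ))) ≤ ∫ a, (q.eval a) ^ 2 ∂P)
    {η : ℝ} (hη : 0 < η) (hη2 : η < 1 / 2) :
    ∃ ε : ℝ, 0 < ε ∧ ∀ E : Set ℝ, MeasurableSet E → P Eᶜ ≤ ENNReal.ofReal ε →
      ∃ F : Set ℝ, IsCompact F ∧ F ⊆ E ∧ F ⊆ Set.Icc (-1) 1 ∧ F.Nonempty ∧
        ∀ n : ℕ, 0 < n → ∀ q : Polynomial ℝ, q.Monic → q.natDegree = n → ∀ A : ℝ, 0 < A →
          (∀ x ∈ F, |q.eval x| ≤ A) → (1 / 2 - η) ^ n ≤ A := by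
  obtain ⟨α, hα0, hα1, hα⟩ := choose_alpha hη hη2
  obtain ⟨K, hK⟩ := HR (α ^ 2) (by positivity)
  have hlog2 : 0 < Real.log 2 := Real.log_pos (by norm_num)
  set c : ℝ := Real.log 2 + α ^ 2 with hc
  have hc0 : 0 ≤ c := by positivity
  set ρ' : ℝ := Real.exp (-α ^ 2) with hρ'
  have hρ'0 : 0 < ρ' := Real.exp_pos _
  have hρ'1 : ρ' < 1 := by
    rw [hρ', Real.exp_lt_one_iff]
    have : 0 < α ^ 2 := by positivity
    linarith
  set C1 : ℝ := 2 * Real.log 2 - 2 * Real.log (1 - ρ') + 2 * K * c with hC1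
  set C2 : ℝ := 2 * Real.log 2 + 2 * K * c with hC2
  -- choice of n
  have t1 : Filter.Tendsto (fun n : ℕ => C1 / n) Filter.atTop (nhds 0) :=
    tendsto_const_div_atTop_nhds_zero_nat C1
  have t2 : Filter.Tendsto (fun n : ℕ => C2 / n) Filter.atTop (nhds 0) :=
    tendsto_const_div_atTop_nhds_zero_nat C2
  have t3 : Filter.Tendsto (fun n : ℕ => Real.exp (-(α * n))) Filter.atTop (nhds 0) := by
    have : Filter.Tendsto (fun n : ℕ => α * (n:ℝ)) Filter.atTop Filter.atTop :=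
      tendsto_natCast_atTop_atTop.const_mul_atTop hα0
    exact Real.tendsto_exp_neg_atTop_nhds_zero.comp this
  have t4 : Filter.Tendsto (fun n : ℕ => 4 * (M.toReal * CG.toReal) * Real.exp (-(α * n)))
      Filter.atTop (nhds 0) := by
    have := t3.const_mul (4 * (M.toReal * CG.toReal))
    rwa [mul_zero] at this
  have hα2 : 0 < α ^ 2 := by positivity
  obtain ⟨n, hn, h1, h2, h3, h4⟩ := ((Filter.eventually_gt_atTop 0).and
    ((t1.eventually (gt_mem_nhds hα2)).and ((t2.eventually (gt_mem_nhds hα2)).and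
    ((t3.eventually (gt_mem_nhds (show 0 < α / 2 by positivity))).and
    (t4.eventually (gt_mem_nhds hα0)))))).exists
  have hn' : (0:ℝ) < n := by exact_mod_cast hn
  have hZ : 0 < ZZ P n := ZZ_pos hP hc0 hK n
  have hlogZ : -(((n:ℝ) ^ 2 + 2 * K * n) * c) ≤ Real.log (ZZ P n) := by
    rw [Real.le_log_iff_exp_le hZ]
    exact ZZ_lower hP hc0 hK n
  haveI := RR_prob hP hZ
  haveI := Pb_prob hP hn hZ
  set R := Pb P n with hR
  set D : ℝ := Real.exp (α * n) with hD
  have hD0 : 0 < D := Real.exp_pos _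
  have hD1 : 1 ≤ D := by rw [hD]; exact Real.one_le_exp (by positivity)
  obtain ⟨A, hAm, hPA, hRA⟩ := trunc (Pb_ac (P := P) n) hD0
  -- entropy bound
  have hRAle : R.real A ≤ 3 * α := by
    have e1 := main_ineq hP hn hZ hρ'0 hρ'1 hD1 hAm hPA
    have e2 := psd hP hn hZ hρ'0 hρ'1
    have e3 := energy_ge (μ := R) hρ'0 hρ'1
    have e4 : (n:ℝ) ^ 2 * Real.log 2 ≤ n ^ 2 * ∫ p, ker ρ' p.1 p.2 ∂(R.prod R) :=
      mul_le_mul_of_nonneg_left e3 (by positivity)
    have e5 : Real.log ρ' = -α ^ 2 := Real.log_exp _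
    have e6 : Real.log D = α * n := Real.log_exp _
    rw [e5, e6] at e1
    have e7 : (n:ℝ) ^ 2 * (α * R.real A) ≤ n ^ 2 * (C1 / n + 2 * α ^ 2) := by
      have e8 : (n:ℝ) ^ 2 * (C1 / n + 2 * α ^ 2) = n * C1 + 2 * n ^ 2 * α ^ 2 := by
        field_simp
      rw [e8, hC1]
      rw [hc] at hlogZ ⊢
      linarith
    have e9 := le_of_mul_le_mul_left e7 (by positivity)
    have e10 : α * R.real A ≤ α * (3 * α) := by nlinarith
    exact le_of_mul_le_mul_left e10 hα0
  -- energy bound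
  set t : ℝ := Real.exp (-(4 * (α * n))) with ht
  have ht0 : 0 < t := Real.exp_pos _
  have htl : t ≤ α / 2 := by
    refine le_trans (Real.exp_le_exp.2 ?_) h3.le
    have : 0 ≤ α * n := by positivity
    linarith
  set ρ : ℝ := 1 - t with hρ
  have h1ρ : 1 - ρ = t := by rw [hρ]; ring
  have hρ0 : 0 < ρ := by rw [hρ]; linarith
  have hρ1 : ρ < 1 := by rw [hρ]; linarith
  have hlogρ : - Real.log ρ ≤ α := by
    have := log_one_sub ht0.le (by linarith : t ≤ 1 / 2)
    rw [hρ]; linarith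
  have hen : ∫ p, ker ρ p.1 p.2 ∂(R.prod R) ≤ Real.log 2 + 11 * α := by
    have e1 := main_ineq hP hn hZ hρ0 hρ1 (le_refl 1) (MeasurableSet.empty) (by simp)
    have e2 := psd hP hn hZ hρ0 hρ1
    have e5 : Real.log (1 - ρ) = -(4 * (α * n)) := by
      rw [h1ρ]; exact Real.log_exp _
    rw [Real.log_one, mul_zero, zero_mul, zero_add, e5] at e1
    have e7 : (n:ℝ) ^ 2 * ∫ p, ker ρ p.1 p.2 ∂(R.prod R) ≤
        n ^ 2 * (C2 / n + 8 * α + α + Real.log 2 + α ^ 2) := by
      have e8 : (n:ℝ) ^ 2 * (C2 / n + 8 * α + α + Real.log 2 + α ^ 2) =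
        n * C2 + n ^ 2 * (9 * α) + n ^ 2 * (Real.log 2 + α ^ 2) := by
        field_simp; ring
      have e9 : (n:ℝ) ^ 2 * (- Real.log ρ) ≤ n ^ 2 * α :=
        mul_le_mul_of_nonneg_left hlogρ (by positivity)
      rw [e8, hC2]
      rw [hc] at hlogZ ⊢
      linarith
    have e9 := le_of_mul_le_mul_left e7 (by positivity)
    have e10 : α ^ 2 ≤ α / 10 := by nlinarith
    linarith
  refine ⟨α * Real.exp (-(α * n)), by positivity, ?_⟩
  intro E hE hPE
  -- the compact set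
  have hREA : R (Eᶜ \ A) ≤ ENNReal.ofReal α := by
    refine (hRA Eᶜ hE.compl).trans ?_
    calc ENNReal.ofReal D * P Eᶜ ≤ ENNReal.ofReal D * ENNReal.ofReal (α * Real.exp (-(α * n))) := by
          gcongr
      _ = ENNReal.ofReal α := by
          rw [← ENNReal.ofReal_mul hD0.le]
          congr 1
          rw [hD, mul_left_comm, ← Real.exp_add]
          simp
  set S : Set ℝ := (E ∩ Set.Icc (-1) 1) \ A with hS
  have hSm : MeasurableSet S := (hE.inter measurableSet_Icc).diff hAm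
  obtain ⟨F, hFS, hFc, hFlt⟩ := hSm.exists_isCompact_sdiff_lt (μ := R) (measure_ne_top R S)
    (ε := ENNReal.ofReal α) (by simpa using hα0)
  have hFm : MeasurableSet F := hFc.measurableSet
  have hFI : F ⊆ Set.Icc (-1) 1 := fun x hx => (hFS hx).1.2
  have hFE : F ⊆ E := fun x hx => (hFS hx).1.1
  have hRI : R (Set.Icc (-1:ℝ) 1)ᶜ = 0 := by
    refine Pb_ac (P := P) n ?_
    exact hP
  have hRFc : R.real F ≥ 1 - 5 * α := by
    have e1 : R Fᶜ ≤ ENNReal.ofReal (5 * α) := by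
      have e2 : Fᶜ ⊆ (Eᶜ \ A) ∪ A ∪ (Set.Icc (-1:ℝ) 1)ᶜ ∪ (S \ F) := by
        intro x hx
        by_cases hxA : x ∈ A
        · left; left; right; exact hxA
        · by_cases hxI : x ∈ Set.Icc (-1:ℝ) 1
          · by_cases hxE : x ∈ E
            · right; exact ⟨⟨⟨hxE, hxI⟩, hxA⟩, hx⟩
            · left; left; left; exact ⟨hxE, hxA⟩
          · left; right; exact hxI
      have e3 : R A ≤ ENNReal.ofReal (3 * α) := by
        rw [← ENNReal.ofReal_toReal (measure_ne_top R A)]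
        exact ENNReal.ofReal_le_ofReal hRAle
      calc R Fᶜ ≤ R ((Eᶜ \ A) ∪ A ∪ (Set.Icc (-1:ℝ) 1)ᶜ ∪ (S \ F)) := measure_mono e2
        _ ≤ R (Eᶜ \ A) + R A + R (Set.Icc (-1:ℝ) 1)ᶜ + R (S \ F) := by
            refine (measure_union_le _ _).trans ?_
            gcongr
            refine (measure_union_le _ _).trans ?_
            gcongr
            exact measure_union_le _ _
        _ ≤ ENNReal.ofReal α + ENNReal.ofReal (3 * α) + 0 + ENNReal.ofReal α := by
            rw [hRI]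
            gcongr
        _ = ENNReal.ofReal (5 * α) := by
            rw [add_zero, ← ENNReal.ofReal_add (by positivity) (by positivity),
              ← ENNReal.ofReal_add (by positivity) (by positivity)]
            congr 1; ring
    have e4 := ENNReal.toReal_mono ENNReal.ofReal_ne_top e1
    rw [ENNReal.toReal_ofReal (by positivity)] at e4
    have e5 : R.real F + R.real Fᶜ = 1 := by
      rw [measureReal_add_measureReal_compl hFm, probReal_univ]
    have e6 : R.real Fᶜ = (R Fᶜ).toReal := rfl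
    linarith
  have hm : 0 < R.real F := by linarith
  have hFne : F.Nonempty := by
    by_contra h
    rw [Set.not_nonempty_iff_eq_empty] at h
    rw [h] at hm
    simp at hm
  refine ⟨F, hFc, hFE, hFI, hFne, ?_⟩
  -- density bound
  set B : ℝ≥0∞ := ENNReal.ofReal D * M with hB
  have hBt : B ≠ ∞ := ENNReal.mul_ne_top ENNReal.ofReal_ne_top hMt
  have hBle : R.restrict F ≤ B • (volume.restrict (Set.Icc (-1:ℝ) 1)) := by
    refine Measure.le_iff.2 fun T hT => ?_
    rw [Measure.restrict_apply hT, Measure.smul_apply, Measure.restrict_apply hT, smul_eq_mul]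
    have e1 : T ∩ F = (T ∩ F) \ A := by
      ext x
      constructor
      · intro hx
        exact ⟨hx, (hFS hx.2).2⟩
      · intro hx; exact hx.1
    rw [e1]
    refine (hRA _ (hT.inter hFm)).trans ?_
    rw [hB, mul_assoc]
    gcongr
    refine (hM _ (hT.inter hFm)).trans ?_
    gcongr
  obtain ⟨hint, hEn⟩ := energyF hρ0 hρ1 hFm hFI hBt hBle hen
  have hEn2 : ∫ p, phi p ∂((R.restrict F).prod (R.restrict F)) ≤ 2 * Real.log 2 + 12 * α := by
    refine hEn.trans ?_
    have e1 : √(1 - ρ) = Real.exp (-(2 * (α * n))) := by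
      rw [h1ρ, ht, Real.sqrt_eq_iff_mul_self_eq (Real.exp_pos _).le
        (Real.exp_pos _).le, ← Real.exp_add]
      congr 1; ring
    have e2 : (B * CG).toReal = D * (M.toReal * CG.toReal) := by
      rw [hB, ENNReal.toReal_mul, ENNReal.toReal_mul, ENNReal.toReal_ofReal hD0.le]
      ring
    have e3 : 4 * √(1 - ρ) * (B * CG).toReal =
        4 * (M.toReal * CG.toReal) * Real.exp (-(α * n)) := by
      rw [e1, e2, hD]
      have : Real.exp (-(α * n)) = Real.exp (-(2 * (α * n))) * Real.exp (α * n) := by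
        rw [← Real.exp_add]; congr 1; ring
      rw [this]; ring
    rw [e3]
    linarith
  have hna : ∀ x, R.restrict F {x} = 0 := by
    intro x
    have h2 := hBle {x}
    have h3 : (volume.restrict (Set.Icc (-1:ℝ) 1)) {x} = 0 := by simp
    rw [Measure.smul_apply, h3, smul_eq_mul, mul_zero] at h2
    exact le_antisymm h2 bot_le
  intro m hmpos q hq hdeg A' hA' hqA
  have e1 := cheb_final hFm hFI hna hm hint hEn2 hmpos q hq hdeg hA' hqA
  have e2 : (2 * Real.log 2 + 12 * α) / (R.real F) ^ 2 ≤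
      (2 * Real.log 2 + 12 * α) / (1 - 5 * α) ^ 2 := by
    have e3 : 0 < 1 - 5 * α := by linarith
    gcongr
  have e3 : Real.log (1 / 2 - η) ≤ Real.log 2 - (2 * Real.log 2 + 12 * α) / (R.real F) ^ 2 := by
    linarith
  have e4 : m * Real.log (1 / 2 - η) ≤ Real.log A' :=
    (mul_le_mul_of_nonneg_left e3 (Nat.cast_nonneg m)).trans e1
  rw [← Real.log_pow, Real.log_le_log_iff (pow_pos (by linarith) m) hA'] at e4
  exact e4

end Pool.Agent.H100R3.RegW
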