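import Mathlib
import Pool.Agent.H100R3.RegH

set_option autoImplicit false

open Finset MeasureTheory ENNReal

namespace Pool.Agent.H100R3.RegW

noncomputable def mu0 (w : ℝ → ℝ) : Measure ℝ :=
  (volume.restrict (Set.Icc (-1:ℝ) 1)).withDensity (fun x => ((w x).toNNReal : ℝ≥0∞))

noncomputable def PP (w : ℝ → ℝ) : Measure ℝ := (mu0 w Set.univ)⁻¹ • mu0 w

section
variable {w : ℝ → ℝ} (hw : Measurable w) (h0 : ∀ x, 0 ≤ w x) {M : ℝ} (hM : ∀ x, w x ≤ M)
  (hpos : 0 < ∫ x in (-1:ℝ)..1, w x)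
include hw h0 hM

lemma w_int : Integrable w (volume.restrict (Set.Icc (-1:ℝ) 1)) :=
  bdd_int hw (C := M) fun x => by rw [abs_of_nonneg (h0 x)]; exact hM x

lemma mu0_le {S : Set ℝ} (hS : MeasurableSet S) :
    mu0 w S ≤ ENNReal.ofReal M * volume (S ∩ Set.Icc (-1) 1) := by
  unfold mu0
  rw [withDensity_apply _ hS, Measure.restrict_restrict hS, ← setLIntegral_const]
  refine lintegral_mono fun x => ?_
  simp only
  exact ENNReal.ofReal_le_ofReal (hM x)

lemma mu0_univ_ne_top : mu0 w Set.univ ≠ ∞ := by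
  refine ne_of_lt (lt_of_le_of_lt (mu0_le hw h0 hM MeasurableSet.univ) ?_)
  refine ENNReal.mul_lt_top ENNReal.ofReal_lt_top ?_
  rw [Set.univ_inter, Real.volume_Icc]
  exact ENNReal.ofReal_lt_top

lemma mu0_integral (f : ℝ → ℝ) :
    ∫ x, f x ∂(mu0 w) = ∫ x in (-1:ℝ)..1, f x * w x := by
  unfold mu0
  rw [integral_withDensity_eq_integral_smul hw.real_toNNReal,
    intervalIntegral.integral_of_le (by norm_num), ← integral_Icc_eq_integral_Ioc]
  refine integral_congr_ae (Filter.Eventually.of_forall fun x => ?_)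
  simp only
  rw [NNReal.smul_def, Real.coe_toNNReal _ (h0 x), smul_eq_mul, mul_comm]

lemma mu0_real : (mu0 w Set.univ).toReal = ∫ x in (-1:ℝ)..1, w x := by
  have h1 := mu0_integral hw h0 hM (fun _ => 1)
  simp only [one_mul] at h1
  rw [← h1, integral_const, smul_eq_mul, mul_one]
  rfl

include hpos

lemma mu0_univ_ne_zero : mu0 w Set.univ ≠ 0 := by
  intro h
  have h1 := mu0_real hw h0 hM
  rw [h] at h1
  simp only [ENNReal.toReal_zero] at h1
  linarith

lemma PP_prob : IsProbabilityMeasure (PP w) := by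
  constructor
  unfold PP
  rw [Measure.smul_apply, smul_eq_mul]
  exact ENNReal.inv_mul_cancel (mu0_univ_ne_zero hw h0 hM hpos) (mu0_univ_ne_top hw h0 hM)

omit hpos in
lemma PP_ae : ∀ᵐ x ∂(PP w), x ∈ Set.Icc (-1:ℝ) 1 := by
  unfold PP
  refine Measure.ae_smul_measure ?_ _
  unfold mu0
  exact (withDensity_absolutelyContinuous _ _).ae_le (ae_restrict_mem measurableSet_Icc)

lemma PP_int (f : ℝ → ℝ) :
    ∫ x, f x ∂(PP w) = (∫ x in (-1:ℝ)..1, w x)⁻¹ * ∫ x in (-1:ℝ)..1, f x * w x := by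
  unfold PP
  rw [integral_smul_measure, ENNReal.toReal_inv, mu0_real hw h0 hM, mu0_integral hw h0 hM,
    smul_eq_mul]

lemma PP_HR
    (hreg : Filter.Tendsto
        (fun k : ℕ =>
          (sInf {t : ℝ | ∃ q : Polynomial ℝ, q.Monic ∧ q.natDegree = k ∧
              t = Real.sqrt (∫ x in (-1:ℝ)..1, (q.eval x) ^ 2 * w x)}) ^ ((1:ℝ) / k))
        Filter.atTop (nhds (1 / 2))) (δ : ℝ) (hδ : 0 < δ) :
    ∃ K : ℕ, ∀ k : ℕ, ∀ q : Polynomial ℝ, q.Monic → q.natDegree = k →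
      Real.exp (-(2 * ((k:ℝ) + K) * (Real.log 2 + δ))) ≤ ∫ a, (q.eval a) ^ 2 ∂(PP w) := by
  haveI := PP_prob hw h0 hM hpos
  have hlog2 : 0 < Real.log 2 := Real.log_pos (by norm_num)
  set c := Real.log 2 + δ with hc
  have hc0 : 0 < c := by positivity
  have hlt : Real.exp (-c) < 1 / 2 := by
    have : Real.exp (-Real.log 2) = 1 / 2 := by
      rw [Real.exp_neg, Real.exp_log (by norm_num)]; norm_num
    rw [← this, Real.exp_lt_exp]; linarith
  obtain ⟨k0, hk0⟩ := Filter.eventually_atTop.1 ((hreg.eventually (lt_mem_nhds hlt)).and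
    (Filter.eventually_gt_atTop 0))
  set I : ℝ := ∫ x in (-1:ℝ)..1, w x with hI
  -- large degrees
  have hbig : ∀ k ≥ k0, ∀ q : Polynomial ℝ, q.Monic → q.natDegree = k →
      Real.exp (-(2 * k * c)) ≤ ∫ x in (-1:ℝ)..1, (q.eval x) ^ 2 * w x := by
    intro k hk q hq hdeg
    obtain ⟨h1, h2⟩ := hk0 k hk
    set G := sInf {t : ℝ | ∃ q : Polynomial ℝ, q.Monic ∧ q.natDegree = k ∧
              t = Real.sqrt (∫ x in (-1:ℝ)..1, (q.eval x) ^ 2 * w x)} with hG
    have hG0 : 0 ≤ G := by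
      refine Real.sInf_nonneg ?_
      rintro t ⟨q, _, _, rfl⟩
      exact Real.sqrt_nonneg _
    have hGle : G ≤ Real.sqrt (∫ x in (-1:ℝ)..1, (q.eval x) ^ 2 * w x) := by
      refine csInf_le ⟨0, ?_⟩ ⟨q, hq, hdeg, rfl⟩
      rintro t ⟨q, _, _, rfl⟩
      exact Real.sqrt_nonneg _
    have h3 : Real.exp (-c) ^ k ≤ G := by
      have h4 := pow_le_pow_left₀ (Real.exp_pos _).le h1.le k
      have h5 : (G ^ ((1:ℝ) / k)) ^ k = G := by
        rw [one_div, Real.rpow_inv_natCast_pow hG0 (by omega)]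
      rwa [h5] at h4
    have h6 : 0 ≤ ∫ x in (-1:ℝ)..1, (q.eval x) ^ 2 * w x :=
      intervalIntegral.integral_nonneg (by norm_num) fun x _ => mul_nonneg (sq_nonneg _) (h0 x)
    have h7 : (Real.exp (-c) ^ k) ^ 2 ≤ ∫ x in (-1:ℝ)..1, (q.eval x) ^ 2 * w x := by
      rw [← Real.sq_sqrt h6]
      exact pow_le_pow_left₀ (by positivity) (h3.trans hGle) 2
    refine le_trans (le_of_eq ?_) h7
    rw [← Real.exp_nat_mul, ← Real.exp_nat_mul]
    congr 1
    push_cast; ring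
  obtain ⟨K1, hK1⟩ := exists_nat_ge (|Real.log I| / (2 * c))
  refine ⟨k0 + K1, fun k q hq hdeg => ?_⟩
  set q' := Polynomial.X ^ k0 * q with hq'
  have hq'm : q'.Monic := (Polynomial.monic_X_pow k0).mul hq
  have hq'd : q'.natDegree = k0 + k := by
    rw [hq', (Polynomial.monic_X_pow k0).natDegree_mul hq, Polynomial.natDegree_X_pow, hdeg]
  have h1 := hbig (k0 + k) (by omega) q' hq'm hq'd
  have hcont : ∀ q : Polynomial ℝ, Integrable (fun x => (q.eval x) ^ 2) (PP w) := by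
    intro q
    obtain ⟨C, hC⟩ := (isCompact_Icc (a := (-1:ℝ)) (b := 1)).exists_bound_of_continuousOn
      ((q.continuous.pow 2).continuousOn)
    refine Integrable.of_bound (q.continuous.pow 2).aestronglyMeasurable C ?_
    filter_upwards [PP_ae hw h0 hM] with x hx using hC x hx
  have h2 : ∫ a, (q'.eval a) ^ 2 ∂(PP w) ≤ ∫ a, (q.eval a) ^ 2 ∂(PP w) := by
    refine integral_mono_ae (hcont q') (hcont q) ?_
    filter_upwards [PP_ae hw h0 hM] with x hx
    rw [hq', Polynomial.eval_mul, Polynomial.eval_pow, Polynomial.eval_X, mul_pow]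
    have h3 : (x ^ k0) ^ 2 ≤ 1 := by
      rw [← pow_mul, mul_comm, pow_mul]
      refine pow_le_one₀ (sq_nonneg x) ?_
      nlinarith [hx.1, hx.2]
    nlinarith [sq_nonneg (q.eval x)]
  refine le_trans ?_ h2
  rw [PP_int hw h0 hM hpos (fun a => (q'.eval a) ^ 2), ← hI]
  have h3 : I⁻¹ = Real.exp (-Real.log I) := by rw [Real.exp_neg, Real.exp_log hpos]
  have h4 : Real.exp (-(2 * ((k:ℝ) + (k0 + K1 : ℕ)) * c)) ≤
      I⁻¹ * Real.exp (-(2 * ((k0 + k : ℕ) : ℝ) * c)) := by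
    rw [h3, ← Real.exp_add, Real.exp_le_exp]
    rw [div_le_iff₀ (by positivity)] at hK1
    have := le_abs_self (Real.log I)
    push_cast
    nlinarith
  refine h4.trans ?_
  exact mul_le_mul_of_nonneg_left h1 (by positivity)

theorem final
    (hreg : Filter.Tendsto
        (fun k : ℕ =>
          (sInf {t : ℝ | ∃ q : Polynomial ℝ, q.Monic ∧ q.natDegree = k ∧
              t = Real.sqrt (∫ x in (-1:ℝ)..1, (q.eval x) ^ 2 * w x)}) ^ ((1:ℝ) / k))
        Filter.atTop (nhds (1 / 2))) (η : ℝ) (hη : 0 < η) : ∃ ε : ℝ, 0 < ε ∧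
        ∀ E : Set ℝ, MeasurableSet E →
          E ⊆ {x : ℝ | x ∈ Set.Icc (-1:ℝ) 1 ∧ 0 < w x} →
          MeasureTheory.volume ({x : ℝ | x ∈ Set.Icc (-1:ℝ) 1 ∧ 0 < w x} \ E) ≤ ENNReal.ofReal ε →
          1 / 2 - η ≤ sSup {c : ℝ | ∃ F : Set ℝ, IsCompact F ∧ F ⊆ E ∧
            c = sInf {s : ℝ | ∃ n : ℕ, 1 ≤ n ∧
              s = (sInf {t : ℝ | ∃ q : Polynomial ℝ, q.Monic ∧ q.natDegree = n ∧
                    t = sSup ((fun x => |q.eval x|) '' F)}) ^ ((1:ℝ) / n)}} := by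
  haveI := PP_prob hw h0 hM hpos
  set I : ℝ := ∫ x in (-1:ℝ)..1, w x with hI
  set η' : ℝ := min η (1 / 4) with hη'
  have hη'0 : 0 < η' := lt_min hη (by norm_num)
  have hη'1 : η' ≤ 1 / 4 := min_le_right _ _
  have hM0 : 0 ≤ M := (h0 0).trans (hM 0)
  have hcinv : (mu0 w Set.univ)⁻¹ ≠ ∞ := ENNReal.inv_ne_top.2 (mu0_univ_ne_zero hw h0 hM hpos)
  obtain ⟨ε0, hε0, hmain⟩ := main_reg (PP w) (PP_ae hw h0 hM)
    (M := (mu0 w Set.univ)⁻¹ * ENNReal.ofReal M)
    (ENNReal.mul_ne_top hcinv ENNReal.ofReal_ne_top) (by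
      intro S hS
      unfold PP
      rw [Measure.smul_apply, smul_eq_mul, mul_assoc]
      gcongr
      refine (mu0_le hw h0 hM hS).trans ?_
      gcongr
      exact Set.inter_subset_left) (PP_HR hw h0 hM hpos hreg) hη'0 (by linarith)
  refine ⟨ε0 * I / (M + 1), by positivity, ?_⟩
  intro E hE hEsub hvol
  have hPE : PP w Eᶜ ≤ ENNReal.ofReal ε0 := by
    have h1 : mu0 w Eᶜ ≤ ENNReal.ofReal M *
        volume ({x : ℝ | x ∈ Set.Icc (-1:ℝ) 1 ∧ 0 < w x} \ E) := by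
      unfold mu0
      have hTm : MeasurableSet ({x : ℝ | x ∈ Set.Icc (-1:ℝ) 1 ∧ 0 < w x} \ E) :=
        (measurableSet_Icc.inter (measurableSet_lt measurable_const hw)).diff hE
      rw [withDensity_apply _ hE.compl, Measure.restrict_restrict hE.compl,
        ← setLIntegral_const, ← lintegral_indicator (hE.compl.inter measurableSet_Icc),
        ← lintegral_indicator hTm]
      refine lintegral_mono fun x => ?_
      by_cases hx : x ∈ Eᶜ ∩ Set.Icc (-1:ℝ) 1
      · rw [Set.indicator_of_mem hx]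
        by_cases hwx : 0 < w x
        · rw [Set.indicator_of_mem (show x ∈ {x : ℝ | x ∈ Set.Icc (-1:ℝ) 1 ∧ 0 < w x} \ E from
            ⟨⟨hx.2, hwx⟩, hx.1⟩)]
          exact ENNReal.ofReal_le_ofReal (hM x)
        · have : w x = 0 := le_antisymm (not_lt.1 hwx) (h0 x)
          rw [this]
          simp
      · rw [Set.indicator_of_notMem hx]
        exact bot_le
    unfold PP
    rw [Measure.smul_apply, smul_eq_mul]
    calc (mu0 w Set.univ)⁻¹ * mu0 w Eᶜ ≤ (mu0 w Set.univ)⁻¹ *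
          (ENNReal.ofReal M * ENNReal.ofReal (ε0 * I / (M + 1))) := by
            gcongr
            exact h1.trans (by gcongr)
      _ = ENNReal.ofReal (I⁻¹ * (M * (ε0 * I / (M + 1)))) := by
            rw [← ENNReal.ofReal_mul hM0, ENNReal.ofReal_mul (p := I⁻¹) (by positivity)]
            congr 1
            rw [ENNReal.ofReal_inv_of_pos hpos, hI, ← mu0_real hw h0 hM,
              ENNReal.ofReal_toReal (mu0_univ_ne_top hw h0 hM)]
      _ ≤ ENNReal.ofReal ε0 := by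
            refine ENNReal.ofReal_le_ofReal ?_
            have h2 : I⁻¹ * (M * (ε0 * I / (M + 1))) = ε0 * (M / (M + 1)) := by
              field_simp
            rw [h2]
            have h3 : M / (M + 1) ≤ 1 := by
              rw [div_le_one (by positivity)]; linarith
            nlinarith
  obtain ⟨F, hFc, hFE, hFI, hFne, hF⟩ := hmain E hE hPE
  have hEI : E ⊆ Set.Icc (-1:ℝ) 1 := fun x hx => (hEsub hx).1
  -- general facts
  have hsup0 : ∀ (F : Set ℝ) (q : Polynomial ℝ), 0 ≤ sSup ((fun x => |q.eval x|) '' F) := by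
    intro F q
    refine Real.sSup_nonneg ?_
    rintro _ ⟨x, _, rfl⟩
    exact abs_nonneg _
  have hinf0 : ∀ (F : Set ℝ) (n : ℕ), 0 ≤ sInf {t : ℝ | ∃ q : Polynomial ℝ, q.Monic ∧
      q.natDegree = n ∧ t = sSup ((fun x => |q.eval x|) '' F)} := by
    intro F n
    refine Real.sInf_nonneg ?_
    rintro _ ⟨q, _, _, rfl⟩
    exact hsup0 F q
  have hbdd : BddAbove {c : ℝ | ∃ F : Set ℝ, IsCompact F ∧ F ⊆ E ∧
            c = sInf {s : ℝ | ∃ n : ℕ, 1 ≤ n ∧
              s = (sInf {t : ℝ | ∃ q : Polynomial ℝ, q.Monic ∧ q.natDegree = n ∧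
                    t = sSup ((fun x => |q.eval x|) '' F)}) ^ ((1:ℝ) / n)}} := by
    refine ⟨1, ?_⟩
    rintro c ⟨F, _, hFE, rfl⟩
    have h1 : sInf {s : ℝ | ∃ n : ℕ, 1 ≤ n ∧
              s = (sInf {t : ℝ | ∃ q : Polynomial ℝ, q.Monic ∧ q.natDegree = n ∧
                    t = sSup ((fun x => |q.eval x|) '' F)}) ^ ((1:ℝ) / n)} ≤
        (sInf {t : ℝ | ∃ q : Polynomial ℝ, q.Monic ∧ q.natDegree = 1 ∧
                    t = sSup ((fun x => |q.eval x|) '' F)}) ^ ((1:ℝ) / (1:ℕ)) := by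
      refine csInf_le ⟨0, ?_⟩ ⟨1, le_rfl, rfl⟩
      rintro s ⟨n, _, rfl⟩
      exact Real.rpow_nonneg (hinf0 F n) _
    refine h1.trans ?_
    rw [Nat.cast_one, div_one, Real.rpow_one]
    have h2 : sInf {t : ℝ | ∃ q : Polynomial ℝ, q.Monic ∧ q.natDegree = 1 ∧
                    t = sSup ((fun x => |q.eval x|) '' F)} ≤
        sSup ((fun x => |(Polynomial.X : Polynomial ℝ).eval x|) '' F) := by
      refine csInf_le ⟨0, ?_⟩ ⟨Polynomial.X, Polynomial.monic_X, Polynomial.natDegree_X, rfl⟩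
      rintro _ ⟨q, _, _, rfl⟩
      exact hsup0 F q
    refine h2.trans (Real.sSup_le ?_ zero_le_one)
    rintro _ ⟨x, hx, rfl⟩
    simp only [Polynomial.eval_X]
    exact abs_le.2 ⟨(hEI (hFE hx)).1, (hEI (hFE hx)).2⟩
  refine le_trans ?_ (le_csSup hbdd ⟨F, hFc, hFE, rfl⟩)
  refine le_csInf ⟨_, 1, le_rfl, rfl⟩ ?_
  rintro s ⟨n, hn, rfl⟩
  have hη'2 : 0 ≤ 1 / 2 - η' := by linarith
  have h1 : (1 / 2 - η') ^ n ≤ sInf {t : ℝ | ∃ q : Polynomial ℝ, q.Monic ∧ q.natDegree = n ∧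
                    t = sSup ((fun x => |q.eval x|) '' F)} := by
    refine le_csInf ⟨_, Polynomial.X ^ n, Polynomial.monic_X_pow n, Polynomial.natDegree_X_pow n,
      rfl⟩ ?_
    rintro _ ⟨q, hq, hdeg, rfl⟩
    refine le_of_forall_pos_le_add fun e he => ?_
    refine hF n hn q hq hdeg _ (by have := hsup0 F q; linarith) fun x hx => ?_
    have h2 : |q.eval x| ≤ sSup ((fun x => |q.eval x|) '' F) := by
      refine le_csSup ?_ ⟨x, hx, rfl⟩
      exact (hFc.image (q.continuous.abs)).bddAbove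
    linarith
  have h2 := Real.rpow_le_rpow (pow_nonneg hη'2 n) h1 (by positivity : (0:ℝ) ≤ (1:ℝ) / n)
  have h3 : ((1 / 2 - η') ^ n) ^ ((1:ℝ) / n) = 1 / 2 - η' := by
    have h4 := Real.pow_rpow_inv_natCast (n := n) hη'2 (by omega)
    rw [one_div (n : ℝ)]
    exact h4
  rw [h3] at h2
  have : η' ≤ η := min_le_left _ _
  linarith

end

end Pool.Agent.H100R3.RegW
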