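import Mathlib

set_option autoImplicit false

open Matrix Set Module

namespace Pool.Agent.H100R3.TTO

/-! ### Smooth matrix valued functions, entrywise -/

section CD

variable {E : Type*} [NormedAddCommGroup E] [NormedSpace ℝ E] {I J K : Type*}

def CD (M : E → Matrix I J ℂ) : Prop := ∀ x y, ContDiff ℝ 1 (fun θ => M θ x y)

lemma CD.const (A : Matrix I J ℂ) : CD (fun _ : E => A) := fun _ _ => contDiff_const

lemma CD.add {M N : E → Matrix I J ℂ} (hM : CD M) (hN : CD N) : CD (fun θ => M θ + N θ) :=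
  fun x y => (hM x y).add (hN x y)

lemma CD.sub {M N : E → Matrix I J ℂ} (hM : CD M) (hN : CD N) : CD (fun θ => M θ - N θ) :=
  fun x y => (hM x y).sub (hN x y)

lemma CD.mul [Fintype J] {M : E → Matrix I J ℂ} {N : E → Matrix J K ℂ} (hM : CD M) (hN : CD N) :
    CD (fun θ => M θ * N θ) := by
  intro x y
  simp only [Matrix.mul_apply]
  exact ContDiff.sum fun z _ => (hM x z).mul (hN z y)

lemma CD.smul {c : E → ℂ} {M : E → Matrix I J ℂ} (hc : ContDiff ℝ 1 c) (hM : CD M) :
    CD (fun θ => c θ • M θ) := by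
  intro x y
  simp only [Matrix.smul_apply, smul_eq_mul]
  exact hc.mul (hM x y)

lemma conj_cd {f : E → ℂ} (hf : ContDiff ℝ 1 f) : ContDiff ℝ 1 (fun θ => star (f θ)) :=
  (Complex.conjCLE.contDiff (n := 1)).comp hf

lemma CD.conjTranspose {M : E → Matrix I J ℂ} (hM : CD M) : CD (fun θ => (M θ)ᴴ) := by
  intro x y
  simp only [Matrix.conjTranspose_apply]
  exact conj_cd (hM y x)

lemma CD.det [Fintype I] [DecidableEq I] {M : E → Matrix I I ℂ} (hM : CD M) :
    ContDiff ℝ 1 (fun θ => (M θ).det) := by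
  simp only [Matrix.det_apply]
  refine ContDiff.sum fun σ _ => ?_
  refine ContDiff.const_smul _ ?_
  exact contDiff_prod fun i _ => hM _ _

lemma CD.adjugate [Fintype I] [DecidableEq I] {M : E → Matrix I I ℂ} (hM : CD M) :
    CD (fun θ => (M θ).adjugate) := by
  intro x y
  simp only [Matrix.adjugate_apply]
  apply CD.det
  intro a b
  simp only [Matrix.updateRow_apply]
  by_cases h : a = y
  · simp only [h, if_true]; exact contDiff_const
  · simp only [h, if_false]; exact hM a b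

lemma CD.pow [Fintype I] [DecidableEq I] {M : E → Matrix I I ℂ} (hM : CD M) (k : ℕ) :
    CD (fun θ => (M θ) ^ k) := by
  induction k with
  | zero => simp only [pow_zero]; exact CD.const _
  | succ k ih => simp only [pow_succ]; exact ih.mul hM

lemma CD.aeval [Fintype I] [DecidableEq I] {M : E → Matrix I I ℂ} (hM : CD M)
    (p : Polynomial ℂ) : CD (fun θ => Polynomial.aeval (M θ) p) := by
  induction p using Polynomial.induction_on' with
  | add p q hp hq => simp only [map_add]; exact hp.add hq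
  | monomial k a =>
    simp only [Polynomial.aeval_monomial, Algebra.algebraMap_eq_smul_one, smul_mul_assoc, one_mul]
    exact CD.smul contDiff_const (hM.pow k)

lemma CD.trace [Fintype I] {M : E → Matrix I I ℂ} (hM : CD M) :
    ContDiff ℝ 1 (fun θ => (M θ).trace) := by
  simp only [Matrix.trace, Matrix.diag_apply]
  exact ContDiff.sum fun x _ => hM x x

end CD

/-! ### The parametrisation -/

section param

variable {r : ℕ} (m : Fin r → ℕ)

/-- parameter space -/
abbrev Par : Type := ((Σ i : Fin r, Fin (2 * m i)) → ℂ) × ((Σ i : Fin r, Fin (2 * m i)) → ℂ) × ℂ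

lemma idx_lt {N : ℕ} (j k : Fin N) : (k : ℕ) + N - j < 2 * N := by omega

/-- block Toeplitz matrix with given symbol coefficients -/
def Tm (g : (Σ i : Fin r, Fin (2 * m i)) → ℂ) :
    Matrix (Σ i : Fin r, Fin (m i)) (Σ i : Fin r, Fin (m i)) ℂ :=
  Matrix.blockDiagonal' fun i => Matrix.of fun (j k : Fin (m i)) =>
    g ⟨i, ⟨(k : ℕ) + m i - j, idx_lt j k⟩⟩

lemma Tm_cd {E : Type*} [NormedAddCommGroup E] [NormedSpace ℝ E]
    {g : E → (Σ i : Fin r, Fin (2 * m i)) → ℂ} (hg : ∀ s, ContDiff ℝ 1 fun θ => g θ s) :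
    CD (fun θ => Tm m (g θ)) := by
  rintro ⟨i, j⟩ ⟨i', k⟩
  unfold Tm
  by_cases h : i = i'
  · subst h
    simp only [Matrix.blockDiagonal'_apply_eq, Matrix.of_apply]
    exact hg _
  · simp only [Matrix.blockDiagonal'_apply_ne _ _ _ h]
    exact contDiff_const

/-- inverse of the Gram matrix when the last parameter is the inverse of the determinant -/
noncomputable def Gi (θ : Par m) :
    Matrix (Σ i : Fin r, Fin (m i)) (Σ i : Fin r, Fin (m i)) ℂ :=
  θ.2.2 • (Tm m θ.1).adjugate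

noncomputable def Re1 (θ : Par m) :
    Matrix (Σ i : Fin r, Fin (m i)) (Σ i : Fin r, Fin (m i)) ℂ :=
  Gi m θ * ((1 / 2 : ℂ) • (Tm m θ.2.1 + (Tm m θ.2.1)ᴴ))

noncomputable def Im1 (θ : Par m) :
    Matrix (Σ i : Fin r, Fin (m i)) (Σ i : Fin r, Fin (m i)) ℂ :=
  Gi m θ * ((1 / (2 * Complex.I) : ℂ) • (Tm m θ.2.1 - (Tm m θ.2.1)ᴴ))

lemma Gi_cd : CD (Gi m) := by
  unfold Gi
  refine CD.smul (contDiff_snd.snd) (CD.adjugate (Tm_cd m fun s => ?_))
  exact (contDiff_apply ℝ ℂ s).comp contDiff_fst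

lemma C_cd : CD (fun θ : Par m => Tm m θ.2.1) := by
  refine Tm_cd m fun s => ?_
  exact (contDiff_apply ℝ ℂ s).comp (contDiff_fst.comp contDiff_snd)

lemma Re1_cd : CD (Re1 m) := by
  unfold Re1
  exact (Gi_cd m).mul (CD.smul contDiff_const ((C_cd m).add (C_cd m).conjTranspose))

lemma Im1_cd : CD (Im1 m) := by
  unfold Im1
  exact (Gi_cd m).mul (CD.smul contDiff_const ((C_cd m).sub (C_cd m).conjTranspose))

/-- the invariants -/
noncomputable def Phi {ι : Type*} (q : ι → Polynomial ℂ × Polynomial ℂ) (θ : Par m) : ι → ℝ :=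
  fun s => (Matrix.trace (Polynomial.aeval (Re1 m θ) (q s).1 * Im1 m θ *
    Polynomial.aeval (Re1 m θ) (q s).2 * Im1 m θ)).re

lemma Phi_cd {ι : Type*} [Fintype ι] (q : ι → Polynomial ℂ × Polynomial ℂ) :
    ContDiff ℝ 1 (Phi m q) := by
  rw [contDiff_pi]
  intro s
  unfold Phi
  refine Complex.reCLM.contDiff.comp (CD.trace ?_)
  exact ((((Re1_cd m).aeval _).mul (Im1_cd m)).mul ((Re1_cd m).aeval _)).mul (Im1_cd m)

lemma finrank_par (hm : ∑ i, m i = 2 * 68) : finrank ℝ (Par m) = 1090 := by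
  unfold Par
  rw [finrank_prod, finrank_prod, finrank_pi_fintype, Complex.finrank_real_complex]
  simp only [Finset.sum_const, Finset.card_univ, Fintype.card_sigma, Fintype.card_fin]
  rw [← Finset.mul_sum, hm]
  norm_num

end param

/-- all invariants coming from direct sums of truncated Toeplitz operators -/
def Bad (q : (Fin 34 × Fin 34) → Polynomial ℂ × Polynomial ℂ) : Set ((Fin 34 × Fin 34) → ℝ) :=
  ⋃ (x : {x : Σ r : ℕ, (Fin r → ℕ) // ∑ i, x.2 i = 2 * 68}), range (Phi x.1.2 q)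

lemma dense_compl_bad (q : (Fin 34 × Fin 34) → Polynomial ℂ × Polynomial ℂ) :
    Dense (Bad q)ᶜ := by
  apply dense_compl_of_dimH_lt_finrank
  unfold Bad
  rw [dimH_iUnion]
  have h1 : (⨆ (x : {x : Σ r : ℕ, (Fin r → ℕ) // ∑ i, x.2 i = 2 * 68}),
      dimH (range (Phi x.1.2 q))) ≤ ((1090 : ℕ) : ENNReal) := by
    refine iSup_le fun x => ?_
    have := (Phi_cd x.1.2 q).dimH_range_le
    rw [finrank_par _ x.2] at this
    exact this
  refine lt_of_le_of_lt h1 ?_
  rw [finrank_fintype_fun_eq_card]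
  simp only [Fintype.card_prod, Fintype.card_fin]
  norm_num

end Pool.Agent.H100R3.TTO
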