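import Mathlib
import Pool.Agent.H100R3.TTO1

set_option autoImplicit false

open Matrix Set Module

namespace Pool.Agent.H100R3.TTO

/-- the modulus squared of the denominator -/
noncomputable def qq {N : ℕ} (a : Fin N → ℂ) (t : ℝ) : ℝ :=
  Complex.normSq (∏ l : Fin N, (1 - starRingEnd ℂ (a l) * Complex.exp ((t : ℂ) * Complex.I)))

lemma qq_pos {N : ℕ} {a : Fin N → ℂ} (ha : ∀ j, ‖a j‖ < 1) (t : ℝ) : 0 < qq a t := by
  unfold qq
  rw [Complex.normSq_pos, Finset.prod_ne_zero_iff]
  intro l _ h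
  have h1 : starRingEnd ℂ (a l) * Complex.exp ((t : ℂ) * Complex.I) = 1 := by
    rw [sub_eq_zero] at h; exact h.symm
  have h2 : ‖starRingEnd ℂ (a l) * Complex.exp ((t : ℂ) * Complex.I)‖ = ‖a l‖ := by
    rw [norm_mul, Complex.norm_exp_ofReal_mul_I, mul_one, RCLike.norm_conj]
  rw [h1, norm_one] at h2
  linarith [ha l]

lemma qq_cont {N : ℕ} (a : Fin N → ℂ) : Continuous (qq a) := by
  unfold qq
  refine Complex.continuous_normSq.comp (continuous_finsetProd _ fun l _ => ?_)
  fun_prop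

/-- the Gram coefficients -/
noncomputable def gam {N : ℕ} (a : Fin N → ℂ) (φ : ℝ → ℂ) (d : ℂ) : ℂ :=
  ∫ t in (0:ℝ)..(2 * Real.pi), φ t * Complex.exp (d * (t : ℂ) * Complex.I) / ((qq a t : ℝ) : ℂ)

lemma poly_zero {N : ℕ} (v : Fin N → ℂ)
    (h : ∀ t ∈ Icc (0:ℝ) (2 * Real.pi), ∑ k, v k * Complex.exp ((k : ℕ) * (t : ℂ) * Complex.I) = 0) :
    v = 0 := by
  set p : Polynomial ℂ := ∑ k : Fin N, Polynomial.monomial (k : ℕ) (v k) with hp
  have hroot : ∀ t ∈ Icc (0:ℝ) 1, p.IsRoot (Complex.exp ((t : ℂ) * Complex.I)) := by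
    intro t ht
    have h1 := h t ⟨ht.1, by linarith [ht.2, Real.pi_gt_three]⟩
    rw [Polynomial.IsRoot, hp, Polynomial.eval_finsetSum, ← h1]
    refine Finset.sum_congr rfl fun k _ => ?_
    rw [Polynomial.eval_monomial, ← Complex.exp_nat_mul]
    congr 2; ring
  have hinf : Set.Infinite {x | p.IsRoot x} := by
    have hinj : Set.InjOn (fun t : ℝ => Complex.exp ((t : ℂ) * Complex.I)) (Icc (0:ℝ) 1) := by
      intro s hs t ht hst
      have h1 := Complex.exp_inj_of_neg_pi_lt_of_le_pi (x := (s : ℂ) * Complex.I)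
        (y := (t : ℂ) * Complex.I) (by simp; linarith [hs.1, Real.pi_gt_three])
        (by simp; linarith [hs.2, Real.pi_gt_three]) (by simp; linarith [ht.1, Real.pi_gt_three])
        (by simp; linarith [ht.2, Real.pi_gt_three]) hst
      have h2 := mul_right_cancel₀ Complex.I_ne_zero h1
      exact_mod_cast h2
    have : Set.Infinite ((fun t : ℝ => Complex.exp ((t : ℂ) * Complex.I)) '' (Icc (0:ℝ) 1)) :=
      (Set.Icc_infinite zero_lt_one).image hinj
    refine this.mono ?_
    rintro _ ⟨t, ht, rfl⟩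
    exact hroot t ht
  have hp0 := Polynomial.eq_zero_of_infinite_isRoot p hinf
  funext k
  have h2 : p.coeff k = v k := by
    rw [hp, Polynomial.finsetSum_coeff]
    simp only [Polynomial.coeff_monomial]
    rw [Finset.sum_eq_single k]
    · simp
    · intro b _ hb
      rw [if_neg]
      intro h; exact hb (Fin.ext h)
    · simp
  rw [← h2, hp0]; simp

lemma gram_inj {N : ℕ} {a : Fin N → ℂ} (ha : ∀ j, ‖a j‖ < 1) (v : Fin N → ℂ)
    (h : ∀ j : Fin N, ∑ k : Fin N, gam a (fun _ => 1) (((k : ℕ) : ℂ) - ((j : ℕ) : ℂ)) * v k = 0) :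
    v = 0 := by
  apply poly_zero
  set P : ℝ → ℂ := fun t => ∑ k, v k * Complex.exp ((k : ℕ) * (t : ℂ) * Complex.I) with hP
  set f : ℝ → ℝ := fun t => Complex.normSq (P t) / qq a t with hf
  have hPc : Continuous P := by
    rw [hP]
    refine continuous_finsetSum _ fun k _ => ?_
    fun_prop
  have hfc : Continuous f := (Complex.continuous_normSq.comp hPc).div (qq_cont a)
    fun t => (qq_pos ha t).ne'
  have hf0 : ∀ t, 0 ≤ f t := fun t => div_nonneg (Complex.normSq_nonneg _) (qq_pos ha t).le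
  have hqc : Continuous fun t : ℝ => ((qq a t : ℝ) : ℂ) := Complex.continuous_ofReal.comp (qq_cont a)
  have hqne : ∀ t : ℝ, ((qq a t : ℝ) : ℂ) ≠ 0 := fun t => by
    exact_mod_cast (qq_pos ha t).ne'
  have hsum : ((∫ t in (0:ℝ)..(2 * Real.pi), f t : ℝ) : ℂ) =
      ∑ j : Fin N, star (v j) *
        ∑ k : Fin N, gam a (fun _ => 1) (((k : ℕ) : ℂ) - ((j : ℕ) : ℂ)) * v k := by
    rw [← intervalIntegral.integral_ofReal]
    unfold gam
    simp only [← intervalIntegral.integral_mul_const]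
    have hi : ∀ j k : Fin N, IntervalIntegrable (fun t : ℝ =>
        1 * Complex.exp ((((k : ℕ) : ℂ) - ((j : ℕ) : ℂ)) * (t : ℂ) * Complex.I) /
          ((qq a t : ℝ) : ℂ) * v k) MeasureTheory.volume 0 (2 * Real.pi) := by
      intro j k
      refine Continuous.intervalIntegrable ?_ _ _
      refine Continuous.mul (Continuous.div (by fun_prop) hqc hqne) continuous_const
    have h2 : ∀ j : Fin N, ∑ k : Fin N, (∫ t in (0:ℝ)..(2 * Real.pi),
        1 * Complex.exp ((((k : ℕ) : ℂ) - ((j : ℕ) : ℂ)) * (t : ℂ) * Complex.I) /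
          ((qq a t : ℝ) : ℂ) * v k) = ∫ t in (0:ℝ)..(2 * Real.pi), ∑ k : Fin N,
        1 * Complex.exp ((((k : ℕ) : ℂ) - ((j : ℕ) : ℂ)) * (t : ℂ) * Complex.I) /
          ((qq a t : ℝ) : ℂ) * v k := by
      intro j
      rw [intervalIntegral.integral_finsetSum]
      exact fun k _ => hi j k
    simp only [h2, ← intervalIntegral.integral_const_mul]
    rw [← intervalIntegral.integral_finsetSum]
    · refine intervalIntegral.integral_congr fun t _ => ?_
      simp only [hf]
      push_cast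
      rw [Complex.normSq_eq_conj_mul_self, hP]
      simp only [map_sum, map_mul, Finset.sum_mul, Finset.mul_sum, Finset.sum_div]
      rw [Finset.sum_comm]
      refine Finset.sum_congr rfl fun j _ => Finset.sum_congr rfl fun k _ => ?_
      have e1 : (starRingEnd ℂ) (Complex.exp ((j : ℕ) * (t : ℂ) * Complex.I)) =
          Complex.exp (-((j : ℕ) * (t : ℂ) * Complex.I)) := by
        rw [← Complex.exp_conj]
        congr 1
        simp
      have e2 : Complex.exp ((((k : ℕ) : ℂ) - ((j : ℕ) : ℂ)) * (t : ℂ) * Complex.I) =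
          Complex.exp (-((j : ℕ) * (t : ℂ) * Complex.I)) *
            Complex.exp ((k : ℕ) * (t : ℂ) * Complex.I) := by
        rw [← Complex.exp_add]; congr 1; ring
      rw [e1, e2]
      simp only [Complex.star_def]
      ring
    · intro j _
      refine Continuous.intervalIntegrable ?_ _ _
      refine Continuous.mul continuous_const (continuous_finsetSum _ fun k _ => ?_)
      refine Continuous.mul (Continuous.div (by fun_prop) hqc hqne) continuous_const
  have hzero : ∫ t in (0:ℝ)..(2 * Real.pi), f t = 0 := by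
    have : ((∫ t in (0:ℝ)..(2 * Real.pi), f t : ℝ) : ℂ) = 0 := by
      rw [hsum]
      refine Finset.sum_eq_zero fun j _ => ?_
      rw [h j, mul_zero]
    exact_mod_cast this
  intro t ht
  by_contra hne
  have hpos : 0 < ∫ t in (0:ℝ)..(2 * Real.pi), f t := by
    refine intervalIntegral.integral_pos (by positivity) hfc.continuousOn (fun x _ => hf0 x)
      ⟨t, ht, ?_⟩
    exact div_pos (Complex.normSq_pos.2 hne) (qq_pos ha t)
  linarith

section main

variable {r : ℕ} {m : Fin r → ℕ}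

noncomputable def gpar (a : (i : Fin r) → Fin (m i) → ℂ) (φ : Fin r → ℝ → ℂ) :
    (Σ i : Fin r, Fin (2 * m i)) → ℂ :=
  fun s => gam (a s.1) (φ s.1) (((s.2 : ℕ) : ℂ) - ((m s.1 : ℕ) : ℂ))

lemma Tm_gpar (a : (i : Fin r) → Fin (m i) → ℂ) (φ : Fin r → ℝ → ℂ) :
    Tm m (gpar a φ) = Matrix.blockDiagonal' (fun i => Matrix.of (fun (j k : Fin (m i)) =>
      gam (a i) (φ i) (((k : ℕ) : ℂ) - ((j : ℕ) : ℂ)))) := by
  unfold Tm gpar
  congr 1
  funext i
  ext j k
  simp only [Matrix.of_apply]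
  congr 1
  have : (j : ℕ) ≤ (k : ℕ) + m i := by omega
  push_cast [Nat.cast_sub this]
  ring

lemma det_ne (a : (i : Fin r) → Fin (m i) → ℂ) (ha : ∀ i j, ‖a i j‖ < 1) :
    (Tm m (gpar a (fun _ _ => 1))).det ≠ 0 := by
  intro h
  obtain ⟨v, hv, h0⟩ := Matrix.exists_mulVec_eq_zero_iff.2 h
  apply hv
  rw [Tm_gpar] at h0
  funext ⟨i, k⟩
  have h1 : (fun k => v ⟨i, k⟩) = 0 := by
    refine gram_inj (ha i) _ fun j => ?_
    have h2 := congrFun h0 ⟨i, j⟩
    rw [Matrix.mulVec, dotProduct, Fintype.sum_sigma, Finset.sum_eq_single i] at h2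
    · simpa [Matrix.blockDiagonal'_apply_eq] using h2
    · intro i' _ hne
      refine Finset.sum_eq_zero fun k _ => ?_
      rw [Matrix.blockDiagonal'_apply_ne _ _ _ (Ne.symm hne), zero_mul]
    · simp
  exact congrFun h1 k

lemma aeval_conj {I J : Type*} [Fintype I] [Fintype J] [DecidableEq I] [DecidableEq J]
    (L : Matrix I J ℂ) (S : Matrix J I ℂ) (h1 : L * S = 1) (h2 : S * L = 1) (R : Matrix J J ℂ)
    (p : Polynomial ℂ) : Polynomial.aeval (L * R * S) p = L * Polynomial.aeval R p * S := by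
  have hpow : ∀ k : ℕ, (L * R * S) ^ k = L * R ^ k * S := by
    intro k
    induction k with
    | zero => simp [h1]
    | succ k ih =>
      rw [pow_succ, ih, pow_succ]
      calc L * R ^ k * S * (L * R * S) = L * R ^ k * (S * L) * R * S := by
            simp only [Matrix.mul_assoc]
        _ = L * (R ^ k * R) * S := by rw [h2]; simp only [Matrix.mul_assoc, Matrix.one_mul]
  induction p using Polynomial.induction_on' with
  | add p q hp hq => simp only [map_add, hp, hq, Matrix.mul_add, Matrix.add_mul]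
  | monomial k a =>
    simp only [Polynomial.aeval_monomial, Algebra.algebraMap_eq_smul_one, smul_mul_assoc, one_mul,
      hpow, Matrix.mul_smul, Matrix.smul_mul]

lemma main_id {J : Type*} [Fintype J] [DecidableEq J]
    (hcard : Fintype.card J = Fintype.card (Σ i : Fin r, Fin (m i)))
    (S : Matrix J (Σ i : Fin r, Fin (m i)) ℂ) (X : Matrix J J ℂ)
    (g c : (Σ i : Fin r, Fin (2 * m i)) → ℂ) (hdet : (Tm m g).det ≠ 0)
    (hG : Sᴴ * S = Tm m g) (hC : Sᴴ * X * S = Tm m c)
    {ι : Type*} (q : ι → Polynomial ℂ × Polynomial ℂ) (s : ι) :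
    Phi m q (g, c, ((Tm m g).det)⁻¹) s =
      (Matrix.trace (Polynomial.aeval ((1 / 2 : ℂ) • (X + Xᴴ)) (q s).1 *
        ((1 / (2 * Complex.I) : ℂ) • (X - Xᴴ)) *
        Polynomial.aeval ((1 / 2 : ℂ) • (X + Xᴴ)) (q s).2 *
        ((1 / (2 * Complex.I) : ℂ) • (X - Xᴴ)))).re := by
  set G := Tm m g with hGdef
  set Gin : Matrix (Σ i : Fin r, Fin (m i)) (Σ i : Fin r, Fin (m i)) ℂ :=
    Gi m (g, c, (G.det)⁻¹) with hGin
  have hGG : Gin * G = 1 := by
    rw [hGin]
    unfold Gi
    simp only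
    rw [Matrix.smul_mul, ← hGdef, Matrix.adjugate_mul, smul_smul, inv_mul_cancel₀ hdet, one_smul]
  set L := Gin * Sᴴ with hL
  have hLS : L * S = 1 := by rw [hL, Matrix.mul_assoc, hG, hGG]
  have hSL : S * L = 1 := (Matrix.mul_eq_one_comm_of_card_eq _ _ _ hcard).2 hLS
  have hCH : Sᴴ * Xᴴ * S = (Tm m c)ᴴ := by
    rw [← hC]
    simp [Matrix.conjTranspose_mul, Matrix.mul_assoc]
  have hR : Re1 m (g, c, (G.det)⁻¹) = L * ((1 / 2 : ℂ) • (X + Xᴴ)) * S := by
    unfold Re1
    rw [← hGin]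
    simp only
    rw [← hCH, ← hC, hL]
    simp only [Matrix.mul_smul, Matrix.smul_mul, Matrix.mul_add, Matrix.add_mul, Matrix.mul_assoc]
  have hI : Im1 m (g, c, (G.det)⁻¹) = L * ((1 / (2 * Complex.I) : ℂ) • (X - Xᴴ)) * S := by
    unfold Im1
    rw [← hGin]
    simp only
    rw [← hCH, ← hC, hL]
    simp only [Matrix.mul_smul, Matrix.smul_mul, Matrix.mul_sub, Matrix.sub_mul, Matrix.mul_assoc]
  unfold Phi
  rw [hR, hI, aeval_conj L S hLS hSL, aeval_conj L S hLS hSL]
  congr 1
  set R := (1 / 2 : ℂ) • (X + Xᴴ)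
  set Y := (1 / (2 * Complex.I) : ℂ) • (X - Xᴴ)
  set P := Polynomial.aeval R (q s).1
  set Q := Polynomial.aeval R (q s).2
  have : L * P * S * (L * Y * S) * (L * Q * S) * (L * Y * S) = L * (P * Y * Q * Y) * S := by
    calc L * P * S * (L * Y * S) * (L * Q * S) * (L * Y * S)
        = L * P * (S * L) * Y * (S * L) * Q * (S * L) * Y * S := by
          simp only [Matrix.mul_assoc]
      _ = L * (P * Y * Q * Y) * S := by
          rw [hSL]; simp only [Matrix.mul_assoc, Matrix.one_mul]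
  rw [this, Matrix.trace_mul_comm, ← Matrix.mul_assoc, hSL, Matrix.one_mul]

end main

end Pool.Agent.H100R3.TTO
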