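import Mathlib

set_option autoImplicit false

open Finset

namespace Pool.Agent.H100R3.Wid

noncomputable def ro (k : ℕ) : ℝ := 8 * (2 * 2 ^ k - (3/2) ^ k)
noncomputable def BB (k : ℕ) : ℝ := 16 * (2 ^ k - (3/2) ^ k)

lemma ro_succ (k : ℕ) : ro (k + 1) = 2 * ro k + 4 * (3/2) ^ k := by
  unfold ro; ring

lemma BB_succ (k : ℕ) : BB (k + 1) = BB k + ro k := by
  unfold BB ro; ring

lemma ro_sub_BB (k : ℕ) : ro k - BB k = 8 * (3/2) ^ k := by
  unfold BB ro; ring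

lemma BB_zero : BB 0 = 0 := by unfold BB; norm_num

lemma pow_le (k : ℕ) : ((3:ℝ)/2) ^ k ≤ 2 ^ k := pow_le_pow_left₀ (by norm_num) (by norm_num) k

lemma ro_ge (k : ℕ) : 8 * 2 ^ k ≤ ro k := by
  unfold ro
  have := pow_le k
  linarith

lemma ro_ge8 (k : ℕ) : 8 ≤ ro k := by
  have h := ro_ge k
  have : (1:ℝ) ≤ 2 ^ k := one_le_pow₀ (by norm_num)
  linarith

noncomputable def s (k : ℕ) : ℝ := Real.exp (-ro k)

lemma s_pos (k : ℕ) : 0 < s k := Real.exp_pos _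

lemma exp4 : Real.exp (-4) ≤ 1 / 32 := by
  rw [Real.exp_neg, ← one_div]
  refine one_div_le_one_div_of_le (by norm_num) ?_
  have h1 : (2.7:ℝ) ≤ Real.exp 1 := by have := Real.exp_one_gt_d9; linarith
  have h2 : Real.exp 4 = Real.exp 1 ^ 4 := by rw [← Real.exp_nat_mul]; norm_num
  rw [h2]
  calc (32:ℝ) ≤ 2.7 ^ 4 := by norm_num
    _ ≤ Real.exp 1 ^ 4 := pow_le_pow_left₀ (by norm_num) h1 4

lemma s_succ (k : ℕ) : s (k + 1) ≤ s k ^ 2 / 32 := by
  have h1 : s (k + 1) = s k ^ 2 * Real.exp (-(4 * (3/2) ^ k)) := by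
    unfold s
    rw [← Real.exp_nat_mul, ← Real.exp_add, ro_succ]
    congr 1; push_cast; ring
  have h2 : Real.exp (-(4 * (3/2) ^ k)) ≤ 1 / 32 := by
    refine le_trans (Real.exp_le_exp.2 ?_) exp4
    have : (1:ℝ) ≤ (3/2) ^ k := one_le_pow₀ (by norm_num)
    linarith
  have h3 := mul_le_mul_of_nonneg_left h2 (sq_nonneg (s k))
  rw [h1]
  linarith

lemma s_le (k : ℕ) : s k ≤ 1 / 32 := by
  refine le_trans (Real.exp_le_exp.2 ?_) exp4
  linarith [ro_ge8 k]

noncomputable def Fr : ℕ → ℝ → ℝ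
  | 0, x => x
  | (k + 1), x => (Fr k x) ^ 2 - (s k) ^ 2

lemma Fr_cont (k : ℕ) : Continuous (Fr k) := by
  induction k with
  | zero => exact continuous_id
  | succ k ih => exact (ih.pow 2).sub continuous_const

def sgn (b : Bool) : ℝ := if b then 1 else -1

lemma sgn_sq (b : Bool) : sgn b * sgn b = 1 := by cases b <;> simp [sgn]

lemma sgn_abs (b : Bool) : |sgn b| = 1 := by cases b <;> simp [sgn]

def Ch (k : ℕ) (ω : ℕ → Bool) (p : ℝ) : Prop :=
  |Fr k p| ≤ 2 * s k ∧ ∀ i < k, 0 ≤ sgn (ω i) * Fr i p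

lemma Ch.sq {k : ℕ} {ω : ℕ → Bool} {p : ℝ} (h : Ch (k + 1) ω p) :
    (15/16) * s k ^ 2 ≤ Fr k p ^ 2 ∧ Fr k p ^ 2 ≤ (17/16) * s k ^ 2 := by
  have h1 := abs_le.1 h.1
  have h2 := s_succ k
  have h3 : Fr (k + 1) p = (Fr k p) ^ 2 - (s k) ^ 2 := rfl
  rw [h3] at h1
  constructor <;> linarith [h1.1, h1.2]

lemma Ch.pred {k : ℕ} {ω : ℕ → Bool} {p : ℝ} (h : Ch (k + 1) ω p) : Ch k ω p := by
  refine ⟨?_, fun i hi => h.2 i (by omega)⟩
  have h1 := h.sq.2
  have h2 := s_pos k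
  apply abs_le_of_sq_le_sq _ (by positivity)
  nlinarith

lemma Ch.mono {k i : ℕ} {ω : ℕ → Bool} {p : ℝ} (h : Ch k ω p) (hi : i ≤ k) : Ch i ω p := by
  induction k with
  | zero =>
    have : i = 0 := by omega
    rw [this]; exact h
  | succ k ih =>
    rcases Nat.eq_or_lt_of_le hi with h1 | h1
    · rw [h1]; exact h
    · exact ih h.pred (by omega)

lemma Ch.lo {k : ℕ} {ω : ℕ → Bool} {p : ℝ} (h : Ch (k + 1) ω p) :
    s k / 2 ≤ sgn (ω k) * Fr k p := by
  have h1 := h.sq.1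
  have h2 := s_pos k
  have h3 := h.2 k (by omega)
  have h4 : (sgn (ω k) * Fr k p) ^ 2 = Fr k p ^ 2 := by
    rw [mul_pow, pow_two (sgn _), sgn_sq, one_mul]
  by_contra hc
  push Not at hc
  have : (sgn (ω k) * Fr k p) ^ 2 < (s k / 2) ^ 2 := by
    apply pow_lt_pow_left₀ hc h3 (by norm_num)
  nlinarith

lemma Ch.hi {k : ℕ} {ω : ℕ → Bool} {p : ℝ} (h : Ch k ω p) (b : Bool) :
    sgn b * Fr k p ≤ 2 * s k := by
  calc sgn b * Fr k p ≤ |sgn b * Fr k p| := le_abs_self _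
    _ = |Fr k p| := by rw [abs_mul, sgn_abs, one_mul]
    _ ≤ _ := h.1

lemma step {k : ℕ} {ω ω' : ℕ → Bool} {p q : ℝ} (hp : Ch (k + 1) ω p) (hq : Ch (k + 1) ω' q)
    (he : ω k = ω' k) :
    |Fr k p - Fr k q| * s k ≤ |Fr (k + 1) p - Fr (k + 1) q| ∧
    |Fr (k + 1) p - Fr (k + 1) q| ≤ 4 * (s k * |Fr k p - Fr k q|) := by
  have h1 : Fr (k + 1) p - Fr (k + 1) q = (Fr k p - Fr k q) * (sgn (ω k) * (sgn (ω k) * Fr k p +
      sgn (ω k) * Fr k q)) := by
    show (Fr k p) ^ 2 - (s k) ^ 2 - ((Fr k q) ^ 2 - (s k) ^ 2) = _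
    linear_combination (-(Fr k p ^ 2 - Fr k q ^ 2)) * sgn_sq (ω k)
  have h2 := hp.lo
  have h3 := hq.lo
  rw [← he] at h3
  have h4 := hp.pred.hi (ω k)
  have h5 := hq.pred.hi (ω k)
  have h6 := s_pos k
  rw [h1, abs_mul, abs_mul, sgn_abs, one_mul,
    abs_of_nonneg (by linarith : 0 ≤ sgn (ω k) * Fr k p + sgn (ω k) * Fr k q)]
  have h7 := abs_nonneg (Fr k p - Fr k q)
  constructor
  · exact mul_le_mul_of_nonneg_left (by linarith) h7
  · calc |Fr k p - Fr k q| * (sgn (ω k) * Fr k p + sgn (ω k) * Fr k q)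
        ≤ |Fr k p - Fr k q| * (4 * s k) := mul_le_mul_of_nonneg_left (by linarith) h7
      _ = _ := by ring

lemma differ {k : ℕ} {ω ω' : ℕ → Bool} {p q : ℝ} (hp : Ch (k + 1) ω p) (hq : Ch (k + 1) ω' q)
    (he : ω k ≠ ω' k) : s k ≤ |Fr k p - Fr k q| := by
  have h2 := hp.lo
  have h3 := hq.lo
  have h4 : sgn (ω' k) = - sgn (ω k) := by
    revert he
    cases ω k <;> cases ω' k <;> simp [sgn]
  rw [h4] at h3
  calc s k ≤ sgn (ω k) * (Fr k p - Fr k q) := by linarith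
    _ ≤ |sgn (ω k) * (Fr k p - Fr k q)| := le_abs_self _
    _ = _ := by rw [abs_mul, sgn_abs, one_mul]

lemma updist {k : ℕ} (j : ℕ) {ω ω' : ℕ → Bool} {p q : ℝ} (hp : Ch (k + j) ω p)
    (hq : Ch (k + j) ω' q) (he : ∀ i, k ≤ i → i < k + j → ω i = ω' i) :
    |Fr k p - Fr k q| * Real.exp (BB k - BB (k + j)) ≤ |Fr (k + j) p - Fr (k + j) q| := by
  induction j with
  | zero => simp
  | succ j ih =>
    have h1 := ih hp.pred hq.pred (fun i h1 h2 => he i h1 (by omega))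
    have h2 := (step hp hq (he (k + j) (by omega) (by omega))).1
    have h3 : BB (k + (j + 1)) = BB (k + j) + ro (k + j) := BB_succ (k + j)
    have h4 : Real.exp (BB k - BB (k + (j + 1))) = Real.exp (BB k - BB (k + j)) * s (k + j) := by
      unfold s
      rw [← Real.exp_add, h3]
      ring_nf
    rw [h4, ← mul_assoc]
    exact (mul_le_mul_of_nonneg_right h1 (s_pos _).le).trans h2

lemma lodist {k : ℕ} (j : ℕ) {ω ω' : ℕ → Bool} {p q : ℝ} (hp : Ch (k + j) ω p)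
    (hq : Ch (k + j) ω' q) (he : ∀ i, k ≤ i → i < k + j → ω i = ω' i) :
    |Fr (k + j) p - Fr (k + j) q| ≤
      4 ^ j * Real.exp (BB k - BB (k + j)) * |Fr k p - Fr k q| := by
  induction j with
  | zero => simp
  | succ j ih =>
    have h1 := ih hp.pred hq.pred (fun i h1 h2 => he i h1 (by omega))
    have h2 := (step hp hq (he (k + j) (by omega) (by omega))).2
    have h3 : BB (k + (j + 1)) = BB (k + j) + ro (k + j) := BB_succ (k + j)
    have h4 : Real.exp (BB k - BB (k + (j + 1))) = Real.exp (BB k - BB (k + j)) * s (k + j) := by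
      unfold s
      rw [← Real.exp_add, h3]
      ring_nf
    have h5 : 4 * (s (k + j) * |Fr (k + j) p - Fr (k + j) q|) ≤ 4 * (s (k + j) *
        (4 ^ j * Real.exp (BB k - BB (k + j)) * |Fr k p - Fr k q|)) := by
      have := mul_le_mul_of_nonneg_left h1 (s_pos (k + j)).le
      linarith
    refine h2.trans (h5.trans (le_of_eq ?_))
    rw [h4]; ring

/-- distance lower bound, in logarithmic form -/
lemma log_lower {k : ℕ} (j : ℕ) {ω ω' : ℕ → Bool} {p q : ℝ} (hp : Ch (k + j + 1) ω p)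
    (hq : Ch (k + j + 1) ω' q) (he : ∀ i, k ≤ i → i < k + j → ω i = ω' i)
    (hd : ω (k + j) ≠ ω' (k + j)) :
    -(8 * (3/2) ^ (k + j)) - BB k - j * Real.log 4 ≤ Real.log |Fr k p - Fr k q| := by
  have h1 := differ hp hq hd
  have h2 := lodist j hp.pred hq.pred he
  have h3 := s_pos (k + j)
  have h4 : 0 < |Fr k p - Fr k q| := by
    by_contra hc
    push Not at hc
    have h5 : |Fr k p - Fr k q| = 0 := le_antisymm hc (abs_nonneg _)
    rw [h5, mul_zero] at h2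
    linarith
  have h5 : s (k + j) ≤ 4 ^ j * Real.exp (BB k - BB (k + j)) * |Fr k p - Fr k q| := h1.trans h2
  have h6 := Real.log_le_log h3 h5
  rw [Real.log_mul (by positivity) h4.ne', Real.log_mul (by positivity) (Real.exp_pos _).ne',
    Real.log_pow, Real.log_exp] at h6
  have h7 : Real.log (s (k + j)) = - ro (k + j) := Real.log_exp _
  have h8 := ro_sub_BB (k + j)
  rw [h7] at h6
  linarith

/-- diameter -/
lemma diam {K : ℕ} {ω ω' : ℕ → Bool} {p q : ℝ} (hp : Ch K ω p)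
    (hq : Ch K ω' q) (he : ∀ i, i < K → ω i = ω' i) :
    |p - q| ≤ 4 * Real.exp (-(8 * (3/2) ^ K)) := by
  have h1 := updist (k := 0) K (by rwa [zero_add]) (by rwa [zero_add])
    (fun i _ h => he i (by omega)) (p := p) (q := q) (ω := ω) (ω' := ω')
  rw [zero_add, BB_zero, zero_sub] at h1
  have h2 : |Fr K p - Fr K q| ≤ 4 * s K := by
    have h3 := abs_le.1 hp.1
    have h4 := abs_le.1 hq.1
    rw [abs_le]
    constructor <;> linarith [h3.1, h3.2, h4.1, h4.2]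
  have h3 : |p - q| * Real.exp (-BB K) ≤ 4 * s K := h1.trans h2
  have h4 : 4 * Real.exp (-(8 * (3/2) ^ K)) = 4 * s K / Real.exp (-BB K) := by
    unfold s
    rw [mul_div_assoc, ← Real.exp_sub]
    congr 2
    have := ro_sub_BB K
    linarith
  rw [h4, le_div_iff₀ (Real.exp_pos _)]
  exact h3

noncomputable def XX : ℕ → ℝ → (ℕ → Bool) → ℝ
  | 0, w, _ => w
  | (k + 1), w, ω => XX k (sgn (ω k) * √((s k) ^ 2 + w)) ω

lemma sq_add_nonneg {k : ℕ} {w : ℝ} (hw : |w| ≤ 2 * s (k + 1)) : 0 ≤ s k ^ 2 + w := by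
  have h1 := abs_le.1 hw
  have h2 := s_succ k
  have h3 := s_pos k
  nlinarith [h1.1]

lemma sgn_sqrt_bd {k : ℕ} {w : ℝ} (hw : |w| ≤ 2 * s (k + 1)) (b : Bool) :
    |sgn b * √((s k) ^ 2 + w)| ≤ 2 * s k := by
  have h1 := abs_le.1 hw
  have h2 := s_succ k
  have h3 := s_pos k
  rw [abs_mul, sgn_abs, one_mul, abs_of_nonneg (Real.sqrt_nonneg _)]
  rw [Real.sqrt_le_left (by positivity)]
  nlinarith [h1.2]

lemma XX_ch (k : ℕ) (ω : ℕ → Bool) : ∀ w, |w| ≤ 2 * s k →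
    Fr k (XX k w ω) = w ∧ Ch k ω (XX k w ω) := by
  induction k with
  | zero =>
    intro w hw
    exact ⟨rfl, hw, fun i hi => absurd hi (by omega)⟩
  | succ k ih =>
    intro w hw
    obtain ⟨h1, h2⟩ := ih _ (sgn_sqrt_bd hw (ω k))
    have h3 : Fr (k + 1) (XX (k + 1) w ω) = w := by
      show Fr k (XX k _ ω) ^ 2 - s k ^ 2 = w
      rw [h1, mul_pow, Real.sq_sqrt (sq_add_nonneg hw), pow_two (sgn _), sgn_sq]
      ring
    refine ⟨h3, by rw [h3]; exact hw, fun i hi => ?_⟩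
    rcases Nat.lt_succ_iff_lt_or_eq.1 hi with h | h
    · exact h2.2 i h
    · subst h
      show 0 ≤ sgn (ω i) * Fr i (XX i _ ω)
      rw [h1, ← mul_assoc, sgn_sq, one_mul]
      exact Real.sqrt_nonneg _

lemma XX_congr (k : ℕ) {ω ω' : ℕ → Bool} (h : ∀ i < k, ω i = ω' i) :
    ∀ w, XX k w ω = XX k w ω' := by
  induction k with
  | zero => intro w; rfl
  | succ k ih =>
    intro w
    show XX k _ ω = XX k _ ω'
    rw [h k (by omega)]
    exact ih (fun i hi => h i (by omega)) _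

/-- complex version -/
noncomputable def Fc : ℕ → ℂ → ℂ
  | 0, x => x
  | (k + 1), x => (Fc k x) ^ 2 - ((s k : ℝ) : ℂ) ^ 2

def bt (m : ℕ) : ℕ → Bool := fun i => Nat.testBit m i

lemma bt_add {k m i : ℕ} (hm : m < 2 ^ k) (hi : i < k) : bt (2 ^ k + m) i = bt m i := by
  unfold bt
  exact Nat.testBit_two_pow_add_gt hi m

lemma bt_k {k m : ℕ} (hm : m < 2 ^ k) : bt m k = false := by
  unfold bt
  exact Nat.testBit_lt_two_pow hm

lemma bt_add_k {k m : ℕ} (hm : m < 2 ^ k) : bt (2 ^ k + m) k = true := by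
  unfold bt
  rw [Nat.testBit_two_pow_add_eq, Nat.testBit_lt_two_pow hm]; rfl

lemma resultant (k : ℕ) (z : ℂ) : ∀ w : ℝ, |w| ≤ 2 * s k →
    ∏ m ∈ range (2 ^ k), (z - ((XX k w (bt m) : ℝ) : ℂ)) = Fc k z - (w : ℂ) := by
  induction k with
  | zero => intro w _; simp [XX, Fc]
  | succ k ih =>
    intro w hw
    have h1 : (2:ℕ) ^ (k + 1) = 2 ^ k + 2 ^ k := by ring
    rw [h1, Finset.prod_range_add]
    have h2 : ∏ m ∈ range (2 ^ k), (z - ((XX (k + 1) w (bt m) : ℝ) : ℂ)) =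
        ∏ m ∈ range (2 ^ k), (z - ((XX k (sgn false * √((s k) ^ 2 + w)) (bt m) : ℝ) : ℂ)) := by
      refine Finset.prod_congr rfl fun m hm => ?_
      show (z - ((XX k (sgn (bt m k) * √((s k) ^ 2 + w)) (bt m) : ℝ) : ℂ)) = _
      rw [bt_k (Finset.mem_range.1 hm)]
    have h3 : ∏ m ∈ range (2 ^ k), (z - ((XX (k + 1) w (bt (2 ^ k + m)) : ℝ) : ℂ)) =
        ∏ m ∈ range (2 ^ k), (z - ((XX k (sgn true * √((s k) ^ 2 + w)) (bt m) : ℝ) : ℂ)) := by
      refine Finset.prod_congr rfl fun m hm => ?_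
      show (z - ((XX k (sgn (bt (2 ^ k + m) k) * √((s k) ^ 2 + w)) (bt (2 ^ k + m)) : ℝ) : ℂ)) = _
      rw [bt_add_k (Finset.mem_range.1 hm),
        XX_congr k (fun i hi => bt_add (Finset.mem_range.1 hm) hi)]
    rw [h2, h3, ih _ (sgn_sqrt_bd hw false), ih _ (sgn_sqrt_bd hw true)]
    have h4 : ((√((s k) ^ 2 + w) : ℝ) : ℂ) ^ 2 = ((s k : ℝ) : ℂ) ^ 2 + (w : ℂ) := by
      rw [← Complex.ofReal_pow, Real.sq_sqrt (sq_add_nonneg hw)]
      push_cast; ring
    show _ = (Fc k z) ^ 2 - ((s k : ℝ) : ℂ) ^ 2 - (w : ℂ)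
    have h5 : sgn false = -1 := by simp [sgn]
    have h6 : sgn true = 1 := by simp [sgn]
    rw [h5, h6]
    push_cast
    linear_combination (-1 : ℂ) * h4

lemma Fc_real (k : ℕ) (x : ℝ) : Fc k (x : ℂ) = ((Fr k x : ℝ) : ℂ) := by
  induction k with
  | zero => rfl
  | succ k ih =>
    show (Fc k (x:ℂ)) ^ 2 - ((s k : ℝ) : ℂ) ^ 2 = (((Fr k x) ^ 2 - (s k) ^ 2 : ℝ) : ℂ)
    rw [ih]; push_cast; ring

lemma exists_pt (ω : ℕ → Bool) : ∃ p : ℝ, ∀ k, Ch k ω p := by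
  have hcl : ∀ k, IsClosed {p | Ch k ω p} := by
    intro k
    have : {p | Ch k ω p} = {p | |Fr k p| ≤ 2 * s k} ∩ ⋂ i, ⋂ (_ : i < k),
        {p | 0 ≤ sgn (ω i) * Fr i p} := by
      ext p; simp [Ch]
    rw [this]
    refine (isClosed_le (Fr_cont k).abs continuous_const).inter ?_
    refine isClosed_iInter fun i => isClosed_iInter fun _ => ?_
    exact isClosed_le continuous_const (continuous_const.mul (Fr_cont i))
  have hne := IsCompact.nonempty_iInter_of_sequence_nonempty_isCompact_isClosed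
    (fun k => {p | Ch k ω p}) (fun k p hp => Ch.pred hp)
    (fun k => ⟨XX k 0 ω, (XX_ch k ω 0 (by rw [abs_zero]; have := s_pos k; positivity)).2⟩)
    (by
      refine IsCompact.of_isClosed_subset (isCompact_Icc (a := -(2 * s 0)) (b := 2 * s 0))
        (hcl 0) fun p hp => ?_
      exact abs_le.1 hp.1) hcl
  obtain ⟨p, hp⟩ := hne
  rw [Set.mem_iInter] at hp
  exact ⟨p, hp⟩

noncomputable def pt (ω : ℕ → Bool) : ℝ := (exists_pt ω).choose

lemma pt_ch (ω : ℕ → Bool) (k : ℕ) : Ch k ω (pt ω) := (exists_pt ω).choose_spec k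

lemma tend_diam : Filter.Tendsto (fun K : ℕ => 4 * Real.exp (-(8 * (3/2:ℝ) ^ K)))
    Filter.atTop (nhds 0) := by
  have h1 : Filter.Tendsto (fun K : ℕ => 8 * (3/2:ℝ) ^ K) Filter.atTop Filter.atTop :=
    (tendsto_pow_atTop_atTop_of_one_lt (by norm_num)).const_mul_atTop (by norm_num)
  have h2 := (Real.tendsto_exp_neg_atTop_nhds_zero.comp h1).const_mul 4
  rw [mul_zero] at h2
  exact h2

lemma pt_cont : Continuous pt := by
  rw [continuous_iff_continuousAt]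
  intro ω
  rw [Metric.continuousAt_iff']
  intro ε hε
  obtain ⟨K, hK⟩ := (tend_diam.eventually (gt_mem_nhds hε)).exists
  have hopen : {ω' : ℕ → Bool | ∀ i < K, ω' i = ω i} ∈ nhds ω := by
    have h1 : {ω' : ℕ → Bool | ∀ i < K, ω' i = ω i} =
        ⋂ i ∈ range K, (fun ω' : ℕ → Bool => ω' i) ⁻¹' {ω i} := by
      ext ω'; simp
    rw [h1]
    refine (Filter.biInter_finset_mem _).2 fun i _ => ?_
    exact (continuous_apply i).continuousAt.preimage_mem_nhds (by simp)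
  filter_upwards [hopen] with ω' hω'
  rw [Real.dist_eq]
  exact lt_of_le_of_lt (diam (pt_ch ω' K) (pt_ch ω K) hω') hK

lemma pt_inj : Function.Injective pt := by
  intro ω ω' h
  funext i
  by_contra hne
  have h1 := differ (pt_ch ω (i + 1)) (pt_ch ω' (i + 1)) hne
  rw [h, sub_self, abs_zero] at h1
  linarith [s_pos i]

lemma pt_dep {k : ℕ} {ω ω' : ℕ → Bool} (h : ∀ i, k ≤ i → ω i = ω' i) :
    Fr k (pt ω) = Fr k (pt ω') := by
  have h1 : ∀ j : ℕ, |Fr k (pt ω) - Fr k (pt ω')| ≤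
      Real.exp (-BB k) * (4 * Real.exp (-(8 * (3/2) ^ (k + j)))) := by
    intro j
    have h2 := updist j (pt_ch ω (k + j)) (pt_ch ω' (k + j)) (fun i h1 _ => h i h1)
    have h3 : |Fr (k + j) (pt ω) - Fr (k + j) (pt ω')| ≤ 4 * s (k + j) := by
      have h3 := abs_le.1 (pt_ch ω (k + j)).1
      have h4 := abs_le.1 (pt_ch ω' (k + j)).1
      rw [abs_le]
      constructor <;> linarith [h3.1, h3.2, h4.1, h4.2]
    have h4 : Real.exp (-BB k) * (4 * Real.exp (-(8 * (3/2) ^ (k + j)))) =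
        4 * s (k + j) / Real.exp (BB k - BB (k + j)) := by
      unfold s
      rw [mul_div_assoc, ← Real.exp_sub, mul_left_comm, ← Real.exp_add]
      congr 2
      have := ro_sub_BB (k + j)
      linarith
    rw [h4, le_div_iff₀ (Real.exp_pos _)]
    exact h2.trans h3
  have h2 : Filter.Tendsto (fun j : ℕ => Real.exp (-BB k) *
      (4 * Real.exp (-(8 * (3/2:ℝ) ^ (k + j))))) Filter.atTop (nhds 0) := by
    have h3 := (tend_diam.comp (Filter.tendsto_add_atTop_nat k)).const_mul (Real.exp (-BB k))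
    rw [mul_zero] at h3
    refine h3.congr fun j => ?_
    simp only [Function.comp]
    rw [add_comm j k]
  have h3 := ge_of_tendsto' h2 h1
  exact sub_eq_zero.1 (abs_eq_zero.1 (le_antisymm h3 (abs_nonneg _)))

end Pool.Agent.H100R3.Wid
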