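import Mathlib
import Pool.Agent.H100R3.WidA

set_option autoImplicit false

open Finset

namespace Pool.Agent.H100R3.Wid

lemma pigeon {n k : ℕ} (hn : 0 < n) (z : Fin n → ℂ) :
    ∃ w : ℝ, |w| ≤ 2 * s k ∧ ∀ i, s k / n ≤ ‖Fc k (z i) - (w:ℂ)‖ := by
  by_contra hcon
  push Not at hcon
  have hs := s_pos k
  have hn' : (0:ℝ) < n := by exact_mod_cast hn
  set W : Fin (n+1) → ℝ := fun l => -s k + 2 * s k * (l:ℕ) / n with hWdef
  have hW : ∀ l, |W l| ≤ 2 * s k := by
    intro l
    have h1 : ((l:ℕ):ℝ) ≤ n := by exact_mod_cast Nat.lt_succ_iff.1 l.2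
    have h2 : 0 ≤ 2 * s k * (l:ℕ) / n := by positivity
    have h3 : 2 * s k * (l:ℕ) / n ≤ 2 * s k := by
      rw [div_le_iff₀ hn']
      exact mul_le_mul_of_nonneg_left h1 (by positivity)
    rw [abs_le]
    constructor <;> simp only [hWdef] <;> linarith
  choose f hf using fun l => hcon (W l) (hW l)
  obtain ⟨l, l', hne, he⟩ := Fintype.exists_ne_map_eq_of_card_lt f (by simp)
  have h1 := hf l
  have h2 := hf l'
  rw [← he] at h2
  have h3 : |W l - W l'| < 2 * (s k / n) := by
    have h4 : ‖((W l - W l' : ℝ) : ℂ)‖ ≤ ‖Fc k (z (f l)) - (W l' : ℂ)‖ +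
        ‖Fc k (z (f l)) - (W l : ℂ)‖ := by
      have : ((W l - W l' : ℝ) : ℂ) = (Fc k (z (f l)) - (W l' : ℂ)) -
          (Fc k (z (f l)) - (W l : ℂ)) := by push_cast; ring
      rw [this]
      exact norm_sub_le _ _
    rw [Complex.norm_real, Real.norm_eq_abs] at h4
    linarith
  have h5 : W l - W l' = 2 * (s k / n) * (((l:ℕ):ℝ) - (l':ℕ)) := by
    simp only [hWdef]; field_simp; ring
  have h6 : (1:ℝ) ≤ |((l:ℕ):ℝ) - (l':ℕ)| := by
    have h7 : ((l:ℕ):ℤ) - ((l':ℕ):ℤ) ≠ 0 := by
      intro h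
      apply hne
      apply Fin.ext
      omega
    have h8 : (1:ℤ) ≤ |((l:ℕ):ℤ) - ((l':ℕ):ℤ)| := Int.one_le_abs h7
    exact_mod_cast h8
  rw [h5, abs_mul, abs_of_pos (by positivity : 0 < 2 * (s k / n))] at h3
  have h9 : 0 < 2 * (s k / n) := by positivity
  nlinarith

lemma sep {k m m' : ℕ} (hm : m < 2 ^ k) (hm' : m' < 2 ^ k) (hne : m ≠ m') {p q : ℝ}
    (hp : Ch k (bt m) p) (hq : Ch k (bt m') q) :
    Real.exp (-(8 * (3/2) ^ (k - 1)) - k * Real.log 4) ≤ |p - q| := by
  have hex : ∃ j, bt m j ≠ bt m' j := by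
    by_contra hc
    push Not at hc
    exact hne (Nat.eq_of_testBit_eq hc)
  classical
  set j := Nat.find hex with hj
  have h1 : bt m j ≠ bt m' j := Nat.find_spec hex
  have h2 : ∀ i < j, bt m i = bt m' i := fun i hi => by
    have := Nat.find_min hex hi
    push Not at this
    exact this
  have hjk : j < k := by
    by_contra hc
    push Not at hc
    apply h1
    have h3 : m < 2 ^ j := lt_of_lt_of_le hm (Nat.pow_le_pow_right (by norm_num) hc)
    have h4 : m' < 2 ^ j := lt_of_lt_of_le hm' (Nat.pow_le_pow_right (by norm_num) hc)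
    rw [bt_k h3, bt_k h4]
  have h3 := log_lower (k := 0) j (p := p) (q := q) (ω := bt m) (ω' := bt m')
    (hp.mono (by omega)) (hq.mono (by omega)) (fun i _ hi => h2 i (by omega))
    (by rw [zero_add]; exact h1)
  rw [BB_zero, zero_add] at h3
  have h0 : |Fr 0 p - Fr 0 q| = |p - q| := rfl
  rw [h0] at h3
  have hpos : 0 < |p - q| := by
    rw [abs_pos, sub_ne_zero]
    intro h
    subst h
    have h4 := differ (hp.mono (show j + 1 ≤ k by omega)) (hq.mono (show j + 1 ≤ k by omega)) h1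
    rw [sub_self, abs_zero] at h4
    linarith [s_pos j]
  rw [← Real.le_log_iff_exp_le hpos]
  refine le_trans ?_ h3
  have h5 : ((3:ℝ)/2) ^ j ≤ (3/2) ^ (k - 1) := pow_le_pow_right₀ (by norm_num) (by omega)
  have h6 : (j:ℝ) ≤ k := by exact_mod_cast hjk.le
  have h7 : 0 < Real.log 4 := Real.log_pos (by norm_num)
  have h8 : (j:ℝ) * Real.log 4 ≤ k * Real.log 4 := mul_le_mul_of_nonneg_right h6 h7.le
  linarith

noncomputable def dk (k : ℕ) : ℝ := 4 * Real.exp (-(8 * (3/2) ^ k))

lemma dk_pos (k : ℕ) : 0 < dk k := by unfold dk; positivity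

lemma log_min_nonpos (x : ℝ) (hx : 0 < x) : Real.log (min 1 x) ≤ 0 :=
  Real.log_nonpos (by positivity) (min_le_left _ _)

theorem poly_lower {n k : ℕ} (hn : 0 < n) (hnk : n < 2 ^ k)
    (hsep : 4 * n * dk k ≤ Real.exp (-(8 * (3/2) ^ (k - 1)) - k * Real.log 4))
    (z : Fin n → ℂ) :
    ∃ m < 2 ^ k, ∀ (ω : ℕ → Bool), (∀ i < k, ω i = bt m i) → ∀ y : ℝ, Ch k ω y →
      (1 / 2) * Real.exp (-(n * (ro k + Real.log n) / (2 ^ k - n))) ≤ ∏ i, ‖(y:ℂ) - z i‖ := by
  obtain ⟨w, hw, hwz⟩ := pigeon (k := k) hn z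
  have hs := s_pos k
  have hn' : (0:ℝ) < n := by exact_mod_cast hn
  have hd := dk_pos k
  set x : ℕ → ℝ := fun m => XX k w (bt m) with hx
  have hch : ∀ m, Ch k (bt m) (x m) := fun m => (XX_ch k (bt m) w hw).2
  have hprod : ∀ i, ∏ m ∈ range (2 ^ k), ‖z i - (x m : ℂ)‖ = ‖Fc k (z i) - (w:ℂ)‖ := by
    intro i
    rw [← norm_prod, resultant k (z i) w hw]
  have hpos : ∀ i, ∀ m ∈ range (2 ^ k), 0 < ‖z i - (x m : ℂ)‖ := by
    intro i m hm
    refine lt_of_le_of_ne (norm_nonneg _) fun h => ?_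
    have h1 := hprod i
    rw [Finset.prod_eq_zero hm h.symm] at h1
    have h2 := hwz i
    rw [← h1] at h2
    have : 0 < s k / n := by positivity
    linarith
  have hx0 : ∀ m, |x m| ≤ 1 / 16 := by
    intro m
    have h1 := ((hch m).mono (Nat.zero_le k)).1
    have h2 := s_le 0
    have h0 : Fr 0 (x m) = x m := rfl
    rw [h0] at h1
    linarith
  -- the capped logarithms
  have hcap : ∀ i, -(ro k + Real.log n) ≤
      ∑ m ∈ range (2 ^ k), Real.log (min 1 ‖z i - (x m : ℂ)‖) := by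
    intro i
    by_cases hz : ‖z i‖ ≤ 3 / 4
    · have h1 : ∑ m ∈ range (2 ^ k), Real.log (min 1 ‖z i - (x m : ℂ)‖) =
          Real.log ‖Fc k (z i) - (w:ℂ)‖ := by
        rw [← hprod i, Real.log_prod (fun m hm => (hpos i m hm).ne')]
        refine Finset.sum_congr rfl fun m _ => ?_
        rw [min_eq_right]
        refine (norm_sub_le _ _).trans ?_
        rw [Complex.norm_real, Real.norm_eq_abs]
        have := hx0 m
        linarith
      rw [h1]
      have h2 : Real.log (s k / n) ≤ Real.log ‖Fc k (z i) - (w:ℂ)‖ :=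
        Real.log_le_log (by positivity) (hwz i)
      rw [Real.log_div hs.ne' hn'.ne'] at h2
      have h3 : Real.log (s k) = - ro k := Real.log_exp _
      rw [h3] at h2
      linarith
    · push Not at hz
      have h1 : ∀ m ∈ range (2 ^ k), -1 ≤ Real.log (min 1 ‖z i - (x m : ℂ)‖) := by
        intro m _
        have h2 : 1 / 2 ≤ min 1 ‖z i - (x m : ℂ)‖ := by
          refine le_min (by norm_num) ?_
          have h3 := norm_sub_norm_le (z i) (x m : ℂ)
          rw [Complex.norm_real, Real.norm_eq_abs] at h3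
          have := hx0 m
          linarith
        have h3 := Real.log_le_log (by norm_num) h2
        have h4 : Real.log (1 / 2) = - Real.log 2 := by rw [one_div, Real.log_inv]
        have h5 := Real.log_two_lt_d9
        rw [h4] at h3
        linarith
      have h2 := Finset.sum_le_sum h1
      rw [Finset.sum_const, Finset.card_range, nsmul_eq_mul] at h2
      have h3 := ro_ge k
      have h4 : 0 ≤ Real.log n := Real.log_nonneg (by exact_mod_cast hn)
      push_cast at h2
      have h5 : (0:ℝ) < 2 ^ k := by positivity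
      linarith
  set Q : ℕ → ℝ := fun m => ∑ i, Real.log (min 1 ‖z i - (x m : ℂ)‖) with hQ
  have hQnp : ∀ m ∈ range (2 ^ k), Q m ≤ 0 := by
    intro m hm
    exact Finset.sum_nonpos fun i _ => log_min_nonpos _ (hpos i m hm)
  have hQsum : -(n * (ro k + Real.log n)) ≤ ∑ m ∈ range (2 ^ k), Q m := by
    simp only [hQ]
    rw [Finset.sum_comm]
    have := Finset.sum_le_sum (s := (Finset.univ : Finset (Fin n))) (fun i _ => hcap i)
    rw [Finset.sum_const, Finset.card_univ, Fintype.card_fin, nsmul_eq_mul] at this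
    linarith
  -- bad set
  classical
  set Bd := (range (2 ^ k)).filter (fun m => ∃ i, ‖z i - (x m : ℂ)‖ < 2 * n * dk k) with hBd
  have hBdc : Bd.card ≤ n := by
    have hch2 : ∀ m, ∃ i : Fin n, m ∈ Bd → ‖z i - (x m : ℂ)‖ < 2 * n * dk k := by
      intro m
      by_cases hm : m ∈ Bd
      · obtain ⟨i, hi⟩ := (Finset.mem_filter.1 hm).2
        exact ⟨i, fun _ => hi⟩
      · exact ⟨⟨0, hn⟩, fun h => absurd h hm⟩
    choose f hf using hch2
    have h1 : Bd.card ≤ (Finset.univ : Finset (Fin n)).card := by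
      refine Finset.card_le_card_of_injOn f (fun _ _ => Finset.mem_coe.2 (Finset.mem_univ _)) ?_
      intro m hm m' hm' he
      by_contra hne
      have h2 := hf m hm
      have h3 := hf m' hm'
      rw [← he] at h3
      have hmr := Finset.mem_range.1 (Finset.mem_filter.1 hm).1
      have hmr' := Finset.mem_range.1 (Finset.mem_filter.1 hm').1
      have h4 := sep hmr hmr' hne (hch m) (hch m')
      have h5 : |x m - x m'| < 4 * n * dk k := by
        have h6 : ‖((x m - x m' : ℝ) : ℂ)‖ ≤ ‖z (f m) - (x m' : ℂ)‖ + ‖z (f m) - (x m : ℂ)‖ := by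
          have : ((x m - x m' : ℝ) : ℂ) = (z (f m) - (x m' : ℂ)) - (z (f m) - (x m : ℂ)) := by
            push_cast; ring
          rw [this]
          exact norm_sub_le _ _
        rw [Complex.norm_real, Real.norm_eq_abs] at h6
        linarith
      linarith
    rwa [Finset.card_univ, Fintype.card_fin] at h1
  set Gd := (range (2 ^ k)).filter (fun m => ¬ ∃ i, ‖z i - (x m : ℂ)‖ < 2 * n * dk k) with hGd
  have hcard : (Bd.card : ℝ) + Gd.card = 2 ^ k := by
    have h1 := Finset.card_filter_add_card_filter_not (s := range (2 ^ k))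
      (fun m => ∃ i, ‖z i - (x m : ℂ)‖ < 2 * n * dk k)
    rw [Finset.card_range] at h1
    have h2 : Bd.card + Gd.card = 2 ^ k := h1
    exact_mod_cast h2
  have hBdc' : (Bd.card : ℝ) ≤ n := by exact_mod_cast hBdc
  have hnk' : (n:ℝ) < 2 ^ k := by exact_mod_cast hnk
  have hB0 : 0 ≤ (n:ℝ) * (ro k + Real.log n) := by
    have h4 : 0 ≤ Real.log n := Real.log_nonneg (by exact_mod_cast hn)
    have := ro_ge8 k
    positivity
  have hgood : ∃ m ∈ Gd, -(n * (ro k + Real.log n) / (2 ^ k - n)) ≤ Q m := by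
    by_contra hc
    push Not at hc
    have hne : Gd.Nonempty := by
      rw [← Finset.card_pos]
      have : (0:ℝ) < Gd.card := by linarith
      exact_mod_cast this
    have h1 := Finset.sum_lt_sum_of_nonempty hne hc
    rw [Finset.sum_const, nsmul_eq_mul] at h1
    have h2 : ∑ m ∈ range (2 ^ k), Q m ≤ ∑ m ∈ Gd, Q m := by
      have h3 := Finset.sum_filter_add_sum_filter_not (range (2 ^ k))
        (fun m => ∃ i, ‖z i - (x m : ℂ)‖ < 2 * n * dk k) Q
      have h4 : ∑ m ∈ Bd, Q m ≤ 0 :=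
        Finset.sum_nonpos fun m hm => hQnp m (Finset.mem_filter.1 hm).1
      linarith
    have h5 : (2:ℝ) ^ k - n ≤ Gd.card := by linarith
    have h6 : (n:ℝ) * (ro k + Real.log n) ≤
        Gd.card * (n * (ro k + Real.log n) / (2 ^ k - n)) := by
      rw [mul_div_assoc', le_div_iff₀ (by linarith)]
      nlinarith
    linarith
  obtain ⟨m, hm, hQm⟩ := hgood
  have hmr := (Finset.mem_filter.1 hm).1
  have hmg := (Finset.mem_filter.1 hm).2
  push Not at hmg
  refine ⟨m, Finset.mem_range.1 hmr, fun ω hω y hy => ?_⟩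
  have hyx : |y - x m| ≤ dk k := diam hy (hch m) hω
  have hfac : ∀ i, (1 - 1 / (2 * n)) * min 1 ‖z i - (x m : ℂ)‖ ≤ ‖(y:ℂ) - z i‖ := by
    intro i
    have h1 := hmg i
    have h2 : ‖z i - (x m : ℂ)‖ ≤ ‖(y:ℂ) - z i‖ + |y - x m| := by
      have h3 : ‖((y - x m : ℝ) : ℂ)‖ = |y - x m| := by
        rw [Complex.norm_real, Real.norm_eq_abs]
      rw [← h3]
      have : z i - (x m : ℂ) = ((y - x m : ℝ) : ℂ) - ((y:ℂ) - z i) := by push_cast; ring
      rw [this, add_comm]
      exact norm_sub_le _ _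
    have h4 : dk k ≤ 1 / (2 * n) * ‖z i - (x m : ℂ)‖ := by
      rw [one_div_mul_eq_div, le_div_iff₀ (by positivity)]
      linarith
    have h5 : (1:ℝ) / (2 * n) ≤ 1 := by
      rw [div_le_one (by positivity)]
      have : (1:ℝ) ≤ n := by exact_mod_cast hn
      linarith
    calc (1 - 1 / (2 * n)) * min 1 ‖z i - (x m : ℂ)‖ ≤ (1 - 1 / (2 * n)) * ‖z i - (x m : ℂ)‖ :=
          mul_le_mul_of_nonneg_left (min_le_right _ _) (by linarith)
      _ ≤ ‖(y:ℂ) - z i‖ := by linarith
  have hn1 : (1:ℝ) / (2 * n) ≤ 1 := by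
    rw [div_le_one (by positivity)]
    have : (1:ℝ) ≤ n := by exact_mod_cast hn
    linarith
  calc (1 / 2) * Real.exp (-(n * (ro k + Real.log n) / (2 ^ k - n)))
      ≤ (1 - 1 / (2 * n)) ^ n * Real.exp (Q m) := by
        refine mul_le_mul ?_ (Real.exp_le_exp.2 hQm) (Real.exp_pos _).le ?_
        · have h1 := one_add_mul_le_pow (a := -(1 / (2 * n) : ℝ)) (by linarith) n
          have h2 : 1 + (n:ℝ) * -(1 / (2 * n)) = 1 / 2 := by field_simp; norm_num
          rw [h2] at h1
          rw [sub_eq_add_neg]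
          exact h1
        · exact pow_nonneg (by linarith) _
    _ = ∏ i : Fin n, ((1 - 1 / (2 * n)) * min 1 ‖z i - (x m : ℂ)‖) := by
        rw [Finset.prod_mul_distrib, Finset.prod_const, Finset.card_univ, Fintype.card_fin]
        congr 1
        simp only [hQ]
        rw [Real.exp_sum]
        refine Finset.prod_congr rfl fun i _ => ?_
        exact Real.exp_log (lt_min one_pos (hpos i m hmr))
    _ ≤ ∏ i, ‖(y:ℂ) - z i‖ := by
        refine Finset.prod_le_prod (fun i _ => ?_) fun i _ => hfac i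
        exact mul_nonneg (by linarith) (le_min (by norm_num) (norm_nonneg _))

end Pool.Agent.H100R3.Wid
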