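import Mathlib
import Pool.Agent.H100R3.WidA

set_option autoImplicit false

open Finset MeasureTheory

namespace Pool.Agent.H100R3.Wid

/-- the compact set -/
def KK : Set ℂ := Set.range fun ω : ℕ → Bool => ((pt ω : ℝ) : ℂ)

noncomputable def FP : ℕ → Polynomial ℂ
  | 0 => Polynomial.X
  | (k + 1) => (FP k) ^ 2 - Polynomial.C (((s k : ℝ) : ℂ) ^ 2)

lemma FP_eval (k : ℕ) (z : ℂ) : (FP k).eval z = Fc k z := by
  induction k with
  | zero => simp [FP, Fc]
  | succ k ih => simp [FP, Fc, ih]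

lemma FP_monic (k : ℕ) : (FP k).Monic ∧ (FP k).natDegree = 2 ^ k := by
  induction k with
  | zero => exact ⟨Polynomial.monic_X, by simp [FP]⟩
  | succ k ih =>
    have h1 : (FP k ^ 2).Monic := ih.1.pow 2
    have h2 : (FP k ^ 2).natDegree = 2 ^ (k + 1) := by
      rw [ih.1.natDegree_pow, ih.2]; ring
    have h3 : (Polynomial.C (((s k : ℝ) : ℂ) ^ 2)).degree < (FP k ^ 2).degree := by
      refine lt_of_le_of_lt Polynomial.degree_C_le ?_
      rw [Polynomial.degree_eq_natDegree h1.ne_zero, h2]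
      exact_mod_cast (by positivity : 0 < 2 ^ (k + 1))
    refine ⟨h1.sub_of_left h3, ?_⟩
    show (FP k ^ 2 - Polynomial.C (((s k : ℝ) : ℂ) ^ 2)).natDegree = 2 ^ (k + 1)
    rw [Polynomial.natDegree_sub_C, h2]

noncomputable def PP : ℕ → ℕ → Polynomial ℂ
  | 0, _ => 1
  | (k + 1), j => if j < 2 ^ k then PP k j else FP k * PP k (j - 2 ^ k)

noncomputable def bb : ℕ → ℕ → ℝ
  | 0, _ => 1
  | (k + 1), j => if j < 2 ^ k then bb k j else (2 * s k) * bb k (j - 2 ^ k)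

lemma PP_monic (k : ℕ) : ∀ j < 2 ^ k, (PP k j).Monic ∧ (PP k j).natDegree = j := by
  induction k with
  | zero =>
    intro j hj
    have : j = 0 := by simpa using hj
    subst this
    simp [PP]
  | succ k ih =>
    intro j hj
    unfold PP
    split_ifs with h
    · exact ih j h
    · have h1 := ih (j - 2 ^ k) (by rw [pow_succ] at hj; omega)
      have h2 := FP_monic k
      refine ⟨h2.1.mul h1.1, ?_⟩
      rw [h2.1.natDegree_mul h1.1, h2.2, h1.2]
      omega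

lemma bb_pos (k : ℕ) : ∀ j, 0 < bb k j := by
  induction k with
  | zero => intro j; simp [bb]
  | succ k ih =>
    intro j
    unfold bb
    split_ifs with h
    · exact ih j
    · exact mul_pos (by have := s_pos k; positivity) (ih _)

lemma PP_bound (k : ℕ) {z : ℂ} (hz : z ∈ KK) : ∀ j, ‖(PP k j).eval z‖ ≤ bb k j := by
  induction k with
  | zero => intro j; simp [PP, bb]
  | succ k ih =>
    intro j
    unfold PP bb
    split_ifs with h
    · exact ih j
    · rw [Polynomial.eval_mul, norm_mul]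
      refine mul_le_mul ?_ (ih _) (norm_nonneg _) (by have := s_pos k; positivity)
      obtain ⟨ω, rfl⟩ := hz
      simp only
      rw [FP_eval, Fc_real, Complex.norm_real, Real.norm_eq_abs]
      exact (pt_ch ω k).1

lemma log_bb (k : ℕ) : ∑ j ∈ range (2 ^ k), Real.log (bb k j) =
    2 ^ k / 2 * (k * Real.log 2 - BB k) := by
  induction k with
  | zero => simp [bb, BB_zero]
  | succ k ih =>
    have h1 : (2:ℕ) ^ (k + 1) = 2 ^ k + 2 ^ k := by ring
    rw [h1, Finset.sum_range_add]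
    have h2 : ∑ j ∈ range (2 ^ k), Real.log (bb (k + 1) j) =
        ∑ j ∈ range (2 ^ k), Real.log (bb k j) := by
      refine Finset.sum_congr rfl fun j hj => ?_
      rw [show bb (k + 1) j = if j < 2 ^ k then bb k j else (2 * s k) * bb k (j - 2 ^ k) from rfl,
        if_pos (Finset.mem_range.1 hj)]
    have h3 : ∑ j ∈ range (2 ^ k), Real.log (bb (k + 1) (2 ^ k + j)) =
        ∑ j ∈ range (2 ^ k), (Real.log 2 - ro k + Real.log (bb k j)) := by
      refine Finset.sum_congr rfl fun j _ => ?_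
      rw [show bb (k + 1) (2 ^ k + j) = if 2 ^ k + j < 2 ^ k then bb k (2 ^ k + j) else
        (2 * s k) * bb k (2 ^ k + j - 2 ^ k) from rfl, if_neg (by omega), Nat.add_sub_cancel_left,
        Real.log_mul (by have := s_pos k; positivity) (bb_pos _ _).ne',
        Real.log_mul (by norm_num) (s_pos k).ne']
      have : Real.log (s k) = - ro k := Real.log_exp _
      rw [this]; ring
    rw [h2, h3, Finset.sum_add_distrib, ih, Finset.sum_const, Finset.card_range, nsmul_eq_mul,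
      BB_succ]
    push_cast
    ring

/-- Vandermonde estimate -/
lemma vander (k : ℕ) (x : Fin (2 ^ k) → ℂ) (hx : ∀ i, x i ∈ KK) (hinj : ∀ i j, i ≠ j → x i ≠ x j) :
    ∑ i : Fin (2 ^ k), ∑ j ∈ Ioi i, Real.log ‖x j - x i‖ ≤
      Real.log ((2 ^ k).factorial) + 2 ^ k / 2 * (k * Real.log 2 - BB k) := by
  have h1 : Real.log ‖(Matrix.vandermonde x).det‖ =
      ∑ i : Fin (2 ^ k), ∑ j ∈ Ioi i, Real.log ‖x j - x i‖ := by
    rw [Matrix.det_vandermonde, norm_prod, Real.log_prod]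
    · refine Finset.sum_congr rfl fun i _ => ?_
      rw [norm_prod, Real.log_prod]
      intro j hj
      rw [norm_ne_zero_iff, sub_ne_zero]
      exact hinj j i (Finset.mem_Ioi.1 hj).ne'
    · intro i _
      rw [norm_ne_zero_iff, Finset.prod_ne_zero_iff]
      intro j hj
      rw [sub_ne_zero]
      exact hinj j i (Finset.mem_Ioi.1 hj).ne'
  have hdet : (Matrix.vandermonde x).det ≠ 0 := by
    rw [Ne, Matrix.det_vandermonde_eq_zero_iff]
    rintro ⟨i, j, he, hne⟩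
    exact hinj i j hne he
  rw [← h1]
  have h2 := Matrix.det_eval_matrixOfPolynomials_eq_det_vandermonde x (fun i => PP k i)
    (fun i => (PP_monic k i i.2).2) (fun i => (PP_monic k i i.2).1)
  have h3 : ‖(Matrix.vandermonde x).det‖ ≤ ((2 ^ k).factorial : ℝ) * ∏ j : Fin (2 ^ k), bb k j := by
    rw [h2, Matrix.det_apply]
    refine (norm_sum_le _ _).trans ?_
    have h4 : ∀ σ ∈ (Finset.univ : Finset (Equiv.Perm (Fin (2 ^ k)))),
        ‖Equiv.Perm.sign σ • ∏ i, (Matrix.of (fun i j => ((PP k (j : Fin (2 ^ k))).eval (x i))))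
          (σ i) i‖ ≤ ∏ j : Fin (2 ^ k), bb k j := by
      intro σ _
      rcases Int.units_eq_one_or (Equiv.Perm.sign σ) with h | h
      · rw [h, one_smul, norm_prod]
        exact Finset.prod_le_prod (fun _ _ => norm_nonneg _) fun i _ => PP_bound k (hx (σ i)) i
      · rw [h, Units.neg_smul, one_smul, norm_neg, norm_prod]
        exact Finset.prod_le_prod (fun _ _ => norm_nonneg _) fun i _ => PP_bound k (hx (σ i)) i
    refine (Finset.sum_le_sum h4).trans ?_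
    rw [Finset.sum_const, Finset.card_univ, Fintype.card_perm, Fintype.card_fin, nsmul_eq_mul]
  have h5 := Real.log_le_log (norm_pos_iff.2 hdet) h3
  have h6 : 0 < ∏ j : Fin (2 ^ k), bb k j := Finset.prod_pos fun j _ => bb_pos k j
  rw [Real.log_mul (by positivity) h6.ne',
    Real.log_prod (fun (j : Fin (2 ^ k)) _ => (bb_pos k (j:ℕ)).ne'),
    Fin.sum_univ_eq_sum_range (fun j => Real.log (bb k j)), log_bb] at h5
  exact h5

lemma diag_null (τ : Measure ℂ) [IsProbabilityMeasure τ] [NullSingletonClass τ] :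
    (τ.prod τ) {p : ℂ × ℂ | p.1 = p.2} = 0 := by
  rw [Measure.measure_prod_null (measurableSet_eq_fun measurable_fst measurable_snd)]
  refine Filter.Eventually.of_forall fun x => ?_
  have : Prod.mk x ⁻¹' {p : ℂ × ℂ | p.1 = p.2} = {x} := by
    ext y; simp [eq_comm]
  show τ (Prod.mk x ⁻¹' {p : ℂ × ℂ | p.1 = p.2}) = 0
  rw [this]
  simp

lemma factorial_log (k : ℕ) : Real.log ((2 ^ k).factorial) ≤ 2 ^ k * (k * Real.log 2) := by
  have h1 : ((2 ^ k).factorial : ℝ) ≤ ((2 ^ k : ℕ) : ℝ) ^ (2 ^ k) := by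
    exact_mod_cast Nat.factorial_le_pow (2 ^ k)
  have h2 := Real.log_le_log (by positivity) h1
  rw [Real.log_pow] at h2
  push_cast at h2
  rw [Real.log_pow] at h2
  exact h2

lemma pairs (m : ℕ) : (∑ i : Fin m, ((Ioi i).card : ℝ)) = m * (m - 1) / 2 := by
  have h1 : ∀ i : Fin m, ((Ioi i).card : ℝ) = ((fun j : ℕ => ((m - 1 - j : ℕ) : ℝ)) (i : ℕ)) := by
    intro i
    rw [Fin.card_Ioi]
  rw [Finset.sum_congr rfl (fun i _ => h1 i),
    Fin.sum_univ_eq_sum_range (fun j : ℕ => ((m - 1 - j : ℕ) : ℝ)),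
    Finset.sum_range_reflect (fun j : ℕ => (j:ℝ)) m]
  induction m with
  | zero => simp
  | succ m ih =>
    have : ∀ i : Fin m, ((Ioi i).card : ℝ) = ((fun j : ℕ => ((m - 1 - j : ℕ) : ℝ)) (i : ℕ)) := by
      intro i
      rw [Fin.card_Ioi]
    rw [Finset.sum_range_succ, ih this]
    push_cast
    ring

theorem energy_fin (τ : Measure ℂ) [IsProbabilityMeasure τ] [NullSingletonClass τ] (hK : τ KKᶜ = 0)
    (hint : Integrable (fun p : ℂ × ℂ => Real.log ‖p.1 - p.2‖) (τ.prod τ)) (k : ℕ) :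
    (2 ^ k * (2 ^ k - 1) / 2) * ∫ p, Real.log ‖p.1 - p.2‖ ∂(τ.prod τ) ≤
      2 ^ k * (k * Real.log 2) + 2 ^ k / 2 * (k * Real.log 2 - BB k) := by
  set Q : Measure (ℕ → ℂ) := Measure.infinitePi (fun _ : ℕ => τ) with hQ
  have hmap : ∀ i j : ℕ, i ≠ j → Q.map (fun ω => (ω i, ω j)) = τ.prod τ := fun i j hij =>
    Measure.infinitePi_map_eval_prod hij
  have hmeas : ∀ i j : ℕ, Measurable (fun ω : ℕ → ℂ => (ω i, ω j)) := fun i j => by fun_prop
  have hlogm : Measurable (fun p : ℂ × ℂ => Real.log ‖p.1 - p.2‖) := by fun_prop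
  -- distinctness
  have hdist : ∀ i j : ℕ, i ≠ j → ∀ᵐ ω ∂Q, ω i ≠ ω j := by
    intro i j hij
    have h1 : ∀ᵐ p ∂(Q.map (fun ω => (ω i, ω j))), p.1 ≠ p.2 := by
      rw [hmap i j hij, ae_iff]
      simp only [ne_eq, not_not]
      exact diag_null τ
    exact ae_of_ae_map (hmeas i j).aemeasurable h1
  have hinK : ∀ i : ℕ, ∀ᵐ ω ∂Q, ω i ∈ KK := by
    intro i
    have h1 : ∀ᵐ p ∂(Q.map (fun ω => ω i)), p ∈ KK := by
      rw [hQ, Measure.infinitePi_map_eval, ae_iff]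
      exact hK
    exact ae_of_ae_map (measurable_pi_apply i).aemeasurable h1
  have hae : ∀ᵐ ω ∂Q, ∑ i : Fin (2 ^ k), ∑ j ∈ Ioi i, Real.log ‖ω j - ω i‖ ≤
      Real.log ((2 ^ k).factorial) + 2 ^ k / 2 * (k * Real.log 2 - BB k) := by
    have h1 : ∀ᵐ ω ∂Q, ∀ i j : ℕ, i ≠ j → ω i ≠ ω j :=
      ae_all_iff.2 fun i => ae_all_iff.2 fun j => ae_all_iff.2 fun h => hdist i j h
    have h2 : ∀ᵐ ω ∂Q, ∀ i : ℕ, ω i ∈ KK := ae_all_iff.2 hinK
    filter_upwards [h1, h2] with ω h3 h4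
    exact vander k (fun i => ω i) (fun i => h4 i) (fun i j hij => h3 i j
      (fun h => hij (Fin.ext h)))
  have hI : ∀ i j : ℕ, i ≠ j → Integrable (fun ω : ℕ → ℂ => Real.log ‖ω i - ω j‖) Q := by
    intro i j hij
    have h1 := hint
    rw [← hmap i j hij] at h1
    exact h1.comp_measurable (hmeas i j)
  have hIv : ∀ i j : ℕ, i ≠ j → ∫ ω, Real.log ‖ω i - ω j‖ ∂Q =
      ∫ p, Real.log ‖p.1 - p.2‖ ∂(τ.prod τ) := by
    intro i j hij
    rw [← hmap i j hij, integral_map (hmeas i j).aemeasurable hlogm.aestronglyMeasurable]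
  have hIs : ∀ i : Fin (2 ^ k), Integrable (fun ω : ℕ → ℂ => ∑ j ∈ Ioi i, Real.log ‖ω j - ω i‖) Q := by
    intro i
    refine integrable_finsetSum _ fun j hj => hI _ _ ?_
    exact (Fin.lt_def.1 (Finset.mem_Ioi.1 hj)).ne'
  have h5 : ∫ ω, ∑ i : Fin (2 ^ k), ∑ j ∈ Ioi i, Real.log ‖ω j - ω i‖ ∂Q =
      (2 ^ k * (2 ^ k - 1) / 2) * ∫ p, Real.log ‖p.1 - p.2‖ ∂(τ.prod τ) := by
    rw [integral_finsetSum _ (fun i _ => hIs i)]
    have h6 : ∀ i : Fin (2 ^ k), ∫ ω, ∑ j ∈ Ioi i, Real.log ‖ω j - ω i‖ ∂Q =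
        ((Ioi i).card : ℝ) * ∫ p, Real.log ‖p.1 - p.2‖ ∂(τ.prod τ) := by
      intro i
      rw [integral_finsetSum _ (fun j hj => hI _ _ (Fin.lt_def.1 (Finset.mem_Ioi.1 hj)).ne')]
      rw [Finset.sum_congr rfl (fun j hj => hIv _ _ (Fin.lt_def.1 (Finset.mem_Ioi.1 hj)).ne'),
        Finset.sum_const, nsmul_eq_mul]
    rw [Finset.sum_congr rfl (fun i _ => h6 i), ← Finset.sum_mul, pairs]
    push_cast
    ring
  rw [← h5]
  have h7 : ∫ ω, ∑ i : Fin (2 ^ k), ∑ j ∈ Ioi i, Real.log ‖ω j - ω i‖ ∂Q ≤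
      ∫ _ω, (Real.log ((2 ^ k).factorial) + 2 ^ k / 2 * (k * Real.log 2 - BB k)) ∂Q := by
    refine integral_mono_ae (integrable_finsetSum _ fun i _ => hIs i) (integrable_const _) hae
  rw [integral_const, probReal_univ, one_smul] at h7
  have := factorial_log k
  linarith

theorem energy_le (τ : Measure ℂ) [IsProbabilityMeasure τ] [NullSingletonClass τ] (hK : τ KKᶜ = 0)
    (hint : Integrable (fun p : ℂ × ℂ => Real.log ‖p.1 - p.2‖) (τ.prod τ)) :
    ∫ p, Real.log ‖p.1 - p.2‖ ∂(τ.prod τ) ≤ -16 := by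
  set I := ∫ p, Real.log ‖p.1 - p.2‖ ∂(τ.prod τ) with hI
  have h1 : ∀ k : ℕ, (1 - (1/2:ℝ) ^ k) * I ≤ 3 * Real.log 2 * (k * (1/2:ℝ) ^ k) - 16 +
      16 * (3/4:ℝ) ^ k := by
    intro k
    have h2 := energy_fin τ hK hint k
    have hp : (0:ℝ) < 2 ^ k := by positivity
    have h3 : (2 ^ k - 1) * I ≤ 3 * Real.log 2 * k - 16 * 2 ^ k + 16 * (3/2) ^ k := by
      have h4 : 2 ^ k / 2 * ((2 ^ k - 1) * I) ≤
          2 ^ k / 2 * (3 * Real.log 2 * k - 16 * 2 ^ k + 16 * (3/2) ^ k) := by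
        have : BB k = 16 * (2 ^ k - (3/2) ^ k) := rfl
        rw [this] at h2
        calc 2 ^ k / 2 * ((2 ^ k - 1) * I) = (2 ^ k * (2 ^ k - 1) / 2) * I := by ring
          _ ≤ _ := h2
          _ = _ := by ring
      exact le_of_mul_le_mul_left h4 (by positivity)
    have h5 : (1 - (1/2:ℝ) ^ k) = (2 ^ k - 1) * (1/2) ^ k := by
      rw [sub_mul, ← mul_pow]; norm_num
    have h6 : (3/4:ℝ) ^ k = (3/2) ^ k * (1/2) ^ k := by rw [← mul_pow]; norm_num
    have h7 : (1:ℝ) = 2 ^ k * (1/2) ^ k := by rw [← mul_pow]; norm_num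
    rw [h5, h6]
    have h8 := mul_le_mul_of_nonneg_right h3 (by positivity : (0:ℝ) ≤ (1/2) ^ k)
    calc (2 ^ k - 1) * (1/2) ^ k * I = (2 ^ k - 1) * I * (1/2) ^ k := by ring
      _ ≤ _ := h8
      _ = 3 * Real.log 2 * (k * (1/2:ℝ) ^ k) - 16 * (2 ^ k * (1/2) ^ k) +
          16 * ((3/2) ^ k * (1/2) ^ k) := by ring
      _ = _ := by rw [← h7]; ring
  have t1 : Filter.Tendsto (fun k : ℕ => (1/2:ℝ) ^ k) Filter.atTop (nhds 0) :=
    tendsto_pow_atTop_nhds_zero_of_lt_one (by norm_num) (by norm_num)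
  have t2 : Filter.Tendsto (fun k : ℕ => (3/4:ℝ) ^ k) Filter.atTop (nhds 0) :=
    tendsto_pow_atTop_nhds_zero_of_lt_one (by norm_num) (by norm_num)
  have t3 : Filter.Tendsto (fun k : ℕ => (k:ℝ) * (1/2:ℝ) ^ k) Filter.atTop (nhds 0) :=
    tendsto_self_mul_const_pow_of_lt_one (by norm_num) (by norm_num)
  have l1 : Filter.Tendsto (fun k : ℕ => (1 - (1/2:ℝ) ^ k) * I) Filter.atTop (nhds ((1 - 0) * I)) :=
    (t1.const_sub 1).mul_const I
  have l2 : Filter.Tendsto (fun k : ℕ => 3 * Real.log 2 * (k * (1/2:ℝ) ^ k) - 16 +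
      16 * (3/4:ℝ) ^ k) Filter.atTop (nhds (3 * Real.log 2 * 0 - 16 + 16 * 0)) :=
    ((t3.const_mul _).sub_const 16).add (t2.const_mul 16)
  have := le_of_tendsto_of_tendsto' l1 l2 h1
  linarith

end Pool.Agent.H100R3.Wid
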