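import Mathlib
import Pool.Agent.H100R3.WidC

set_option autoImplicit false

open Finset MeasureTheory ENNReal

namespace Pool.Agent.H100R3.Wid

noncomputable def b2 : Measure Bool :=
  (2⁻¹ : ℝ≥0∞) • Measure.dirac true + (2⁻¹ : ℝ≥0∞) • Measure.dirac false

noncomputable def b3 : Measure Bool :=
  (3⁻¹ : ℝ≥0∞) • Measure.dirac true + (2 * 3⁻¹ : ℝ≥0∞) • Measure.dirac false

lemma b2_single (b : Bool) : b2 {b} = 2⁻¹ := by
  unfold b2
  cases b <;> simp

lemma three_inv : (3⁻¹ : ℝ≥0∞) + 2 * 3⁻¹ = 1 := by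
  have : (3⁻¹ : ℝ≥0∞) + 2 * 3⁻¹ = 3 * 3⁻¹ := by ring
  rw [this, ENNReal.mul_inv_cancel (by norm_num) (by norm_num)]

instance b2_prob : IsProbabilityMeasure b2 := by
  constructor
  unfold b2
  simp [ENNReal.inv_two_add_inv_two]

instance b3_prob : IsProbabilityMeasure b3 := by
  constructor
  unfold b3
  simp [three_inv]

lemma b3_ge (b : Bool) : 3⁻¹ ≤ b3 {b} := by
  unfold b3
  cases b
  · simp
    calc (3⁻¹ : ℝ≥0∞) = 1 * 3⁻¹ := by rw [one_mul]
      _ ≤ 2 * 3⁻¹ := by gcongr; norm_num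
  · simp

lemma b3_le (b : Bool) : b3 {b} ≤ 2 * 3⁻¹ := by
  unfold b3
  cases b
  · simp
  · simp
    calc (3⁻¹ : ℝ≥0∞) = 1 * 3⁻¹ := by rw [one_mul]
      _ ≤ 2 * 3⁻¹ := by gcongr; norm_num

noncomputable def Pn : Measure (ℕ → Bool) := Measure.infinitePi (fun _ : ℕ => b2)
noncomputable def Pm : Measure (ℕ → Bool) := Measure.infinitePi (fun _ : ℕ => b3)

instance : IsProbabilityMeasure Pn := by unfold Pn; infer_instance
instance : IsProbabilityMeasure Pm := by unfold Pm; infer_instance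

lemma Pn_cyl (I : Finset ℕ) (ω : ℕ → Bool) :
    Pn (Set.pi (I : Set ℕ) (fun i => {ω i})) = (2⁻¹) ^ I.card := by
  unfold Pn
  rw [Measure.infinitePi_pi _ (fun i _ => measurableSet_singleton _)]
  simp only [b2_single, Finset.prod_const]

lemma Pm_cyl_ge (I : Finset ℕ) (ω : ℕ → Bool) :
    (3⁻¹) ^ I.card ≤ Pm (Set.pi (I : Set ℕ) (fun i => {ω i})) := by
  unfold Pm
  rw [Measure.infinitePi_pi _ (fun i _ => measurableSet_singleton _), ← Finset.prod_const]
  exact Finset.prod_le_prod' fun i _ => b3_ge _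

lemma Pm_cyl_le (I : Finset ℕ) (ω : ℕ → Bool) :
    Pm (Set.pi (I : Set ℕ) (fun i => {ω i})) ≤ (2 * 3⁻¹) ^ I.card := by
  unfold Pm
  rw [Measure.infinitePi_pi _ (fun i _ => measurableSet_singleton _), ← Finset.prod_const]
  exact Finset.prod_le_prod' fun i _ => b3_le _

lemma Pn_single (ω : ℕ → Bool) : Pn {ω} = 0 := by
  have h1 : ∀ k : ℕ, Pn {ω} ≤ (2⁻¹ : ℝ≥0∞) ^ k := by
    intro k
    have h2 := Pn_cyl (range k) ω
    rw [Finset.card_range] at h2
    rw [← h2]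
    refine measure_mono ?_
    rintro x rfl i _
    exact rfl
  have h3 : Filter.Tendsto (fun k : ℕ => (2⁻¹ : ℝ≥0∞) ^ k) Filter.atTop (nhds 0) :=
    ENNReal.tendsto_pow_atTop_nhds_zero_of_lt_one (by
      rw [ENNReal.inv_lt_one]; norm_num)
  exact le_antisymm (ge_of_tendsto' h3 h1) bot_le

lemma two_thirds : (2 * 3⁻¹ : ℝ≥0∞) < 1 := by
  rw [← div_eq_mul_inv]
  refine ENNReal.div_lt_of_lt_mul ?_
  rw [one_mul]
  norm_num

lemma Pm_single (ω : ℕ → Bool) : Pm {ω} = 0 := by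
  have h1 : ∀ k : ℕ, Pm {ω} ≤ (2 * 3⁻¹ : ℝ≥0∞) ^ k := by
    intro k
    have h2 := Pm_cyl_le (range k) ω
    rw [Finset.card_range] at h2
    refine le_trans (measure_mono ?_) h2
    rintro x rfl i _
    exact rfl
  have h3 : Filter.Tendsto (fun k : ℕ => (2 * 3⁻¹ : ℝ≥0∞) ^ k) Filter.atTop (nhds 0) :=
    ENNReal.tendsto_pow_atTop_nhds_zero_of_lt_one two_thirds
  exact le_antisymm (ge_of_tendsto' h3 h1) bot_le

/-- agreement sets -/
def Ag (k j : ℕ) : Set ((ℕ → Bool) × (ℕ → Bool)) := {p | ∀ i, k ≤ i → i ≤ k + j → p.1 i = p.2 i}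

lemma Ag_meas (k j : ℕ) : MeasurableSet (Ag k j) := by
  have : Ag k j = ⋂ i : ℕ, ⋂ (_ : k ≤ i), ⋂ (_ : i ≤ k + j),
      {p : (ℕ → Bool) × (ℕ → Bool) | p.1 i = p.2 i} := by
    ext p; simp [Ag]
  rw [this]
  refine MeasurableSet.iInter fun i => MeasurableSet.iInter fun _ => MeasurableSet.iInter fun _ => ?_
  exact measurableSet_eq_fun ((measurable_pi_apply i).comp measurable_fst)
    ((measurable_pi_apply i).comp measurable_snd)

lemma Ag_measure (k j : ℕ) : (Pn.prod Pn) (Ag k j) = (2⁻¹) ^ (j + 1) := by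
  rw [Measure.prod_apply (Ag_meas k j)]
  have h1 : ∀ ω : ℕ → Bool, Pn (Prod.mk ω ⁻¹' Ag k j) = (2⁻¹ : ℝ≥0∞) ^ (j + 1) := by
    intro ω
    have h2 := Pn_cyl (Finset.Icc k (k + j)) ω
    have h3 : (Finset.Icc k (k + j)).card = j + 1 := by
      rw [Nat.card_Icc]; omega
    rw [h3] at h2
    rw [← h2]
    congr 1
    ext ω'
    simp only [Set.mem_preimage, Ag, Set.mem_ofPred_eq, Set.mem_pi, Finset.coe_Icc, Set.mem_Icc,
      Set.mem_singleton_iff, and_imp]
    exact ⟨fun h i h1 h2 => (h i h1 h2).symm, fun h i h1 h2 => (h i h1 h2).symm⟩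
  simp only [h1, lintegral_const, measure_univ, mul_one]

/-- value at level `k` -/
noncomputable def GG (k : ℕ) (ω : ℕ → Bool) : ℝ := Fr k (pt ω)

lemma GG_cont (k : ℕ) : Continuous (GG k) := (Fr_cont k).comp pt_cont

noncomputable def uu (k : ℕ) (p : (ℕ → Bool) × (ℕ → Bool)) : ℝ := Real.log |GG k p.1 - GG k p.2|

lemma uu_meas (k : ℕ) : Measurable (uu k) := by
  unfold uu
  refine Real.measurable_log.comp ?_
  exact ((((GG_cont k).comp continuous_fst).sub ((GG_cont k).comp continuous_snd)).abs).measurable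

noncomputable def cc (k j : ℕ) : ℝ := 4 * (3/2) ^ (k + j) + Real.log 4

lemma cc_nonneg (k j : ℕ) : 0 ≤ cc k j := by
  unfold cc
  have : 0 < Real.log 4 := Real.log_pos (by norm_num)
  positivity

lemma sum_cc (k j : ℕ) : 8 * (3/2:ℝ) ^ k + ∑ i ∈ range j, cc k i =
    8 * (3/2) ^ (k + j) + j * Real.log 4 := by
  induction j with
  | zero => simp
  | succ j ih =>
    rw [Finset.sum_range_succ, ← add_assoc, ih]
    unfold cc
    push_cast
    ring

lemma uu_lower {k : ℕ} {p : (ℕ → Bool) × (ℕ → Bool)} (h : ∃ i, k ≤ i ∧ p.1 i ≠ p.2 i) :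
    ENNReal.ofReal (- uu k p) ≤ ENNReal.ofReal (8 * (3/2) ^ k + BB k) +
      ∑' j, (Ag k j).indicator (fun _ => ENNReal.ofReal (cc k j)) p := by
  classical
  have hex : ∃ j, p.1 (k + j) ≠ p.2 (k + j) := by
    obtain ⟨i, h1, h2⟩ := h
    exact ⟨i - k, by rwa [Nat.add_sub_cancel' h1]⟩
  set N := Nat.find hex with hN
  have h1 : p.1 (k + N) ≠ p.2 (k + N) := Nat.find_spec hex
  have h2 : ∀ i, k ≤ i → i < k + N → p.1 i = p.2 i := by
    intro i hi1 hi2
    have := Nat.find_min hex (m := i - k) (by omega)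
    push Not at this
    rwa [Nat.add_sub_cancel' hi1] at this
  have h3 := log_lower (k := k) N (pt_ch p.1 _) (pt_ch p.2 _) h2 h1
  have h4 : - uu k p ≤ (8 * (3/2) ^ k + BB k) + ∑ i ∈ range N, cc k i := by
    have h5 := sum_cc k N
    have h6 : uu k p = Real.log |Fr k (pt p.1) - Fr k (pt p.2)| := rfl
    rw [h6]
    linarith
  have hB : 0 ≤ BB k := by
    unfold BB
    have := pow_le k
    linarith
  refine (ENNReal.ofReal_le_ofReal h4).trans ?_
  rw [ENNReal.ofReal_add (by positivity) (Finset.sum_nonneg fun i _ => cc_nonneg k i)]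
  refine add_le_add le_rfl ?_
  rw [ENNReal.ofReal_sum_of_nonneg (fun i _ => cc_nonneg k i)]
  refine le_trans (le_of_eq ?_) (ENNReal.sum_le_tsum (range N))
  refine Finset.sum_congr rfl fun j hj => ?_
  rw [Set.indicator_of_mem]
  intro i hi1 hi2
  exact h2 i hi1 (by have := Finset.mem_range.1 hj; omega)

lemma Z_null (k : ℕ) : ∀ᵐ p ∂(Pn.prod Pn), ∃ i, k ≤ i ∧ p.1 i ≠ p.2 i := by
  rw [ae_iff]
  have h1 : ∀ j : ℕ, (Pn.prod Pn) {p | ¬ ∃ i, k ≤ i ∧ p.1 i ≠ p.2 i} ≤ (2⁻¹ : ℝ≥0∞) ^ (j + 1) := by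
    intro j
    rw [← Ag_measure k j]
    refine measure_mono fun p hp i h1 _ => ?_
    by_contra hc
    exact hp ⟨i, h1, hc⟩
  have h3 : Filter.Tendsto (fun k : ℕ => (2⁻¹ : ℝ≥0∞) ^ (k + 1)) Filter.atTop (nhds 0) :=
    (Filter.tendsto_add_atTop_iff_nat 1).2 (ENNReal.tendsto_pow_atTop_nhds_zero_of_lt_one (by
      rw [ENNReal.inv_lt_one]; norm_num))
  exact le_antisymm (ge_of_tendsto' h3 h1) bot_le

lemma tsum_cc (k : ℕ) : ∑' j, ENNReal.ofReal (cc k j) * (2⁻¹) ^ (j + 1) =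
    ENNReal.ofReal (8 * (3/2) ^ k + Real.log 4) := by
  have h1 : ∀ j : ℕ, ENNReal.ofReal (cc k j) * (2⁻¹ : ℝ≥0∞) ^ (j + 1) =
      ENNReal.ofReal (cc k j * (1/2) ^ (j + 1)) := by
    intro j
    rw [ENNReal.ofReal_mul (cc_nonneg k j), ENNReal.ofReal_pow (by norm_num)]
    congr 3
    rw [one_div, ENNReal.ofReal_inv_of_pos (by norm_num)]
    norm_num
  have h2 : HasSum (fun j : ℕ => cc k j * (1/2:ℝ) ^ (j + 1)) (8 * (3/2) ^ k + Real.log 4) := by
    have s1 : HasSum (fun j : ℕ => (3/4:ℝ) ^ j) ((1 - 3/4)⁻¹) :=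
      hasSum_geometric_of_lt_one (by norm_num) (by norm_num)
    have s2 : HasSum (fun j : ℕ => (1/2:ℝ) ^ j) ((1 - 1/2)⁻¹) :=
      hasSum_geometric_of_lt_one (by norm_num) (by norm_num)
    have s3 := (s1.mul_left (2 * (3/2:ℝ) ^ k)).add (s2.mul_left (Real.log 4 / 2))
    have e1 : (2 * (3/2:ℝ) ^ k) * (1 - 3/4)⁻¹ + Real.log 4 / 2 * (1 - 1/2)⁻¹ =
        8 * (3/2) ^ k + Real.log 4 := by norm_num; ring
    rw [e1] at s3
    have e2 : (fun j : ℕ => cc k j * (1/2:ℝ) ^ (j + 1)) =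
        fun j => 2 * (3/2:ℝ) ^ k * (3/4) ^ j + Real.log 4 / 2 * (1/2) ^ j := by
      funext j
      have e3 : (3/4:ℝ) ^ j = (3/2) ^ j * (1/2) ^ j := by rw [← mul_pow]; norm_num
      rw [e3]
      unfold cc
      ring
    rw [e2]
    exact s3
  simp only [h1]
  rw [← ENNReal.ofReal_tsum_of_nonneg (fun j => mul_nonneg (cc_nonneg k j) (by positivity))
    h2.summable, h2.tsum_eq]

lemma lint (k : ℕ) : ∫⁻ p, ENNReal.ofReal (- uu k p) ∂(Pn.prod Pn) ≤
    ENNReal.ofReal (16 * 2 ^ k + Real.log 4) := by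
  have h1 : ∀ᵐ p ∂(Pn.prod Pn), ENNReal.ofReal (- uu k p) ≤
      ENNReal.ofReal (8 * (3/2) ^ k + BB k) +
      ∑' j, (Ag k j).indicator (fun _ => ENNReal.ofReal (cc k j)) p := by
    filter_upwards [Z_null k] with p hp using uu_lower hp
  refine (lintegral_mono_ae h1).trans ?_
  rw [lintegral_add_left measurable_const, lintegral_const, measure_univ, mul_one,
    lintegral_tsum (fun j => (measurable_const.indicator (Ag_meas k j)).aemeasurable)]
  have h2 : ∀ j : ℕ, ∫⁻ p, (Ag k j).indicator (fun _ => ENNReal.ofReal (cc k j)) p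
      ∂(Pn.prod Pn) = ENNReal.ofReal (cc k j) * (2⁻¹) ^ (j + 1) := by
    intro j
    rw [lintegral_indicator_const (Ag_meas k j), Ag_measure]
  simp only [h2]
  have hB : 0 ≤ BB k := by
    unfold BB
    have := pow_le k
    linarith
  have hl : 0 < Real.log 4 := Real.log_pos (by norm_num)
  rw [tsum_cc, ← ENNReal.ofReal_add (by positivity) (by positivity)]
  refine ENNReal.ofReal_le_ofReal (le_of_eq ?_)
  unfold BB
  ring

lemma uu_nonpos (k : ℕ) (p : (ℕ → Bool) × (ℕ → Bool)) : uu k p ≤ 0 := by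
  unfold uu
  refine Real.log_nonpos (abs_nonneg _) ?_
  have h1 := (pt_ch p.1 k).1
  have h2 := (pt_ch p.2 k).1
  have h3 := s_le k
  rw [abs_le] at h1 h2 ⊢
  unfold GG
  constructor <;> linarith [h1.1, h1.2, h2.1, h2.2]

lemma uu_int (k : ℕ) : Integrable (uu k) (Pn.prod Pn) := by
  refine ⟨(uu_meas k).aestronglyMeasurable, ?_⟩
  rw [hasFiniteIntegral_iff_norm]
  have h1 : ∀ p, ‖uu k p‖ = - uu k p := fun p => by
    rw [Real.norm_eq_abs, abs_of_nonpos (uu_nonpos k p)]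
  simp only [h1]
  exact lt_of_le_of_lt (lint k) ENNReal.ofReal_lt_top

lemma D_lower (k : ℕ) : -(16 * 2 ^ k + Real.log 4) ≤ ∫ p, uu k p ∂(Pn.prod Pn) := by
  have h1 : ∫ p, - uu k p ∂(Pn.prod Pn) ≤ 16 * 2 ^ k + Real.log 4 := by
    have hms : AEStronglyMeasurable (fun p => - uu k p) (Pn.prod Pn) :=
      (uu_meas k).neg.aestronglyMeasurable
    rw [integral_eq_lintegral_of_nonneg_ae
      (Filter.Eventually.of_forall fun p => by simpa using uu_nonpos k p) hms]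
    refine ENNReal.toReal_le_of_le_ofReal ?_ (lint k)
    have hl : 0 < Real.log 4 := Real.log_pos (by norm_num)
    positivity
  rw [integral_neg] at h1
  linarith

/-- flipping a digit -/
def fl (k : ℕ) (ω : ℕ → Bool) : ℕ → Bool := fun i => if i = k then !(ω i) else ω i

lemma fl_mp (k : ℕ) : MeasurePreserving (fl k) Pn Pn := by
  have hm : ∀ i : ℕ, Measurable (fun b : Bool => if i = k then !b else b) :=
    fun i => Measurable.of_discrete
  have h1 := Measure.infinitePi_map_pi (fun _ : ℕ => b2) hm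
  have h2 : ∀ i : ℕ, (b2).map (fun b : Bool => if i = k then !b else b) = b2 := by
    intro i
    refine Measure.ext fun s hs => ?_
    rw [Measure.map_apply (hm i) hs]
    by_cases h : i = k
    · simp only [h, if_true]
      unfold b2
      simp only [Measure.add_apply, Measure.smul_apply, Measure.dirac_apply, smul_eq_mul]
      rw [add_comm]
      rfl
    · simp only [h, if_false]
      simp
  refine ⟨?_, ?_⟩
  · refine measurable_pi_iff.2 fun i => ?_
    exact (hm i).comp (measurable_pi_apply i)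
  · have h3 : (fun (x : ℕ → Bool) i => if i = k then !(x i) else x i) = fl k := rfl
    rw [h3] at h1
    unfold Pn
    rw [h1]
    congr 1
    funext i
    exact h2 i

lemma GG_fl (k : ℕ) (ω : ℕ → Bool) : GG k (fl k ω) = - GG k ω ∧ GG (k + 1) (fl k ω) = GG (k + 1) ω := by
  have h1 : GG (k + 1) (fl k ω) = GG (k + 1) ω := by
    refine pt_dep fun i hi => ?_
    unfold fl
    rw [if_neg (by omega)]
  refine ⟨?_, h1⟩
  have h2 : GG k (fl k ω) ^ 2 = GG k ω ^ 2 := by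
    have h3 : GG k (fl k ω) ^ 2 - s k ^ 2 = GG k ω ^ 2 - s k ^ 2 := h1
    linarith
  rcases sq_eq_sq_iff_eq_or_eq_neg.1 h2 with h | h
  · exfalso
    have h3 := (pt_ch ω (k + 1)).lo
    have h4 := (pt_ch (fl k ω) (k + 1)).lo
    have h5 : sgn (fl k ω k) = - sgn (ω k) := by
      unfold fl
      rw [if_pos rfl]
      cases ω k <;> simp [sgn]
    have h6 : Fr k (pt (fl k ω)) = Fr k (pt ω) := h
    rw [h5, h6] at h4
    have := s_pos k
    linarith
  · exact h

lemma GG_agree {k : ℕ} {ω ω' : ℕ → Bool} (h : GG k ω = GG k ω') : ∀ i, k ≤ i → ω i = ω' i := by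
  have h1 : ∀ j, GG (k + j) ω = GG (k + j) ω' := by
    intro j
    induction j with
    | zero => exact h
    | succ j ih =>
      show GG (k + j) ω ^ 2 - s (k + j) ^ 2 = GG (k + j) ω' ^ 2 - s (k + j) ^ 2
      rw [ih]
  intro i hi
  by_contra hne
  have h2 := differ (pt_ch ω (i + 1)) (pt_ch ω' (i + 1)) hne
  have h3 := h1 (i - k)
  rw [Nat.add_sub_cancel' hi] at h3
  have h4 : Fr i (pt ω) = Fr i (pt ω') := h3
  rw [h4, sub_self, abs_zero] at h2
  linarith [s_pos i]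

lemma D_succ (k : ℕ) : ∫ p, uu (k + 1) p ∂(Pn.prod Pn) = 2 * ∫ p, uu k p ∂(Pn.prod Pn) := by
  have hmp : MeasurePreserving (Prod.map id (fl k)) (Pn.prod Pn) (Pn.prod Pn) :=
    (MeasurePreserving.id Pn).prod (fl_mp k)
  have h1 : ∫ p, uu k (Prod.map id (fl k) p) ∂(Pn.prod Pn) = ∫ p, uu k p ∂(Pn.prod Pn) := by
    conv_rhs => rw [← hmp.map_eq]
    rw [integral_map hmp.measurable.aemeasurable (uu_meas k).aestronglyMeasurable]
  have h2 : Integrable (fun p => uu k (Prod.map id (fl k) p)) (Pn.prod Pn) :=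
    hmp.integrable_comp_of_integrable (uu_int k)
  have h3 : ∀ᵐ p ∂(Pn.prod Pn), uu (k + 1) p = uu k p + uu k (Prod.map id (fl k) p) := by
    filter_upwards [Z_null (k + 1)] with p hp
    have hne : GG (k + 1) p.1 - GG (k + 1) p.2 ≠ 0 := by
      intro h
      obtain ⟨i, hi, hne⟩ := hp
      exact hne (GG_agree (sub_eq_zero.1 h) i hi)
    have hmul : GG (k + 1) p.1 - GG (k + 1) p.2 = (GG k p.1 - GG k p.2) * (GG k p.1 + GG k p.2) := by
      show GG k p.1 ^ 2 - s k ^ 2 - (GG k p.2 ^ 2 - s k ^ 2) = _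
      ring
    have hfl : uu k (Prod.map id (fl k) p) = Real.log |GG k p.1 + GG k p.2| := by
      unfold uu
      simp only [Prod.map_fst, Prod.map_snd, id]
      rw [(GG_fl k p.2).1, sub_neg_eq_add]
    rw [hmul] at hne
    have hn1 := left_ne_zero_of_mul hne
    have hn2 := right_ne_zero_of_mul hne
    rw [hfl]
    unfold uu
    rw [hmul, abs_mul, Real.log_mul (abs_ne_zero.2 hn1) (abs_ne_zero.2 hn2)]
  rw [integral_congr_ae h3, integral_add (uu_int k) h2, h1]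
  ring

lemma D_pow (k : ℕ) : ∫ p, uu k p ∂(Pn.prod Pn) = 2 ^ k * ∫ p, uu 0 p ∂(Pn.prod Pn) := by
  induction k with
  | zero => simp
  | succ k ih => rw [D_succ, ih]; ring

lemma D0_ge : -16 ≤ ∫ p, uu 0 p ∂(Pn.prod Pn) := by
  set D := ∫ p, uu 0 p ∂(Pn.prod Pn) with hD
  have h1 : ∀ k : ℕ, -16 - Real.log 4 * (1/2) ^ k ≤ D := by
    intro k
    have h2 := D_lower k
    rw [D_pow k] at h2
    have hp : (0:ℝ) < 2 ^ k := by positivity
    have h3 : (2:ℝ) ^ k * (1/2) ^ k = 1 := by rw [← mul_pow]; norm_num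
    have h4 := mul_le_mul_of_nonneg_right h2 (by positivity : (0:ℝ) ≤ (1/2) ^ k)
    have h5 : 2 ^ k * D * (1/2) ^ k = D * (2 ^ k * (1/2) ^ k) := by ring
    have h6 : -(16 * 2 ^ k + Real.log 4) * (1/2) ^ k =
      -16 * (2 ^ k * (1/2) ^ k) - Real.log 4 * (1/2) ^ k := by ring
    rw [← hD, h5, h6, h3] at h4
    linarith
  have t1 : Filter.Tendsto (fun k : ℕ => (1/2:ℝ) ^ k) Filter.atTop (nhds 0) :=
    tendsto_pow_atTop_nhds_zero_of_lt_one (by norm_num) (by norm_num)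
  have t2 := (t1.const_mul (Real.log 4)).const_sub (-16)
  have := le_of_tendsto' t2 h1
  linarith

end Pool.Agent.H100R3.Wid
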