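import Mathlib
import Pool.Agent.H100R3.WidB
import Pool.Agent.H100R3.WidD

set_option autoImplicit false

open Finset MeasureTheory ENNReal ProbabilityTheory

namespace Pool.Agent.H100R3.Wid

noncomputable def emb (ω : ℕ → Bool) : ℂ := ((pt ω : ℝ) : ℂ)

lemma emb_cont : Continuous emb := Complex.continuous_ofReal.comp pt_cont

lemma emb_inj : Function.Injective emb := fun _ _ h => pt_inj (Complex.ofReal_injective h)

lemma emb_me : MeasurableEmbedding emb :=
  (emb_cont.isClosedEmbedding emb_inj).measurableEmbedding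

noncomputable def nu : Measure ℂ := Pn.map emb
noncomputable def mu : Measure ℂ := Pm.map emb

instance : IsProbabilityMeasure nu := Measure.isProbabilityMeasure_map emb_cont.measurable.aemeasurable
instance : IsProbabilityMeasure mu := Measure.isProbabilityMeasure_map emb_cont.measurable.aemeasurable

lemma KK_eq : KK = Set.range emb := rfl

lemma KK_compact : IsCompact KK := by
  rw [KK_eq]; exact isCompact_range emb_cont

lemma nu_compl : nu KKᶜ = 0 := by
  unfold nu
  rw [emb_me.map_apply, KK_eq, Set.preimage_compl, Set.preimage_range]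
  simp

lemma mu_compl : mu KKᶜ = 0 := by
  unfold mu
  rw [emb_me.map_apply, KK_eq, Set.preimage_compl, Set.preimage_range]
  simp

lemma pre_single (z : ℂ) : emb ⁻¹' {z} = ∅ ∨ ∃ ω, emb ⁻¹' {z} = {ω} := by
  rcases Set.eq_empty_or_nonempty (emb ⁻¹' {z}) with h | ⟨ω, hω⟩
  · exact Or.inl h
  · right
    refine ⟨ω, ?_⟩
    ext ω'
    have hω2 : emb ω = z := hω
    constructor
    · intro h
      have h2 : emb ω' = z := h
      exact emb_inj (h2.trans hω2.symm)
    · rintro rfl
      exact hω

instance nu_na : NullSingletonClass nu := by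
  constructor
  intro z
  unfold nu
  rw [emb_me.map_apply]
  rcases pre_single z with h | ⟨ω, h⟩
  · rw [h]; simp
  · rw [h, Pn_single]

instance mu_na : NullSingletonClass mu := by
  constructor
  intro z
  unfold mu
  rw [emb_me.map_apply]
  rcases pre_single z with h | ⟨ω, h⟩
  · rw [h]; simp
  · rw [h, Pm_single]

lemma mu_open (U : Set ℂ) (hU : IsOpen U) (hne : (U ∩ KK).Nonempty) : 0 < mu U := by
  obtain ⟨z, hzU, ω, rfl⟩ := hne
  unfold mu
  rw [emb_me.map_apply]
  have h1 : IsOpen (emb ⁻¹' U) := hU.preimage emb_cont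
  obtain ⟨I, u, hu1, hu2⟩ := isOpen_pi_iff.1 h1 ω hzU
  refine lt_of_lt_of_le ?_ (measure_mono (show Set.pi (I : Set ℕ) (fun i => {ω i}) ⊆ emb ⁻¹' U from ?_))
  · refine lt_of_lt_of_le ?_ (Pm_cyl_ge I ω)
    refine ENNReal.pow_pos ?_ _
    simp
  · intro x hx
    apply hu2
    intro i hi
    have : x i = ω i := hx i hi
    rw [this]
    exact (hu1 i hi).2

/-- energies -/
lemma nu_prod : nu.prod nu = (Pn.prod Pn).map (Prod.map emb emb) := by
  unfold nu
  rw [Measure.map_prod_map _ _ emb_cont.measurable emb_cont.measurable]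

lemma log_meas : Measurable (fun p : ℂ × ℂ => Real.log ‖p.1 - p.2‖) := by fun_prop

lemma comp_uu : (fun p : ℂ × ℂ => Real.log ‖p.1 - p.2‖) ∘ (Prod.map emb emb) = uu 0 := by
  funext p
  simp only [Function.comp, Prod.map_fst, Prod.map_snd]
  unfold uu emb
  rw [← Complex.ofReal_sub, Complex.norm_real, Real.norm_eq_abs]
  rfl

lemma nu_int : Integrable (fun p : ℂ × ℂ => Real.log ‖p.1 - p.2‖) (nu.prod nu) := by
  rw [nu_prod, integrable_map_measure log_meas.aestronglyMeasurable
    (emb_cont.measurable.prodMap emb_cont.measurable).aemeasurable, comp_uu]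
  exact uu_int 0

lemma nu_energy : ∫ p, Real.log ‖p.1 - p.2‖ ∂(nu.prod nu) = ∫ p, uu 0 p ∂(Pn.prod Pn) := by
  rw [nu_prod, integral_map (emb_cont.measurable.prodMap emb_cont.measurable).aemeasurable
    log_meas.aestronglyMeasurable]
  exact integral_congr_ae (Filter.Eventually.of_forall fun p => congrFun comp_uu p)

/-- law of large numbers -/
lemma slln (b : Measure Bool) [IsProbabilityMeasure b] :
    ∀ᵐ ω ∂(Measure.infinitePi (fun _ : ℕ => b)),
      Filter.Tendsto (fun n : ℕ => (∑ i ∈ range n, (if ω i then (1:ℝ) else 0) : ℝ) / (n:ℝ)) Filter.atTop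
        (nhds (b.real {true})) := by
  set Q := Measure.infinitePi (fun _ : ℕ => b) with hQ
  have hf : Measurable (fun c : Bool => if c then (1:ℝ) else 0) := Measurable.of_discrete
  have hX : ∀ i : ℕ, Measurable (fun ω : ℕ → Bool => if ω i then (1:ℝ) else 0) := fun i =>
    hf.comp (measurable_pi_apply i)
  have hlaw : ∀ i : ℕ, Q.map (fun ω : ℕ → Bool => if ω i then (1:ℝ) else 0) =
      b.map (fun c : Bool => if c then (1:ℝ) else 0) := by
    intro i
    have h1 := Measure.infinitePi_map_eval (fun _ : ℕ => b) i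
    rw [← h1, Measure.map_map hf (measurable_pi_apply i)]
    rfl
  have h := strong_law_ae_real (μ := Q) (fun i ω => if ω i then (1:ℝ) else 0)
    (Integrable.of_bound (hX 0).aestronglyMeasurable 1 (Filter.Eventually.of_forall fun ω => by
      split_ifs <;> simp))
    (fun i j hij => (iIndepFun_infinitePi (P := fun _ : ℕ => b)
      (X := fun _ c => if c then (1:ℝ) else 0) (fun _ => hf)).indepFun hij)
    (fun i => ⟨(hX i).aemeasurable, (hX 0).aemeasurable, by rw [hlaw i, hlaw 0]⟩)
  have hmean : ∫ ω, (if ω 0 then (1:ℝ) else 0) ∂Q = b.real {true} := by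
    have h2 : ∫ ω, (if ω 0 then (1:ℝ) else 0) ∂Q = ∫ c, (if c then (1:ℝ) else 0) ∂b := by
      have h1 := Measure.infinitePi_map_eval (fun _ : ℕ => b) 0
      conv_rhs => rw [← h1]
      rw [integral_map (measurable_pi_apply 0).aemeasurable hf.aestronglyMeasurable]
    rw [h2]
    have h3 : (fun c : Bool => if c then (1:ℝ) else 0) = ({true} : Set Bool).indicator 1 := by
      funext c
      cases c <;> simp
    rw [h3, integral_indicator_one (measurableSet_singleton _)]
  filter_upwards [h] with ω hω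
  rw [hmean] at hω
  exact hω

lemma b2_real : b2.real {true} = 1 / 2 := by
  unfold Measure.real
  rw [b2_single]
  simp

lemma b3_real : b3.real {true} = 1 / 3 := by
  unfold Measure.real b3
  simp

lemma sing : mu.MutuallySingular nu := by
  have h2 := slln b2
  have h3 := slln b3
  rw [b2_real] at h2
  rw [b3_real] at h3
  set s : Set (ℕ → Bool) := {ω | ¬ Filter.Tendsto
    (fun n : ℕ => (∑ i ∈ range n, (if ω i then (1:ℝ) else 0) : ℝ) / (n:ℝ)) Filter.atTop (nhds (1/3))}
  set t : Set (ℕ → Bool) := {ω | ¬ Filter.Tendsto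
    (fun n : ℕ => (∑ i ∈ range n, (if ω i then (1:ℝ) else 0) : ℝ) / (n:ℝ)) Filter.atTop (nhds (1/2))}
  have hs : Pm s = 0 := h3
  have ht : Pn t = 0 := h2
  refine Measure.MutuallySingular.mk (s := emb '' s ∪ KKᶜ) (t := emb '' t) ?_ ?_ ?_
  · refine measure_union_null ?_ mu_compl
    unfold mu
    rw [emb_me.map_apply, Set.preimage_image_eq _ emb_inj, hs]
  · unfold nu
    rw [emb_me.map_apply, Set.preimage_image_eq _ emb_inj, ht]
  · intro z _
    by_cases hz : z ∈ KK
    · obtain ⟨ω, rfl⟩ := hz
      by_cases hω : ω ∈ s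
      · exact Or.inl (Or.inl ⟨ω, hω, rfl⟩)
      · right
        refine ⟨ω, ?_, rfl⟩
        intro h4
        have h5 : Filter.Tendsto
          (fun n : ℕ => (∑ i ∈ range n, (if ω i then (1:ℝ) else 0) : ℝ) / (n:ℝ)) Filter.atTop
            (nhds (1/3)) := not_not.1 hω
        have := tendsto_nhds_unique h4 h5
        norm_num at this
    · exact Or.inl (Or.inr hz)

lemma roots_fin {n : ℕ} (P : Polynomial ℂ) (hP : P.Monic) (hn : P.natDegree = n) :
    ∃ z : Fin n → ℂ, ∀ x, P.eval x = ∏ i, (x - z i) := by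
  have hs : P.Splits := IsAlgClosed.splits P
  have hcard : P.roots.toList.length = n := by
    rw [Multiset.length_toList, ← hn]
    exact (Polynomial.splits_iff_card_roots.1 hs)
  subst hcard
  refine ⟨fun i => P.roots.toList[i.1], fun x => ?_⟩
  rw [hs.eval_eq_prod_roots_of_monic hP x, Fin.prod_univ_fun_getElem P.roots.toList (fun a => x - a),
    ← Multiset.prod_coe, ← Multiset.map_coe, Multiset.coe_toList]

lemma ev_lin {r : ℝ} (hr : 1 < r) (a b : ℝ) : ∀ᶠ l : ℕ in Filter.atTop, a + b * l ≤ r ^ l := by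
  have h0 := (tendsto_pow_const_div_const_pow_of_one_lt 0 hr).const_mul a
  have h1 := (tendsto_pow_const_div_const_pow_of_one_lt 1 hr).const_mul b
  have h2 := h0.add h1
  rw [mul_zero, mul_zero, add_zero] at h2
  filter_upwards [h2.eventually (gt_mem_nhds one_pos)] with l hl
  have hp : 0 < r ^ l := pow_pos (by linarith) l
  have h3 : a * ((l:ℝ) ^ 0 / r ^ l) + b * ((l:ℝ) ^ 1 / r ^ l) = (a + b * l) / r ^ l := by
    field_simp
  rw [h3, div_lt_one hp] at hl
  exact hl.le

end Pool.Agent.H100R3.Wid
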