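import Mathlib
import Pool.Agent.H100R3.WidE

set_option autoImplicit false

open Finset MeasureTheory

namespace Pool.Agent.H100R3.Wid

/-- the numerical conditions -/
structure Num (l : ℕ) : Prop where
  l1 : 1 ≤ l
  a : (l:ℝ) ≤ 4 * (9/4) ^ l
  b : 3 + 4 * (l:ℝ) ≤ (9/4) ^ l
  c : 33 + 2 * (l:ℝ) ≤ (9/8) ^ l

lemma ev_num : ∀ᶠ l : ℕ in Filter.atTop, Num l := by
  filter_upwards [Filter.eventually_ge_atTop 1, ev_lin (r := 9/4) (by norm_num) 0 1,
    ev_lin (r := 9/4) (by norm_num) 3 4, ev_lin (r := 9/8) (by norm_num) 33 2] with l h1 h2 h3 h4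
  refine ⟨h1, ?_, h3, h4⟩
  have : (0:ℝ) < (9/4) ^ l := by positivity
  linarith

lemma log4_le : Real.log 4 ≤ 2 := by
  have h : Real.log 4 = 2 * Real.log 2 := by
    rw [show (4:ℝ) = 2 ^ 2 by norm_num, Real.log_pow]; norm_num
  have := Real.log_two_lt_d9
  rw [h]; linarith

lemma pow_k (l : ℕ) : ((3:ℝ)/2) ^ (2 * l) = (9/4) ^ l := by rw [pow_mul]; norm_num

lemma two_k (l : ℕ) : (2:ℝ) ^ (2 * l) = 2 ^ l * 2 ^ l := by rw [← pow_add]; congr 1; omega

lemma log_n {n l : ℕ} (hn : 0 < n) (hnl : n < 2 ^ l) : Real.log n ≤ l := by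
  have h1 : (n:ℝ) ≤ 2 ^ l := by exact_mod_cast hnl.le
  have h2 := Real.log_le_log (by exact_mod_cast hn) h1
  rw [Real.log_pow] at h2
  have := Real.log_two_lt_d9
  have h3 : (0:ℝ) ≤ l := Nat.cast_nonneg l
  nlinarith

lemma num_sep {n l : ℕ} (hn : 0 < n) (hnl : n < 2 ^ l) (hN : Num l) :
    4 * n * dk (2 * l) ≤ Real.exp (-(8 * (3/2) ^ (2 * l - 1)) - (2 * l : ℕ) * Real.log 4) := by
  have hn' : (0:ℝ) < n := by exact_mod_cast hn
  have h1 : 4 * (n:ℝ) * dk (2 * l) = Real.exp (Real.log (16 * n) - 8 * (3/2) ^ (2 * l)) := by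
    unfold dk
    rw [Real.exp_sub, Real.exp_log (by positivity), Real.exp_neg]
    ring
  rw [h1, Real.exp_le_exp]
  have h2 : ((3:ℝ)/2) ^ (2 * l) = (3/2) ^ (2 * l - 1) * (3/2) := by
    rw [← pow_succ]
    congr 1
    have := hN.l1
    omega
  have h3 : Real.log (16 * n) ≤ 3 + l := by
    rw [Real.log_mul (by norm_num) hn'.ne']
    have h4 := log_n hn hnl
    have h5 : Real.log 16 = 4 * Real.log 2 := by
      rw [show (16:ℝ) = 2 ^ 4 by norm_num, Real.log_pow]; norm_num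
    have := Real.log_two_lt_d9
    linarith
  have h4 := pow_k l
  have h5 := hN.b
  have h6 := log4_le
  have h7 : ((2 * l : ℕ) : ℝ) * Real.log 4 ≤ (2 * l : ℕ) * 2 :=
    mul_le_mul_of_nonneg_left h6 (Nat.cast_nonneg _)
  push_cast at h7 ⊢
  rw [h2] at h4 ⊢
  have h8 : (3/2:ℝ) ^ (2 * l - 1) = (9/4) ^ l * (2/3) := by rw [← h4]; ring
  rw [h8]
  have h9 : (0:ℝ) ≤ l := Nat.cast_nonneg l
  nlinarith

lemma num_main {n l : ℕ} (hn : 0 < n) (hnl : n < 2 ^ l) (hln : 2 ^ l ≤ 2 * n) (hN : Num l) :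
    Real.exp (-(16 * n)) ≤ 3⁻¹ ^ l * ((1/2) *
      Real.exp (-(n * (ro (2 * l) + Real.log n) / (2 ^ (2 * l) - n)))) := by
  have hn' : (0:ℝ) < n := by exact_mod_cast hn
  have hnl' : (n:ℝ) < 2 ^ l := by exact_mod_cast hnl
  have hln' : (2:ℝ) ^ l ≤ 2 * n := by exact_mod_cast hln
  have hl := log_n hn hnl
  have hro : ro (2 * l) = 16 * (2 ^ l * 2 ^ l) - 8 * (9/4) ^ l := by
    unfold ro; rw [two_k, pow_k]; ring
  have hA := hN.a
  have h2l : (2:ℝ) ≤ 2 ^ l := by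
    calc (2:ℝ) = 2 ^ 1 := by norm_num
      _ ≤ 2 ^ l := pow_le_pow_right₀ (by norm_num) hN.l1
  set T : ℝ := 2 ^ l with hT
  set R : ℝ := (9/4) ^ l with hR
  set y : ℝ := 2 * (9/8) ^ l with hy
  have hRy : 2 * R = y * T := by
    rw [hy, hT, mul_assoc, ← mul_pow]; norm_num [hR]
  have hR0 : 0 < R := by positivity
  have hy0 : 0 < y := by positivity
  have hden : (n:ℝ) < T * T := by nlinarith
  have hkey : n * (ro (2 * l) + Real.log n) / (2 ^ (2 * l) - n) ≤ 16 * n + 32 - y := by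
    rw [two_k, ← hT, div_le_iff₀ (by linarith), hro]
    have e1 : (n:ℝ) * (16 * (T * T) - 8 * R + Real.log n) ≤ n * (16 * (T * T) - 4 * R) := by
      apply mul_le_mul_of_nonneg_left _ hn'.le
      linarith
    refine e1.trans ?_
    -- y (T² − n) + 16 n² ≤ 32 (T² − n) + 4 n R
    have e2 : y * (T * T - n) ≤ 4 * n * R := by
      have : y * (T * T - n) ≤ y * (T * T) := by nlinarith
      have h3 : y * (T * T) = 2 * R * T := by rw [hRy]; ring
      have h4 : 2 * R * T ≤ 2 * R * (2 * n) := by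
        apply mul_le_mul_of_nonneg_left hln' (by positivity)
      linarith
    have e3 : 16 * ((n:ℝ) * n) ≤ 32 * (T * T - n) := by
      have h3 : (n:ℝ) * n ≤ T * T := by nlinarith
      have h4 : 2 * (n:ℝ) ≤ T * T := by nlinarith
      linarith
    nlinarith
  have h3 : (3⁻¹:ℝ) ^ l = Real.exp (-(l * Real.log 3)) := by
    rw [Real.exp_neg, mul_comm, Real.exp_mul, Real.exp_log (by norm_num), Real.rpow_natCast,
      inv_pow]
  have h4 : (1/2:ℝ) = Real.exp (-Real.log 2) := by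
    rw [Real.exp_neg, Real.exp_log (by norm_num)]; norm_num
  rw [h3, h4, ← Real.exp_add, ← Real.exp_add, Real.exp_le_exp]
  have h5 := Real.log_two_lt_d9
  have h6 : Real.log 3 ≤ 2 := by
    have := Real.log_le_log (by norm_num : (0:ℝ) < 3) (by norm_num : (3:ℝ) ≤ 4)
    linarith [log4_le]
  have h7 : (l:ℝ) * Real.log 3 ≤ l * 2 := mul_le_mul_of_nonneg_left h6 (Nat.cast_nonneg _)
  have hc := hN.c
  have h8 : 2 * (33 + 2 * (l:ℝ)) ≤ y := by rw [hy]; linarith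
  have h9 : (0:ℝ) ≤ l := Nat.cast_nonneg l
  linarith

lemma norm_lower {n l : ℕ} (hn : 0 < n) (hnl : n < 2 ^ l) (hln : 2 ^ l ≤ 2 * n) (hN : Num l)
    (P : Polynomial ℂ) (hP : P.Monic) (hdeg : P.natDegree = n) :
    Real.exp (-(16 * n)) ≤ Real.sqrt (∫ z, ‖P.eval z‖ ^ 2 ∂mu) := by
  refine (num_main hn hnl hln hN).trans ?_
  obtain ⟨z, hz⟩ := roots_fin P hP hdeg
  have hnk : n < 2 ^ (2 * l) := lt_of_lt_of_le hnl (Nat.pow_le_pow_right (by norm_num) (by omega))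
  obtain ⟨m, _, hm⟩ := poly_lower hn hnk (num_sep hn hnl hN) z
  set B : ℝ := (1/2) * Real.exp (-(n * (ro (2 * l) + Real.log n) / (2 ^ (2 * l) - n))) with hB
  have hB0 : 0 < B := by positivity
  set Cy : Set (ℕ → Bool) := Set.pi (range (2 * l) : Finset ℕ) (fun i => {bt m i}) with hCy
  have hCm : MeasurableSet Cy := MeasurableSet.pi (Finset.countable_toSet _)
    (fun i _ => measurableSet_singleton _)
  have hlow : ∀ ω ∈ Cy, B ≤ ‖P.eval (emb ω)‖ := by
    intro ω hω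
    rw [hz, norm_prod]
    exact hm ω (fun i hi => hω i (by simpa using hi)) (pt ω) (pt_ch ω _)
  apply Real.le_sqrt_of_sq_le
  have hcont : Continuous fun ω => ‖P.eval (emb ω)‖ ^ 2 :=
    ((P.continuous.comp emb_cont).norm).pow 2
  have h1 : ∫ z, ‖P.eval z‖ ^ 2 ∂mu = ∫ ω, ‖P.eval (emb ω)‖ ^ 2 ∂Pm := by
    unfold mu
    rw [emb_me.integral_map]
  have hint : Integrable (fun ω => ‖P.eval (emb ω)‖ ^ 2) Pm := by
    obtain ⟨C, hC⟩ := (isCompact_range hcont).isBounded.exists_norm_le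
    refine Integrable.of_bound hcont.measurable.aestronglyMeasurable C ?_
    exact Filter.Eventually.of_forall fun ω => hC _ ⟨ω, rfl⟩
  rw [h1]
  have h2 : ∫ ω, Cy.indicator (fun _ => B ^ 2) ω ∂Pm ≤ ∫ ω, ‖P.eval (emb ω)‖ ^ 2 ∂Pm := by
    refine integral_mono ((integrable_const _).indicator hCm) hint fun ω => ?_
    by_cases hω : ω ∈ Cy
    · rw [Set.indicator_of_mem hω]
      exact pow_le_pow_left₀ hB0.le (hlow ω hω) 2
    · rw [Set.indicator_of_notMem hω]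
      positivity
  refine le_trans ?_ h2
  rw [integral_indicator_const _ hCm, smul_eq_mul, mul_pow]
  refine mul_le_mul_of_nonneg_right ?_ (by positivity)
  have h3 := Pm_cyl_ge (range (2 * l)) (bt m)
  rw [Finset.card_range] at h3
  have h4 := ENNReal.toReal_mono (measure_ne_top Pm _) h3
  unfold Measure.real
  refine le_trans (le_of_eq ?_) h4
  rw [ENNReal.toReal_pow, ENNReal.toReal_inv, ← pow_mul, mul_comm l 2]
  norm_num

theorem widom : ∀ᶠ n : ℕ in Filter.atTop,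
    (1:ℝ) ≤ (⨅ P : {P : Polynomial ℂ // P.Monic ∧ P.natDegree = n},
            Real.sqrt (∫ z, ‖P.1.eval z‖ ^ 2 ∂mu)) /
          Real.exp (∫ p, Real.log ‖p.1 - p.2‖ ∂(nu.prod nu)) ^ n := by
  obtain ⟨l0, hl0⟩ := Filter.eventually_atTop.1 ev_num
  filter_upwards [Filter.eventually_ge_atTop (2 ^ l0)] with n hn
  have hn0 : 0 < n := lt_of_lt_of_le (by positivity) hn
  set l := Nat.log 2 n + 1 with hl
  have hl1 : l0 ≤ Nat.log 2 n := Nat.le_log_of_pow_le (by norm_num) hn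
  have hN := hl0 l (by omega)
  have hnl : n < 2 ^ l := Nat.lt_pow_succ_log_self (by norm_num) n
  have hln : 2 ^ l ≤ 2 * n := by
    rw [hl, pow_succ, mul_comm]
    exact Nat.mul_le_mul_left 2 (Nat.pow_log_le_self 2 hn0.ne')
  rw [le_div_iff₀ (by positivity), one_mul]
  haveI : Nonempty {P : Polynomial ℂ // P.Monic ∧ P.natDegree = n} :=
    ⟨⟨Polynomial.X ^ n, Polynomial.monic_X_pow n, Polynomial.natDegree_X_pow n⟩⟩
  refine le_ciInf fun P => ?_
  refine le_trans ?_ (norm_lower hn0 hnl hln hN P.1 P.2.1 P.2.2)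
  rw [← Real.exp_nat_mul, Real.exp_le_exp]
  have h1 := energy_le nu nu_compl nu_int
  have h2 : (n:ℝ) * ∫ p, Real.log ‖p.1 - p.2‖ ∂(nu.prod nu) ≤ n * (-16) :=
    mul_le_mul_of_nonneg_left h1 (Nat.cast_nonneg n)
  linarith

end Pool.Agent.H100R3.Wid
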